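import Pool.Agent.Helper25.KW.Def

set_option autoImplicit false

/-!
# The world with second ties, `q < p + l`
-/

namespace Helper25.KW

open Helper55.KE

/-- the world for `q < p + l`; `E = s`, `q ρ = t a`; first ties: `R_n` and `L_(n-l)` (class shift
`-c`), second ties: `R_n` and `L_(n+q-l)` (class shift `t a - c`) -/
structure World2 (p a b c J ds l q E t : ℤ) (D dl : ℝ) (Cl : ℤ → ℤ → ℤ → ℤ → ℝ → Prop) : Prop
    extends Base p a b c J ds l q D dl Cl where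
  hq : q < p + l
  ht : t = 1 ∨ t = -1
  cq : Cl q 0 (-ds * E) (t * a) E
  hE : D < E
  hE' : (E : ℝ) < D + J
  /-- right side of `n`, `p + l - q < n < l` (not merged) -/
  ruleUR : ∀ {N τ X R N' τ' X' R' : ℤ} {I I' : ℝ}, Cl N τ X R I → Cl N' τ' X' R' I' →
    |τ| ≤ 1 → |τ'| ≤ 1 → (τ' = τ + 2 → N' ≠ N + l ∧ N' + q ≠ N + l) →
    (τ = τ' + 2 → N ≠ N' + l ∧ N + q ≠ N' + l) →
    p + l < N + q → N < l → 0 < N' → N' < p → N' ≠ N →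
    FR p a b dl (hu p a R) (hu p a R) (X + ds * I) (X' + ds * I' + R') R' (-1) ∧
    FR p a b dl (hu p a R) (hu p a R) (X + ds * I) (X' + ds * I' + R' + a) (R' + a) 1
  /-- right side of `n > l`, first tie -/
  ruleMR : ∀ {N τ X R N' τ' X' R' : ℤ} {I I' : ℝ}, Cl N τ X R I → Cl N' τ' X' R' I' →
    |τ| ≤ 1 → |τ'| ≤ 1 → (τ' = τ + 2 → N' ≠ N + l ∧ N' + q ≠ N + l) →
    (τ = τ' + 2 → N ≠ N' + l ∧ N + q ≠ N' + l) → l < N → N < p → 0 < N' → N' < p →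
    N' ≠ N → N' + l ≠ N →
    FR p a b dl (hh p a (-c) R) (hh p a (-c) R) (X + ds * I) (X' + ds * I' + R') R' (-1) ∧
    FR p a b dl (hh p a (-c) R) (hh p a (-c) R) (X + ds * I) (X' + ds * I' + R' + a) (R' + a) 1
  /-- right side of `n < p + l - q`, second tie -/
  ruleM2R : ∀ {N τ X R N' τ' X' R' : ℤ} {I I' : ℝ}, Cl N τ X R I → Cl N' τ' X' R' I' →
    |τ| ≤ 1 → |τ'| ≤ 1 → (τ' = τ + 2 → N' ≠ N + l ∧ N' + q ≠ N + l) →
    (τ = τ' + 2 → N ≠ N' + l ∧ N + q ≠ N' + l) → 0 < N → N + q < p + l → 0 < N' → N' < p →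
    N' ≠ N → N' + l ≠ N + q →
    FR p a b dl (hh p a (t * a - c) R) (hh p a (t * a - c) R) (X + ds * I)
      (X' + ds * I' + R') R' (-1) ∧
    FR p a b dl (hh p a (t * a - c) R) (hh p a (t * a - c) R) (X + ds * I)
      (X' + ds * I' + R' + a) (R' + a) 1
  /-- right side of `l`, merged with the left side of `0` in the first window -/
  ruleLR : ∀ {N' τ' X' R' : ℤ} {I' : ℝ}, Cl N' τ' X' R' I' →
    |τ'| ≤ 1 → 0 < N' → N' < p → N' ≠ l →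
    FLR p a b dl (hh p a (-c) (c + b)) (hu p a (c + b)) (-b) (X' + ds * I' + R') R' (-1) ∧
    FLR p a b dl (hh p a (-c) (c + b)) (hu p a (c + b)) (-b) (X' + ds * I' + R' + a) (R' + a) 1
  /-- right side of `p + l - q` (row `c + b - t a`), merged with the left side of `p` in the second
  window -/
  ruleL2R : ∀ {N' τ' X' R' : ℤ} {I' : ℝ}, Cl N' τ' X' R' I' →
    |τ'| ≤ 1 → 0 < N' → N' < p → N' + q ≠ p + l →
    FLR p a b dl (hu p a (c + b - t * a)) (hh p a (t * a - c) (c + b - t * a)) (dl - b)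
      (X' + ds * I' + R') R' (-1) ∧
    FLR p a b dl (hu p a (c + b - t * a)) (hh p a (t * a - c) (c + b - t * a)) (dl - b)
      (X' + ds * I' + R' + a) (R' + a) 1
  /-- tests -/
  testU : ∀ {N τ X R : ℤ} {I : ℝ}, Cl N τ X R I → |τ| ≤ 1 → p + l < N + q → N < l →
    FS p a b dl (hu p a R) (hu p a R) (X + ds * I)
  testM : ∀ {N τ X R : ℤ} {I : ℝ}, Cl N τ X R I → |τ| ≤ 1 → l < N → N < p →
    FS p a b dl (hh p a (-c) R) (hh p a (-c) R) (X + ds * I)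
  testM2 : ∀ {N τ X R : ℤ} {I : ℝ}, Cl N τ X R I → |τ| ≤ 1 → 0 < N → N + q < p + l →
    FS p a b dl (hh p a (t * a - c) R) (hh p a (t * a - c) R) (X + ds * I)
  testL : FSL p a b dl (hh p a (-c) (c + b)) (hu p a (c + b)) (-b)
  /-- jump two rule for `n ≥ l` -/
  ruleJ : ∀ {N τ X R N' τ' X' R' : ℤ} {I I' : ℝ}, Cl N τ X R I → Cl N' τ' X' R' I' →
    |τ| ≤ 1 → |τ'| ≤ 1 → (τ' = τ + 2 → N' ≠ N + l ∧ N' + q ≠ N + l) →
    (τ = τ' + 2 → N ≠ N' + l ∧ N + q ≠ N' + l) → l ≤ N → N < p → 0 ≤ N' → N' < p →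
    N' ≠ N → N' + l ≠ N →
    JE p b (hh p a (-c) R) (X' + ds * I' + R' - (X + ds * I)) R' ∧
    JE p b (hh p a (-c) R) (X' + ds * I' + R' + a - (X + ds * I)) (R' + a)
  /-- jump two rule for `n < p + l - q` (also `n = 0`) -/
  ruleJ2 : ∀ {N τ X R N' τ' X' R' : ℤ} {I I' : ℝ}, Cl N τ X R I → Cl N' τ' X' R' I' →
    |τ| ≤ 1 → |τ'| ≤ 1 → (τ' = τ + 2 → N' ≠ N + l ∧ N' + q ≠ N + l) →
    (τ = τ' + 2 → N ≠ N' + l ∧ N + q ≠ N' + l) → 0 ≤ N → N + q < p + l → 0 ≤ N' → N' < p →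
    N' ≠ N → N' + l ≠ N + q →
    JE p b (hh p a (t * a - c) R) (X' + ds * I' + R' - (X + ds * I)) R' ∧
    JE p b (hh p a (t * a - c) R) (X' + ds * I' + R' + a - (X + ds * I)) (R' + a)

section

variable {p a b c J ds l q E t : ℤ} {D dl : ℝ} {Cl : ℤ → ℤ → ℤ → ℤ → ℝ → Prop}

theorem World2.ruleU (W : World2 p a b c J ds l q E t D dl Cl) {N τ X R N' τ' X' R' : ℤ}
    {I I' : ℝ}
    (hC : Cl N τ X R I) (hC' : Cl N' τ' X' R' I') (h1 : |τ| ≤ 1) (h2 : |τ'| ≤ 1)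
    (h3 : τ' = τ + 2 → N' ≠ N + l ∧ N' + q ≠ N + l)
    (h3' : τ = τ' + 2 → N ≠ N' + l ∧ N + q ≠ N' + l) (h4 : p + l < N + q) (h5 : N < l)
    (h6 : 0 < N') (h7 : N' < p)
    (h8 : N' ≠ N) :
    FE p a b dl (hu p a R) (hu p a R) (X + ds * I) (X' + ds * I' + R') R' ∧
    FE p a b dl (hu p a R) (hu p a R) (X + ds * I) (X' + ds * I' + R' + a) (R' + a) := by
  obtain ⟨g1, g2⟩ := W.ruleUR hC hC' h1 h2 h3 h3' h4 h5 h6 h7 h8
  exact ⟨g1.fe (Or.inr rfl), g2.fe (Or.inl rfl)⟩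

theorem World2.ruleM (W : World2 p a b c J ds l q E t D dl Cl) {N τ X R N' τ' X' R' : ℤ}
    {I I' : ℝ}
    (hC : Cl N τ X R I) (hC' : Cl N' τ' X' R' I') (h1 : |τ| ≤ 1) (h2 : |τ'| ≤ 1)
    (h3 : τ' = τ + 2 → N' ≠ N + l ∧ N' + q ≠ N + l)
    (h3' : τ = τ' + 2 → N ≠ N' + l ∧ N + q ≠ N' + l) (h4 : l < N) (h5 : N < p)
    (h6 : 0 < N') (h7 : N' < p) (h8 : N' ≠ N) (h9 : N' + l ≠ N) :
    FE p a b dl (hh p a (-c) R) (hh p a (-c) R) (X + ds * I) (X' + ds * I' + R') R' ∧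
    FE p a b dl (hh p a (-c) R) (hh p a (-c) R) (X + ds * I) (X' + ds * I' + R' + a)
      (R' + a) := by
  obtain ⟨g1, g2⟩ := W.ruleMR hC hC' h1 h2 h3 h3' h4 h5 h6 h7 h8 h9
  exact ⟨g1.fe (Or.inr rfl), g2.fe (Or.inl rfl)⟩

theorem World2.ruleM2 (W : World2 p a b c J ds l q E t D dl Cl) {N τ X R N' τ' X' R' : ℤ}
    {I I' : ℝ}
    (hC : Cl N τ X R I) (hC' : Cl N' τ' X' R' I') (h1 : |τ| ≤ 1) (h2 : |τ'| ≤ 1)
    (h3 : τ' = τ + 2 → N' ≠ N + l ∧ N' + q ≠ N + l)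
    (h3' : τ = τ' + 2 → N ≠ N' + l ∧ N + q ≠ N' + l) (h4 : 0 < N) (h5 : N + q < p + l)
    (h6 : 0 < N') (h7 : N' < p) (h8 : N' ≠ N) (h9 : N' + l ≠ N + q) :
    FE p a b dl (hh p a (t * a - c) R) (hh p a (t * a - c) R) (X + ds * I)
      (X' + ds * I' + R') R' ∧
    FE p a b dl (hh p a (t * a - c) R) (hh p a (t * a - c) R) (X + ds * I)
      (X' + ds * I' + R' + a) (R' + a) := by
  obtain ⟨g1, g2⟩ := W.ruleM2R hC hC' h1 h2 h3 h3' h4 h5 h6 h7 h8 h9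
  exact ⟨g1.fe (Or.inr rfl), g2.fe (Or.inl rfl)⟩

theorem World2.ruleL (W : World2 p a b c J ds l q E t D dl Cl) {N' τ' X' R' : ℤ} {I' : ℝ}
    (hC' : Cl N' τ' X' R' I') (h2 : |τ'| ≤ 1) (h6 : 0 < N') (h7 : N' < p) (h8 : N' ≠ l) :
    FL p a b dl (hh p a (-c) (c + b)) (hu p a (c + b)) (-b) (X' + ds * I' + R') R' ∧
    FL p a b dl (hh p a (-c) (c + b)) (hu p a (c + b)) (-b) (X' + ds * I' + R' + a) (R' + a) ∧
    JE p b (hh p a (-c) (c + b)) (X' + ds * I' + R' + b) R' ∧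
    JE p b (hh p a (-c) (c + b)) (X' + ds * I' + R' + a + b) (R' + a) := by
  obtain ⟨g1, g2⟩ := W.ruleLR hC' h2 h6 h7 h8
  have j1 := g1.je (Or.inr rfl)
  have j2 := g2.je (Or.inl rfl)
  rw [sub_neg_eq_add] at j1 j2
  exact ⟨g1.fe (Or.inr rfl), g2.fe (Or.inl rfl), j1, j2⟩

theorem World2.ruleL2 (W : World2 p a b c J ds l q E t D dl Cl) {N' τ' X' R' : ℤ} {I' : ℝ}
    (hC' : Cl N' τ' X' R' I') (h2 : |τ'| ≤ 1) (h6 : 0 < N') (h7 : N' < p)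
    (h8 : N' + q ≠ p + l) :
    FL p a b dl (hu p a (c + b - t * a)) (hh p a (t * a - c) (c + b - t * a)) (dl - b)
      (X' + ds * I' + R') R' ∧
    FL p a b dl (hu p a (c + b - t * a)) (hh p a (t * a - c) (c + b - t * a)) (dl - b)
      (X' + ds * I' + R' + a) (R' + a) ∧
    JE p b (hh p a (t * a - c) (c + b - t * a)) (X' + ds * I' + R' - (dl - b)) R' ∧
    JE p b (hh p a (t * a - c) (c + b - t * a)) (X' + ds * I' + R' + a - (dl - b)) (R' + a) := by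
  obtain ⟨g1, g2⟩ := W.ruleL2R hC' h2 h6 h7 h8
  exact ⟨g1.fe (Or.inr rfl), g2.fe (Or.inl rfl), g1.je' (Or.inr rfl), g2.je' (Or.inl rfl)⟩

end

end Helper25.KW
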