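import Pool.Agent.Helper25.KW.K3
import Pool.Agent.Helper12.TL.TLem

set_option autoImplicit false
set_option linter.unusedSectionVars false

/-!
# The class worlds of `S2`
-/

namespace Helper25.KW

open Helper11.N1 Helper55.KE

/-- facts on the extremal cluster of `S2` -/
structure KFac (p a b l ds : ℤ) (D : ℝ) (Cl : ℤ → ℤ → ℤ → ℤ → ℝ → Prop) (N X R : ℤ) (I : ℝ) :
    Prop extends KP p a b l ds Cl N X R I where
  I0 : 0 < I
  ID : I < D
  R0 : R ≠ 0
  d1 : D < b + ds * (X + ds * I)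
  d2 : D < a + ds * (X + ds * I + R)

/-- facts on the cluster `u` (integer part `b`) -/
structure UFac (p b : ℤ) (D : ℝ) (Cl : ℤ → ℤ → ℤ → ℤ → ℝ → Prop) (N R : ℤ) (I : ℝ) :
    Prop where
  cl : Cl N 0 b R I
  N0 : 0 < N
  Np : N < p
  I0 : 0 < I
  ID : I < D
  R1 : -p < 2 * R
  R2 : 2 * R < p

/-- facts on the cluster `v` (`X = 0`, `2 N < p`) -/
structure VFac (p : ℤ) (D : ℝ) (Cl : ℤ → ℤ → ℤ → ℤ → ℝ → Prop) (N R : ℤ) (I : ℝ) :
    Prop where
  cl : Cl N 0 0 R I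
  N0 : 0 < N
  Np : 2 * N < p
  I0 : 0 < I
  ID : 2 * I < D
  R1 : -p < 2 * R
  R2 : 2 * R < p

/-- facts on the cluster `v2` (`X = 0`, `2 N = p`) -/
structure WFac (p : ℤ) (D : ℝ) (Cl : ℤ → ℤ → ℤ → ℤ → ℝ → Prop) (N R : ℤ) (I : ℝ) :
    Prop where
  cl : Cl N 0 0 R I
  N0 : 0 < N
  Np : 2 * N = p
  I0 : 0 < I
  ID : 2 * I = D
  R2 : 2 * R = p

section

variable {p q a b c : ℕ} [NeZero p] [NeZero q] {z : ZMod p → ZMod (p * q)} {i0 ρ : ZMod p}
  {θ : ZMod (p * q)} {δ l : ℕ} {k : ℤ} {s ds J : ℤ}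

theorem SG.nrow (h : SG p q a b c z i0 ρ θ δ l k s ds J) {N τ X R : ℤ} {I : ℝ}
    (hC : ClS p q c ρ θ s ds N τ X R I) : (p : ℤ) ∣ R → (p : ℤ) ∣ N := by
  intro h1
  rw [← ZMod.intCast_zmod_eq_zero_iff_dvd] at h1 ⊢
  have h6 := hC.2.1
  rw [h1] at h6
  obtain ⟨u, hu⟩ := h.ls.hAP.1
  rw [← hu] at h6
  have h8 := congrArg (· * (↑u⁻¹ : ZMod p)) h6.symm
  simpa [mul_assoc] using h8

theorem SG.II (h : SG p q a b c z i0 ρ θ δ l k s ds J) {N X R : ℤ} {I : ℝ}
    (hC : ClS p q c ρ θ s ds N 0 X R I) (hN0 : 0 < N) (hNp : N < p) :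
    0 < I ∧ I < DD p q s := by
  refine ⟨(h.pt0 hC).2 hN0, ?_⟩
  have h3 := h.cadd h.ccp (h.cneg hC)
  have e0 : (0 + -0 : ℤ) = 0 := by ring
  rw [e0] at h3
  have := (h.pt0 h3).2 (by linarith)
  have e1 : DD p q s = ((p * s : ℤ) / (q : ℝ) : ℝ) := rfl
  linarith

theorem SG.kfac (h : SG p q a b c z i0 ρ θ δ l k s ds J) {N X R : ℤ} {I : ℝ}
    (hS : S2E p q a b c ρ θ l s ds) (hK : KQ p q a b c ρ θ l s ds N X R I) :
    KFac p a b l ds (DD p q s) (ClS p q c ρ θ s ds) N X R I := by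
  obtain ⟨h1, h2⟩ := h.II hK.cl hK.N0 hK.Np
  obtain ⟨h3, h4⟩ := hS N X R I hK
  refine { toKP := hK, I0 := h1, ID := h2, R0 := ?_, d1 := h3, d2 := h4 }
  intro h5
  have h6 := h.nrow hK.cl (by rw [h5]; exact dvd_zero _)
  have := Int.le_of_dvd hK.N0 h6
  have := hK.Np
  omega

/-- `EXT = 1` -/
theorem SG.s21 (h : SG p q a b c z i0 ρ θ δ l k s ds J) (h2a : 2 * a < p) (h2b : 2 * b < p)
    (hS : S2E p q a b c ρ θ l s ds) (hne : ∃ N X R I, KQ p q a b c ρ θ l s ds N X R I) :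
    ∃ N X R I, KFac p a b l ds (DD p q s) (ClS p q c ρ θ s ds) N X R I ∧
      ds * DD p q s < 2 * (X + ds * I) ∧
      KExt p a b l ds (ClS p q c ρ θ s ds) N (fun z _ => z) (X + ds * I) := by
  obtain ⟨N, X, R, I, hK, hmax⟩ := h.emax h2a h2b (fun z _ => z) hne
  obtain ⟨h3, h4⟩ := hS N X R I hK
  refine ⟨N, X, R, I, h.kfac hS hK, ?_, h.kx1 hK hmax⟩
  have h5 := hmax _ _ _ _ (h.refl hK h3 h4)
  have h6 := h.half' h2a h2b hK h3 h4 0
  rw [Int.cast_zero, add_zero] at h6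
  have hd2 : (ds : ℝ) * ds = 1 := by exact_mod_cast h.ds2
  push_cast at h5 h6
  refine lt_of_le_of_ne ?_ (Ne.symm h6)
  linarith

/-- `EXT = 2` -/
theorem SG.s22 (h : SG p q a b c z i0 ρ θ δ l k s ds J) (h2a : 2 * a < p) (h2b : 2 * b < p)
    (hS : S2E p q a b c ρ θ l s ds) (hne : ∃ N X R I, KQ p q a b c ρ θ l s ds N X R I) :
    ∃ N X R I, KFac p a b l ds (DD p q s) (ClS p q c ρ θ s ds) N X R I ∧
      2 * (X + ds * I) < ds * DD p q s ∧
      KExt p a b l ds (ClS p q c ρ θ s ds) N (fun z _ => -z) (-(X + ds * I)) := by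
  obtain ⟨N, X, R, I, hK, hmax⟩ := h.emax h2a h2b (fun z _ => -z) hne
  obtain ⟨h3, h4⟩ := hS N X R I hK
  refine ⟨N, X, R, I, h.kfac hS hK, ?_, h.kx2 hK hmax⟩
  have h5 := hmax _ _ _ _ (h.refl hK h3 h4)
  have h6 := h.half' h2a h2b hK h3 h4 0
  rw [Int.cast_zero, add_zero] at h6
  push_cast at h5 h6
  refine lt_of_le_of_ne ?_ h6
  linarith

/-- `EXT = 3` -/
theorem SG.s23 (h : SG p q a b c z i0 ρ θ δ l k s ds J) (h2a : 2 * a < p) (h2b : 2 * b < p)
    (hS : S2E p q a b c ρ θ l s ds) (hne : ∃ N X R I, KQ p q a b c ρ θ l s ds N X R I) :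
    ∃ N X R I, KFac p a b l ds (DD p q s) (ClS p q c ρ θ s ds) N X R I ∧
      ds * DD p q s < 2 * (X + ds * I + R) ∧
      KExt p a b l ds (ClS p q c ρ θ s ds) N (fun _ s => s) (X + ds * I + R) := by
  obtain ⟨N, X, R, I, hK, hmax⟩ := h.emax h2a h2b (fun _ s => s) hne
  obtain ⟨h3, h4⟩ := hS N X R I hK
  refine ⟨N, X, R, I, h.kfac hS hK, ?_, h.kx3 hK hmax⟩
  have h5 := hmax _ _ _ _ (h.refl hK h3 h4)
  have h6 := h.half' h2a h2b hK h3 h4 R
  push_cast at h5 h6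
  refine lt_of_le_of_ne ?_ (Ne.symm h6)
  linarith

/-- `EXT = 4` -/
theorem SG.s24 (h : SG p q a b c z i0 ρ θ δ l k s ds J) (h2a : 2 * a < p) (h2b : 2 * b < p)
    (hS : S2E p q a b c ρ θ l s ds) (hne : ∃ N X R I, KQ p q a b c ρ θ l s ds N X R I) :
    ∃ N X R I, KFac p a b l ds (DD p q s) (ClS p q c ρ θ s ds) N X R I ∧
      2 * (X + ds * I + R) < ds * DD p q s ∧
      KExt p a b l ds (ClS p q c ρ θ s ds) N (fun _ s => -s) (-(X + ds * I + R)) := by
  obtain ⟨N, X, R, I, hK, hmax⟩ := h.emax h2a h2b (fun _ s => -s) hne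
  obtain ⟨h3, h4⟩ := hS N X R I hK
  refine ⟨N, X, R, I, h.kfac hS hK, ?_, h.kx4 hK hmax⟩
  have h5 := hmax _ _ _ _ (h.refl hK h3 h4)
  have h6 := h.half' h2a h2b hK h3 h4 R
  push_cast at h5 h6
  refine lt_of_le_of_ne ?_ h6
  linarith

/-- the formal form of `EXT = 10` -/
theorem SG.kx10 (h : SG p q a b c z i0 ρ θ δ l k s ds J) {Nk Xk Rk : ℤ} {Ik : ℝ}
    (hk : KQ p q a b c ρ θ l s ds Nk Xk Rk Ik)
    (hmax : ∀ N' X' R' I', KQ p q a b c ρ θ l s ds N' X' R' I' →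
      Xk + ds * Ik ≤ X' + ds * I' ∨ X' + ds * I' ≤ ds * DD p q s - (Xk + ds * Ik)) :
    KExt10 p a b l ds (DD p q s) (ClS p q c ρ θ s ds) Nk (Xk + ds * Ik) := by
  intro N τ X R I hC hτ hN0 hNp hNl hNpl hx hb g1 g2
  obtain ⟨I', h1, h2, h3⟩ := h.bxe hC hτ hN0 hNp hb
  have h4 := hmax N X R I' ⟨h1, hN0, hNp, hNl, hNpl, h2⟩
  have hq := h.q0R
  have x1 := h.qx h1 0
  have x2 := h.qx hk.cl 0
  have hD : (q : ℝ) * DD p q s = ((p * s : ℤ) : ℝ) := by rw [h.pD]; push_cast; ring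
  rw [Int.cast_zero, add_zero, zero_mul, add_zero] at x1 x2
  have hpq := h.ls.hpq
  have hk0 := hk.N0
  have hkp := hk.Np
  have hd2 : (ds : ℝ) * ds = 1 := by exact_mod_cast h.ds2
  have h0 : τ = 0 → I = I' := by
    intro h6
    subst h6
    have a1 := hC.2.2
    have a2 := h1.2.2
    have a3 : (q : ℝ) * I = q * I' := by rw [a1, a2]
    exact mul_left_cancel₀ hq.ne' a3
  rcases h4 with h4 | h4
  · have h5 : -((Xk : ℝ) + ds * Ik) ≤ -(X + ds * I') := by
      refine le_of_shift (q := q) (Z := -(X + ds * I)) (x := -(X * q + ds * s * N))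
        (y := -(Xk * q + ds * s * Nk)) hq (h.eab hτ (-1) (Or.inr rfl)) ?_ ?_ ?_ (by linarith)
      · rw [mul_neg, x1]
        push_cast
        ring
      · rw [mul_neg, x2]
        push_cast
        ring
      · push_cast at h3 ⊢
        linear_combination -h3
    rcases hx with h6 | ⟨h6, _⟩
    · rw [h0 h6] at g1
      linarith
    · have h8 : I' - Ik = ((ds * (Xk - X) : ℤ) : ℝ) := by
        have h7 : (Xk : ℝ) + ds * Ik = X + ds * I' := le_antisymm h4 (by linarith)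
        push_cast
        linear_combination (-(ds : ℝ)) * h7 + (Ik - I') * hd2
      have h9 := h.neq h1 hk.cl h8
      exact ndvd_small (q := q) (m := N - Nk) (by omega) (by omega) (by omega) h9
  · have h5 : ds * DD p q s - (Xk + ds * Ik) ≤ X + ds * I' := by
      refine le_of_shift (q := q) (Z := X + ds * I) (x := X * q + ds * s * N)
        (y := ds * (p * s) - (Xk * q + ds * s * Nk)) hq (h.eab hτ 1 (Or.inl rfl)) x1 ?_ ?_
        (by linarith)
      · push_cast at hD x2 ⊢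
        linear_combination (ds : ℝ) * hD - x2
      · push_cast at h3 ⊢
        linear_combination h3
    rcases hx with h6 | ⟨_, h6⟩
    · rw [h0 h6] at g2
      linarith
    · have h8 : I' + Ik - DD p q s = ((ds * (-Xk - X) : ℤ) : ℝ) := by
        have h7 : ds * DD p q s - (Xk + ds * Ik) = X + ds * I' := le_antisymm h5 h4
        push_cast
        linear_combination (-(ds : ℝ)) * h7 + (DD p q s - Ik - I') * hd2
      have h9 := h.neq (h.cadd h1 hk.cl) h.ccp h8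
      exact ndvd_small (q := q) (m := N + Nk - p) (by omega) (by omega) (by omega) h9

/-- `EXT = 10`, with the bound `T1` for `2 a ≤ b`, `|k| < a` -/
theorem SG.s210 (h : SG p q a b c z i0 ρ θ δ l k s ds J) (h2a : 2 * a < p) (h2b : 2 * b < p)
    (hk0 : k ≠ 0)
    (hS : S2E p q a b c ρ θ l s ds) (hne : ∃ N X R I, KQ p q a b c ρ θ l s ds N X R I) :
    ∃ N X R I, KFac p a b l ds (DD p q s) (ClS p q c ρ θ s ds) N X R I ∧
      ds * DD p q s < 2 * (X + ds * I) ∧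
      KExt10 p a b l ds (DD p q s) (ClS p q c ρ θ s ds) N (X + ds * I) ∧
      (2 * a ≤ b → |k| < a → (ds = 1 → X + ds * I < a - |(k : ℝ)| + DD p q s) ∧
        (ds = -1 → X + ds * I < a - |(k : ℝ)|)) := by
  set g : ℝ → ℝ → ℝ := fun z _ => -|z - ds * DD p q s / 2| with hg
  obtain ⟨N0, X0, R0, I0, hK0, hmax0⟩ := h.emax h2a h2b g hne
  have hd2 : (ds : ℝ) * ds = 1 := by exact_mod_cast h.ds2
  -- the right half
  obtain ⟨N, X, R, I, hK, hpos, hmax⟩ : ∃ N X R I, KQ p q a b c ρ θ l s ds N X R I ∧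
      ds * DD p q s < 2 * (X + ds * I) ∧ ∀ N' X' R' I', KQ p q a b c ρ θ l s ds N' X' R' I' →
        X + ds * I - ds * DD p q s / 2 ≤ |X' + ds * I' - ds * DD p q s / 2| := by
    obtain ⟨h3, h4⟩ := hS N0 X0 R0 I0 hK0
    have h6 := h.half' h2a h2b hK0 h3 h4 0
    rw [Int.cast_zero, add_zero] at h6
    have hmax1 : ∀ N' X' R' I', KQ p q a b c ρ θ l s ds N' X' R' I' →
        |X0 + ds * I0 - ds * DD p q s / 2| ≤ |X' + ds * I' - ds * DD p q s / 2| := by
      intro N' X' R' I' hK'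
      have := hmax0 N' X' R' I' hK'
      simp only [hg] at this
      linarith
    rcases lt_or_gt_of_ne h6 with h7 | h7
    · refine ⟨_, _, _, _, h.refl hK0 h3 h4, ?_, ?_⟩
      · push_cast
        linarith
      · intro N' X' R' I' hK'
        refine le_trans ?_ (hmax1 N' X' R' I' hK')
        rw [abs_of_neg (by linarith)]
        push_cast
        linarith
    · refine ⟨N0, X0, R0, I0, hK0, h7, ?_⟩
      intro N' X' R' I' hK'
      exact le_trans (le_abs_self _) (hmax1 N' X' R' I' hK')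
  refine ⟨N, X, R, I, h.kfac hS hK, hpos, h.kx10 hK ?_, ?_⟩
  · intro N' X' R' I' hK'
    have h5 := hmax N' X' R' I' hK'
    rcases abs_cases ((X' : ℝ) + ds * I' - ds * DD p q s / 2) with ⟨h6, _⟩ | ⟨h6, _⟩
    · left
      linarith
    · right
      linarith
  · intro hab hka
    obtain ⟨n, x, r, hn0, hnp, hnl, hnpl, hAt, hx1, hx2, hx3⟩ :=
      Helper12.TL.tk h.ls hk0 hka hab h2b
    have hq := h.q0R
    obtain ⟨X', I', hC', hxI⟩ := h.cex n x r (by
      have := hAt.hx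
      push_cast at this ⊢
      exact this) (by
      have := hAt.hr
      push_cast at this ⊢
      exact this)
    have hxq : ((X' : ℝ) + ds * I') * q = x := by
      rw [hxI]
      field_simp
    have y1 : |(X' : ℝ) + ds * I'| < a - |(k : ℝ)| := by
      have h8 : |(x : ℝ)| < q * (a - |(k : ℝ)|) := by exact_mod_cast hx1
      rw [← hxq, abs_mul, abs_of_pos hq, mul_comm] at h8
      exact lt_of_mul_lt_mul_left h8 hq.le
    have hk1 : (0 : ℝ) < |(k : ℝ)| := by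
      have : (k : ℝ) ≠ 0 := by exact_mod_cast hk0
      exact abs_pos.2 this
    have y2 : |(X' : ℝ) + ds * I' + r| < a := by
      have h8 : |(x : ℝ) + r * q| < a * q := by exact_mod_cast hx3
      have h9 : (x : ℝ) + r * q = ((X' : ℝ) + ds * I' + r) * q := by rw [add_mul, hxq]
      rw [h9, abs_mul, abs_of_pos hq] at h8
      exact lt_of_mul_lt_mul_right h8 hq.le
    have y3 : (a : ℝ) ≤ b := by
      have : a ≤ b := by omega
      exact_mod_cast this
    rw [abs_lt] at y1 y2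
    have hK' : KQ p q a b c ρ θ l s ds n X' r I' := by
      refine ⟨hC', by exact_mod_cast hn0, by exact_mod_cast hnp, by exact_mod_cast hnl,
        by exact_mod_cast hnpl, ?_⟩
      unfold Bx
      push_cast
      refine ⟨?_, ?_, ?_, ?_⟩ <;> linarith [y1.1, y1.2, y2.1, y2.2]
    have h5 := hmax _ _ _ _ hK'
    have hD : 0 < DD p q s := by
      have h6 := h.II hK.cl hK.N0 hK.Np
      linarith [h6.1, h6.2]
    constructor
    · intro h6
      subst h6
      push_cast at *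
      rcases abs_cases ((X' : ℝ) + 1 * I' - 1 * DD p q s / 2) with ⟨h7, _⟩ | ⟨h7, _⟩ <;>
        linarith [y1.1, y1.2]
    · intro h6
      subst h6
      push_cast at *
      rcases abs_cases ((X' : ℝ) + -1 * I' - -1 * DD p q s / 2) with ⟨h7, _⟩ | ⟨h7, _⟩ <;>
        linarith [y1.1, y1.2]

end

end Helper25.KW
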