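import Pool.Agent.Helper25.KW.W3t

set_option autoImplicit false
set_option linter.unusedSectionVars false

/-!
# The world for `p + l ≤ q`
-/

namespace Helper25.KW

open Helper11.N1 Helper55.KE
open Helper11.N1.DECaux (ind ite_ind ind_and ind_congr ind_pos ind_neg)

theorem hu_eq (p a k : ℝ) : (fun w => 1 * Helper10.KE.ind p k a w) = hu p a k := by
  funext w
  rw [one_mul]
  rfl

section

variable {p q a b c : ℕ} [NeZero p] [NeZero q] {z : ZMod p → ZMod (p * q)} {i0 ρ : ZMod p}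
  {θ : ZMod (p * q)} {δ l : ℕ} {k : ℤ} {s ds J : ℤ}

theorem ndvd_small {q : ℕ} {m : ℤ} (h0 : m ≠ 0) (h1 : -(q : ℤ) < m) (h2 : m < q) :
    ¬ (q : ℤ) ∣ m := by
  intro h
  rcases lt_or_gt_of_ne h0 with h3 | h3
  · have h4 : (q : ℤ) ∣ -m := (dvd_neg).2 h
    have := Int.le_of_dvd (by omega) h4
    omega
  · have := Int.le_of_dvd h3 h
    omega

/-- index conditions for the crossing levels -/
theorem jcond {q l : ℕ} {p : ℕ} (hq : p + l ≤ q) {N N' τ τ' : ℤ} (hτ : |τ| ≤ 1) (hτ' : |τ'| ≤ 1)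
    (h0 : 0 ≤ N) (hp : N < p) (h0' : 0 ≤ N') (hp' : N' < p) (hne : N' ≠ N)
    (h1 : τ' = τ + 2 → N' ≠ N + l) (h2 : τ = τ' + 2 → N ≠ N' + l) :
    ∀ j : ℤ, Btw 0 (τ' - τ) j → j ≠ τ' - τ → ¬ (q : ℤ) ∣ N' - N - j * l := by
  intro j hj hjt
  rw [abs_le] at hτ hτ'
  have h3 : j = 0 ∨ (j = 1 ∧ τ' = τ + 2) ∨ (j = -1 ∧ τ = τ' + 2) := by
    rcases hj with h4 | h4 <;> omega
  rcases h3 with rfl | ⟨rfl, h3⟩ | ⟨rfl, h3⟩
  · apply ndvd_small <;> omega
  · have := h1 h3
    apply ndvd_small <;> omega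
  · have := h2 h3
    apply ndvd_small <;> omega

theorem SG.tstatU (h : SG p q a b c z i0 ρ θ δ l k s ds J) {n : ℕ} {τ X R : ℤ} {I : ℝ}
    (hC : ClS p q c ρ θ s ds n τ X R I) (hτ : |τ| ≤ 1) (hn0 : 0 < n) (hnl : n < l)
    (hnq : n + q ≠ p + l) (hU : ∀ m : ℕ, m ≤ p → ¬ Mg b c θ n m) :
    FS p a b ((δ : ℝ) / q) (hu p a R) (hu p a R) (X + ds * I) := by
  have hab := h.ls.hP.hab
  have hlp := h.ls.hl
  have hnp : n < p := by omega
  have hA1 := h.atr hC
  have hUz : ∀ m, byy q b c z m ≠ bx q c z (i0 + (n : ZMod p) * ρ) := by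
    intro m h1
    obtain ⟨k, hk, rfl⟩ := ap_row h.ls.hAP m
    exact hU k hk.le ((h.ls.mg_iff hnp hk).1 h1)
  refine h.tstat hC hτ hn0 hnp (by omega) hnq (h.ls.free_R hn0 hnp hU) ?_ ?_
  · intro W
    unfold hu
    rw [kv_R h.ls.hG hUz, hind_int (p := p) R W a (by omega), ind_congr (hkR hA1 i0 W)]
  · intro t
    have := ind_ceil' (p := p) a 1 R t
    rw [one_mul, one_mul] at this
    exact this

theorem SG.tstatM (h : SG p q a b c z i0 ρ θ δ l k s ds J) {n m : ℕ} {τ X R kap : ℤ} {I : ℝ}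
    (hC : ClS p q c ρ θ s ds n τ X R I) (hτ : |τ| ≤ 1) (hn0 : 0 < n) (hnp : n < p)
    (hm0 : 0 < m) (hmp : m < p) (hnl : n ≠ l) (hnq : n + q ≠ p + l) (hM : Mg b c θ n m)
    (hk : (m : ZMod p) * ρ + (b : ZMod p) = ((R + kap : ℤ) : ZMod p)) :
    FS p a b ((δ : ℝ) / q) (hh p a ((kap : ℤ) : ℝ) R) (hh p a ((kap : ℤ) : ℝ) R)
      (X + ds * I) :=
  h.tstat hC hτ hn0 hnp hnl hnq (h.ls.free_mg hn0 hnp hm0 hmp hM)
    (h.ls.hh_eq hnp hmp hM (h.atr hC) hk) (hh_ceil a kap R)

theorem SG.world (h : SG p q a b c z i0 ρ θ δ l k s ds J) (h2a : 2 * a < p) (h2b : 2 * b < p)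
    (hl2 : 2 ≤ l) (hk0 : k ≠ 0) (hka : |k| < a ∨ (c = 1 ∧ k = -a)) (hq : p + l ≤ q) :
    World p a b k J ds l q ((p * s : ℤ) / (q : ℝ) : ℝ) ((δ : ℝ) / q) (ClS p q c ρ θ s ds) := by
  have hB := h.base h2a h2b hl2 hk0 hka
  have hlp := h.ls.hl
  refine
    { toBase := hB
      hq := by exact_mod_cast hq
      nint := ?_
      ruleUR := ?_
      ruleMR := ?_
      ruleLR := ?_
      testU := ?_
      testM := ?_
      testL := ?_
      ruleJ := ?_ }
  · intro N τ X R N' τ' X' R' I I' hC hC' hτ hN0 hNp hN0' hNp' hne m hm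
    have h1 := h.cadd hC (h.cneg hC')
    have h2 := h.ii h1 (m := m) (by linarith)
    refine ndvd_small (q := q) ?_ ?_ ?_ h2
    · intro h3
      apply hne
      linarith
    · rw [abs_le] at hτ
      rcases (by omega : τ - τ' = -1 ∨ τ - τ' = 0 ∨ τ - τ' = 1) with h3 | h3 | h3
      · have h4 : τ + -τ' = -1 := by omega
        rw [h4]
        omega
      · have h4 : τ + -τ' = 0 := by omega
        rw [h4]
        omega
      · have h4 : τ + -τ' = 1 := by omega
        rw [h4]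
        omega
    · rw [abs_le] at hτ
      rcases (by omega : τ - τ' = -1 ∨ τ - τ' = 0 ∨ τ - τ' = 1) with h3 | h3 | h3
      · have h4 : τ + -τ' = -1 := by omega
        rw [h4]
        omega
      · have h4 : τ + -τ' = 0 := by omega
        rw [h4]
        omega
      · have h4 : τ + -τ' = 1 := by omega
        rw [h4]
        omega
  · intro N τ X R N' τ' X' R' I I' hC hC' hτ hτ' hx hN0 hNl hN0' hNp' hne
    obtain ⟨n, rfl⟩ := Int.eq_ofNat_of_zero_le hN0.le
    obtain ⟨f, rfl⟩ := Int.eq_ofNat_of_zero_le hN0'.le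
    have hn0 : 0 < n := by exact_mod_cast hN0
    have hnl : n < l := by exact_mod_cast hNl
    have hf0 : 0 < f := by exact_mod_cast hN0'
    have hfp : f < p := by exact_mod_cast hNp'
    have hfn : f ≠ n := by exact_mod_cast hne
    have H := h.ls.toMS.rq_R hn0 (by omega) hf0 hfp hfn (h.ls.noR hnl (by omega)) (h.atr hC)
      (h.atr hC')
    rw [hu_eq] at H
    have hj := jcond hq (N := n) (N' := f) hτ hτ' (by omega) (by omega) (by omega) (by omega)
      (by exact_mod_cast hfn) hx (by intro _; omega)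
    have t1 := h.trr hC hτ (by omega) (by omega) 0
    have t2 := h.trr hC' hτ' (by omega) (by omega) R'
    have t3 := h.trr hC' hτ' (by omega) (by omega) (R' + a)
    have t4 := h.tzz hC hC' hj R'
    have t5 := h.tzz hC hC' hj (R' + a)
    rw [Int.cast_zero, add_zero, add_zero] at t1
    have c5 : ((R' + a : ℤ) : ℝ) = (R' : ℝ) + a := by push_cast; ring
    rw [c5, ← add_assoc, ← add_assoc] at t3 t5
    exact ⟨fr_of H.1 t1 t2 t4, fr_of H.2 t1 t3 t5⟩
  · intro N τ X R N' τ' X' R' I I' hC hC' hτ hτ' hx hlN hNp hN0' hNp' hne hne2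
    obtain ⟨n, rfl⟩ := Int.eq_ofNat_of_zero_le (show 0 ≤ N by omega)
    obtain ⟨f, rfl⟩ := Int.eq_ofNat_of_zero_le hN0'.le
    have hnp : n < p := by exact_mod_cast hNp
    have hnl : l < n := by exact_mod_cast hlN
    have hf0 : 0 < f := by exact_mod_cast hN0'
    have hfp : f < p := by exact_mod_cast hNp'
    have hfn : f ≠ n := by exact_mod_cast hne
    have hfl : f + l ≠ n := by exact_mod_cast hne2
    have H := h.ls.toMS.rq_mg (n := n) (m := n - l) (f := f) (by omega) hnp (by omega) (by omega)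
      hf0 hfp hfn (by omega) (h.ls.mgl hnl.le) (h.atr hC) (h.atr hC') (kap := -k) (by
        have h1 := h.ls.hrl
        have h2 := (h.atr hC).hr
        rw [Nat.cast_sub hnl.le, sub_mul, h1, h2]
        push_cast
        ring)
    have hj := jcond hq (N := n) (N' := f) hτ hτ' (by omega) (by omega) (by omega) (by omega)
      (by exact_mod_cast hfn) hx (by intro _; omega)
    have t1 := h.trr hC hτ (by omega) (by omega) 0
    have t2 := h.trr hC' hτ' (by omega) (by omega) R'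
    have t3 := h.trr hC' hτ' (by omega) (by omega) (R' + a)
    have t4 := h.tzz hC hC' hj R'
    have t5 := h.tzz hC hC' hj (R' + a)
    rw [Int.cast_zero, add_zero, add_zero] at t1
    have c5 : ((R' + a : ℤ) : ℝ) = (R' : ℝ) + a := by push_cast; ring
    rw [c5, ← add_assoc, ← add_assoc] at t3 t5
    have c6 : ((-k : ℤ) : ℝ) = -(k : ℝ) := by push_cast; ring
    rw [c6] at H
    exact ⟨fr_of H.1 t1 t2 t4, fr_of H.2 t1 t3 t5⟩
  · intro N' τ' X' R' I' hC' hτ' hN0' hNp' hne
    obtain ⟨f, rfl⟩ := Int.eq_ofNat_of_zero_le hN0'.le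
    have hf0 : 0 < f := by exact_mod_cast hN0'
    have hfp : f < p := by exact_mod_cast hNp'
    have hfl : f ≠ l := by exact_mod_cast hne
    have hM : Mg b c θ l 0 := by
      have := h.ls.mgl (le_refl l)
      rwa [Nat.sub_self] at this
    have hAl : At ρ θ l (-(b * q) - (1 - 2 * c)) (k + b) := ⟨h.ls.hxl, h.ls.hrl⟩
    have H := h.ls.toMS.rq_R0 h.ls.hl0 h.ls.hl hf0 hfp hfl hM hAl (h.atr hC') (kap := -k)
      (by push_cast; ring)
    have hq0 := h.q0R
    rw [hu_eq] at H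
    have hC0 : ClS p q c ρ θ s ds 0 0 (-b) 0 0 ∨ True := Or.inr trivial
    -- exact position `-b`: index `0`, abscissa `-b`
    have hj : ∀ j : ℤ, Btw 0 τ' j → j ≠ τ' → ¬ (q : ℤ) ∣ (f : ℤ) - j * l := by
      intro j hj hjt
      rw [abs_le] at hτ'
      have h3 : j = 0 := by rcases hj with h4 | h4 <;> omega
      subst h3
      rw [zero_mul, sub_zero]
      apply ndvd_small <;> omega
    have hz : ∀ r : ℤ, Tz ((X' : ℝ) + ds * I' + r - (-b))
        (((X' * q + ds * s * f : ℤ) : ℝ) / q + r - (-b)) := by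
      intro r
      have e1 : (X' : ℝ) + ds * I' + r - (-b) =
          ((X' * q + ds * s * f + (r + b) * q + τ' * (1 - 2 * (c : ℤ)) : ℤ) : ℝ) / q := by
        rw [h.fv hC']
        push_cast
        field_simp
        ring
      have e2 : (((X' * q + ds * s * f : ℤ) : ℝ) / q + r - (-b)) =
          ((X' * q + ds * s * f + (r + b) * q : ℤ) : ℝ) / q := by
        push_cast
        field_simp
        ring
      rw [e1, e2]
      apply tz_int (by exact_mod_cast h.q0)
      exact h.bt (h.exr f X' (r + b)) rfl hj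
    have t2 := h.trr hC' hτ' (by omega) (by omega) R'
    have t3 := h.trr hC' hτ' (by omega) (by omega) (R' + a)
    have t4 := hz R'
    have t5 := hz (R' + a)
    have c5 : ((R' + a : ℤ) : ℝ) = (R' : ℝ) + a := by push_cast; ring
    rw [c5, ← add_assoc, ← add_assoc] at t3 t5
    have c6 : ((-k : ℤ) : ℝ) = -(k : ℝ) := by push_cast; ring
    have c7 : ((k + b : ℤ) : ℝ) = (k : ℝ) + b := by push_cast; ring
    rw [c6, c7] at H
    exact ⟨fl_of H.1 t2 t4, fl_of H.2 t3 t5⟩
  · intro N τ X R I hC hτ hN0 hNl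
    obtain ⟨n, rfl⟩ := Int.eq_ofNat_of_zero_le hN0.le
    exact h.tstatU hC hτ (by omega) (by omega) (by omega) (h.ls.noR (by omega) (by omega))
  · intro N τ X R I hC hτ hlN hNp
    obtain ⟨n, rfl⟩ := Int.eq_ofNat_of_zero_le (show 0 ≤ N by omega)
    have H := h.tstatM (n := n) (m := n - l) (kap := -k) hC hτ (by omega) (by omega) (by omega)
      (by omega) (by omega) (by omega) (h.ls.mgl (by omega)) (by
        have h1 := h.ls.hrl
        have h2 := (h.atr hC).hr
        rw [Nat.cast_sub (by omega), sub_mul, h1, h2]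
        push_cast
        ring)
    have c6 : ((-k : ℤ) : ℝ) = -(k : ℝ) := by push_cast; ring
    rw [c6] at H
    exact H
  · have H := h.tspec
    have c6 : ((-k : ℤ) : ℝ) = -(k : ℝ) := by push_cast; ring
    have c7 : ((k + b : ℤ) : ℝ) = (k : ℝ) + b := by push_cast; ring
    rw [hu_eq, c6, c7] at H
    exact H
  · intro N τ X R N' τ' X' R' I I' hC hC' hτ hτ' hx hlN hNp hN0' hNp' hne hne2
    obtain ⟨n, rfl⟩ := Int.eq_ofNat_of_zero_le (show 0 ≤ N by omega)
    obtain ⟨f, rfl⟩ := Int.eq_ofNat_of_zero_le hN0'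
    have hnp : n < p := by exact_mod_cast hNp
    have hnl : l ≤ n := by exact_mod_cast hlN
    have hfp : f < p := by exact_mod_cast hNp'
    have hfn : f ≠ n := by exact_mod_cast hne
    have hfl : f + l ≠ n := by exact_mod_cast hne2
    have H := h.ls.toMS.j2c (n := n) (m := n - l) (f := f) hnp (by have := h.ls.hl0; omega) hfp hfn
      (by omega) (h.ls.mgl hnl) (h.atr hC) (h.atr hC') (kap := -k) (by
        have h1 := h.ls.hrl
        have h2 := (h.atr hC).hr
        rw [Nat.cast_sub hnl, sub_mul, h1, h2]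
        push_cast
        ring)
    have hj := jcond hq (N := n) (N' := f) hτ hτ' (by omega) (by omega) (by omega) (by omega)
      (by exact_mod_cast hfn) hx (by intro _; omega)
    have t4 := h.tzz hC hC' hj R'
    have t5 := h.tzz hC hC' hj (R' + a)
    have c5 : ((R' + a : ℤ) : ℝ) = (R' : ℝ) + a := by push_cast; ring
    rw [c5, ← add_assoc, ← add_assoc] at t5
    have c6 : ((-k : ℤ) : ℝ) = -(k : ℝ) := by push_cast; ring
    rw [c6] at H
    exact ⟨⟨_, t4, H.mb⟩, ⟨_, t5, H.mt⟩⟩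

end

end Helper25.KW
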