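import Pool.Agent.Helper25.KW.Def2
import Pool.Agent.Helper25.KW.W4

set_option autoImplicit false
set_option linter.unusedSectionVars false

/-!
# The world for `q < p + l`
-/

namespace Helper25.KW

open Helper11.N1 Helper55.KE

section

variable {p q a b c : ℕ} [NeZero p] [NeZero q] {z : ZMod p → ZMod (p * q)} {i0 ρ : ZMod p}
  {θ : ZMod (p * q)} {δ l : ℕ} {k : ℤ} {s ds J : ℤ}

theorem ndvd_two {q : ℕ} {m : ℤ} (h0 : m ≠ 0) (h0' : m ≠ q) (h0'' : m ≠ -q)
    (h1 : -(2 * q : ℤ) < m) (h2 : m < 2 * q) : ¬ (q : ℤ) ∣ m := by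
  rintro ⟨w, hw⟩
  have hq : (0 : ℤ) < q := by omega
  have h3 : -2 < w := by
    by_contra h4
    have : (q : ℤ) * w ≤ q * (-2) := mul_le_mul_of_nonneg_left (by omega) hq.le
    omega
  have h4 : w < 2 := by
    by_contra h4
    have : (q : ℤ) * 2 ≤ q * w := mul_le_mul_of_nonneg_left (by omega) hq.le
    omega
  rcases (by omega : w = -1 ∨ w = 0 ∨ w = 1) with rfl | rfl | rfl <;> omega

/-- index conditions for the crossing levels -/
theorem jcond2 {q l p : ℕ} (hpq : p < q) (hlp : l < p) {N N' τ τ' : ℤ} (hτ : |τ| ≤ 1)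
    (hτ' : |τ'| ≤ 1)
    (h0 : 0 ≤ N) (hp : N < p) (h0' : 0 ≤ N') (hp' : N' < p) (hne : N' ≠ N)
    (h1 : τ' = τ + 2 → N' ≠ N + l ∧ N' + q ≠ N + l)
    (h2 : τ = τ' + 2 → N ≠ N' + l ∧ N + q ≠ N' + l) :
    ∀ j : ℤ, Btw 0 (τ' - τ) j → j ≠ τ' - τ → ¬ (q : ℤ) ∣ N' - N - j * l := by
  intro j hj hjt
  rw [abs_le] at hτ hτ'
  have h3 : j = 0 ∨ (j = 1 ∧ τ' = τ + 2) ∨ (j = -1 ∧ τ = τ' + 2) := by
    rcases hj with h4 | h4 <;> omega
  rcases h3 with rfl | ⟨rfl, h3⟩ | ⟨rfl, h3⟩
  · apply ndvd_two <;> omega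
  · have := h1 h3
    apply ndvd_two <;> omega
  · have := h2 h3
    apply ndvd_two <;> omega

theorem SG.rp0 (h : SG p q a b c z i0 ρ θ δ l k s ds J) : rp p q θ = 0 :=
  rp_theta h.ls.hP h.ls.hB h.ls.hAP

theorem q_mul_zero {θ : ZMod (p * q)} (h : rp p q θ = 0) : (q : ZMod (p * q)) * θ = 0 := by
  obtain ⟨v, rfl⟩ : ∃ v : ℤ, θ = (v : ZMod (p * q)) := ⟨θ.val, by
    rw [Int.cast_natCast, ZMod.natCast_zmod_val]⟩
  rw [map_intCast, ZMod.intCast_zmod_eq_zero_iff_dvd] at h
  obtain ⟨w, hw⟩ := h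
  rw [hw]
  have := ZMod.natCast_self (p * q)
  push_cast at this ⊢
  linear_combination (w : ZMod (p * q)) * this

theorem SG.bq (h : SG p q a b c z i0 ρ θ δ l k s ds J) :
    ((b * q + (1 - 2 * (c : ℤ)) : ℤ) : ZMod p) = 0 := by
  have h1 := congrArg (rp p q) h.ls.hxl
  rw [map_mul, map_intCast, h.rp0, mul_zero] at h1
  push_cast at h1 ⊢
  linear_combination h1

/-- `q ρ = t a` -/
theorem SG.qrho (h : SG p q a b c z i0 ρ θ δ l k s ds J)
    (hρ : ρ = (a : ZMod p) * b ∨ ρ = -((a : ZMod p) * b)) :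
    ∃ t : ℤ, (t = 1 ∨ t = -1) ∧ ((t * a : ℤ) : ZMod p) = (q : ZMod p) * ρ := by
  have h1 := h.bq
  have h2 : (1 - 2 * (c : ℤ)) = 1 ∨ (1 - 2 * (c : ℤ)) = -1 := by
    rcases h.c01 with h3 | h3 <;> rw [h3] <;> norm_num
  rcases hρ with h3 | h3
  · refine ⟨-(1 - 2 * (c : ℤ)), by rcases h2 with h4 | h4 <;> rw [h4] <;> norm_num, ?_⟩
    rw [h3]
    push_cast at h1 ⊢
    linear_combination (-(a : ZMod p)) * h1
  · refine ⟨(1 - 2 * (c : ℤ)), by rcases h2 with h4 | h4 <;> rw [h4] <;> norm_num, ?_⟩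
    rw [h3]
    push_cast at h1 ⊢
    linear_combination (a : ZMod p) * h1

theorem SG.ccq (h : SG p q a b c z i0 ρ θ δ l k s ds J) {t : ℤ}
    (ht : ((t * a : ℤ) : ZMod p) = (q : ZMod p) * ρ) :
    ClS p q c ρ θ s ds q 0 (-ds * s) (t * a) s := by
  refine ⟨?_, ?_, ?_⟩
  · have h1 := q_mul_zero h.rp0
    rw [Int.cast_natCast, h1]
    push_cast
    ring
  · rw [ht, Int.cast_natCast]
  · push_cast
    ring

theorem SG.mg2 (h : SG p q a b c z i0 ρ θ δ l k s ds J) {n m : ℕ} (hm : m + l = n + q) :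
    Mg b c θ n m := by
  unfold Mg
  have h1 := h.ls.hxl
  have h2 := h.ls.castc
  have h3 := q_mul_zero h.rp0
  have h4 : (m : ZMod (p * q)) = n + q - l := by
    have : ((m + l : ℕ) : ZMod (p * q)) = ((n + q : ℕ) : ZMod (p * q)) := by rw [hm]
    push_cast at this
    linear_combination this
  rw [h4]
  push_cast at h1 h2 ⊢
  linear_combination -h1 + h2 + h3


theorem SG.world2 (h : SG p q a b c z i0 ρ θ δ l k s ds J) (h2a : 2 * a < p) (h2b : 2 * b < p)
    (hl2 : 2 ≤ l) (hk0 : k ≠ 0) (hka : |k| < a ∨ (c = 1 ∧ k = -a)) (hq : q < p + l)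
    {t : ℤ} (ht1 : t = 1 ∨ t = -1) (ht : ((t * a : ℤ) : ZMod p) = (q : ZMod p) * ρ) :
    World2 p a b k J ds l q s t ((p * s : ℤ) / (q : ℝ) : ℝ) ((δ : ℝ) / q)
      (ClS p q c ρ θ s ds) := by
  have hB := h.base h2a h2b hl2 hk0 hka
  have hlp := h.ls.hl
  have hpq := h.ls.hpq
  have hqR := h.q0R
  have hs := h.hs
  have hc6 : ((-k : ℤ) : ℝ) = -(k : ℝ) := by push_cast; ring
  have hc9 : ((t * a - k : ℤ) : ℝ) = (t : ℝ) * a - k := by push_cast; ring
  -- positions of the second row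
  have hplus : ∀ R' : ℤ, ((R' + a : ℤ) : ℝ) = (R' : ℝ) + a := by intro R'; push_cast; ring
  have pack : ∀ {hv hv' : ℝ → ℤ} {N τ X R N' τ' X' R' : ℤ} {I I' : ℝ},
      ClS p q c ρ θ s ds N τ X R I → ClS p q c ρ θ s ds N' τ' X' R' I' → |τ| ≤ 1 → |τ'| ≤ 1 →
      (τ' = τ + 2 → N' ≠ N + l ∧ N' + q ≠ N + l) →
      (τ = τ' + 2 → N ≠ N' + l ∧ N + q ≠ N' + l) → 0 < N → N < p → 0 < N' → N' < p → N' ≠ N →
      (RUq p a b ((δ : ℝ) / q) hv hv' (((X * q + ds * s * N : ℤ) : ℝ) / q)
        (((X' * q + ds * s * N' : ℤ) : ℝ) / q + R') R' (-1) ∧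
      RUq p a b ((δ : ℝ) / q) hv hv' (((X * q + ds * s * N : ℤ) : ℝ) / q)
        (((X' * q + ds * s * N' : ℤ) : ℝ) / q + R' + a) (R' + a) 1) →
      FR p a b ((δ : ℝ) / q) hv hv' (X + ds * I) (X' + ds * I' + R') R' (-1) ∧
      FR p a b ((δ : ℝ) / q) hv hv' (X + ds * I) (X' + ds * I' + R' + a) (R' + a) 1 := by
    intro hv hv' N τ X R N' τ' X' R' I I' hC hC' hτ hτ' hx hy hN0 hNp hN0' hNp' hne H
    have hj := jcond2 hpq hlp hτ hτ' hN0.le hNp hN0'.le hNp' hne hx hy
    have t1 := h.trr hC hτ hN0 hNp 0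
    have t2 := h.trr hC' hτ' hN0' hNp' R'
    have t3 := h.trr hC' hτ' hN0' hNp' (R' + a)
    have t4 := h.tzz hC hC' hj R'
    have t5 := h.tzz hC hC' hj (R' + a)
    rw [Int.cast_zero, add_zero, add_zero] at t1
    rw [hplus, ← add_assoc, ← add_assoc] at t3 t5
    exact ⟨fr_of H.1 t1 t2 t4, fr_of H.2 t1 t3 t5⟩
  have packJ : ∀ {kap : ℝ} {N τ X R N' τ' X' R' : ℤ} {I I' : ℝ},
      ClS p q c ρ θ s ds N τ X R I → ClS p q c ρ θ s ds N' τ' X' R' I' → |τ| ≤ 1 → |τ'| ≤ 1 →
      (τ' = τ + 2 → N' ≠ N + l ∧ N' + q ≠ N + l) →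
      (τ = τ' + 2 → N ≠ N' + l ∧ N + q ≠ N' + l) → 0 ≤ N → N < p → 0 ≤ N' → N' < p → N' ≠ N →
      J2c p a b kap (((X * q + ds * s * N : ℤ) : ℝ) / q) R
        (((X' * q + ds * s * N' : ℤ) : ℝ) / q) R' →
      JE p b (hh p a kap R) (X' + ds * I' + R' - (X + ds * I)) R' ∧
      JE p b (hh p a kap R) (X' + ds * I' + R' + a - (X + ds * I)) (R' + a) := by
    intro kap N τ X R N' τ' X' R' I I' hC hC' hτ hτ' hx hy hN0 hNp hN0' hNp' hne H
    have hj := jcond2 hpq hlp hτ hτ' hN0 hNp hN0' hNp' hne hx hy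
    have t4 := h.tzz hC hC' hj R'
    have t5 := h.tzz hC hC' hj (R' + a)
    rw [hplus, ← add_assoc, ← add_assoc] at t5
    exact ⟨⟨_, t4, H.mb⟩, ⟨_, t5, H.mt⟩⟩
  -- special lines: exact vertical position `y / q` with index `m0`
  have packL : ∀ {hv hv' : ℝ → ℤ} {y m0 N' τ' X' R' : ℤ} {v I' : ℝ},
      ClS p q c ρ θ s ds N' τ' X' R' I' → |τ'| ≤ 1 → 0 < N' → N' < p →
      v = (y : ℝ) / q → ((y : ℤ) : ZMod q) = (m0 : ZMod q) * res p q θ →
      (m0 = 0 ∨ m0 = p) →
      (RUq p a b ((δ : ℝ) / q) hv hv' v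
        (((X' * q + ds * s * N' : ℤ) : ℝ) / q + R') R' (-1) ∧
      RUq p a b ((δ : ℝ) / q) hv hv' v
        (((X' * q + ds * s * N' : ℤ) : ℝ) / q + R' + a) (R' + a) 1) →
      FLR p a b ((δ : ℝ) / q) hv hv' v (X' + ds * I' + R') R' (-1) ∧
      FLR p a b ((δ : ℝ) / q) hv hv' v (X' + ds * I' + R' + a) (R' + a) 1 := by
    intro hv hv' y m0 N' τ' X' R' v I' hC' hτ' hN0' hNp' hvy hym hm0 H
    have hj : ∀ j : ℤ, Btw 0 τ' j → j ≠ τ' → ¬ (q : ℤ) ∣ N' - m0 - j * l := by
      intro j hj hjt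
      rw [abs_le] at hτ'
      have h3 : j = 0 := by rcases hj with h4 | h4 <;> omega
      subst h3
      rw [zero_mul, sub_zero]
      rcases hm0 with rfl | rfl <;> apply ndvd_small <;> omega
    have hz : ∀ r : ℤ, Tz ((X' : ℝ) + ds * I' + r - v)
        (((X' * q + ds * s * N' : ℤ) : ℝ) / q + r - v) := by
      intro r
      have e1 : (X' : ℝ) + ds * I' + r - v =
          ((X' * q + ds * s * N' + r * q - y + τ' * (1 - 2 * (c : ℤ)) : ℤ) : ℝ) / q := by
        rw [h.fv hC', hvy]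
        push_cast
        field_simp
        ring
      have e2 : (((X' * q + ds * s * N' : ℤ) : ℝ) / q + r - v) =
          ((X' * q + ds * s * N' + r * q - y : ℤ) : ℝ) / q := by
        rw [hvy]
        push_cast
        field_simp
      rw [e1, e2]
      apply tz_int (by exact_mod_cast h.q0)
      refine h.bt (m := N' - m0) ?_ rfl hj
      have e3 := h.exr N' X' r
      push_cast at e3 hym ⊢
      linear_combination e3 - hym
    have t2 := h.trr hC' hτ' hN0' hNp' R'
    have t3 := h.trr hC' hτ' hN0' hNp' (R' + a)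
    have t4 := hz R'
    have t5 := hz (R' + a)
    rw [hplus, ← add_assoc, ← add_assoc] at t3 t5
    exact ⟨fl_of H.1 t2 t4, fl_of H.2 t3 t5⟩
  refine
    { toBase := hB
      hq := by exact_mod_cast hq
      ht := ht1
      cq := h.ccq ht
      hE := ?_
      hE' := ?_
      ruleUR := ?_
      ruleMR := ?_
      ruleM2R := ?_
      ruleLR := ?_
      ruleL2R := ?_
      testU := ?_
      testM := ?_
      testM2 := ?_
      testL := ?_
      ruleJ := ?_
      ruleJ2 := ?_ }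
  · rw [div_lt_iff₀ hqR]
    have : (p * s : ℤ) < s * q := by
      have : (p : ℤ) < q := by exact_mod_cast hpq
      nlinarith
    exact_mod_cast this
  · have h1 : (q : ℝ) * s < q * ((p * s : ℤ) / (q : ℝ) + J) := by
      have h2 : q * s < p * s + J * q := by
        have h3 := h.hJ
        have h4 : (q : ℤ) + 1 ≤ p + l := by exact_mod_cast hq
        have h5 : ((q : ℤ) + 1) * s ≤ (p + l) * s := mul_le_mul_of_nonneg_right h4 (by omega)
        rcases h.e1 with h6 | h6 <;> rw [h6] at h3 <;> nlinarith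
      have h3 : (q : ℝ) * s < p * s + J * q := by exact_mod_cast h2
      push_cast
      field_simp
      linarith
    exact lt_of_mul_lt_mul_left h1 hqR.le
  · intro N τ X R N' τ' X' R' I I' hC hC' hτ hτ' hx hy hNU hNl hN0' hNp' hne
    obtain ⟨n, rfl⟩ := Int.eq_ofNat_of_zero_le (show 0 ≤ N by omega)
    obtain ⟨f, rfl⟩ := Int.eq_ofNat_of_zero_le hN0'.le
    have H := h.ls.toMS.rq_R (n := n) (f := f) (by omega) (by omega) (by omega) (by omega)
      (by omega) (h.ls.noR (by omega) (by omega)) (h.atr hC) (h.atr hC')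
    rw [hu_eq] at H
    exact pack hC hC' hτ hτ' hx hy (by omega) (by omega) hN0' hNp' hne H
  · intro N τ X R N' τ' X' R' I I' hC hC' hτ hτ' hx hy hlN hNp hN0' hNp' hne hne2
    obtain ⟨n, rfl⟩ := Int.eq_ofNat_of_zero_le (show 0 ≤ N by omega)
    obtain ⟨f, rfl⟩ := Int.eq_ofNat_of_zero_le hN0'.le
    have H := h.ls.toMS.rq_mg (n := n) (m := n - l) (f := f) (by omega) (by omega) (by omega)
      (by omega) (by omega) (by omega) (by omega) (by omega) (h.ls.mgl (by omega)) (h.atr hC)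
      (h.atr hC') (kap := -k) (by
        have h1 := h.ls.hrl
        have h2 := (h.atr hC).hr
        rw [Nat.cast_sub (by omega), sub_mul, h1, h2]
        push_cast
        ring)
    rw [hc6] at H
    exact pack hC hC' hτ hτ' hx hy (by omega) (by omega) hN0' hNp' hne H
  · intro N τ X R N' τ' X' R' I I' hC hC' hτ hτ' hx hy hN0 hNq hN0' hNp' hne hne2
    obtain ⟨n, rfl⟩ := Int.eq_ofNat_of_zero_le (show 0 ≤ N by omega)
    obtain ⟨f, rfl⟩ := Int.eq_ofNat_of_zero_le hN0'.le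
    have H := h.ls.toMS.rq_mg (n := n) (m := n + q - l) (f := f) (by omega) (by omega) (by omega)
      (by omega) (by omega) (by omega) (by omega) (by omega) (h.mg2 (by omega)) (h.atr hC)
      (h.atr hC') (kap := t * a - k) (by
        have h1 := h.ls.hrl
        have h2 := (h.atr hC).hr
        rw [Nat.cast_sub (by omega), sub_mul, h1]
        push_cast at ht h2 ⊢
        linear_combination h2 - ht)
    rw [hc9] at H
    exact pack hC hC' hτ hτ' hx hy (by omega) (by omega) hN0' hNp' hne H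
  · intro N' τ' X' R' I' hC' hτ' hN0' hNp' hne
    obtain ⟨f, rfl⟩ := Int.eq_ofNat_of_zero_le hN0'.le
    have hM : Mg b c θ l 0 := by
      have := h.ls.mgl (le_refl l)
      rwa [Nat.sub_self] at this
    have hAl : At ρ θ l (-(b * q) - (1 - 2 * c)) (k + b) := ⟨h.ls.hxl, h.ls.hrl⟩
    have H := h.ls.toMS.rq_R0 (f := f) h.ls.hl0 h.ls.hl (by omega) (by omega) (by omega) hM hAl
      (h.atr hC') (kap := -k) (by push_cast; ring)
    have c7 : ((k + b : ℤ) : ℝ) = (k : ℝ) + b := by push_cast; ring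
    rw [hu_eq, hc6, c7] at H
    exact packL (y := -(b * q)) (m0 := 0) hC' hτ' hN0' hNp'
      (v := -(b : ℝ)) (by push_cast; field_simp) (by
        push_cast
        rw [ZMod.natCast_self]
        ring) (Or.inl rfl) H
  · intro N' τ' X' R' I' hC' hτ' hN0' hNp' hne
    obtain ⟨f, rfl⟩ := Int.eq_ofNat_of_zero_le hN0'.le
    obtain ⟨n, hn⟩ : ∃ n : ℕ, n + q = p + l := ⟨p + l - q, by omega⟩
    have hM : Mg b c θ n p := h.mg2 (by omega)
    have hAn : At ρ θ n (δ - (b * q) - (1 - 2 * c)) (k + b - t * a) := by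
      have e1 : (n : ZMod (p * q)) = p + l - q := by
        have : ((n + q : ℕ) : ZMod (p * q)) = ((p + l : ℕ) : ZMod (p * q)) := by rw [hn]
        push_cast at this
        linear_combination this
      have e2 : (n : ZMod p) = p + l - q := by
        have : ((n + q : ℕ) : ZMod p) = ((p + l : ℕ) : ZMod p) := by rw [hn]
        push_cast at this
        linear_combination this
      constructor
      · have h1 := h.ls.hxl
        have h2 := q_mul_zero h.rp0
        have h3 := h.ls.hδ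
        rw [e1]
        push_cast at h1 ⊢
        linear_combination h1 - h2 - h3
      · have h1 := h.ls.hrl
        rw [e2, ZMod.natCast_self]
        push_cast at h1 ht ⊢
        linear_combination h1 + ht
    have H := h.ls.toMS.rq_Rp (n := n) (f := f) (by omega) (by omega) (by omega) (by omega)
      (by omega) hM hAn (h.atr hC') (kap := t * a - k) (by push_cast; ring)
    have c7 : ((k + b - t * a : ℤ) : ℝ) = (k : ℝ) + b - t * a := by push_cast; ring
    rw [hu_eq, hc9, c7] at H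
    exact packL (y := δ - b * q) (m0 := p) hC' hτ' hN0' hNp'
      (v := (δ : ℝ) / q - b) (by push_cast; field_simp) (by
        have := h.ls.δres
        push_cast at this ⊢
        rw [ZMod.natCast_self]
        linear_combination this) (Or.inr rfl) H
  · intro N τ X R I hC hτ hNU hNl
    obtain ⟨n, rfl⟩ := Int.eq_ofNat_of_zero_le (show 0 ≤ N by omega)
    exact h.tstatU hC hτ (by omega) (by omega) (by omega) (h.ls.noR (by omega) (by omega))
  · intro N τ X R I hC hτ hlN hNp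
    obtain ⟨n, rfl⟩ := Int.eq_ofNat_of_zero_le (show 0 ≤ N by omega)
    have H := h.tstatM (n := n) (m := n - l) (kap := -k) hC hτ (by omega) (by omega) (by omega)
      (by omega) (by omega) (by omega) (h.ls.mgl (by omega)) (by
        have h1 := h.ls.hrl
        have h2 := (h.atr hC).hr
        rw [Nat.cast_sub (by omega), sub_mul, h1, h2]
        push_cast
        ring)
    rw [hc6] at H
    exact H
  · intro N τ X R I hC hτ hN0 hNq
    obtain ⟨n, rfl⟩ := Int.eq_ofNat_of_zero_le (show 0 ≤ N by omega)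
    have H := h.tstatM (n := n) (m := n + q - l) (kap := t * a - k) hC hτ (by omega) (by omega)
      (by omega) (by omega) (by omega) (by omega) (h.mg2 (by omega)) (by
        have h1 := h.ls.hrl
        have h2 := (h.atr hC).hr
        rw [Nat.cast_sub (by omega), sub_mul, h1]
        push_cast at ht h2 ⊢
        linear_combination h2 - ht)
    rw [hc9] at H
    exact H
  · have H := h.tspec
    have c7 : ((k + b : ℤ) : ℝ) = (k : ℝ) + b := by push_cast; ring
    rw [hu_eq, hc6, c7] at H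
    exact H
  · intro N τ X R N' τ' X' R' I I' hC hC' hτ hτ' hx hy hlN hNp hN0' hNp' hne hne2
    obtain ⟨n, rfl⟩ := Int.eq_ofNat_of_zero_le (show 0 ≤ N by omega)
    obtain ⟨f, rfl⟩ := Int.eq_ofNat_of_zero_le hN0'
    have H := h.ls.toMS.j2c (n := n) (m := n - l) (f := f) (by omega) (by omega) (by omega)
      (by omega) (by omega) (h.ls.mgl (by omega)) (h.atr hC) (h.atr hC') (kap := -k) (by
        have h1 := h.ls.hrl
        have h2 := (h.atr hC).hr
        rw [Nat.cast_sub (by omega), sub_mul, h1, h2]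
        push_cast
        ring)
    rw [hc6] at H
    exact packJ hC hC' hτ hτ' hx hy (by omega) (by omega) hN0' hNp' hne H
  · intro N τ X R N' τ' X' R' I I' hC hC' hτ hτ' hx hy hN0 hNq hN0' hNp' hne hne2
    obtain ⟨n, rfl⟩ := Int.eq_ofNat_of_zero_le (show 0 ≤ N by omega)
    obtain ⟨f, rfl⟩ := Int.eq_ofNat_of_zero_le hN0'
    have H := h.ls.toMS.j2c (n := n) (m := n + q - l) (f := f) (by omega) (by omega) (by omega)
      (by omega) (by omega) (h.mg2 (by omega)) (h.atr hC) (h.atr hC') (kap := t * a - k) (by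
        have h1 := h.ls.hrl
        have h2 := (h.atr hC).hr
        rw [Nat.cast_sub (by omega), sub_mul, h1]
        push_cast at ht h2 ⊢
        linear_combination h2 - ht)
    rw [hc9] at H
    exact packJ hC hC' hτ hτ' hx hy (by omega) (by omega) hN0' hNp' hne H

end

end Helper25.KW
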