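import Pool.Agent.Helper25.KW.K6
import Pool.Agent.Helper25.KW.W5
import Pool.Agent.Helper12.TL.TLem

set_option autoImplicit false
set_option linter.unusedSectionVars false

/-!
# Extremal elements, empty `K'`
-/

namespace Helper25.KW

open Helper11.N1 Helper55.KE

/-- extremality of the cluster `Nk`: `σ (x + w r) ≤ v` on `K'` -/
def KExW (p a b ds : ℤ) (P : ℤ → Prop) (Cl : ℤ → ℤ → ℤ → ℤ → ℝ → Prop) (Nk σ w : ℤ)
    (v : ℝ) : Prop :=
  ∀ {N τ X R : ℤ} {I : ℝ}, Cl N τ X R I → |τ| ≤ 1 → 0 < N → N < p → P N → (τ = 0 ∨ N ≠ Nk) →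
    Bx a b ds X R I → (σ : ℝ) * (X + ds * I + w * R) ≤ v

section

variable {p q a b c : ℕ} [NeZero p] [NeZero q] {z : ZMod p → ZMod (p * q)} {i0 ρ : ZMod p}
  {θ : ZMod (p * q)} {δ l : ℕ} {k : ℤ} {s ds J : ℤ}

/-- the world `S2` with an extremal element; `EXT = 1, 2, 3, 4` are `(σ, w) = (1, 0)`, `(-1, 0)`,
`(1, 1)`, `(-1, 1)` -/
theorem SG.s2x (h : SG p q a b c z i0 ρ θ δ l k s ds J) (h2a : 2 * a < p) (h2b : 2 * b < p)
    {P : ℤ → Prop} (hP : ∀ N, P N → P (p - N)) (hS : S2G p q a b c ρ θ s ds P)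
    (hne : ∃ N X R I, KH p q a b c ρ θ s ds P N X R I) {σ w : ℤ} (hσ : σ = 1 ∨ σ = -1) :
    ∃ N X R I, KGF p a b ds (DD p q s) P (ClS p q c ρ θ s ds) N X R I ∧
      DD p q s < b + ds * (X + ds * I) ∧ DD p q s < a + ds * (X + ds * I + R) ∧
      σ * (ds * DD p q s) < 2 * (σ * (X + ds * I + w * R)) ∧
      KExW p a b ds P (ClS p q c ρ θ s ds) N σ w (σ * (X + ds * I + w * R)) := by
  obtain ⟨N, X, R, I, hK, hmax⟩ := h.emaxG h2a h2b (P := P)
    (fun z s => σ * (z + w * (s - z))) hne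
  have hmax' : ∀ N' X' R' I', KH p q a b c ρ θ s ds P N' X' R' I' →
      σ * (X' + ds * I' + w * R') ≤ σ * (X + ds * I + w * R) := by
    intro N' X' R' I' hK'
    have := hmax N' X' R' I' hK'
    have e1 : ((X' : ℝ) + ds * I' + R' - (X' + ds * I')) = R' := by ring
    have e2 : ((X : ℝ) + ds * I + R - (X + ds * I)) = R := by ring
    simp only [e1, e2] at this
    exact this
  obtain ⟨h3, h4⟩ := hS N X R I hK
  refine ⟨N, X, R, I, h.kgf hK, h3, h4, ?_, fun hC hτ hN0 hNp hPN hx hb =>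
    h.kextG hK hσ hmax' hC hτ hN0 hNp hPN hx hb⟩
  have h5 := hmax' _ _ _ _ (h.reflG hP hK h3 h4)
  have h6 := h.halfG' h2a h2b hP hK h3 h4 (w * R)
  have hd2 := h.ds2R
  push_cast at h5 h6
  have hσ2 : (σ : ℝ) * σ = 1 := by
    rcases hσ with rfl | rfl <;> norm_num
  refine lt_of_le_of_ne ?_ ?_
  · have e1 : (σ : ℝ) * (-X + ds * (DD p q s - I) + w * -R) =
        σ * (ds * DD p q s) - σ * (X + ds * I + w * R) := by ring
    rw [e1] at h5
    linarith
  · intro h7
    apply h6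
    linear_combination (-(σ : ℝ)) * h7 + (2 * (X + ds * I + w * R) - ds * DD p q s) * (-hσ2)

/-- the formal form of `EXT = 10` -/
theorem SG.kx10G (h : SG p q a b c z i0 ρ θ δ l k s ds J) {P : ℤ → Prop} {Nk Xk Rk : ℤ} {Ik : ℝ}
    (hk : KH p q a b c ρ θ s ds P Nk Xk Rk Ik)
    (hmax : ∀ N' X' R' I', KH p q a b c ρ θ s ds P N' X' R' I' →
      Xk + ds * Ik ≤ X' + ds * I' ∨ X' + ds * I' ≤ ds * DD p q s - (Xk + ds * Ik)) :
    KExtG10 p a b ds (DD p q s) P (ClS p q c ρ θ s ds) Nk (Xk + ds * Ik) := by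
  intro N τ X R I hC hτ hN0 hNp hPN hx hb g1 g2
  obtain ⟨I', h1, h2, h3⟩ := h.bxe hC hτ hN0 hNp hb
  have h4 := hmax N X R I' ⟨h1, hN0, hNp, hPN, h2⟩
  have hq := h.q0R
  have x1 := h.qx h1 0
  have x2 := h.qx hk.cl 0
  have hD : (q : ℝ) * DD p q s = ((p * s : ℤ) : ℝ) := by rw [h.pD]; push_cast; ring
  rw [Int.cast_zero, add_zero, zero_mul, add_zero] at x1 x2
  have hpq := h.ls.hpq
  have hk0 := hk.N0
  have hkp := hk.Np
  have hd2 := h.ds2R
  have h0 : τ = 0 → I = I' := by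
    intro h6
    subst h6
    have a1 := hC.2.2
    have a2 := h1.2.2
    have a3 : (q : ℝ) * I = q * I' := by rw [a1, a2]
    exact mul_left_cancel₀ hq.ne' a3
  rcases h4 with h4 | h4
  · have := h.cmp hk.cl hk0 hkp hC hτ hN0 hNp (by
      rcases hx with h6 | ⟨h6, _⟩
      · exact Or.inl h6
      · exact Or.inr h6) h1 h3 (σ := 1) (A := 0) (Or.inl rfl) (by push_cast; linarith)
    push_cast at this
    linarith
  · have h5 : ds * DD p q s - (Xk + ds * Ik) ≤ X + ds * I' := by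
      refine le_of_shift (q := q) (Z := X + ds * I) (x := X * q + ds * s * N)
        (y := ds * (p * s) - (Xk * q + ds * s * Nk)) hq (h.eab hτ 1 (Or.inl rfl)) x1 ?_ ?_
        (by linarith)
      · push_cast at hD x2 ⊢
        linear_combination (ds : ℝ) * hD - x2
      · push_cast at h3 ⊢
        linear_combination h3
    rcases hx with h6 | ⟨_, h6⟩
    · rw [h0 h6] at g2
      linarith
    · have h8 : I' + Ik - DD p q s = ((ds * (-Xk - X) : ℤ) : ℝ) := by
        have h7 : ds * DD p q s - (Xk + ds * Ik) = X + ds * I' := le_antisymm h5 h4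
        push_cast
        linear_combination (-(ds : ℝ)) * h7 + (DD p q s - Ik - I') * hd2
      have h9 := h.neq (h.cadd h1 hk.cl) h.ccp h8
      exact ndvd_small (q := q) (m := N + Nk - p) (by omega) (by omega) (by omega) h9

/-- `EXT = 10` -/
theorem SG.s2x10 (h : SG p q a b c z i0 ρ θ δ l k s ds J) (h2a : 2 * a < p) (h2b : 2 * b < p)
    {P : ℤ → Prop} (hP : ∀ N, P N → P (p - N)) (hS : S2G p q a b c ρ θ s ds P)
    (hne : ∃ N X R I, KH p q a b c ρ θ s ds P N X R I) :
    ∃ N X R I, KGF p a b ds (DD p q s) P (ClS p q c ρ θ s ds) N X R I ∧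
      DD p q s < b + ds * (X + ds * I) ∧ DD p q s < a + ds * (X + ds * I + R) ∧
      ds * DD p q s < 2 * (X + ds * I) ∧
      KExtG10 p a b ds (DD p q s) P (ClS p q c ρ θ s ds) N (X + ds * I) := by
  obtain ⟨N0, X0, R0, I0, hK0, hmax0⟩ := h.emaxG h2a h2b (P := P)
    (fun z _ => -|z - ds * DD p q s / 2|) hne
  have hd2 : (ds : ℝ) * ds = 1 := by exact_mod_cast h.ds2
  -- the right half
  obtain ⟨N, X, R, I, hK, hpos, hmax⟩ : ∃ N X R I, KH p q a b c ρ θ s ds P N X R I ∧
      ds * DD p q s < 2 * (X + ds * I) ∧ ∀ N' X' R' I', KH p q a b c ρ θ s ds P N' X' R' I' →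
        X + ds * I - ds * DD p q s / 2 ≤ |X' + ds * I' - ds * DD p q s / 2| := by
    obtain ⟨h3, h4⟩ := hS N0 X0 R0 I0 hK0
    have h6 := h.halfG' h2a h2b hP hK0 h3 h4 0
    rw [Int.cast_zero, add_zero] at h6
    have hmax1 : ∀ N' X' R' I', KH p q a b c ρ θ s ds P N' X' R' I' →
        |X0 + ds * I0 - ds * DD p q s / 2| ≤ |X' + ds * I' - ds * DD p q s / 2| := by
      intro N' X' R' I' hK'
      have := hmax0 N' X' R' I' hK'
      linarith
    rcases lt_or_gt_of_ne h6 with h7 | h7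
    · refine ⟨_, _, _, _, h.reflG hP hK0 h3 h4, ?_, ?_⟩
      · push_cast
        linarith
      · intro N' X' R' I' hK'
        refine le_trans ?_ (hmax1 N' X' R' I' hK')
        rw [abs_of_neg (by linarith)]
        push_cast
        linarith
    · refine ⟨N0, X0, R0, I0, hK0, h7, ?_⟩
      intro N' X' R' I' hK'
      exact le_trans (le_abs_self _) (hmax1 N' X' R' I' hK')
  obtain ⟨h3, h4⟩ := hS N X R I hK
  refine ⟨N, X, R, I, h.kgf hK, h3, h4, hpos, h.kx10G hK ?_⟩
  intro N' X' R' I' hK'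
  have h5 := hmax N' X' R' I' hK'
  rcases abs_cases ((X' : ℝ) + ds * I' - ds * DD p q s / 2) with ⟨h6, _⟩ | ⟨h6, _⟩
  · left
    linarith
  · right
    linarith

/-- `|k| < a` -/
theorem SG.ka (h : SG p q a b c z i0 ρ θ δ l k s ds J) (hka : |k| < a ∨ (c = 1 ∧ k = -a)) :
    |k| < a := by
  rcases hka with h1 | ⟨_, h1⟩
  · exact h1
  · exfalso
    apply Helper12.TL.ne_edge h.ls
    rw [h1, abs_neg, abs_of_nonneg (by positivity)]

/-- an element of the world of overlap vectors from `At` -/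
theorem SG.khAt (h : SG p q a b c z i0 ρ θ δ l k s ds J) {P : ℤ → Prop} {n : ℕ} {x r : ℤ}
    (hn0 : 0 < n) (hnp : n < p) (hP : P n) (hA : At ρ θ n x r) (hx : |x| < b * q)
    (hs : |x + r * q| < a * q) :
    ∃ X I, KH p q a b c ρ θ s ds P n X r I ∧ (X : ℝ) + ds * I = (x : ℝ) / q := by
  have hqR := h.q0R
  obtain ⟨X, I, hC, hxI⟩ := h.cex n x r (by
    have := hA.hx
    push_cast at this ⊢
    exact this) (by
    have := hA.hr
    push_cast at this ⊢
    exact this)
  have hxq : ((X : ℝ) + ds * I) * q = x := by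
    rw [hxI]
    field_simp
  have y1 : |(X : ℝ) + ds * I| < b := by
    have h8 : |(x : ℝ)| < b * q := by exact_mod_cast hx
    rw [← hxq, abs_mul, abs_of_pos hqR] at h8
    exact lt_of_mul_lt_mul_right h8 hqR.le
  have y2 : |(X : ℝ) + ds * I + r| < a := by
    have h8 : |(x : ℝ) + r * q| < a * q := by exact_mod_cast hs
    have h9 : (x : ℝ) + r * q = ((X : ℝ) + ds * I + r) * q := by rw [add_mul, hxq]
    rw [h9, abs_mul, abs_of_pos hqR] at h8
    exact lt_of_mul_lt_mul_right h8 hqR.le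
  rw [abs_lt] at y1 y2
  refine ⟨X, I, ⟨hC, by exact_mod_cast hn0, by exact_mod_cast hnp, hP, ?_⟩, hxI⟩
  unfold Bx
  push_cast
  exact ⟨y1.1, y1.2, y2.1, y2.2⟩

/-- `K'` is not empty for `2 a ≤ b` -/
theorem SG.tne (h : SG p q a b c z i0 ρ θ δ l k s ds J) (h2b : 2 * b < p) (hk0 : k ≠ 0)
    (hka : |k| < a) (hab : 2 * a ≤ b) :
    ∃ N X R I, KH p q a b c ρ θ s ds (fun N => N ≠ l ∧ N + l ≠ p) N X R I := by
  obtain ⟨n, x, r, hn0, hnp, hnl, hnpl, hAt, hx1, hx2, hx3⟩ :=
    Helper12.TL.tk h.ls hk0 hka hab h2b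
  have hq := h.q0
  obtain ⟨X, I, hK, _⟩ := h.khAt (P := fun N => N ≠ l ∧ N + l ≠ p) hn0 hnp
    ⟨by exact_mod_cast hnl, by exact_mod_cast hnpl⟩ hAt (by
      refine lt_of_lt_of_le hx1 ?_
      rw [mul_comm]
      apply mul_le_mul_of_nonneg_right _ hq.le
      have := abs_nonneg k
      omega) hx3
  exact ⟨_, _, _, _, hK⟩

/-- a formal position is not an integer -/
theorem SG.nD (h : SG p q a b c z i0 ρ θ δ l k s ds J) (A : ℤ) : (ds : ℝ) * DD p q s ≠ A := by
  intro h1
  have hd2 := h.ds2R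
  have hp0 : 0 < p := Nat.pos_of_ne_zero (NeZero.ne p)
  have h2 : DD p q s - 0 = ((ds * A : ℤ) : ℝ) := by
    push_cast
    linear_combination (ds : ℝ) * h1 - (DD p q s) * hd2
  have h0 : ClS p q c ρ θ s ds 0 0 0 0 0 := by
    have := h.cadd h.ccp (h.cneg h.ccp)
    simpa using this
  have h3 := h.neq h.ccp h0 h2
  rw [sub_zero] at h3
  have hpq := h.ls.hpq
  exact ndvd_small (q := q) (m := (p : ℤ)) (by omega) (by omega) (by omega) h3

/-- from the exact box to the formal box, modulo `p` -/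
theorem SG.unb (h : SG p q a b c z i0 ρ θ δ l k s ds J) {N τ X R X0 R0 : ℤ} {I I0 : ℝ}
    (hC : ClS p q c ρ θ s ds N 0 X R I) (hb : Bx a b ds X R I)
    (hF : ClS p q c ρ θ s ds N τ X0 R0 I0) (hτ : |τ| ≤ 1)
    (hni : ∀ A : ℤ, (X0 : ℝ) + ds * I0 ≠ A) :
    ∃ WX WS : ℤ, -(b : ℝ) < X0 + ds * I0 + WX * p ∧ X0 + ds * I0 + WX * p < b ∧
      -(a : ℝ) < X0 + ds * I0 + R0 + WS * p ∧ X0 + ds * I0 + R0 + WS * p < a := by
  have hq := h.q0R
  have hX : (p : ℤ) ∣ X - X0 := by
    have h2 : (((X - X0) * q : ℤ) : ZMod (p * q)) = 0 := by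
      have e1 := hC.1
      have e2 := hF.1
      push_cast at e1 e2 ⊢
      linear_combination e1 - e2
    rw [ZMod.intCast_zmod_eq_zero_iff_dvd] at h2
    push_cast at h2
    exact (mul_dvd_mul_iff_right h.q0.ne').1 h2
  have hR : (p : ℤ) ∣ R - R0 := by
    have h2 : (((R - R0) : ℤ) : ZMod p) = 0 := by
      have e1 := hC.2.1
      have e2 := hF.2.1
      push_cast at e1 e2 ⊢
      linear_combination e1 - e2
    rwa [ZMod.intCast_zmod_eq_zero_iff_dvd] at h2
  obtain ⟨WX, hWX⟩ := hX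
  obtain ⟨WR, hWR⟩ := hR
  have hXr : (X : ℝ) = X0 + WX * p := by
    have : X = X0 + WX * p := by linarith
    rw [this]
    push_cast
    ring
  have hRr : (R : ℝ) = R0 + WR * p := by
    have : R = R0 + WR * p := by linarith
    rw [this]
    push_cast
    ring
  have h3 : (q : ℝ) * (X + ds * I) = q * (X + ds * I0) + (-(τ * (1 - 2 * (c : ℤ))) : ℤ) := by
    have a1 := hC.2.2
    have a2 := hF.2.2
    have hd2 := h.ds2R
    push_cast at a1 a2 ⊢
    linear_combination (ds : ℝ) * a1 - ds * a2 - (τ * (1 - 2 * (c : ℝ))) * hd2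
  have he : |-(τ * (1 - 2 * (c : ℤ)))| ≤ 1 := by
    have := h.eab hτ 1 (Or.inl rfl)
    rwa [abs_neg, ← one_mul (τ * (1 - 2 * (c : ℤ)))]
  have x0 : ∀ r : ℤ, (q : ℝ) * (X + ds * I0 + r) =
      ((X * q + ds * s * N + r * q + τ * (1 - 2 * (c : ℤ)) : ℤ) : ℝ) := by
    intro r
    have x1 := h.qx hC r
    push_cast at x1 h3 ⊢
    linear_combination x1 - h3
  have hni' : ∀ A : ℤ, (X : ℝ) + ds * I0 ≠ A := by
    intro A hA
    apply hni (A - WX * p)
    push_cast
    linarith
  have lo : ∀ B r : ℤ, (B : ℝ) < X + ds * I + r → (B : ℝ) < X + ds * I0 + r := by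
    intro B r hB
    refine lt_of_le_of_ne ?_ ?_
    · refine le_of_shift (q := q) (Z := X + ds * I + r)
        (x := X * q + ds * s * N + r * q + τ * (1 - 2 * (c : ℤ))) (y := q * B) hq he (x0 r) ?_ ?_ hB
      · push_cast
        ring
      · linear_combination h3
    · intro hA
      apply hni' (B - r)
      push_cast
      linarith
  have hi : ∀ B r : ℤ, (X : ℝ) + ds * I + r < B → (X : ℝ) + ds * I0 + r < B := by
    intro B r hB
    refine lt_of_le_of_ne ?_ ?_
    · have he' : |-(-(τ * (1 - 2 * (c : ℤ))))| ≤ 1 := by rwa [abs_neg]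
      have := le_of_shift (q := q) (X := -((X : ℝ) + ds * I0 + r)) (Y := -B)
        (Z := -((X : ℝ) + ds * I + r))
        (x := -(X * q + ds * s * N + r * q + τ * (1 - 2 * (c : ℤ)))) (y := -(q * B)) hq he'
        (by
          have := x0 r
          push_cast at this ⊢
          linear_combination -this) (by push_cast; ring) (by
          push_cast at h3 ⊢
          linear_combination -h3) (by linarith)
      linarith
    · intro hA
      apply hni' (B - r)
      push_cast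
      linarith
  obtain ⟨b1, b2, b3, b4⟩ := hb
  have c1 := lo (-b) 0
  have c2 := hi b 0
  have c3 := lo (-a) R
  have c4 := hi a R
  push_cast at b1 b2 b3 b4 c1 c2 c3 c4
  rw [add_zero, add_zero] at c1 c2
  refine ⟨WX, WX + WR, ?_, ?_, ?_, ?_⟩
  · have := c1 b1
    rw [hXr] at this
    linarith
  · have := c2 b2
    rw [hXr] at this
    linarith
  · have := c3 b3
    rw [hXr, hRr] at this
    push_cast
    linarith
  · have := c4 b4
    rw [hXr, hRr] at this
    push_cast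
    linarith

/-- `p - l` in the box -/
theorem SG.plb (h : SG p q a b c z i0 ρ θ δ l k s ds J) (h2a : 2 * a < p) (h2b : 2 * b < p)
    (hka : |k| < a) (hD0 : 0 < DD p q s) (hD : 2 * DD p q s < p)
    (hbx : ∃ X R I, ClS p q c ρ θ s ds (p - l) 0 X R I ∧ Bx a b ds X R I) :
    (ds = -1 ∧ DD p q s < 2 * b ∧ ((-(a : ℝ) < -DD p q s - k ∧ -DD p q s - k < a) ∨
      p - DD p q s - k < a)) ∨
    (ds = 1 ∧ p - DD p q s < 2 * b ∧ ((-(a : ℝ) < DD p q s - k ∧ DD p q s - k < a) ∨
      -(a : ℝ) < DD p q s - k - p)) := by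
  obtain ⟨X, R, I, hC, hb⟩ := hbx
  have hF := h.cadd h.ccp (h.cneg h.ccl)
  have e1 : ((0 + -(-(b : ℤ) - ds * J) : ℤ) : ℝ) + ds * (DD p q s + -(J : ℝ)) =
      b + ds * DD p q s := by
    push_cast
    ring
  obtain ⟨WX, WS, g1, g2, g3, g4⟩ := h.unb hC hb hF (by norm_num) (by
    intro A hA
    rw [e1] at hA
    apply h.nD (A - b)
    push_cast
    linarith)
  rw [e1] at g1 g2 g3 g4
  push_cast at g3 g4
  have f1 : (2 : ℝ) * a < p := by exact_mod_cast h2a
  have f2 : (2 : ℝ) * b < p := by exact_mod_cast h2b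
  rw [abs_lt] at hka
  have f3 : -(a : ℝ) < k := by exact_mod_cast hka.1
  have f4 : (k : ℝ) < a := by exact_mod_cast hka.2
  have f5 : (0 : ℝ) < p := by linarith
  have lt_of : ∀ m n : ℤ, (m : ℝ) * p < n * p → m < n := by
    intro m n hmn
    exact_mod_cast lt_of_mul_lt_mul_right hmn f5.le
  rcases h.hds with h4 | h4
  · right
    subst h4
    push_cast at g1 g2 g3 g4
    have k1 : -2 < WX := lt_of _ _ (by push_cast; linarith)
    have k2 : WX < 0 := lt_of _ _ (by push_cast; linarith)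
    have k3 : WX = -1 := by omega
    have k4 : -2 < WS := lt_of _ _ (by push_cast; linarith)
    have k5 : WS < 1 := lt_of _ _ (by push_cast; linarith)
    subst k3
    push_cast at g1 g2
    refine ⟨rfl, by linarith, ?_⟩
    rcases (by omega : WS = -1 ∨ WS = 0) with k6 | k6 <;> subst k6 <;> push_cast at g3 g4
    · right
      linarith
    · left
      constructor <;> linarith
  · left
    subst h4
    push_cast at g1 g2 g3 g4
    have k1 : -1 < WX := lt_of _ _ (by push_cast; linarith)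
    have k2 : WX < 1 := lt_of _ _ (by push_cast; linarith)
    have k3 : WX = 0 := by omega
    have k4 : -1 < WS := lt_of _ _ (by push_cast; linarith)
    have k5 : WS < 2 := lt_of _ _ (by push_cast; linarith)
    subst k3
    push_cast at g1 g2
    refine ⟨rfl, by linarith, ?_⟩
    rcases (by omega : WS = 0 ∨ WS = 1) with k6 | k6 <;> subst k6 <;> push_cast at g3 g4
    · left
      constructor <;> linarith
    · right
      linarith

/-- `p + l - q` in the box -/
theorem SG.plb2 (h : SG p q a b c z i0 ρ θ δ l k s ds J) (h2a : 2 * a < p) (h2b : 2 * b < p)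
    (hka : |k| < a) (hD0 : 0 < DD p q s) (hD : 2 * DD p q s < p) {t : ℤ} (ht1 : t = 1 ∨ t = -1)
    (ht : ((t * a : ℤ) : ZMod p) = (q : ZMod p) * ρ) 
    (hbx : ∃ X R I, ClS p q c ρ θ s ds (p + l - q) 0 X R I ∧ Bx a b ds X R I) :
    (ds = 1 ∧ DD p q s < 2 * b ∨ ds = -1 ∧ p - DD p q s < 2 * b) ∧
    ∃ WS : ℤ, (WS = -1 ∨ WS = 0 ∨ WS = 1) ∧
      -(a : ℝ) < ds * DD p q s - t * a + k + WS * p ∧
      ds * DD p q s - t * a + k + WS * p < a := by
  obtain ⟨X, R, I, hC, hb⟩ := hbx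
  have hcq : ClS p q c ρ θ s ds q 0 (-ds * s) (t * a) s := h.ccq ht
  have hF := h.cadd (h.cadd h.ccp (h.cneg hcq)) h.ccl
  have e0 : ((p : ℤ) + -(q : ℤ) + l) = p + l - q := by ring
  rw [e0] at hF
  have e1 : ((0 + -(-ds * s) + (-(b : ℤ) - ds * J) : ℤ) : ℝ) +
      ds * (DD p q s + -(s : ℝ) + (J : ℝ)) = ds * DD p q s - b := by
    push_cast
    ring
  obtain ⟨WX, WS, g1, g2, g3, g4⟩ := h.unb hC hb hF (by norm_num) (by
    intro A hA
    rw [e1] at hA
    apply h.nD (A + b)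
    push_cast
    linarith)
  rw [e1] at g1 g2 g3 g4
  push_cast at g3 g4
  have f1 : (2 : ℝ) * a < p := by exact_mod_cast h2a
  have f2 : (2 : ℝ) * b < p := by exact_mod_cast h2b
  rw [abs_lt] at hka
  have f3 : -(a : ℝ) < k := by exact_mod_cast hka.1
  have f4 : (k : ℝ) < a := by exact_mod_cast hka.2
  have f5 : (0 : ℝ) < p := by linarith
  have lt_of : ∀ m n : ℤ, (m : ℝ) * p < n * p → m < n := by
    intro m n hmn
    exact_mod_cast lt_of_mul_lt_mul_right hmn f5.le
  constructor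
  · rcases h.hds with h4 | h4
    · left
      subst h4
      push_cast at g1 g2
      have k1 : -1 < WX := lt_of _ _ (by push_cast; linarith)
      have k2 : WX < 1 := lt_of _ _ (by push_cast; linarith)
      have k3 : WX = 0 := by omega
      subst k3
      push_cast at g1 g2
      exact ⟨rfl, by linarith⟩
    · right
      subst h4
      push_cast at g1 g2
      have k1 : 0 < WX := lt_of _ _ (by push_cast; linarith)
      have k2 : WX < 2 := lt_of _ _ (by push_cast; linarith)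
      have k3 : WX = 1 := by omega
      subst k3
      push_cast at g1 g2
      exact ⟨rfl, by linarith⟩
  · refine ⟨WS, ?_, by linarith, by linarith⟩
    have k4 : -2 < WS := lt_of _ _ (by
      rcases h.hds with h4 | h4 <;> rcases ht1 with h5 | h5 <;> subst h4 h5 <;>
        push_cast at * <;> linarith)
    have k5 : WS < 2 := lt_of _ _ (by
      rcases h.hds with h4 | h4 <;> rcases ht1 with h5 | h5 <;> subst h4 h5 <;>
        push_cast at * <;> linarith)
    omega

end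

end Helper25.KW
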