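import Pool.Agent.Helper25.KW.K5
import Pool.Agent.Helper25.FLT.KN

set_option autoImplicit false
set_option linter.unusedSectionVars false
set_option linter.unusedVariables false

/-!
# K nonempty: the cases
-/

namespace Helper25.KW

open Helper11.N1 Helper55.KE Helper25.FLT

/-- a statement on all settings with a harmful tie and `p + l ≤ q` -/
def StAll (P : ∀ (p q a b c : ℕ) [NeZero p] [NeZero q] (_z : ZMod p → ZMod (p * q)) (_i0 _ρ : ZMod p)
    (_θ : ZMod (p * q)) (_δ l : ℕ) (_k _s _ds _J : ℤ), Prop) : Prop :=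
  ∀ (p q a b c : ℕ) [NeZero p] [NeZero q] (z : ZMod p → ZMod (p * q))
  (i0 ρ : ZMod p) (θ : ZMod (p * q)) (δ l : ℕ) (k s ds J : ℤ),
  SG p q a b c z i0 ρ θ δ l k s ds J →
  2 * a < p → 2 * b < p → a.Coprime p → b.Coprime p →
  (ρ = (a : ZMod p) * b ∨ ρ = -((a : ZMod p) * b)) → 2 ≤ l → k ≠ 0 →
  (|k| < a ∨ (c = 1 ∧ k = -a)) → p + l ≤ q → P p q a b c z i0 ρ θ δ l k s ds J

/-- `S2` -/
def StS2 : Prop := StAll fun p q a b c _ _ _ _ ρ θ _ l _ s ds _ =>
  S2E p q a b c ρ θ l s ds → (∃ N X R I, KQ p q a b c ρ θ l s ds N X R I) → False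

/-- `S1` -/
def StS1 : Prop := StAll fun p q a b c _ _ _ _ ρ θ _ l _ s ds _ =>
  (∃ N X R I, KQ p q a b c ρ θ l s ds N X R I ∧
    (b + ds * (X + ds * I) < DD p q s ∨ a + ds * (X + ds * I + R) < DD p q s)) → False

/-- `PL`: no element of `K'`, but `p - l` in the box -/
def StPL : Prop := StAll fun p q a b c _ _ _ _ ρ θ _ l _ s ds _ =>
  (¬ ∃ N X R I, KQ p q a b c ρ θ l s ds N X R I) →
  (∃ X R I, ClS p q c ρ θ s ds (p - l) 0 X R I ∧ Bx a b ds X R I) → False

/-- second ties -/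
def StQ2 : Prop := ∀ (p q a b c : ℕ) [NeZero p] [NeZero q] (z : ZMod p → ZMod (p * q))
  (i0 ρ : ZMod p) (θ : ZMod (p * q)) (δ l : ℕ) (k : ℤ), LS p q a b c z i0 ρ θ δ l k →
  2 * a < p → 2 * b < p → a.Coprime p → b.Coprime p →
  (ρ = (a : ZMod p) * b ∨ ρ = -((a : ZMod p) * b)) → 2 ≤ l → k ≠ 0 →
  (|k| < a ∨ (c = 1 ∧ k = -a)) →
  (∀ n m : ZMod p, z m - b * q = z n + ((1 - 2 * (c : ℤ) : ℤ) : ZMod (p * q)) → n - m ≠ b) →
  q < p + l → ∀ (n : ℕ) (x r : ℤ), 0 < n → n < p → n ≠ l → n + l ≠ q → At ρ θ n x r →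
    |x| < b * q → |x + r * q| < a * q → False

theorem stKN_of (h1 : StS1) (h2 : StS2) (h3 : StPL) (h4 : StQ2) : StKN := by
  intro p q a b c _ _ z i0 ρ θ δ l k h h2a h2b hap hbp hρ hl2 hk0 hka hNE n x r hn0 hnp hnl hnq hA
    hx hs
  rcases Nat.lt_or_ge q (p + l) with hq | hq
  · exact h4 p q a b c z i0 ρ θ δ l k h h2a h2b hap hbp hρ hl2 hk0 hka hNE hq n x r hn0 hnp hnl hnq
      hA hx hs
  obtain ⟨s, ds, J, hG⟩ := sg_of h hl2
  have hqR := hG.q0R
  obtain ⟨X, I, hC, hxI⟩ := hG.cex n x r (by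
    have := hA.hx
    push_cast at this ⊢
    exact this) (by
    have := hA.hr
    push_cast at this ⊢
    exact this)
  have hxq : ((X : ℝ) + ds * I) * q = x := by
    rw [hxI]
    field_simp
  have y1 : |(X : ℝ) + ds * I| < b := by
    have h8 : |(x : ℝ)| < b * q := by exact_mod_cast hx
    rw [← hxq, abs_mul, abs_of_pos hqR] at h8
    exact lt_of_mul_lt_mul_right h8 hqR.le
  have y2 : |(X : ℝ) + ds * I + r| < a := by
    have h8 : |(x : ℝ) + r * q| < a * q := by exact_mod_cast hs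
    have h9 : (x : ℝ) + r * q = ((X : ℝ) + ds * I + r) * q := by rw [add_mul, hxq]
    rw [h9, abs_mul, abs_of_pos hqR] at h8
    exact lt_of_mul_lt_mul_right h8 hqR.le
  rw [abs_lt] at y1 y2
  have hB : Bx a b ds X r I := by
    unfold Bx
    push_cast
    exact ⟨y1.1, y1.2, y2.1, y2.2⟩
  by_cases hne : ∃ N X R I, KQ p q a b c ρ θ l s ds N X R I
  · by_cases hS : S2E p q a b c ρ θ l s ds
    · exact h2 p q a b c z i0 ρ θ δ l k s ds J hG h2a h2b hap hbp hρ hl2 hk0 hka hq hS hne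
    · refine h1 p q a b c z i0 ρ θ δ l k s ds J hG h2a h2b hap hbp hρ hl2 hk0 hka hq ?_
      unfold S2E at hS
      push Not at hS
      obtain ⟨N, X, R, I, hK, hS⟩ := hS
      refine ⟨N, X, R, I, hK, ?_⟩
      -- equalities do not occur
      have key : ∀ (A r : ℤ), (A : ℝ) + ds * (X + ds * I + r) ≠ DD p q s := by
        intro A r he
        have hd2 : (ds : ℝ) * ds = 1 := by exact_mod_cast hG.ds2
        have h5 : I - DD p q s = ((-(A + ds * (X + r)) : ℤ) : ℝ) := by
          push_cast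
          linear_combination he - I * hd2
        have h6 := hG.neq hK.cl hG.ccp h5
        have hpq := h.hpq
        have hN0 := hK.N0
        have hNp := hK.Np
        exact ndvd_small (q := q) (m := N - p) (by omega) (by omega) (by omega) h6
      have k1 := key b 0
      have k2 := key a R
      push_cast at k1 k2
      rw [add_zero] at k1
      rcases lt_trichotomy ((b : ℝ) + ds * (X + ds * I)) (DD p q s) with h5 | h5 | h5
      · exact Or.inl h5
      · exact absurd h5 k1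
      · right
        exact lt_of_le_of_ne (hS h5) k2
  · refine h3 p q a b c z i0 ρ θ δ l k s ds J hG h2a h2b hap hbp hρ hl2 hk0 hka hq hne ?_
    have hnp' : n + l = p := by
      by_contra h5
      exact hne ⟨n, X, r, I, hC, by exact_mod_cast hn0, by exact_mod_cast hnp,
        by exact_mod_cast hnl, by exact_mod_cast h5, hB⟩
    have e1 : ((p : ℤ) - l) = n := by omega
    rw [e1]
    exact ⟨X, r, I, hC, hB⟩

end Helper25.KW
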