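import Pool.Agent.Helper55.KE.MReal

set_option autoImplicit false

/-!
# The world of the certified trees (K nonempty)

`Cl N τ X R I`: the cluster with (integer) index `N` has the formal coordinates
`I` (index coordinate), `X` (integer part of the abscissa), `R` (row); the formal abscissa is
`X + ds I`, the exact index coordinate is `I - τ e / q`, the exact abscissa `X + ds I - τ ε / q`.
-/

namespace Helper25.KW

open Helper55.KE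

/-- `x'` is the exact position which belongs to the formal position `x`: strict comparisons with
integers and with integers moved by `dl` are kept -/
def Tr (dl x x' : ℝ) : Prop := ∀ m : ℤ,
  ((m : ℝ) < x → (m : ℝ) < x') ∧ (x < (m : ℝ) → x' < (m : ℝ)) ∧
  ((m : ℝ) + dl < x → (m : ℝ) + dl < x') ∧ (x < (m : ℝ) + dl → x' < (m : ℝ) + dl)

/-- the same without `dl` (crossing levels) -/
def Tz (t t' : ℝ) : Prop := ∀ m : ℤ, ((m : ℝ) < t → (m : ℝ) < t') ∧ (t < (m : ℝ) → t' < (m : ℝ))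

/-- three jump rule of a vertical line with level functions `hv`, `hv'` (in the two windows) and
formal position `v` against a diagonal line with arc `(kd, kd + b]` and formal position `d` -/
def FE (p a b dl : ℝ) (hv hv' : ℝ → ℤ) (v d kd : ℝ) : Prop :=
  ∃ v' d' : ℝ, Tr dl v v' ∧ Tr dl d d' ∧ Tz (d - v) (d' - v') ∧
    ∀ W : ℤ, Helper10.KE.ind p kd b W + Helper10.KE.ind p kd b (d' - v') = 1 →
      |hv W - hv (d' - v')| = 1 → |hv' W - hv' (d' - v')| = 1 →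
      2 * (Helper10.KE.gg p a b dl v' d' W - Helper10.KE.gg p a b dl v' d' (d' - v')) =
        (hv W - hv (d' - v')) - (hv' W - hv' (d' - v'))

/-- the same for the vertical line at `v = -b` exactly -/
def FL (p a b dl : ℝ) (hv hv' : ℝ → ℤ) (v d kd : ℝ) : Prop :=
  ∃ d' : ℝ, Tr dl d d' ∧ Tz (d - v) (d' - v) ∧
    ∀ W : ℤ, Helper10.KE.ind p kd b W + Helper10.KE.ind p kd b (d' - v) = 1 →
      |hv W - hv (d' - v)| = 1 → |hv' W - hv' (d' - v)| = 1 →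
      2 * (Helper10.KE.gg p a b dl v d' W - Helper10.KE.gg p a b dl v d' (d' - v)) =
        (hv W - hv (d' - v)) - (hv' W - hv' (d' - v))

/-- jump two rule, formal crossing level `t` -/
def JE (p b : ℝ) (hv : ℝ → ℤ) (t kd : ℝ) : Prop :=
  ∃ t' : ℝ, Tz t t' ∧ ∀ W : ℤ,
    Helper10.KE.ind p kd b W + Helper10.KE.ind p kd b t' = 1 → |hv W - hv t'| ≤ 1

/-- the complete rule (`Q4` for every `W`) at exact companions -/
def FR (p a b dl : ℝ) (hv hv' : ℝ → ℤ) (v d kd : ℝ) (sd : ℤ) : Prop :=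
  ∃ v' d' : ℝ, Tr dl v v' ∧ Tr dl d d' ∧ Tz (d - v) (d' - v') ∧ RUq p a b dl hv hv' v' d' kd sd

/-- the same with exact `v` -/
def FLR (p a b dl : ℝ) (hv hv' : ℝ → ℤ) (v d kd : ℝ) (sd : ℤ) : Prop :=
  ∃ d' : ℝ, Tr dl d d' ∧ Tz (d - v) (d' - v) ∧ RUq p a b dl hv hv' v d' kd sd

/-- test without diagonal line: ordinate `S`, level `t` -/
def SQ (p a b dl : ℝ) (hv hv' : ℝ → ℤ) (v S t : ℝ) : Prop :=
  ∀ W : ℤ, Q4 (hv W - hv t) (hv' W - hv' t) 0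
    (Helper10.KE.gg p a b dl v S W - Helper10.KE.gg p a b dl v S t)

/-- tests: type 0 (`S = v + t`, `t` an integer) and types 1-4 (`S = B`, `S = dl + B`, `B` an
integer) -/
def FS (p a b dl : ℝ) (hv hv' : ℝ → ℤ) (v : ℝ) : Prop :=
  ∃ v' : ℝ, Tr dl v v' ∧
    (∀ t : ℤ, ∃ S' : ℝ, Tr dl (v + t) S' ∧ SQ p a b dl hv hv' v' S' t) ∧
    (∀ B : ℤ, SQ p a b dl hv hv' v' B (B - v')) ∧
    (∀ B : ℤ, SQ p a b dl hv hv' v' (dl + B) (dl + B - v'))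

/-- tests of type 0 for exact `v` -/
def FSL (p a b dl : ℝ) (hv hv' : ℝ → ℤ) (v : ℝ) : Prop :=
  ∀ t : ℤ, ∃ S' : ℝ, Tr dl (v + t) S' ∧ SQ p a b dl hv hv' v S' t

theorem q4_two {J J' k G : ℤ} (h : Q4 J J' k G) (hk : k = 1 ∨ k = -1) (hJ : |J| = 1)
    (hJ' : |J'| = 1) : 2 * G = J - J' := by
  obtain ⟨F, f1, f2, f3, f4, f5, f6, f7, f8⟩ := h
  rw [abs_le] at f1 f2 f3 f4 f5 f6 f7 f8
  rw [abs_eq (by norm_num)] at hJ hJ'
  rcases hk with rfl | rfl <;> rcases hJ with rfl | rfl <;> rcases hJ' with rfl | rfl <;> omega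

theorem q4_one {J J' k G : ℤ} (h : Q4 J J' k G) (hk : k = 1 ∨ k = -1) : |J| ≤ 1 := by
  obtain ⟨F, f1, f2, f3, f4, f5, f6, f7, f8⟩ := h
  rw [abs_le] at f1 f2 f3 f4 f5 f6 f7 f8 ⊢
  rcases hk with rfl | rfl <;> omega

theorem q4_one' {J J' k G : ℤ} (h : Q4 J J' k G) (hk : k = 1 ∨ k = -1) : |J'| ≤ 1 := by
  obtain ⟨F, f1, f2, f3, f4, f5, f6, f7, f8⟩ := h
  rw [abs_le] at f1 f2 f3 f4 f5 f6 f7 f8 ⊢
  rcases hk with rfl | rfl <;> omega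

theorem ind_jump {p kd b W t : ℝ} {sd : ℤ} (hsd : sd = 1 ∨ sd = -1)
    (h : Helper10.KE.ind p kd b W + Helper10.KE.ind p kd b t = 1) :
    sd * (Helper10.KE.ind p kd b W - Helper10.KE.ind p kd b t) = 1 ∨
      sd * (Helper10.KE.ind p kd b W - Helper10.KE.ind p kd b t) = -1 := by
  rcases ind_sum_one h with h1 | h1 <;> rcases hsd with rfl | rfl <;> rw [h1] <;> omega

theorem FR.fe {p a b dl : ℝ} {hv hv' : ℝ → ℤ} {v d kd : ℝ} {sd : ℤ}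
    (h : FR p a b dl hv hv' v d kd sd) (hsd : sd = 1 ∨ sd = -1) : FE p a b dl hv hv' v d kd := by
  obtain ⟨v', d', h1, h2, h3, H⟩ := h
  exact ⟨v', d', h1, h2, h3, fun W hW hJ hJ' => q4_two (H W) (ind_jump hsd hW) hJ hJ'⟩

theorem FLR.fe {p a b dl : ℝ} {hv hv' : ℝ → ℤ} {v d kd : ℝ} {sd : ℤ}
    (h : FLR p a b dl hv hv' v d kd sd) (hsd : sd = 1 ∨ sd = -1) :
    FL p a b dl hv hv' v d kd := by
  obtain ⟨d', h2, h3, H⟩ := h
  exact ⟨d', h2, h3, fun W hW hJ hJ' => q4_two (H W) (ind_jump hsd hW) hJ hJ'⟩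

/-- jump two rule of the first window from the complete rule -/
theorem FLR.je {p a b dl : ℝ} {hv hv' : ℝ → ℤ} {v d kd : ℝ} {sd : ℤ}
    (h : FLR p a b dl hv hv' v d kd sd) (hsd : sd = 1 ∨ sd = -1) :
    JE p b hv (d - v) kd := by
  obtain ⟨d', h2, h3, H⟩ := h
  exact ⟨d' - v, h3, fun W hW => q4_one (H W) (ind_jump hsd hW)⟩

/-- jump two rule of the second window from the complete rule -/
theorem FLR.je' {p a b dl : ℝ} {hv hv' : ℝ → ℤ} {v d kd : ℝ} {sd : ℤ}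
    (h : FLR p a b dl hv hv' v d kd sd) (hsd : sd = 1 ∨ sd = -1) :
    JE p b hv' (d - v) kd := by
  obtain ⟨d', h2, h3, H⟩ := h
  exact ⟨d' - v, h3, fun W hW => q4_one' (H W) (ind_jump hsd hW)⟩

/-- level function of a line which is not merged -/
noncomputable def hu (p a k w : ℝ) : ℤ := Helper10.KE.ind p k a w

/-- coordinates; `dl = δ / q`; `c` is the class (`k` of `LS`), `c ≠ 0`, `-a ≤ c < a` -/
structure Base (p a b c J ds l q : ℤ) (D dl : ℝ) (Cl : ℤ → ℤ → ℤ → ℤ → ℝ → Prop) : Prop where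
  hds : ds = 1 ∧ dl = D ∨ ds = -1 ∧ dl = p - D
  ha : 2 ≤ a
  h2a : 2 * a < p
  hb : 2 ≤ b
  h2b : 2 * b < p
  hc0 : c ≠ 0
  hca : -a ≤ c
  hca' : c < a
  hl : 2 ≤ l
  hlp : l < p
  hpq : p < q
  hJ : 1 ≤ J
  hJD : (J : ℝ) < D
  hD : 2 * D < p
  add : ∀ {N τ X R N' τ' X' R' : ℤ} {I I' : ℝ}, Cl N τ X R I → Cl N' τ' X' R' I' →
    Cl (N + N') (τ + τ') (X + X') (R + R') (I + I')
  neg : ∀ {N τ X R : ℤ} {I : ℝ}, Cl N τ X R I → Cl (-N) (-τ) (-X) (-R) (-I)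
  cp : Cl p 0 0 0 D
  cX : Cl 0 0 p 0 0
  cR : Cl 0 0 0 p 0
  cl : Cl l 1 (-b - ds * J) (c + b) J
  /-- order -/
  pos : ∀ {N τ X R : ℤ} {I : ℝ}, Cl N τ X R I → |τ| ≤ 2 → 0 < I → 0 ≤ N
  ltp : ∀ {N τ X R : ℤ} {I : ℝ}, Cl N τ X R I → |τ| ≤ 2 → I < D → N ≤ p
  pos0 : ∀ {N X R : ℤ} {I : ℝ}, Cl N 0 X R I → (0 < I ↔ 0 < N)
  ltp0 : ∀ {N X R : ℤ} {I : ℝ}, Cl N 0 X R I → (I < D ↔ N < p)
  ne0 : ∀ {N τ X R : ℤ} {I : ℝ}, Cl N τ X R I → |τ| ≤ 1 → (N ≠ 0 ∨ τ ≠ 0) → I ≠ 0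
  neD : ∀ {N τ X R : ℤ} {I : ℝ}, Cl N τ X R I → |τ| ≤ 1 → (N ≠ p ∨ τ ≠ 0) → I ≠ D
  /-- an integer index coordinate -/
  int : ∀ {N τ X R m : ℤ} {I : ℝ}, Cl N τ X R I → I = m → q ∣ N - τ * l
  dvd : ∀ {N τ X R : ℤ} {I : ℝ}, Cl N τ X R I → (p ∣ N ↔ p ∣ R)
  dvX : ∀ {N τ X R : ℤ} {I : ℝ}, Cl N τ X R I → p ∣ N → p ∣ X

/-- the world for `p + l ≤ q` -/
structure World (p a b c J ds l q : ℤ) (D dl : ℝ) (Cl : ℤ → ℤ → ℤ → ℤ → ℝ → Prop) : Prop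
    extends Base p a b c J ds l q D dl Cl where
  hq : p + l ≤ q
  /-- (C) -/
  nint : ∀ {N τ X R N' τ' X' R' : ℤ} {I I' : ℝ}, Cl N τ X R I → Cl N' τ' X' R' I' →
    |τ - τ'| ≤ 1 → 0 < N → N < p → 0 ≤ N' → N' ≤ p → N - N' ≠ (τ - τ') * l →
    ∀ m : ℤ, I - I' ≠ m
  /-- right side of `n < l` (not merged) -/
  ruleUR : ∀ {N τ X R N' τ' X' R' : ℤ} {I I' : ℝ}, Cl N τ X R I → Cl N' τ' X' R' I' →
    |τ| ≤ 1 → |τ'| ≤ 1 → (τ' = τ + 2 → N' ≠ N + l) → 0 < N → N < l → 0 < N' → N' < p → N' ≠ N →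
    FR p a b dl (hu p a R) (hu p a R) (X + ds * I) (X' + ds * I' + R') R' (-1) ∧
    FR p a b dl (hu p a R) (hu p a R) (X + ds * I) (X' + ds * I' + R' + a) (R' + a) 1
  /-- right side of `n > l`, merged -/
  ruleMR : ∀ {N τ X R N' τ' X' R' : ℤ} {I I' : ℝ}, Cl N τ X R I → Cl N' τ' X' R' I' →
    |τ| ≤ 1 → |τ'| ≤ 1 → (τ' = τ + 2 → N' ≠ N + l) → l < N → N < p → 0 < N' → N' < p →
    N' ≠ N → N' + l ≠ N →
    FR p a b dl (hh p a (-c) R) (hh p a (-c) R) (X + ds * I) (X' + ds * I' + R') R' (-1) ∧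
    FR p a b dl (hh p a (-c) R) (hh p a (-c) R) (X + ds * I) (X' + ds * I' + R' + a) (R' + a) 1
  /-- right side of `l`, merged with the left side of `0` in the first window -/
  ruleLR : ∀ {N' τ' X' R' : ℤ} {I' : ℝ}, Cl N' τ' X' R' I' →
    |τ'| ≤ 1 → 0 < N' → N' < p → N' ≠ l →
    FLR p a b dl (hh p a (-c) (c + b)) (hu p a (c + b)) (-b) (X' + ds * I' + R') R' (-1) ∧
    FLR p a b dl (hh p a (-c) (c + b)) (hu p a (c + b)) (-b) (X' + ds * I' + R' + a) (R' + a) 1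
  /-- tests for `n < l` -/
  testU : ∀ {N τ X R : ℤ} {I : ℝ}, Cl N τ X R I → |τ| ≤ 1 → 0 < N → N < l →
    FS p a b dl (hu p a R) (hu p a R) (X + ds * I)
  /-- tests for `n > l` -/
  testM : ∀ {N τ X R : ℤ} {I : ℝ}, Cl N τ X R I → |τ| ≤ 1 → l < N → N < p →
    FS p a b dl (hh p a (-c) R) (hh p a (-c) R) (X + ds * I)
  /-- tests of type 0 for `n = l` -/
  testL : FSL p a b dl (hh p a (-c) (c + b)) (hu p a (c + b)) (-b)
  /-- jump two rule for `n ≥ l` -/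
  ruleJ : ∀ {N τ X R N' τ' X' R' : ℤ} {I I' : ℝ}, Cl N τ X R I → Cl N' τ' X' R' I' →
    |τ| ≤ 1 → |τ'| ≤ 1 → (τ' = τ + 2 → N' ≠ N + l) → l ≤ N → N < p → 0 ≤ N' → N' < p →
    N' ≠ N → N' + l ≠ N →
    JE p b (hh p a (-c) R) (X' + ds * I' + R' - (X + ds * I)) R' ∧
    JE p b (hh p a (-c) R) (X' + ds * I' + R' + a - (X + ds * I)) (R' + a)

section

variable {p a b c J ds l q : ℤ} {D dl : ℝ} {Cl : ℤ → ℤ → ℤ → ℤ → ℝ → Prop}

/-- right side of `n < l` (not merged) -/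
theorem World.ruleU (W : World p a b c J ds l q D dl Cl) {N τ X R N' τ' X' R' : ℤ} {I I' : ℝ}
    (hC : Cl N τ X R I) (hC' : Cl N' τ' X' R' I') (h1 : |τ| ≤ 1) (h2 : |τ'| ≤ 1)
    (h3 : τ' = τ + 2 → N' ≠ N + l) (h4 : 0 < N) (h5 : N < l) (h6 : 0 < N') (h7 : N' < p)
    (h8 : N' ≠ N) :
    FE p a b dl (hu p a R) (hu p a R) (X + ds * I) (X' + ds * I' + R') R' ∧
    FE p a b dl (hu p a R) (hu p a R) (X + ds * I) (X' + ds * I' + R' + a) (R' + a) := by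
  obtain ⟨g1, g2⟩ := W.ruleUR hC hC' h1 h2 h3 h4 h5 h6 h7 h8
  exact ⟨g1.fe (Or.inr rfl), g2.fe (Or.inl rfl)⟩

/-- right side of `n > l`, merged -/
theorem World.ruleM (W : World p a b c J ds l q D dl Cl) {N τ X R N' τ' X' R' : ℤ} {I I' : ℝ}
    (hC : Cl N τ X R I) (hC' : Cl N' τ' X' R' I') (h1 : |τ| ≤ 1) (h2 : |τ'| ≤ 1)
    (h3 : τ' = τ + 2 → N' ≠ N + l) (h4 : l < N) (h5 : N < p) (h6 : 0 < N') (h7 : N' < p)
    (h8 : N' ≠ N) (h9 : N' + l ≠ N) :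
    FE p a b dl (hh p a (-c) R) (hh p a (-c) R) (X + ds * I) (X' + ds * I' + R') R' ∧
    FE p a b dl (hh p a (-c) R) (hh p a (-c) R) (X + ds * I) (X' + ds * I' + R' + a)
      (R' + a) := by
  obtain ⟨g1, g2⟩ := W.ruleMR hC hC' h1 h2 h3 h4 h5 h6 h7 h8 h9
  exact ⟨g1.fe (Or.inr rfl), g2.fe (Or.inl rfl)⟩

/-- right side of `l`, merged with the left side of `0` in the first window -/
theorem World.ruleL (W : World p a b c J ds l q D dl Cl) {N' τ' X' R' : ℤ} {I' : ℝ}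
    (hC' : Cl N' τ' X' R' I') (h2 : |τ'| ≤ 1) (h6 : 0 < N') (h7 : N' < p) (h8 : N' ≠ l) :
    FL p a b dl (hh p a (-c) (c + b)) (hu p a (c + b)) (-b) (X' + ds * I' + R') R' ∧
    FL p a b dl (hh p a (-c) (c + b)) (hu p a (c + b)) (-b) (X' + ds * I' + R' + a) (R' + a) ∧
    JE p b (hh p a (-c) (c + b)) (X' + ds * I' + R' + b) R' ∧
    JE p b (hh p a (-c) (c + b)) (X' + ds * I' + R' + a + b) (R' + a) := by
  obtain ⟨g1, g2⟩ := W.ruleLR hC' h2 h6 h7 h8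
  have j1 := g1.je (Or.inr rfl)
  have j2 := g2.je (Or.inl rfl)
  rw [sub_neg_eq_add] at j1 j2
  exact ⟨g1.fe (Or.inr rfl), g2.fe (Or.inl rfl), j1, j2⟩

end

/-- the world `S2`: `K'` (overlap vectors with `n ≠ l`, `n ≠ p - l`) is closed under `n → p - n` -/
def KS2 (p a b l ds : ℤ) (D : ℝ) (Cl : ℤ → ℤ → ℤ → ℤ → ℝ → Prop) : Prop :=
  ∀ {N τ X R : ℤ} {I : ℝ}, Cl N τ X R I → |τ| ≤ 1 → 0 < N → N < p → N ≠ l → N + l ≠ p →
    -(b : ℝ) < X + ds * I → X + ds * I < b → -(a : ℝ) < X + ds * I + R → X + ds * I + R < a →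
    D ≤ b + ds * (X + ds * I) ∧ D ≤ a + ds * (X + ds * I + R)

/-- extremality of the cluster `Nk`: `g z s ≤ gk` on `K'`; `g = z, -z, s, -s` for `EXT = 1, 2, 3, 4` -/
def KExt (p a b l ds : ℤ) (Cl : ℤ → ℤ → ℤ → ℤ → ℝ → Prop) (Nk : ℤ) (g : ℝ → ℝ → ℝ)
    (gk : ℝ) : Prop :=
  ∀ {N τ X R : ℤ} {I : ℝ}, Cl N τ X R I → |τ| ≤ 1 → 0 < N → N < p → N ≠ l → N + l ≠ p →
    (τ = 0 ∨ N ≠ Nk) →
    -(b : ℝ) < X + ds * I → X + ds * I < b → -(a : ℝ) < X + ds * I + R → X + ds * I + R < a →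
    g (X + ds * I) (X + ds * I + R) ≤ gk

end Helper25.KW
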