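import Pool.Agent.Helper25.KW.K9

set_option autoImplicit false
set_option linter.unusedSectionVars false
set_option linter.unusedVariables false

/-!
# The two minimal elements `Y`, `W` of the world `S1`: definitions
-/

namespace Helper25.KW

open Helper11.N1 Helper55.KE

/-- `b + ds x` is at least `m` on `K'` -/
def KMY (p a b ds : ℤ) (P : ℤ → Prop) (Cl : ℤ → ℤ → ℤ → ℤ → ℝ → Prop) (Nk : ℤ) (m : ℝ) : Prop :=
  ∀ {N τ X R : ℤ} {I : ℝ}, Cl N τ X R I → |τ| ≤ 1 → 0 < N → N < p → P N → (τ = 0 ∨ N ≠ Nk) →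
    Bx a b ds X R I → m ≤ b + ds * (X + ds * I)

/-- `a + ds s` is at least `m` on `K'` -/
def KMW (p a b ds : ℤ) (P : ℤ → Prop) (Cl : ℤ → ℤ → ℤ → ℤ → ℝ → Prop) (Nk : ℤ) (m : ℝ) : Prop :=
  ∀ {N τ X R : ℤ} {I : ℝ}, Cl N τ X R I → |τ| ≤ 1 → 0 < N → N < p → P N → (τ = 0 ∨ N ≠ Nk) →
    Bx a b ds X R I → m ≤ a + ds * (X + ds * I + R)

/-- `b + ds x` is at least `D` on `K'` -/
def KGe (p a b ds : ℤ) (D : ℝ) (P : ℤ → Prop) (Cl : ℤ → ℤ → ℤ → ℤ → ℝ → Prop) : Prop :=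
  ∀ {N τ X R : ℤ} {I : ℝ}, Cl N τ X R I → |τ| ≤ 1 → 0 < N → N < p → P N →
    Bx a b ds X R I → D ≤ b + ds * (X + ds * I)

/-- the two cases of `S1` -/
def YW (p a b ds : ℤ) (D : ℝ) (P : ℤ → Prop) (Cl : ℤ → ℤ → ℤ → ℤ → ℝ → Prop) : Prop :=
  (∃ (N X R : ℤ) (I : ℝ), KGF p a b ds D P Cl N X R I ∧
    KMY p a b ds P Cl N (b + ds * (X + ds * I)) ∧ b + ds * (X + ds * I) < D) ∨
  (∃ (N X R : ℤ) (I : ℝ), KGF p a b ds D P Cl N X R I ∧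
    KMW p a b ds P Cl N (a + ds * (X + ds * I + R)) ∧ a + ds * (X + ds * I + R) < D ∧
    D < b + ds * (X + ds * I) ∧ KGe p a b ds D P Cl)

end Helper25.KW
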