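import Pool.Agent.Helper25.KW.S1K

set_option autoImplicit false
set_option linter.unusedSectionVars false
set_option linter.unusedVariables false

/-!
# Free choice of the element of `K'`: consequences in the world
-/

namespace Helper25.KW

open Helper11.N1 Helper55.KE

/-- a condition on the coordinates which the exact companion keeps -/
def Keep (ds : ℤ) (dl : ℝ) (Z : ℤ → ℤ → ℝ → Prop) : Prop :=
  ∀ (X R : ℤ) (I I' : ℝ), Tr dl (X + ds * I) (X + ds * I') →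
    Tr dl (X + ds * I + R) (X + ds * I' + R) → Z X R I → Z X R I'

/-- no element of `K'` with the condition `Z` -/
def KNo (p a b l ds : ℤ) (Cl : ℤ → ℤ → ℤ → ℤ → ℝ → Prop) (Z : ℤ → ℤ → ℝ → Prop) : Prop :=
  ∀ {N τ X R : ℤ} {I : ℝ}, Cl N τ X R I → |τ| ≤ 1 → 0 < N → N < p → P1 l p N →
    Bx a b ds X R I → Z X R I → False

/-- `f ≥ m` on the elements of `K'` with the condition `Z` -/
def KZ (p a b l ds : ℤ) (Cl : ℤ → ℤ → ℤ → ℤ → ℝ → Prop) (Z : ℤ → ℤ → ℝ → Prop) (Nk : ℤ)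
    (f : ℤ → ℤ → ℝ → ℝ) (m : ℝ) : Prop :=
  ∀ {N τ X R : ℤ} {I : ℝ}, Cl N τ X R I → |τ| ≤ 1 → 0 < N → N < p → P1 l p N →
    (τ = 0 ∨ N ≠ Nk) → Bx a b ds X R I → Z X R I →
    m ≤ f X R I

section

variable {p a b c J ds l q : ℤ} {D dl : ℝ} {Cl : ℤ → ℤ → ℤ → ℤ → ℝ → Prop}

theorem Bx.tr {X R : ℤ} {I I' : ℝ} (h : Bx a b ds X R I)
    (h1 : Tr dl (X + ds * I) (X + ds * I')) (h2 : Tr dl (X + ds * I + R) (X + ds * I' + R)) :
    Bx a b ds X R I' := by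
  obtain ⟨b1, b2, b3, b4⟩ := h
  refine ⟨?_, (h1 b).2.1 b2, ?_, (h2 a).2.1 b4⟩
  · have := (h1 (-b)).1
    push_cast at this
    exact this b1
  · have := (h2 (-a)).1
    push_cast at this
    exact this b3

theorem Bx.uniq (W : Base p a b c J ds l q D dl Cl) {N X R X' R' : ℤ} {I I' : ℝ}
    (h1 : Cl N 0 X R I) (h2 : Cl N 0 X' R' I') (b1 : Bx a b ds X R I) (b2 : Bx a b ds X' R' I') :
    X = X' ∧ R = R' ∧ I = I' := by
  have h3 := W.add h1 (W.neg h2)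
  have h4 := W.add h2 (W.neg h1)
  rw [add_neg_cancel, neg_zero, add_zero] at h3 h4
  have e1 : ¬ 0 < I + -I' := fun h => absurd ((W.pos0 h3).1 h) (lt_irrefl _)
  have e2 : ¬ 0 < I' + -I := fun h => absurd ((W.pos0 h4).1 h) (lt_irrefl _)
  have e3 : I = I' := by linarith
  subst e3
  obtain ⟨c1, c2, c3, c4⟩ := b1
  obtain ⟨d1, d2, d3, d4⟩ := b2
  have k1 : p ∣ X + -X' := W.dvX h3 (dvd_zero _)
  have k2 : p ∣ R + -R' := (W.dvd h3).1 (dvd_zero _)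
  have g1 : X + -X' < 2 * b := by
    have : ((X + -X' : ℤ) : ℝ) < ((2 * b : ℤ) : ℝ) := by push_cast; linarith
    exact_mod_cast this
  have g2 : -(2 * b) < X + -X' := by
    have : ((-(2 * b) : ℤ) : ℝ) < ((X + -X' : ℤ) : ℝ) := by push_cast; linarith
    exact_mod_cast this
  have hb := W.h2b
  have ha := W.h2a
  have k3 : X + -X' = 0 := by
    obtain ⟨w, hw⟩ := k1
    have hp : 0 < p := by have := W.ha; omega
    have w1 : w < 1 := by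
      by_contra hc
      have : p * 1 ≤ p * w := mul_le_mul_of_nonneg_left (not_lt.mp hc) hp.le
      omega
    have w2 : -1 < w := by
      by_contra hc
      have : p * w ≤ p * (-1) := mul_le_mul_of_nonneg_left (not_lt.mp hc) hp.le
      omega
    have : w = 0 := by omega
    rw [hw, this, mul_zero]
  have k4 : X = X' := by omega
  subst k4
  have g3 : R + -R' < 2 * a := by
    have : ((R + -R' : ℤ) : ℝ) < ((2 * a : ℤ) : ℝ) := by push_cast; linarith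
    exact_mod_cast this
  have g4 : -(2 * a) < R + -R' := by
    have : ((-(2 * a) : ℤ) : ℝ) < ((R + -R' : ℤ) : ℝ) := by push_cast; linarith
    exact_mod_cast this
  have k5 : R + -R' = 0 := by
    obtain ⟨w, hw⟩ := k2
    have hp : 0 < p := by have := W.ha; omega
    have w1 : w < 1 := by
      by_contra hc
      have : p * 1 ≤ p * w := mul_le_mul_of_nonneg_left (not_lt.mp hc) hp.le
      omega
    have w2 : -1 < w := by
      by_contra hc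
      have : p * w ≤ p * (-1) := mul_le_mul_of_nonneg_left (not_lt.mp hc) hp.le
      omega
    have : w = 0 := by omega
    rw [hw, this, mul_zero]
  exact ⟨rfl, by omega, rfl⟩

/-- nothing at `τ = 0`, nothing at all -/
theorem Sel.no (S : Sel p a b l ds D dl Cl) {Z : ℤ → ℤ → ℝ → Prop} (hZ : Keep ds dl Z)
    (h : ¬ ∃ N X R I, KG p a b ds (P1 l p) Cl N X R I ∧ Z X R I) :
    KNo p a b l ds Cl Z := by
  intro N τ X R I hC hτ h0 hp hP hb hz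
  obtain ⟨I', h1, h2, h3⟩ := S.tr hC hτ h0 hp
  exact h ⟨N, X, R, I', ⟨h1, h0, hp, hP, hb.tr h2 h3⟩, hZ _ _ _ _ h2 h3 hz⟩

theorem Sel.pickz (S : Sel p a b l ds D dl Cl) (W : Base p a b c J ds l q D dl Cl)
    {Z : ℤ → ℤ → ℝ → Prop} (hZ : Keep ds dl Z) (σ : ℤ) (hσ : σ = 1 ∨ σ = -1)
    (h : ∃ N X R I, KG p a b ds (P1 l p) Cl N X R I ∧ Z X R I) :
    ∃ N X R I, KGF p a b ds D (P1 l p) Cl N X R I ∧ Z X R I ∧
      KZ p a b l ds Cl Z N (fun X R I => σ * (X + ds * I)) (σ * (X + ds * I)) := by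
  obtain ⟨N0, X0, R0, I0, hK0, hz0⟩ := h
  obtain ⟨N, X, R, I, hK, hE⟩ := S.ez (fun N => ∃ X R I, Cl N 0 X R I ∧ Bx a b ds X R I ∧
    Z X R I) σ hσ
    ⟨N0, X0, R0, I0, ⟨hK0.cl, hK0.N0, hK0.Np, ⟨hK0.NP, X0, R0, I0, hK0.cl, hK0.bx, hz0⟩, hK0.bx⟩⟩
  obtain ⟨hP, X1, R1, I1, hC1, hb1, hz1⟩ := hK.NP
  obtain ⟨e1, e2, e3⟩ := Bx.uniq W hK.cl hC1 hK.bx hb1
  subst e1 e2 e3
  refine ⟨N, X, R, I, ⟨⟨hK.cl, hK.N0, hK.Np, hP, hK.bx⟩, hK.I0, hK.ID, hK.R0⟩, hz1, ?_⟩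
  intro N' τ X' R' I' hC hτ h0 hp hP' hx hb hz
  obtain ⟨I2, h1, h2, h3⟩ := S.tr hC hτ h0 hp
  have := hE hC hτ h0 hp ⟨hP', X', R', I2, h1, hb.tr h2 h3, hZ _ _ _ _ h2 h3 hz⟩ hx hb
  linarith

theorem Sel.picks (S : Sel p a b l ds D dl Cl) (W : Base p a b c J ds l q D dl Cl)
    {Z : ℤ → ℤ → ℝ → Prop} (hZ : Keep ds dl Z) (σ : ℤ) (hσ : σ = 1 ∨ σ = -1)
    (h : ∃ N X R I, KG p a b ds (P1 l p) Cl N X R I ∧ Z X R I) :
    ∃ N X R I, KGF p a b ds D (P1 l p) Cl N X R I ∧ Z X R I ∧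
      KZ p a b l ds Cl Z N (fun X R I => σ * (X + ds * I + R)) (σ * (X + ds * I + R)) := by
  obtain ⟨N0, X0, R0, I0, hK0, hz0⟩ := h
  obtain ⟨N, X, R, I, hK, hE⟩ := S.es (fun N => ∃ X R I, Cl N 0 X R I ∧ Bx a b ds X R I ∧
    Z X R I) σ hσ
    ⟨N0, X0, R0, I0, ⟨hK0.cl, hK0.N0, hK0.Np, ⟨hK0.NP, X0, R0, I0, hK0.cl, hK0.bx, hz0⟩, hK0.bx⟩⟩
  obtain ⟨hP, X1, R1, I1, hC1, hb1, hz1⟩ := hK.NP
  obtain ⟨e1, e2, e3⟩ := Bx.uniq W hK.cl hC1 hK.bx hb1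
  subst e1 e2 e3
  refine ⟨N, X, R, I, ⟨⟨hK.cl, hK.N0, hK.Np, hP, hK.bx⟩, hK.I0, hK.ID, hK.R0⟩, hz1, ?_⟩
  intro N' τ X' R' I' hC hτ h0 hp hP' hx hb hz
  obtain ⟨I2, h1, h2, h3⟩ := S.tr hC hτ h0 hp
  have := hE hC hτ h0 hp ⟨hP', X', R', I2, h1, hb.tr h2 h3, hZ _ _ _ _ h2 h3 hz⟩ hx hb
  linarith

/-- the element with minimal index coordinate -/
theorem Sel.picki (S : Sel p a b l ds D dl Cl) (W : Base p a b c J ds l q D dl Cl)
    {Z : ℤ → ℤ → ℝ → Prop} (hZ : Keep ds dl Z)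
    (h : ∃ N X R I, KG p a b ds (P1 l p) Cl N X R I ∧ Z X R I) :
    ∃ N X R I, KGF p a b ds D (P1 l p) Cl N X R I ∧ Z X R I ∧
      KZ p a b l ds Cl Z N (fun _ _ I => I) I := by
  classical
  have h0 : ∃ n : ℕ, ∃ X R I, KG p a b ds (P1 l p) Cl n X R I ∧ Z X R I := by
    obtain ⟨N, X, R, I, hK, hz⟩ := h
    refine ⟨N.toNat, X, R, I, ?_, hz⟩
    rw [Int.toNat_of_nonneg hK.N0.le]
    exact hK
  obtain ⟨X, R, I, hK, hz⟩ := Nat.find_spec h0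
  have hmin : ∀ {n : ℕ} {X R : ℤ} {I : ℝ}, KG p a b ds (P1 l p) Cl n X R I → Z X R I →
      Nat.find h0 ≤ n := fun h1 h2 => Nat.find_min' h0 ⟨_, _, _, h1, h2⟩
  obtain ⟨N, X', R', I', hK', -⟩ := S.ez (fun N => N = (Nat.find h0 : ℤ)) 1 (Or.inl rfl)
    ⟨_, X, R, I, ⟨hK.cl, hK.N0, hK.Np, ⟨hK.NP, rfl⟩, hK.bx⟩⟩
  have hN : N = (Nat.find h0 : ℤ) := hK'.NP.2
  subst hN
  obtain ⟨e1, e2, e3⟩ := Bx.uniq W hK.cl hK'.cl hK.bx hK'.bx
  subst e1 e2 e3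
  refine ⟨_, X, R, I, ⟨hK, hK'.I0, hK'.ID, hK'.R0⟩, hz, ?_⟩
  intro N' τ X' R' I' hC hτ h0' hp hP' hx hb hz'
  obtain ⟨I2, h1, h2, h3⟩ := S.tr hC hτ h0' hp
  have hm : (Nat.find h0 : ℤ) ≤ N' := by
    have := hmin (n := N'.toNat) (X := X') (R := R') (I := I2) (by
      rw [Int.toNat_of_nonneg h0'.le]
      exact ⟨h1, h0', hp, hP', hb.tr h2 h3⟩) (hZ _ _ _ _ h2 h3 hz')
    omega
  by_contra hlt
  push Not at hlt
  have hd := W.add hK.cl (W.neg hC)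
  have h4 := W.pos hd (by rw [zero_add, abs_neg]; omega) (by linarith)
  have h5 : N' = (Nat.find h0 : ℤ) := by omega
  rcases hx with h6 | h6
  · subst h6
    subst h5
    rw [neg_zero, add_zero, add_neg_cancel] at hd
    exact absurd ((W.pos0 hd).1 (by linarith)) (lt_irrefl _)
  · exact h6 h5

/-! ### the conditions -/

/-- the zone `y < D` -/
def Zy (b ds : ℤ) (D : ℝ) (X _ : ℤ) (I : ℝ) : Prop := b + ds * (X + ds * I) < D

/-- `x < 0` -/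
def Zx (ds : ℤ) (X _ : ℤ) (I : ℝ) : Prop := X + ds * I < 0

/-- `0 < x` -/
def Zp (ds : ℤ) (X _ : ℤ) (I : ℝ) : Prop := 0 < X + ds * I

/-- `s < 0` -/
def Zs (ds : ℤ) (X R : ℤ) (I : ℝ) : Prop := X + ds * I + R < 0

/-- `0 < s` -/
def Zsp (ds : ℤ) (X R : ℤ) (I : ℝ) : Prop := 0 < X + ds * I + R

/-- `i < m` -/
def Zi (m : ℤ) (_ _ : ℤ) (I : ℝ) : Prop := I < m

/-- `i < D - m` -/
def ZiD (D : ℝ) (m : ℤ) (_ _ : ℤ) (I : ℝ) : Prop := I + m < D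

theorem keep_Zy (W : Base p a b c J ds l q D dl Cl) : Keep ds dl (Zy b ds D) := by
  intro X R I I' h1 h2 hz
  unfold Zy at *
  rcases W.hds with ⟨rfl, h3⟩ | ⟨rfl, h3⟩
  · have := (h1 (-b)).2.2.2
    push_cast at *
    have h4 := this (by rw [h3]; linarith)
    rw [h3] at h4
    linarith
  · have := (h1 (b - p)).2.2.1
    push_cast at *
    have h4 := this (by rw [h3]; linarith)
    rw [h3] at h4
    linarith

theorem keep_Zx : Keep ds dl (Zx ds) := by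
  intro X R I I' h1 h2 hz
  have := (h1 0).2.1
  push_cast at this
  exact this hz

theorem keep_Zp : Keep ds dl (Zp ds) := by
  intro X R I I' h1 h2 hz
  have := (h1 0).1
  push_cast at this
  exact this hz

theorem keep_Zs : Keep ds dl (Zs ds) := by
  intro X R I I' h1 h2 hz
  have := (h2 0).2.1
  push_cast at this
  exact this hz

theorem keep_Zsp : Keep ds dl (Zsp ds) := by
  intro X R I I' h1 h2 hz
  have := (h2 0).1
  push_cast at this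
  exact this hz

theorem keep_Zi (W : Base p a b c J ds l q D dl Cl) (m : ℤ) : Keep ds dl (Zi m) := by
  intro X R I I' h1 h2 hz
  unfold Zi at *
  rcases W.hds with ⟨rfl, h3⟩ | ⟨rfl, h3⟩
  · have := (h1 (X + m)).2.1
    push_cast at *
    have h4 := this (by linarith)
    linarith
  · have := (h1 (X - m)).1
    push_cast at *
    have h4 := this (by linarith)
    linarith

theorem keep_ZiD (W : Base p a b c J ds l q D dl Cl) (m : ℤ) : Keep ds dl (ZiD D m) := by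
  intro X R I I' h1 h2 hz
  unfold ZiD at *
  rcases W.hds with ⟨rfl, h3⟩ | ⟨rfl, h3⟩
  · have := (h1 (X - m)).2.2.2
    push_cast at *
    have h4 := this (by rw [h3]; linarith)
    rw [h3] at h4
    linarith
  · have := (h1 (X + m - p)).2.2.1
    push_cast at *
    have h4 := this (by rw [h3]; linarith)
    rw [h3] at h4
    linarith

theorem Keep.and {Z Z' : ℤ → ℤ → ℝ → Prop} (h : Keep ds dl Z) (h' : Keep ds dl Z') :
    Keep ds dl (fun X R I => Z X R I ∧ Z' X R I) :=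
  fun X R I I' h1 h2 hz => ⟨h X R I I' h1 h2 hz.1, h' X R I I' h1 h2 hz.2⟩

theorem KNo.mono {Z Z' : ℤ → ℤ → ℝ → Prop} (h : KNo p a b l ds Cl Z)
    (hZ : ∀ X R I, Bx a b ds X R I → Z' X R I → Z X R I) : KNo p a b l ds Cl Z' :=
  fun h1 h2 h3 h4 h5 h6 h7 => h h1 h2 h3 h4 h5 h6 (hZ _ _ _ h6 h7)

theorem KZ.mono {Z Z' : ℤ → ℤ → ℝ → Prop} {Nk : ℤ} {f : ℤ → ℤ → ℝ → ℝ} {m : ℝ}
    (h : KZ p a b l ds Cl Z Nk f m)
    (hZ : ∀ X R I, Bx a b ds X R I → Z' X R I → Z X R I) : KZ p a b l ds Cl Z' Nk f m :=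
  fun h1 h2 h3 h4 h5 h6 h7 h8 => h h1 h2 h3 h4 h5 h6 h7 (hZ _ _ _ h7 h8)

theorem ne_z (W : Base p a b c J ds l q D dl Cl) {N X R : ℤ} {I : ℝ}
    (h : KG p a b ds (P1 l p) Cl N X R I) : (X : ℝ) + ds * I ≠ 0 := by
  intro h0
  have hd : (ds : ℝ) * ds = 1 := by
    rcases W.hds with ⟨rfl, _⟩ | ⟨rfl, _⟩ <;> norm_num
  have h1 : I = ((-(ds * X) : ℤ) : ℝ) := by
    push_cast
    linear_combination (ds : ℝ) * h0 - I * hd
  have h2 := W.int h.cl h1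
  rw [zero_mul, sub_zero] at h2
  have h3 := Int.le_of_dvd h.N0 h2
  have h4 := h.Np
  have h5 := W.hpq
  omega

end

/-! ### the classes -/

/-- a part of `Y`, `b < 2 a`, with the free choice -/
def CZs (sc ds : ℤ) (Q : ℤ → ℤ → ℤ → Prop) : Prop :=
  ∀ (p a b c J l q : ℤ) (D dl : ℝ) (Cl : ℤ → ℤ → ℤ → ℤ → ℝ → Prop),
  World p a b c J ds l q D dl Cl → -a < c → 0 < sc * c → b < 2 * a →
  ∀ (N X R : ℤ) (I : ℝ), KGF p a b ds D (P1 l p) Cl N X R I →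
  KMY p a b ds (P1 l p) Cl N (b + ds * (X + ds * I)) → b + ds * (X + ds * I) < D →
  Aux p a b ds D Cl → Phys p J D → ND2 D → Sel p a b l ds D dl Cl → Q a b c → False

theorem CYs.z {sc ds : ℤ} {Q : ℤ → ℤ → ℤ → Prop} (h : CYs sc ds Q) : CZs sc ds Q :=
  fun p a b c J l q D dl Cl W hc h0 hb N X R I g1 g2 g3 hA hP hN _ hQ =>
    h p a b c J l q D dl Cl W hc h0 hb N X R I g1 g2 g3 hA hP hN hQ

/-- `Y`, `b < 2 a`, with the free choice -/
def CZ (sc ds : ℤ) : Prop := CZs sc ds (fun _ _ _ => True)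

theorem cz_of {sc ds : ℤ} (h35 : CZs sc ds (Q35 sc)) (h2 : CZs sc ds (Q2 sc))
    (h1 : CZs sc ds (Q1 sc)) : CZ sc ds := by
  intro p a b c J l q D dl Cl W hc h0 hb N X R I g1 g2 g3 hA hP hN hS _
  rcases le_or_gt a b with h | h
  · exact h35 p a b c J l q D dl Cl W hc h0 hb N X R I g1 g2 g3 hA hP hN hS h
  · rcases le_or_gt a (b + sc * c) with h' | h'
    · exact h2 p a b c J l q D dl Cl W hc h0 hb N X R I g1 g2 g3 hA hP hN hS ⟨h, h'⟩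
    · exact h1 p a b c J l q D dl Cl W hc h0 hb N X R I g1 g2 g3 hA hP hN hS h'

/-- `S1` from the classes -/
theorem stT1y_of (hY1 : CZ 1 1) (hY2 : CZ 1 (-1)) (hY3 : CZ (-1) 1) (hY4 : CZ (-1) (-1))
    (hW1 : CW 1 1) (hW2 : CW 1 (-1)) (hW3 : CW (-1) 1) (hW4 : CW (-1) (-1))
    (hB1 : CB 1 1) (hB2 : CB 1 (-1)) (hB3 : CB (-1) 1) (hB4 : CB (-1) (-1)) : StT1y := by
  intro p a b c J ds l q D dl Cl W hc hV hY hA hP hN hT hR hR' hS
  have hc0 := W.hc0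
  rcases W.hds with ⟨rfl, _⟩ | ⟨rfl, _⟩ <;> rcases lt_or_gt_of_ne hc0 with h0 | h0 <;>
    rcases lt_or_ge b (2 * a) with h1 | h1
  · rcases hY with ⟨N, X, R, I, g1, g2, g3⟩ | ⟨N, X, R, I, g1, g2, g3, g4, g5⟩
    · exact hY3 p a b c J l q D dl Cl W hc (by omega) h1 N X R I g1 g2 g3 hA hP hN hS trivial
    · exact hW3 p a b c J l q D dl Cl W hc (by omega) h1 N X R I g1 g2 g3 g4 g5 hA hP hN
  · exact hB3 p a b c J l q D dl Cl W hc (by omega) h1 hV hY hA hP hN hT hR hR'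
  · rcases hY with ⟨N, X, R, I, g1, g2, g3⟩ | ⟨N, X, R, I, g1, g2, g3, g4, g5⟩
    · exact hY1 p a b c J l q D dl Cl W hc (by omega) h1 N X R I g1 g2 g3 hA hP hN hS trivial
    · exact hW1 p a b c J l q D dl Cl W hc (by omega) h1 N X R I g1 g2 g3 g4 g5 hA hP hN
  · exact hB1 p a b c J l q D dl Cl W hc (by omega) h1 hV hY hA hP hN hT hR hR'
  · rcases hY with ⟨N, X, R, I, g1, g2, g3⟩ | ⟨N, X, R, I, g1, g2, g3, g4, g5⟩
    · exact hY4 p a b c J l q D dl Cl W hc (by omega) h1 N X R I g1 g2 g3 hA hP hN hS trivial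
    · exact hW4 p a b c J l q D dl Cl W hc (by omega) h1 N X R I g1 g2 g3 g4 g5 hA hP hN
  · exact hB4 p a b c J l q D dl Cl W hc (by omega) h1 hV hY hA hP hN hT hR hR'
  · rcases hY with ⟨N, X, R, I, g1, g2, g3⟩ | ⟨N, X, R, I, g1, g2, g3, g4, g5⟩
    · exact hY2 p a b c J l q D dl Cl W hc (by omega) h1 N X R I g1 g2 g3 hA hP hN hS trivial
    · exact hW2 p a b c J l q D dl Cl W hc (by omega) h1 N X R I g1 g2 g3 g4 g5 hA hP hN
  · exact hB2 p a b c J l q D dl Cl W hc (by omega) h1 hV hY hA hP hN hT hR hR'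

end Helper25.KW
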