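import Pool.Agent.Helper25.KW.S1M
import Pool.Agent.Helper11.Y.LX

set_option autoImplicit false
set_option linter.unusedSectionVars false
set_option linter.unusedVariables false

/-!
# Clusters with given abscissa label: an additional hypothesis for `S1`, `p + l ≤ q`
-/

namespace Helper25.KW

open Helper11.N1 Helper55.KE

/-- clusters with given abscissa label -/
def UVB (p : ℤ) (D : ℝ) (Cl : ℤ → ℤ → ℤ → ℤ → ℝ → Prop) : Prop :=
  (∀ B : ℤ, 0 < B → B < p → 2 * B ≠ p → ∃ N R I, UFac p B D Cl N R I) ∨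
  (∃ N R I, VFac p D Cl N R I) ∨
  ((∃ N R I, WFac p D Cl N R I) ∧ ∀ B : ℤ, 2 ∣ B → 0 < B → B < p → ∃ N R I, UFac p B D Cl N R I)

section

variable {p q a b c : ℕ} [NeZero p] [NeZero q] {z : ZMod p → ZMod (p * q)} {i0 ρ : ZMod p}
  {θ : ZMod (p * q)} {δ l : ℕ} {k : ℤ} {s ds J : ℤ}

theorem SG.uvb (h : SG p q a b c z i0 ρ θ δ l k s ds J) (h2b : 2 * b < p) :
    UVB p (DD p q s) (ClS p q c ρ θ s ds) := by
  rcases h.uvw2 h2b with h0 | h0 | h0
  · obtain ⟨m, hm⟩ := h.m1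
    have hb := h.ls.hP.hb
    have hq := h.q0R
    have hp0 : 0 < p := by omega
    set g := Int.gcd m p with hg
    have hgp : (g : ℤ) ∣ p := Int.gcd_dvd_right m p
    have hgm : (g : ℤ) ∣ m := Int.gcd_dvd_left m p
    have hg0 : 0 < g := Int.gcd_pos_of_ne_zero_right m (by exact_mod_cast hp0.ne')
    have hst : ∀ N X : ℤ, 0 < N → N < p → ((X * q + ds * s * N : ℤ) : ZMod (p * q)) =
        (N : ZMod (p * q)) * θ → ∃ R : ℤ, ∃ I : ℝ, ClS p q c ρ θ s ds N 0 X R I ∧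
          -(p : ℤ) < 2 * R ∧ 2 * R ≤ p ∧ 0 < I ∧ I < DD p q s := by
      intro N X h1 h2 h3
      obtain ⟨R, I, hC, h4, h5⟩ := h.crow h3
      obtain ⟨h6, h7⟩ := h.II hC h1 h2
      exact ⟨R, I, hC, h4, h5, h6, h7⟩
    rcases (by omega : g = 1 ∨ g = 2 ∨ 3 ≤ g) with h1 | h1 | h1
    · left
      intro B hB0 hBp hB2
      obtain ⟨N, hN1, hNp, hNb⟩ := lab p m B (by rw [← hg, h1])
      have hN0 : N ≠ 0 := by
        intro h3
        rw [h3, zero_mul, sub_zero] at hNb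
        have := Int.le_of_dvd (by omega) hNb
        omega
      obtain ⟨R, I, hC, h4, h5, h6, h7⟩ := hst N B (by omega) hNp (hm N B hNb)
      refine ⟨N, R, I, hC, by omega, hNp, h6, h7, h4, lt_of_le_of_ne h5 ?_⟩
      intro h8
      have h9 := h.dd hC ⟨1, by rw [h8]; ring⟩
      have h10 : (p : ℤ) ∣ 2 * B := by
        have e1 : (2 * B : ℤ) = 2 * (B - N * m) + 2 * N * m := by ring
        rw [e1]
        exact dvd_add (Dvd.dvd.mul_left hNb 2) (Dvd.dvd.mul_right h9 m)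
      obtain ⟨w, hw⟩ := h10
      have hw1 : w < 2 := by
        by_contra hc
        have : (p : ℤ) * 2 ≤ p * w := mul_le_mul_of_nonneg_left (not_lt.mp hc) (by omega)
        omega
      have hw2 : 0 < w := by
        by_contra hc
        have : (p : ℤ) * w ≤ p * 0 := mul_le_mul_of_nonneg_left (not_lt.mp hc) (by omega)
        omega
      have hw3 : w = 1 := by omega
      subst hw3
      omega
    · -- `gcd = 2`
      right; right
      rw [h1] at hgp hgm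
      obtain ⟨M, hM⟩ := hgp
      obtain ⟨m', hm'⟩ := hgm
      push_cast at hM hm'
      constructor
      · obtain ⟨R, I, hC, h4, h5, h6, h7⟩ := hst M 0 (by omega) (by omega) (hm M 0
          ⟨-m', by rw [hM, hm']; ring⟩)
        obtain ⟨h8, h9⟩ := h.half2 hC (by omega) (by omega) h4 h5
        exact ⟨M, R, I, hC, by omega, by omega, h6, h9, h8⟩
      · intro B hB2 hB0 hBp
        obtain ⟨B', hB'⟩ := hB2
        have hcop : Int.gcd m' M = 1 := by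
          have h3 : Int.gcd m p = 2 * Int.gcd m' M := by
            rw [hm', hM, Int.gcd_mul_left]
            rfl
          omega
        have hM0 : 0 < M := by omega
        obtain ⟨Mn, hMn⟩ := Int.eq_ofNat_of_zero_le hM0.le
        have hMn0 : Mn ≠ 0 := by omega
        have : NeZero Mn := ⟨hMn0⟩
        obtain ⟨N, hN1, hNp, hNb⟩ := lab Mn m' B' (by rw [← hMn]; exact hcop)
        have hNb' : (p : ℤ) ∣ B - N * m := by
          obtain ⟨w, hw⟩ := hNb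
          refine ⟨w, ?_⟩
          rw [hB', hm', hM, hMn]
          linear_combination 2 * hw
        have hN0 : N ≠ 0 := by
          intro h3
          rw [h3, zero_mul, sub_zero] at hNb'
          have := Int.le_of_dvd hB0 hNb'
          omega
        obtain ⟨R, I, hC, h4, h5, h6, h7⟩ := hst N B (by omega) (by omega) (hm N B hNb')
        refine ⟨N, R, I, hC, by omega, by omega, h6, h7, h4, lt_of_le_of_ne h5 ?_⟩
        intro h8
        have h9 := Int.le_of_dvd (by omega) (h.dd hC ⟨1, by rw [h8]; ring⟩)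
        omega
    · right; left
      obtain ⟨N, hN⟩ := hgp
      obtain ⟨m', hm'⟩ := hgm
      have hg3 : (3 : ℤ) ≤ g := by exact_mod_cast h1
      have hp0' : (0 : ℤ) < p := by exact_mod_cast hp0
      have hN0 : 0 < N := by
        by_contra h3
        have : (g : ℤ) * N ≤ 0 := mul_nonpos_of_nonneg_of_nonpos (by omega) (by omega)
        omega
      have hN2 : 3 * N ≤ p := by
        rw [hN]
        exact mul_le_mul_of_nonneg_right hg3 hN0.le
      obtain ⟨R, I, hC, h4, h5, h6, h7⟩ := hst N 0 (by omega) (by omega) (hm N 0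
        ⟨-m', by rw [hN, hm']; ring⟩)
      refine ⟨N, R, I, hC, by omega, by omega, h6, ?_, h4, lt_of_le_of_ne h5 ?_⟩
      · have h8 := h.II (h.cadd hC hC) (by omega) (by omega)
        linarith [h8.2]
      · intro h8
        have h9 := Int.le_of_dvd (by omega) (h.dd hC ⟨1, by rw [h8]; ring⟩)
        omega
  · exact Or.inr (Or.inl h0)
  · exact Or.inr (Or.inr h0)

end

theorem UVB.lx {p : ℤ} {D : ℝ} {Cl : ℤ → ℤ → ℤ → ℤ → ℝ → Prop} (h : UVB p D Cl) :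
    LX p D Cl :=
  h.imp_left (fun h1 B h2 h3 => h1 B h2 (by omega) (by omega))

/-- `S1`, `p + l ≤ q`, with all the elements and the free choice -/
def StT1z : Prop := ∀ (p a b c J ds l q : ℤ) (D dl : ℝ) (Cl : ℤ → ℤ → ℤ → ℤ → ℝ → Prop),
  World p a b c J ds l q D dl Cl → -a < c →
  (∃ (N X R : ℤ) (I m : ℝ), KGF p a b ds D (P1 l p) Cl N X R I ∧
    KMin p a b ds (P1 l p) Cl N m ∧ m < D ∧ Cas a b ds R (X + ds * I) m) →
  YW p a b ds D (P1 l p) Cl →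
  Aux p a b ds D Cl → Phys p J D → ND2 D → Helper12.TT.TTF p a b c l ds D Cl →
  Helper55.TR.TRF p a b c J l ds D Cl → Helper55.TR.TRG p a b c J l ds D Cl →
  Sel p a b l ds D dl Cl → UVB p D Cl → False

theorem stS1_of_z (H : StT1z) : StS1 := by
  intro p q a b c _ _ z i0 ρ θ δ l k s ds J h h2a h2b hap hbp hρ hl2 hk0 hka hq
  rintro ⟨N, X, R, I, hK, hor⟩
  have hk := h.ka hka
  have W := h.world h2a h2b hl2 hk0 hka hq
  have hne : ∃ N X R I, KH p q a b c ρ θ s ds (P1 l p) N X R I ∧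
      (b + ds * (X + ds * I) < DD p q s ∨ a + ds * (X + ds * I + R) < DD p q s) :=
    ⟨N, X, R, I, ⟨hK.cl, hK.N0, hK.Np, ⟨hK.Nl, hK.Npl⟩, hK.bx⟩, hor⟩
  obtain ⟨N', X', R', I', hK', m, g1, g2, g3⟩ := h.s1G h2a h2b (P := P1 l p) hne
  refine H p a b k J ds l q _ _ _ W (by rw [abs_lt] at hk; exact hk.1)
    ⟨N', X', R', I', m, hK', g1, g2, g3⟩ (h.yw h2a h2b hne) (h.aux h2a h2b hap hbp)
    (h.phys h2b hl2 hq) (h.nd2 h2b) (Helper12.TT.ttf h W.toBase h2b hk0 hk)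
    (Helper55.TR.trf h W.toBase h2b hk0 hk) (Helper55.TR.trg h W.toBase h2b hk0 hk)
    (h.sel h2a h2b) (h.uvb h2b)

/-- a part of `Y`, `b < 2 a`, with the free choice -/
def CXs (sc ds : ℤ) (Q : ℤ → ℤ → ℤ → Prop) : Prop :=
  ∀ (p a b c J l q : ℤ) (D dl : ℝ) (Cl : ℤ → ℤ → ℤ → ℤ → ℝ → Prop),
  World p a b c J ds l q D dl Cl → -a < c → 0 < sc * c → b < 2 * a →
  ∀ (N X R : ℤ) (I : ℝ), KGF p a b ds D (P1 l p) Cl N X R I →
  KMY p a b ds (P1 l p) Cl N (b + ds * (X + ds * I)) → b + ds * (X + ds * I) < D →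
  Aux p a b ds D Cl → Phys p J D → ND2 D → Sel p a b l ds D dl Cl → UVB p D Cl → Q a b c → False

theorem CZs.x {sc ds : ℤ} {Q : ℤ → ℤ → ℤ → Prop} (h : CZs sc ds Q) : CXs sc ds Q :=
  fun p a b c J l q D dl Cl W hc h0 hb N X R I g1 g2 g3 hA hP hN hS _ hQ =>
    h p a b c J l q D dl Cl W hc h0 hb N X R I g1 g2 g3 hA hP hN hS hQ

/-- `Y`, `b < 2 a`, with the free choice -/
def CX (sc ds : ℤ) : Prop := CXs sc ds (fun _ _ _ => True)

theorem cx_of {sc ds : ℤ} (h35 : CXs sc ds (Q35 sc)) (h2 : CXs sc ds (Q2 sc))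
    (h1 : CXs sc ds (Q1 sc)) : CX sc ds := by
  intro p a b c J l q D dl Cl W hc h0 hb N X R I g1 g2 g3 hA hP hN hS hX _
  rcases le_or_gt a b with h | h
  · exact h35 p a b c J l q D dl Cl W hc h0 hb N X R I g1 g2 g3 hA hP hN hS hX h
  · rcases le_or_gt a (b + sc * c) with h' | h'
    · exact h2 p a b c J l q D dl Cl W hc h0 hb N X R I g1 g2 g3 hA hP hN hS hX ⟨h, h'⟩
    · exact h1 p a b c J l q D dl Cl W hc h0 hb N X R I g1 g2 g3 hA hP hN hS hX h'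

/-- `S1`, `2 a ≤ b` -/
def CBX (sc ds : ℤ) : Prop := ∀ (p a b c J l q : ℤ) (D dl : ℝ) (Cl : ℤ → ℤ → ℤ → ℤ → ℝ → Prop),
  World p a b c J ds l q D dl Cl → -a < c → 0 < sc * c → 2 * a ≤ b →
  (∃ (N X R : ℤ) (I m : ℝ), KGF p a b ds D (P1 l p) Cl N X R I ∧
    KMin p a b ds (P1 l p) Cl N m ∧ m < D ∧ Cas a b ds R (X + ds * I) m) →
  YW p a b ds D (P1 l p) Cl →
  Aux p a b ds D Cl → Phys p J D → ND2 D → Helper12.TT.TTF p a b c l ds D Cl →
  Helper55.TR.TRF p a b c J l ds D Cl → Helper55.TR.TRG p a b c J l ds D Cl → UVB p D Cl → False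

theorem CB.x {sc ds : ℤ} (h : CB sc ds) : CBX sc ds :=
  fun p a b c J l q D dl Cl W hc h0 h1 hV hY hA hP hN hT hR hR' _ =>
    h p a b c J l q D dl Cl W hc h0 h1 hV hY hA hP hN hT hR hR'

/-- `S1` from the classes -/
theorem stT1z_of (hY1 : CX 1 1) (hY2 : CX 1 (-1)) (hY3 : CX (-1) 1) (hY4 : CX (-1) (-1))
    (hW1 : CW 1 1) (hW2 : CW 1 (-1)) (hW3 : CW (-1) 1) (hW4 : CW (-1) (-1))
    (hB1 : CBX 1 1) (hB2 : CBX 1 (-1)) (hB3 : CBX (-1) 1) (hB4 : CBX (-1) (-1)) : StT1z := by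
  intro p a b c J ds l q D dl Cl W hc hV hY hA hP hN hT hR hR' hS hX
  have hc0 := W.hc0
  rcases W.hds with ⟨rfl, _⟩ | ⟨rfl, _⟩ <;> rcases lt_or_gt_of_ne hc0 with h0 | h0 <;>
    rcases lt_or_ge b (2 * a) with h1 | h1
  · rcases hY with ⟨N, X, R, I, g1, g2, g3⟩ | ⟨N, X, R, I, g1, g2, g3, g4, g5⟩
    · exact hY3 p a b c J l q D dl Cl W hc (by omega) h1 N X R I g1 g2 g3 hA hP hN hS hX trivial
    · exact hW3 p a b c J l q D dl Cl W hc (by omega) h1 N X R I g1 g2 g3 g4 g5 hA hP hN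
  · exact hB3 p a b c J l q D dl Cl W hc (by omega) h1 hV hY hA hP hN hT hR hR' hX
  · rcases hY with ⟨N, X, R, I, g1, g2, g3⟩ | ⟨N, X, R, I, g1, g2, g3, g4, g5⟩
    · exact hY1 p a b c J l q D dl Cl W hc (by omega) h1 N X R I g1 g2 g3 hA hP hN hS hX trivial
    · exact hW1 p a b c J l q D dl Cl W hc (by omega) h1 N X R I g1 g2 g3 g4 g5 hA hP hN
  · exact hB1 p a b c J l q D dl Cl W hc (by omega) h1 hV hY hA hP hN hT hR hR' hX
  · rcases hY with ⟨N, X, R, I, g1, g2, g3⟩ | ⟨N, X, R, I, g1, g2, g3, g4, g5⟩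
    · exact hY4 p a b c J l q D dl Cl W hc (by omega) h1 N X R I g1 g2 g3 hA hP hN hS hX trivial
    · exact hW4 p a b c J l q D dl Cl W hc (by omega) h1 N X R I g1 g2 g3 g4 g5 hA hP hN
  · exact hB4 p a b c J l q D dl Cl W hc (by omega) h1 hV hY hA hP hN hT hR hR' hX
  · rcases hY with ⟨N, X, R, I, g1, g2, g3⟩ | ⟨N, X, R, I, g1, g2, g3, g4, g5⟩
    · exact hY2 p a b c J l q D dl Cl W hc (by omega) h1 N X R I g1 g2 g3 hA hP hN hS hX trivial
    · exact hW2 p a b c J l q D dl Cl W hc (by omega) h1 N X R I g1 g2 g3 g4 g5 hA hP hN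
  · exact hB2 p a b c J l q D dl Cl W hc (by omega) h1 hV hY hA hP hN hT hR hR' hX

/-- a cell with an element of `K'` -/
def ZCellX (sc ds : ℤ) (Q : ℤ → ℤ → ℤ → Prop)
    (F : ℤ → ℤ → ℤ → ℤ → ℤ → ℤ → ℝ → (ℤ → ℤ → ℤ → ℤ → ℝ → Prop) → ℤ → ℤ → ℤ → ℝ → Prop) : Prop :=
  ∀ (p a b c J l q : ℤ) (D dl : ℝ) (Cl : ℤ → ℤ → ℤ → ℤ → ℝ → Prop),
  World p a b c J ds l q D dl Cl → -a < c → 0 < sc * c → b < 2 * a → Q a b c →
  Aux p a b ds D Cl → Phys p J D → ND2 D → Sel p a b l ds D dl Cl → UVB p D Cl →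
  ∀ (N X R : ℤ) (I : ℝ), KGF p a b ds D (P1 l p) Cl N X R I → F p a b c J l D Cl N X R I → False

theorem ZCell.x {sc ds : ℤ} {Q : ℤ → ℤ → ℤ → Prop}
    {F : ℤ → ℤ → ℤ → ℤ → ℤ → ℤ → ℝ → (ℤ → ℤ → ℤ → ℤ → ℝ → Prop) → ℤ → ℤ → ℤ → ℝ → Prop}
    (h : ZCell sc ds Q F) : ZCellX sc ds Q F :=
  fun p a b c J l q D dl Cl W hc h0 hb hQ hA hP hN hS _ N X R I hk hF =>
    h p a b c J l q D dl Cl W hc h0 hb hQ hA hP hN hS N X R I hk hF

theorem zcellx_C {sc ds : ℤ} {Q : ℤ → ℤ → ℤ → Prop} {d : Bool} (h : ZCellX sc ds Q (FI ds d)) :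
    ZCellX sc ds Q (FC ds d) := by
  intro p a b c J l q D dl Cl W hc h0 hb hQ hA hP hN hS hX N X R I hk hF
  obtain ⟨f1, f2, f3, f4, f5, f6, f7⟩ := hF
  obtain ⟨N', X', R', I', g1, g2, g3⟩ := hS.picki W.toBase (keep_Zy W.toBase)
    ⟨N, X, R, I, ⟨hk.cl, hk.N0, hk.Np, hk.NP, hk.bx⟩, f3⟩
  refine h p a b c J l q D dl Cl W hc h0 hb hQ hA hP hN hS hX N' X' R' I' g1
    ⟨f1, ?_, g2, ?_, g3, f6, f7⟩
  · rcases lt_trichotomy ((X' : ℝ) + ds * I') 0 with h1 | h1 | h1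
    · exact absurd (f6 g1.cl (by norm_num) g1.N0 g1.Np g1.NP g1.bx ⟨h1, g2⟩) id
    · exact absurd h1 (ne_z W.toBase g1.toKG)
    · exact h1
  · rcases lt_trichotomy (I' + J) D with h1 | h1 | h1
    · exact absurd (f7 g1.cl (by norm_num) g1.N0 g1.Np g1.NP g1.bx ⟨h1, g2⟩) id
    · exact absurd (by rw [h1]; push_cast; ring)
        (Helper25.KG.ne_iJD W (Helper25.KG.KCl.of g1) 0)
    · exact h1

theorem zcellx_I {sc ds : ℤ} {Q : ℤ → ℤ → ℤ → Prop} {d : Bool} (h0 : ZCellX sc ds Q (FI0 ds d))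
    (h1 : ZCellX sc ds Q (FI1 ds d)) : ZCellX sc ds Q (FI ds d) := by
  intro p a b c J l q D dl Cl W hc h0' hb hQ hA hP hN hS hX N X R I hk hF
  rcases lt_trichotomy I J with h2 | h2 | h2
  · exact h0 p a b c J l q D dl Cl W hc h0' hb hQ hA hP hN hS hX N X R I hk ⟨hF, h2⟩
  · exact absurd (by rw [h2]; push_cast; ring) (Helper25.KG.ne_iJ W (Helper25.KG.KCl.of hk) 0)
  · refine h1 p a b c J l q D dl Cl W hc h0' hb hQ hA hP hN hS hX N X R I hk ⟨hF, h2, ?_⟩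
    intro N' τ X' R' I' hC hτ k0 kp hP' hb' hz
    obtain ⟨f1, f2, f3, f4, f5, f6, f7⟩ := hF
    obtain ⟨I2, e1, e2, e3⟩ := hS.tr hC hτ k0 kp
    have k1 := keep_Zi (c := c) (J := J) (l := l) (q := q) (a := a) (Cl := Cl) W.toBase J _ _ _ _ e2 e3 hz.1
    have k2 := keep_Zy W.toBase _ _ _ _ e2 e3 hz.2
    have k3 := f5 e1 (by norm_num) k0 kp hP' (Or.inl rfl) (hb'.tr e2 e3) k2
    exact absurd (lt_of_le_of_lt k3 k1) (not_lt.mpr h2.le)

/-- the part `b + |c| < a` (or another part) from the cells -/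
theorem cxs_of {sc ds : ℤ} {Q : ℤ → ℤ → ℤ → Prop}
    (hA1 : ZCellX sc ds Q (FA ds true)) (hA2 : ZCellX sc ds Q (FA ds false))
    (hB1 : ZCellX sc ds Q (FB ds true)) (hB2 : ZCellX sc ds Q (FB ds false))
    (hC1 : ZCellX sc ds Q (FC ds true)) (hC2 : ZCellX sc ds Q (FC ds false)) :
    CXs sc ds Q := by
  intro p a b c J l q D dl Cl W hc h0 hb N X R I hk hM hy hAu hP hN hS hX hQ
  have hD : ∃ d, Sd b D d := by
    rcases lt_trichotomy D (2 * b) with h1 | h1 | h1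
    · exact ⟨true, h1⟩
    · exact absurd (by rw [h1]; push_cast; ring) (hN (4 * b))
    · exact ⟨false, h1⟩
  obtain ⟨d, hd⟩ := hD
  by_cases hx : ∃ N X R I, KG p a b ds (P1 l p) Cl N X R I ∧ (Zx ds X R I ∧ Zy b ds D X R I)
  · obtain ⟨N', X', R', I', g1, g2, g3⟩ := hS.picks W.toBase
      (keep_Zx.and (keep_Zy W.toBase)) 1 (Or.inl rfl) hx
    cases d
    · exact hA2 p a b c J l q D dl Cl W hc h0 hb hQ hAu hP hN hS hX N' X' R' I' g1 ⟨hd, g2.1, g2.2, g3⟩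
    · exact hA1 p a b c J l q D dl Cl W hc h0 hb hQ hAu hP hN hS hX N' X' R' I' g1 ⟨hd, g2.1, g2.2, g3⟩
  have hno : KNo p a b l ds Cl (fun X R I => Zx ds X R I ∧ Zy b ds D X R I) :=
    hS.no (keep_Zx.and (keep_Zy W.toBase)) hx
  have hpos : ∀ {N X R : ℤ} {I : ℝ}, KG p a b ds (P1 l p) Cl N X R I → Zy b ds D X R I →
      Zp ds X R I := by
    intro N X R I g1 g2
    rcases lt_trichotomy ((X : ℝ) + ds * I) 0 with h1 | h1 | h1
    · exact absurd (hno g1.cl (by norm_num) g1.N0 g1.Np g1.NP g1.bx ⟨h1, g2⟩) id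
    · exact absurd h1 (ne_z W.toBase g1)
    · exact h1
  by_cases hi : ∃ N X R I, KG p a b ds (P1 l p) Cl N X R I ∧ (ZiD D J X R I ∧ Zy b ds D X R I)
  · obtain ⟨N', X', R', I', g1, g2, g3⟩ := hS.picks W.toBase
      ((keep_ZiD W.toBase J).and (keep_Zy W.toBase)) 1 (Or.inl rfl) hi
    have g4 := hpos g1.toKG g2.2
    cases d
    · exact hB2 p a b c J l q D dl Cl W hc h0 hb hQ hAu hP hN hS hX N' X' R' I' g1
        ⟨hd, g4, g2.2, g2.1, hno⟩
    · exact hB1 p a b c J l q D dl Cl W hc h0 hb hQ hAu hP hN hS hX N' X' R' I' g1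
        ⟨hd, g4, g2.2, g2.1, hno⟩
  have hni : KNo p a b l ds Cl (fun X R I => ZiD D J X R I ∧ Zy b ds D X R I) :=
    hS.no ((keep_ZiD W.toBase J).and (keep_Zy W.toBase)) hi
  have hz : Zy b ds D X R I := hy
  have hiJ : D < I + J := by
    rcases lt_trichotomy (I + J) D with h1 | h1 | h1
    · exact absurd ⟨N, X, R, I, hk.toKG, h1, hz⟩ hi
    · exact absurd (by rw [h1]; push_cast; ring)
        (Helper25.KG.ne_iJD W (Helper25.KG.KCl.of hk) 0)
    · exact h1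
  cases d
  · exact hC2 p a b c J l q D dl Cl W hc h0 hb hQ hAu hP hN hS hX N X R I hk
      ⟨hd, hpos hk.toKG hz, hz, hiJ, hM, hno, hni⟩
  · exact hC1 p a b c J l q D dl Cl W hc h0 hb hQ hAu hP hN hS hX N X R I hk
      ⟨hd, hpos hk.toKG hz, hz, hiJ, hM, hno, hni⟩

theorem zcellx_U {sc ds : ℤ} {Q : ℤ → ℤ → ℤ → Prop} {d : Bool} (hs : ds = 1 ∨ d = false)
    (hU : ZCellX sc ds Q (FU ds d)) (hV : ZCellX sc ds Q (FV ds d)) :
    ZCellX sc ds Q (FI1 ds d) := by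
  intro p a b c J l q D dl Cl W hc h0' hb hQ hA hP hN hS hX N X R I hk hF
  obtain ⟨⟨f1, f2, f3, f4, f5, f6, f7⟩, f8, f9⟩ := hF
  by_cases hw : ∃ N' X' R' I', KG p a b ds (P1 l p) Cl N' X' R' I' ∧ Zy b ds D X' R' I' ∧ N ≠ N'
  · obtain ⟨N', X', R', I', g1, g2, g3⟩ := hw
    -- two elements, in the right order
    have key : ∀ {N X R N' X' R' : ℤ} {I I' : ℝ}, KG p a b ds (P1 l p) Cl N X R I →
        KG p a b ds (P1 l p) Cl N' X' R' I' → Zy b ds D X R I → Zy b ds D X' R' I' →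
        N ≠ N' → (a : ℝ) + (X + ds * I + R) < X' + ds * I' + R' → False := by
      intro N X R N' X' R' I I' g g' z z' hne hlt
      obtain ⟨x, j, i⟩ := zfac W f6 f7 f9 g z
      obtain ⟨x', j', i'⟩ := zfac W f6 f7 f9 g' z'
      obtain ⟨b1, b2, b3, b4⟩ := g.bx
      obtain ⟨c1, c2, c3, c4⟩ := g'.bx
      refine hV p a b c J l q D dl Cl W hc h0' hb hQ hA hP hN hS hX N X R I (kgf_of W.toBase g)
        ⟨f1, x, z, j, i, ?_, N', X', R', I', kgf_of W.toBase g', hne, x', z', j', i', ?_, hlt,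
        ?_, f6, f7, f9⟩
      · unfold Zs
        linarith
      · unfold Zsp
        linarith
      · intro M τ Y T K hC hτ k0 kp hP' hb' hz
        obtain ⟨K2, t1, t2, t3⟩ := hS.tr hC hτ k0 kp
        have u1 : KG p a b ds (P1 l p) Cl M Y T K2 := ⟨t1, k0, kp, hP', hb'.tr t2 t3⟩
        have u2 := keep_Zy W.toBase _ _ _ _ t2 t3 hz
        by_contra hcon
        push Not at hcon
        obtain ⟨d1, d2, d3, d4⟩ := u1.bx
        rcases zdist W f1 hs f6 f7 f9 u1 g u2 z hcon.1 with v1 | v1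
        · linarith
        · rcases zdist W f1 hs f6 f7 f9 u1 g' u2 z' hcon.2 with v2 | v2
          · linarith
          · linarith
    rcases zdist W f1 hs f6 f7 f9 hk.toKG g1 f3 g2 g3 with v | v
    · exact key hk.toKG g1 f3 g2 g3 v
    · exact key g1 hk.toKG g2 f3 (Ne.symm g3) v
  · refine hU p a b c J l q D dl Cl W hc h0' hb hQ hA hP hN hS hX N X R I hk
      ⟨f1, f2, f3, f4, f8, ?_, f6, f7, f9⟩
    intro M τ Y T K hC hτ k0 kp hP' hb' hz
    obtain ⟨K2, t1, t2, t3⟩ := hS.tr hC hτ k0 kp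
    by_contra hcon
    exact hw ⟨M, Y, T, K2, ⟨t1, k0, kp, hP', hb'.tr t2 t3⟩, keep_Zy W.toBase _ _ _ _ t2 t3 hz,
      fun h => hcon h.symm⟩


end Helper25.KW
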