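import Pool.Agent.Helper25.KW.S1N

set_option autoImplicit false
set_option linter.unusedSectionVars false
set_option linter.unusedVariables false

/-!
# The two sides of `D = 2 b`
-/

namespace Helper25.KW

open Helper11.N1 Helper55.KE Helper25.KG

/-- a part of `Y` on one side of `D = 2 b` -/
def CSd (sc ds : ℤ) (Q : ℤ → ℤ → ℤ → Prop) (d : Bool) : Prop :=
  ∀ (p a b c J l q : ℤ) (D dl : ℝ) (Cl : ℤ → ℤ → ℤ → ℤ → ℝ → Prop),
  World p a b c J ds l q D dl Cl → -a < c → 0 < sc * c → b < 2 * a →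
  ∀ (N X R : ℤ) (I : ℝ), KGF p a b ds D (P1 l p) Cl N X R I →
  KMY p a b ds (P1 l p) Cl N (b + ds * (X + ds * I)) → b + ds * (X + ds * I) < D →
  Aux p a b ds D Cl → Phys p J D → ND2 D → Sel p a b l ds D dl Cl → UVB p D Cl → Q a b c →
  Sd b D d → False

theorem cxs_sd {sc ds : ℤ} {Q : ℤ → ℤ → ℤ → Prop} (h1 : CSd sc ds Q true)
    (h2 : CSd sc ds Q false) : CXs sc ds Q := by
  intro p a b c J l q D dl Cl W hc h0 hb N X R I hk hM hy hAu hP hN hS hX hQ
  rcases lt_trichotomy D (2 * b) with h3 | h3 | h3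
  · exact h1 p a b c J l q D dl Cl W hc h0 hb N X R I hk hM hy hAu hP hN hS hX hQ h3
  · exact absurd (by rw [h3]; push_cast; ring) (hN (4 * b))
  · exact h2 p a b c J l q D dl Cl W hc h0 hb N X R I hk hM hy hAu hP hN hS hX hQ h3

theorem csd_of {sc ds : ℤ} {Q : ℤ → ℤ → ℤ → Prop} {d : Bool}
    (hA : ZCellX sc ds Q (FA ds d)) (hB : ZCellX sc ds Q (FB ds d))
    (hC : ZCellX sc ds Q (FC ds d)) : CSd sc ds Q d := by
  intro p a b c J l q D dl Cl W hc h0 hb N X R I hk hM hy hAu hP hN hS hX hQ hd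
  by_cases hx : ∃ N X R I, KG p a b ds (P1 l p) Cl N X R I ∧ (Zx ds X R I ∧ Zy b ds D X R I)
  · obtain ⟨N', X', R', I', g1, g2, g3⟩ := hS.picks W.toBase
      (keep_Zx.and (keep_Zy W.toBase)) 1 (Or.inl rfl) hx
    exact hA p a b c J l q D dl Cl W hc h0 hb hQ hAu hP hN hS hX N' X' R' I' g1
      ⟨hd, g2.1, g2.2, g3⟩
  have hno : KNo p a b l ds Cl (fun X R I => Zx ds X R I ∧ Zy b ds D X R I) :=
    hS.no (keep_Zx.and (keep_Zy W.toBase)) hx
  have hpos : ∀ {N X R : ℤ} {I : ℝ}, KG p a b ds (P1 l p) Cl N X R I → Zy b ds D X R I →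
      Zp ds X R I := by
    intro N X R I g1 g2
    rcases lt_trichotomy ((X : ℝ) + ds * I) 0 with h1 | h1 | h1
    · exact absurd (hno g1.cl (by norm_num) g1.N0 g1.Np g1.NP g1.bx ⟨h1, g2⟩) id
    · exact absurd h1 (ne_z W.toBase g1)
    · exact h1
  by_cases hi : ∃ N X R I, KG p a b ds (P1 l p) Cl N X R I ∧ (ZiD D J X R I ∧ Zy b ds D X R I)
  · obtain ⟨N', X', R', I', g1, g2, g3⟩ := hS.picks W.toBase
      ((keep_ZiD W.toBase J).and (keep_Zy W.toBase)) 1 (Or.inl rfl) hi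
    have g4 := hpos g1.toKG g2.2
    exact hB p a b c J l q D dl Cl W hc h0 hb hQ hAu hP hN hS hX N' X' R' I' g1
      ⟨hd, g4, g2.2, g2.1, hno⟩
  have hni : KNo p a b l ds Cl (fun X R I => ZiD D J X R I ∧ Zy b ds D X R I) :=
    hS.no ((keep_ZiD W.toBase J).and (keep_Zy W.toBase)) hi
  have hz : Zy b ds D X R I := hy
  have hiJ : D < I + J := by
    rcases lt_trichotomy (I + J) D with h1 | h1 | h1
    · exact absurd ⟨N, X, R, I, hk.toKG, h1, hz⟩ hi
    · exact absurd (by rw [h1]; push_cast; ring)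
        (Helper25.KG.ne_iJD W (Helper25.KG.KCl.of hk) 0)
    · exact h1
  exact hC p a b c J l q D dl Cl W hc h0 hb hQ hAu hP hN hS hX N X R I hk
    ⟨hd, hpos hk.toKG hz, hz, hiJ, hM, hno, hni⟩

end Helper25.KW
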