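import Pool.Agent.Helper25.KG.C4
import Pool.Agent.Helper25.KW.S1O
import Pool.Agent.Helper48.KY.Two

set_option autoImplicit false
set_option linter.unusedSectionVars false
set_option linter.unusedVariables false

/-!
# Elements of the strip `|x| < b`: definitions
-/

namespace Helper25.KW

open Helper11.N1 Helper55.KE Helper25.KG

/-- an element of the strip `|x| < b` with exact coordinates -/
structure SEl (p b ds : ℤ) (P : ℤ → Prop) (Cl : ℤ → ℤ → ℤ → ℤ → ℝ → Prop) (N X R : ℤ) (I : ℝ) :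
    Prop where
  cl : Cl N 0 X R I
  N0 : 0 < N
  Np : N < p
  NP : P N
  x1 : -(b : ℝ) < X + ds * I
  x2 : X + ds * I < b

/-- the elements of the strip with the condition `Z`, different from `Nk` and `Nw`, have an index
coordinate `≥ m` -/
def StK (p b l ds : ℤ) (Cl : ℤ → ℤ → ℤ → ℤ → ℝ → Prop) (Z : ℤ → ℤ → ℝ → Prop) (Nk Nw : ℤ)
    (m : ℝ) : Prop :=
  ∀ {N τ X R : ℤ} {I : ℝ}, Cl N τ X R I → |τ| ≤ 1 → 0 < N → N < p → P1 l p N → N ≠ Nk → N ≠ Nw →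
    -(b : ℝ) < X + ds * I → X + ds * I < b → Z X R I → m ≤ I

/-- no element of the strip with the condition `Z` except `Nk`, `Nw` -/
def StN (p b l ds : ℤ) (Cl : ℤ → ℤ → ℤ → ℤ → ℝ → Prop) (Z : ℤ → ℤ → ℝ → Prop) (Nk Nw : ℤ) :
    Prop :=
  ∀ {N τ X R : ℤ} {I : ℝ}, Cl N τ X R I → |τ| ≤ 1 → 0 < N → N < p → P1 l p N → N ≠ Nk → N ≠ Nw →
    -(b : ℝ) < X + ds * I → X + ds * I < b → Z X R I → False

/-- statement: selection of an element with minimal index in the strip -/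
def StPick : Prop :=
  ∀ {p a b c J ds l q : ℤ} {D dl : ℝ} {Cl : ℤ → ℤ → ℤ → ℤ → ℝ → Prop},
    Base p a b c J ds l q D dl Cl → Sel p a b l ds D dl Cl →
    ∀ {Nk : ℤ}, KU p a b l ds Cl (fun _ _ _ => True) Nk →
    ∀ {Z : ℤ → ℤ → ℝ → Prop}, Keep ds dl Z → (∀ X R R' I, Z X R I → Z X R' I) →
    (∃ N X R I, SEl p b ds (fun M => P1 l p M ∧ M ≠ Nk) Cl N X R I ∧ Z X R I) →
    ∃ N X R I, SEl p b ds (P1 l p) Cl N X R I ∧ N ≠ Nk ∧ 0 < I ∧ I < D ∧ Z X R I ∧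
      (a : ℝ) < X + ds * I + R ∧ (X : ℝ) + ds * I + R < p - a ∧ StK p b l ds Cl Z Nk N I

/-- statement: nothing at `τ = 0`, nothing at all -/
def StNone : Prop :=
  ∀ {p a b c J ds l q : ℤ} {D dl : ℝ} {Cl : ℤ → ℤ → ℤ → ℤ → ℝ → Prop},
    Base p a b c J ds l q D dl Cl → Sel p a b l ds D dl Cl →
    ∀ {Z : ℤ → ℤ → ℝ → Prop}, Keep ds dl Z → ∀ {Nk Nw : ℤ},
    (¬ ∃ N X R I, SEl p b ds (fun M => P1 l p M ∧ M ≠ Nk ∧ M ≠ Nw) Cl N X R I ∧ Z X R I) →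
    StN p b l ds Cl Z Nk Nw

/-- statement: pigeonhole -/
def StPig : Prop :=
  ∀ {p a b c J ds l q : ℤ} {D dl : ℝ} {Cl : ℤ → ℤ → ℤ → ℤ → ℝ → Prop},
    Base p a b c J ds l q D dl Cl → Aux p a b ds D Cl →
    ∀ (d : ℝ) (M : ℤ), 0 < d → 0 < M → (p : ℝ) ≤ M * d →
    ∃ N X R I, Cl N 0 X R I ∧ 0 < N ∧ N ≤ M ∧ -d < (X : ℝ) + ds * I ∧ (X : ℝ) + ds * I < d

/-- statement: existence of an element of the strip, `J < I`, `D < I + J` -/
def StEx1 : Prop :=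
  ∀ {p a b c J ds l q : ℤ} {D dl : ℝ} {Cl : ℤ → ℤ → ℤ → ℤ → ℝ → Prop},
    Base p a b c J ds l q D dl Cl → Aux p a b ds D Cl → 2 * (b : ℝ) < D →
    ∀ {N X R : ℤ} {I : ℝ}, KGF p a b ds D (P1 l p) Cl N X R I → (J : ℝ) < I → D < I + J →
    (∃ N' X' R' I', SEl p b ds (fun M => P1 l p M ∧ M ≠ N) Cl N' X' R' I') ∨
      (b = 2 ∧ 14 * I < 8 * D + 7)

/-- statement: existence of an element of the strip, `I < J`, `D < I + J`, `D < 2 I` -/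
def StEx0 : Prop :=
  ∀ {p a b c J ds l q : ℤ} {D dl : ℝ} {Cl : ℤ → ℤ → ℤ → ℤ → ℝ → Prop},
    Base p a b c J ds l q D dl Cl → Aux p a b ds D Cl → 2 * (b : ℝ) < D →
    ∀ {N X R : ℤ} {I : ℝ}, KGF p a b ds D (P1 l p) Cl N X R I → I < J → D < I + J → D < 2 * I →
    (∃ N' X' R' I', SEl p b ds (fun M => P1 l p M ∧ M ≠ N) Cl N' X' R' I') ∨
      (b = 2 ∧ 4 * I < 2 * D + 1)

end Helper25.KW
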