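import Pool.Agent.Helper25.KW.K9

set_option autoImplicit false

/-!
# Admissible indices
-/

namespace Helper25.KW

/-- admissible indices for `p + l ≤ q` -/
def P1 (l p : ℤ) : ℤ → Prop := fun N => N ≠ l ∧ N + l ≠ p

/-- admissible indices for `q < p + l` -/
def P2 (l p q : ℤ) : ℤ → Prop := fun N => N ≠ l ∧ N + l ≠ p ∧ N + l ≠ q ∧ N + q ≠ p + l

theorem P1.refl {l p : ℤ} : ∀ N, P1 l p N → P1 l p (p - N) := by
  intro N ⟨h1, h2⟩
  exact ⟨by omega, by omega⟩

theorem P2.refl {l p q : ℤ} : ∀ N, P2 l p q N → P2 l p q (p - N) := by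
  intro N ⟨h1, h2, h3, h4⟩
  exact ⟨by omega, by omega, by omega, by omega⟩

end Helper25.KW
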