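import Pool.Agent.Helper81.CT.CTF
import Pool.Agent.Helper48.AV.St

set_option autoImplicit false
set_option linter.unusedSectionVars false
set_option linter.unusedVariables false

/-!
# Averaging: two overlapping boxes and two boxes on the left
-/

namespace Helper25.AV

open Helper11.N1 Helper55.KE Helper12.TL Helper48.AV Helper81.CT

theorem off_int {M : ℕ} [NeZero M] {x y : ZMod M} {m : ℤ} (h : y = x + (m : ZMod M))
    (h0 : 0 ≤ m) (h1 : m < M) : (off x y : ℤ) = m := by
  obtain ⟨n, rfl⟩ := Int.eq_ofNat_of_zero_le h0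
  have h2 : n < M := by exact_mod_cast h1
  rw [h]
  have := off_nat x h2
  push_cast
  rw [this]

section

variable {p q a b c : ℕ} [NeZero p] [NeZero q] {z : ZMod p → ZMod (p * q)} {i0 ρ : ZMod p}
  {θ : ZMod (p * q)} {δ l : ℕ} {k : ℤ}

theorem av1 (H : StCMP) (h : LS p q a b c z i0 ρ θ δ l k) (hab : b < a) {N n1 n2 : ℕ}
    (hN0 : 0 < N) (hNp : N < p) (h10 : 0 < n1) (h1p : n1 < p) (h20 : 0 < n2) (h2p : n2 < p)
    {x r x1 r1 x2 r2 : ℤ} (hAt : At ρ θ N x r) (hA1 : At ρ θ n1 x1 r1) (hA2 : At ρ θ n2 x2 r2)
    (hx0 : 0 < x) (hxb : x + c < b * q) (hs1 : -(a * q : ℤ) < x + r * q)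
    (hs2 : x + r * q < a * q)
    (h21 : x2 < x1) (h1n : x1 < 0) (hx2 : c - x2 < b * q) (hout : b * q ≤ x - x2)
    (Hp : ∀ (f : ℕ) (x' : ℤ), 0 < f → f < p → (f : ZMod (p * q)) * θ = (x' : ZMod (p * q)) →
      0 < x' → x' < b * q → f = N)
    (Hn : ∀ (f : ℕ) (x' r' : ℤ), 0 < f → f < p → At ρ θ f x' r' → x2 ≤ x' → x' < 0 →
      -(a * q : ℤ) < x' + r' * q → x' + r' * q < a * q → False) : False := by
  classical
  have hP := h.hP
  have hpq := h.hpq
  have ha := hP.ha
  have hb2 := hP.hb
  have hsum := hP.hab
  have hc := h.hB.hc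
  have hp5 : (5 : ℤ) ≤ p := by omega
  have hq0 : 0 < q := by omega
  have hq0Z : (0 : ℤ) < q := by exact_mod_cast hq0
  have hq5 : (6 : ℤ) ≤ q := by omega
  have hcZ : (c : ℤ) ≤ 1 := by exact_mod_cast hc
  have hc0 : (0 : ℤ) ≤ c := by positivity
  have hM : ((a : ℤ) + b + 1) * q ≤ p * q :=
    mul_le_mul_of_nonneg_right (by exact_mod_cast hsum) hq0Z.le
  have hM' : (a : ℤ) * q + b * q + q ≤ p * q := by linarith
  have haq : 2 * (q : ℤ) ≤ a * q := mul_le_mul_of_nonneg_right (by exact_mod_cast ha) hq0Z.le
  have hbq : 2 * (q : ℤ) ≤ b * q := mul_le_mul_of_nonneg_right (by exact_mod_cast hb2) hq0Z.le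
  have hMc : ((p * q : ℕ) : ℤ) = p * q := by push_cast; ring
  set X1 : ZMod (p * q) := bx q c z i0 with hX1d
  have e0 : z i0 = X1 + ((c : ℤ) : ZMod (p * q)) := by
    rw [hX1d]
    unfold bx
    push_cast
    ring
  have hX1 : rp p q X1 = 0 := bx_rp h.hB i0
  set X2 : ZMod (p * q) := X1 + (x2 : ZMod (p * q)) with hX2d
  have hX2 : rp p q X2 = 0 := by
    rw [hX2d, map_add, hX1, map_intCast,
      (ZMod.intCast_zmod_eq_zero_iff_dvd _ _).2 (dvd_x h h2p hA2.hx), add_zero]
  have hz : ∀ f : ℕ, f < p → z (i0 + (f : ZMod p) * ρ) = z i0 + (f : ZMod (p * q)) * θ := h.hAP.2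
  have hsc : ∀ f : ℕ, f < p → sc q z (i0 + (f : ZMod p) * ρ) =
      sc q z i0 + (f : ZMod (p * q)) * (θ + e p q ρ) := fun f hf => ap_sc h.hAP hf
  have hAs : ∀ {f : ℕ} {x' r' : ℤ}, At ρ θ f x' r' →
      (f : ZMod (p * q)) * (θ + e p q ρ) = ((x' + r' * q : ℤ) : ZMod (p * q)) := by
    intro f x' r' hA
    have h1 : e p q ((f : ZMod p) * ρ) = ((r' * q : ℤ) : ZMod (p * q)) := by rw [hA.hr, e_int]
    rw [e_mul] at h1
    rw [mul_add, hA.hx, h1]
    push_cast
    ring
  have hi0 : i0 = i0 + ((0 : ℕ) : ZMod p) * ρ := by simp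
  set jN : ZMod p := i0 + (N : ZMod p) * ρ with hjN
  set j1 : ZMod p := i0 + (n1 : ZMod p) * ρ with hj1
  set j2 : ZMod p := i0 + (n2 : ZMod p) * ρ with hj2
  have hne : ∀ {f g : ℕ}, f < p → g < p → f ≠ g →
      i0 + (f : ZMod p) * ρ ≠ i0 + (g : ZMod p) * ρ := fun hf hg hfg => ap_ne h.hAP hf hg hfg
  have hneN : i0 ≠ jN := by rw [hi0]; exact hne (by omega) hNp (by omega)
  have hne1 : i0 ≠ j1 := by rw [hi0]; exact hne (by omega) h1p (by omega)
  have hne2 : i0 ≠ j2 := by rw [hi0]; exact hne (by omega) h2p (by omega)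
  have hne12 : j1 ≠ j2 := by
    refine hne h1p h2p ?_
    rintro rfl
    have h3 := hA1.hx
    rw [hA2.hx] at h3
    refine no_mod h3.symm (by linarith) ?_
    rw [hMc]
    linarith
  -- the ordinates
  obtain ⟨T1, T2, c1, c1', c2, c2', c4⟩ : ∃ T1 T2 : ℤ, 1 ≤ T1 ∧ T1 ≤ a * q ∧
      T1 - a * q ≤ x + r * q ∧ x + r * q < T1 ∧
      ((T2 = T1 + 1 ∧ T1 = a * q) ∨ (T2 = T1 - 1 ∧ T1 = 1)) := by
    rcases le_or_gt 0 (x + r * q) with h1 | h1
    · exact ⟨a * q, a * q + 1, by linarith, le_rfl, by linarith, hs2, Or.inl ⟨rfl, rfl⟩⟩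
    · exact ⟨1, 0, le_rfl, by linarith, by linarith, by linarith, Or.inr ⟨by norm_num, rfl⟩⟩
  set S1 : ZMod (p * q) := sc q z i0 + (T1 : ZMod (p * q)) with hS1
  set S2 : ZMod (p * q) := sc q z i0 + (T2 : ZMod (p * q)) with hS2
  have hgen : ∀ {j : ZMod p}, sc q z j = sc q z i0 → j = i0 := by
    intro j hj
    apply gen_res p q h.hG
    rw [← res_sc, hj, res_sc]
  -- z-windows
  have nz1 : nz q b z X1 ≤ 2 := by
    unfold nz
    have h2 : ∑ j : ZMod p, ((if j = i0 then (1 : ℤ) else 0) + (if j = jN then (1 : ℤ) else 0)) =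
        2 := by
      rw [Finset.sum_add_distrib, Finset.sum_ite_eq', Finset.sum_ite_eq']
      simp
    rw [← h2]
    apply Finset.sum_le_sum
    intro j _
    by_cases hj : off X1 (z j) < b * q
    · rw [if_pos hj]
      obtain ⟨f, hf, hfj⟩ := ap_row h.hAP j
      rcases Nat.eq_zero_or_pos f with f0 | f0
      · have : j = i0 := by rw [hfj, f0]; simp
        rw [if_pos this]
        split_ifs <;> omega
      · obtain ⟨o, ho⟩ : ∃ o : ℕ, o = off X1 (z j) := ⟨_, rfl⟩
        rw [← ho] at hj
        have ho1 : z j = X1 + (o : ZMod (p * q)) := by rw [ho]; exact (off_spec _ _).symm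
        have hfx : (f : ZMod (p * q)) * θ = (((o : ℤ) - c : ℤ) : ZMod (p * q)) := by
          have h3 := hz f hf
          rw [← hfj, ho1, e0] at h3
          push_cast at h3 ⊢
          linear_combination -h3
        have h4 := dvd_x h hf hfx
        have h5 := ap_ndvd' h.hAP h.hG f0 hf hfx
        have h6 : (0 : ℤ) ≤ (o : ℤ) - c := by
          by_contra hh
          have h7 : (o : ℤ) - c = -1 := by
            have : (0 : ℤ) ≤ o := by positivity
            omega
          rw [h7] at h4
          have := Int.le_of_dvd one_pos ((dvd_neg.1 h4))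
          omega
        have h7 : (o : ℤ) - c ≠ 0 := fun h8 => h5 (by rw [h8]; exact dvd_zero _)
        have h8 : (o : ℤ) < b * q := by exact_mod_cast hj
        have h9 := Hp f ((o : ℤ) - c) f0 hf hfx (by omega) (by linarith)
        have : j = jN := by rw [hfj, h9]
        rw [if_pos this]
        split_ifs <;> omega
    · rw [if_neg hj]
      split_ifs <;> omega
  have nz2 : 3 ≤ nz q b z X2 := by
    unfold nz
    have h2 : ∑ j : ZMod p, ((if j = i0 then (1 : ℤ) else 0) + (if j = j1 then (1 : ℤ) else 0) +
        (if j = j2 then (1 : ℤ) else 0)) = 3 := by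
      rw [Finset.sum_add_distrib, Finset.sum_add_distrib, Finset.sum_ite_eq',
        Finset.sum_ite_eq', Finset.sum_ite_eq']
      simp
    rw [← h2]
    apply Finset.sum_le_sum
    intro j _
    have key : ∀ {m : ℤ}, z j = X2 + (m : ZMod (p * q)) → 0 ≤ m → m < b * q →
        off X2 (z j) < b * q := by
      intro m h3 h4 h5
      have h6 := off_int h3 h4 (by rw [hMc]; linarith)
      have h7 : (off X2 (z j) : ℤ) < b * q := by rw [h6]; exact h5
      exact_mod_cast h7
    by_cases g0 : j = i0
    · have : off X2 (z j) < b * q := by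
        refine key (m := c - x2) ?_ (by linarith) hx2
        rw [g0, e0, hX2d]
        push_cast
        ring
      rw [if_pos this, if_pos g0, if_neg (by rw [g0]; exact hne1), if_neg (by rw [g0]; exact hne2)]
      norm_num
    · by_cases g1 : j = j1
      · have : off X2 (z j) < b * q := by
          refine key (m := c + x1 - x2) ?_ (by linarith) (by linarith)
          rw [g1, hj1, hz n1 h1p, hA1.hx, e0, hX2d]
          push_cast
          ring
        rw [if_pos this, if_neg g0, if_pos g1, if_neg (by rw [g1]; exact hne12)]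
        norm_num
      · by_cases g2 : j = j2
        · have : off X2 (z j) < b * q := by
            refine key (m := c) ?_ (by linarith) (by linarith)
            rw [g2, hj2, hz n2 h2p, hA2.hx, e0, hX2d]
            push_cast
            ring
          rw [if_pos this, if_neg g0, if_neg g1, if_pos g2]
          norm_num
        · rw [if_neg g0, if_neg g1, if_neg g2]
          split_ifs <;> norm_num
  have NN1 : 2 ≤ NN q a b z X1 S1 := by
    unfold NN
    refine sum_two hneN ?_ ?_ ?_
    · have : box q a b z i0 X1 S1 := by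
        constructor
        · have h6 := off_int e0 hc0 (by rw [hMc]; linarith)
          have h7 : (off X1 (z i0) : ℤ) < b * q := by rw [h6]; linarith
          exact_mod_cast h7
        · have h6 := off_int (x := sc q z i0 + 1) (y := S1) (m := T1 - 1) (by
            rw [hS1]
            push_cast
            ring) (by linarith) (by rw [hMc]; linarith)
          have h7 : (off (sc q z i0 + 1) S1 : ℤ) < a * q := by rw [h6]; linarith
          exact_mod_cast h7
      rw [if_pos this]
    · have : box q a b z jN X1 S1 := by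
        constructor
        · have h6 := off_int (x := X1) (y := z jN) (m := c + x) (by
            rw [hjN, hz N hNp, hAt.hx, e0]
            push_cast
            ring) (by linarith) (by rw [hMc]; linarith)
          have h7 : (off X1 (z jN) : ℤ) < b * q := by rw [h6]; linarith
          exact_mod_cast h7
        · have h6 := off_int (x := sc q z jN + 1) (y := S1) (m := T1 - 1 - (x + r * q)) (by
            rw [hS1, hjN, hsc N hNp, hAs hAt]
            push_cast
            ring) (by linarith) (by rw [hMc]; linarith)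
          have h7 : (off (sc q z jN + 1) S1 : ℤ) < a * q := by rw [h6]; linarith
          exact_mod_cast h7
      rw [if_pos this]
    · intro m _ _
      split_ifs <;> norm_num
  have NN2 : NN q a b z X2 S2 ≤ 0 := by
    unfold NN
    apply Finset.sum_nonpos
    intro j _
    rw [if_neg]
    rintro ⟨hb1, hb3⟩
    obtain ⟨f, hf, hfj⟩ := ap_row h.hAP j
    obtain ⟨o, ho⟩ : ∃ o : ℕ, o = off X2 (z j) := ⟨_, rfl⟩
    obtain ⟨u, hu⟩ : ∃ u : ℕ, u = off (sc q z j + 1) S2 := ⟨_, rfl⟩
    have hu1 : S2 = sc q z j + 1 + (u : ZMod (p * q)) := by rw [hu]; exact (off_spec _ _).symm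
    rw [← ho] at hb1
    rw [← hu] at hb3
    have hb3Z : (u : ℤ) < a * q := by exact_mod_cast hb3
    have hu0 : (0 : ℤ) ≤ u := by positivity
    have hb1Z : (o : ℤ) < b * q := by exact_mod_cast hb1
    have ho1 : z j = X2 + (o : ZMod (p * q)) := by rw [ho]; exact (off_spec _ _).symm
    have ho0 : (0 : ℤ) ≤ o := by positivity
    rcases Nat.eq_zero_or_pos f with f0 | f0
    · have hji : j = i0 := by rw [hfj, f0]; simp
      rw [hji] at hu1
      rcases c4 with ⟨c5, c6⟩ | ⟨c5, c6⟩
      · have h6 := off_int (x := sc q z i0 + 1) (y := S2) (m := a * q) (by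
            rw [hS2, c5, c6]
            push_cast
            ring) (by linarith) (by rw [hMc]; linarith)
        rw [hji] at hu
        rw [← hu] at h6
        linarith
      · have h6 := off_int (x := sc q z i0 + 1) (y := S2) (m := p * q - 1) (by
            rw [hS2, c5, c6]
            have := cast_M (p := p) (q := q)
            push_cast at this ⊢
            linear_combination -this) (by linarith) (by rw [hMc]; linarith)
        rw [hji] at hu
        rw [← hu] at h6
        linarith
    · have hfx : (f : ZMod (p * q)) * θ = (((o : ℤ) - c + x2 : ℤ) : ZMod (p * q)) := by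
        have h3 := hz f hf
        rw [← hfj, ho1, e0, hX2d] at h3
        push_cast at h3 ⊢
        linear_combination -h3
      have h4 := dvd_x h hf hfx
      have h5 := ap_ndvd' h.hAP h.hG f0 hf hfx
      have h4' : (p : ℤ) ∣ (o : ℤ) - c := by
        have := dvd_sub h4 (dvd_x h h2p hA2.hx)
        rwa [add_sub_cancel_right] at this
      have h6 : (0 : ℤ) ≤ (o : ℤ) - c := by
        by_contra hh
        have h7 : (o : ℤ) - c = -1 := by omega
        rw [h7] at h4'
        have := Int.le_of_dvd one_pos ((dvd_neg.1 h4'))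
        omega
      obtain ⟨x', hx'⟩ : ∃ x' : ℤ, x' = (o : ℤ) - c + x2 := ⟨_, rfl⟩
      rw [← hx'] at hfx h5
      have h7 : x' ≠ 0 := fun h8 => h5 (by rw [h8]; exact dvd_zero _)
      rcases lt_or_gt_of_ne h7 with h8 | h8
      · -- `x' < 0`
        obtain ⟨v', hv'⟩ : ∃ v' : ℤ, v' = T2 - 1 - u := ⟨_, rfl⟩
        have hv1 : (f : ZMod (p * q)) * (θ + e p q ρ) = (v' : ZMod (p * q)) := by
          have h3 := hsc f hf
          rw [← hfj] at h3
          rw [hS2, h3] at hu1
          rw [hv']
          push_cast
          linear_combination -hu1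
        have hv2 := ap_ndvd h.hAP h.hG f0 hf hv1
        have hv3 : -(a * q : ℤ) < v' ∧ v' < a * q := by
          have g1 : v' ≠ a * q := fun g => hv2 (by rw [g]; exact dvd_mul_left _ _)
          have g2 : v' ≠ -(a * q) := fun g => hv2 (by rw [g]; exact (dvd_neg.2 (dvd_mul_left _ _)))
          rcases c4 with ⟨c5, c6⟩ | ⟨c5, c6⟩
          · constructor
            · linarith
            · exact lt_of_le_of_ne (by linarith) g1
          · constructor
            · exact lt_of_le_of_ne (by linarith) (fun g => g2 g.symm)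
            · linarith
        obtain ⟨r0, hr0⟩ : ∃ r0 : ℤ, r0 = ((((f : ZMod p) * ρ).val : ℕ) : ℤ) := ⟨_, rfl⟩
        have hr1 : (f : ZMod p) * ρ = (r0 : ZMod p) := by
          rw [hr0]
          push_cast
          rw [ZMod.natCast_zmod_val]
        have hA0 : At ρ θ f x' r0 := ⟨hfx, hr1⟩
        have h9 := hAs hA0
        rw [hv1, ZMod.intCast_eq_intCast_iff_dvd_sub] at h9
        obtain ⟨t, ht⟩ := h9
        rw [hMc] at ht
        have hA' : At ρ θ f x' (r0 - p * t) := by
          refine ⟨hfx, ?_⟩
          rw [hr1]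
          push_cast
          rw [ZMod.natCast_self]
          ring
        have h11 : x' + (r0 - p * t) * q = v' := by linarith
        exact Hn f x' (r0 - p * t) f0 hf hA' (by linarith) h8 (by rw [h11]; exact hv3.1)
          (by rw [h11]; exact hv3.2)
      · -- `x' > 0`
        have h9 := Hp f x' f0 hf hfx h8 (by linarith)
        rw [h9, hAt.hx] at hfx
        rcases lt_trichotomy x x' with g | g | g
        · linarith
        · linarith
        · refine no_mod hfx (by linarith) ?_
          rw [hMc]
          linarith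
  have ns12 : ns q a z S1 ≤ ns q a z S2 + 1 := by
    unfold ns
    have h2 : ∑ j : ZMod p, (if j = i0 then (1 : ℤ) else 0) = 1 := by
      rw [Finset.sum_ite_eq']
      simp
    rw [← h2, ← Finset.sum_add_distrib]
    apply Finset.sum_le_sum
    intro j _
    by_cases g0 : j = i0
    · rw [if_pos g0]
      split_ifs <;> norm_num
    · rw [if_neg g0]
      by_cases hj : off (sc q z j + 1) S1 < a * q
      · have : off (sc q z j + 1) S2 < a * q := by
          obtain ⟨u, hu⟩ : ∃ u : ℕ, u = off (sc q z j + 1) S1 := ⟨_, rfl⟩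
          have hu1 : S1 = sc q z j + 1 + (u : ZMod (p * q)) := by
            rw [hu]; exact (off_spec _ _).symm
          rw [← hu] at hj
          have hjZ : (u : ℤ) < a * q := by exact_mod_cast hj
          have hu0 : (0 : ℤ) ≤ u := by positivity
          rcases c4 with ⟨c5, c6⟩ | ⟨c5, c6⟩
          · have h3 : S2 = sc q z j + 1 + (((u : ℤ) + 1 : ℤ) : ZMod (p * q)) := by
              have : S2 = S1 + 1 := by
                rw [hS2, hS1, c5]
                push_cast
                ring
              rw [this, hu1]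
              push_cast
              ring
            have h6 := off_int h3 (by linarith) (by rw [hMc]; linarith)
            have h7 : (u : ℤ) + 1 ≠ a * q := by
              intro h8
              apply g0
              apply hgen
              have h9 : S1 = sc q z j + ((a * q : ℤ) : ZMod (p * q)) := by
                rw [hu1, ← h8]
                push_cast
                ring
              rw [hS1, c6] at h9
              exact (add_right_cancel h9).symm
            have h8 : (off (sc q z j + 1) S2 : ℤ) < a * q := by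
              rw [h6]
              exact lt_of_le_of_ne (by linarith) h7
            exact_mod_cast h8
          · have h7 : u ≠ 0 := by
              intro h8
              apply g0
              apply hgen
              rw [h8, hS1, c6] at hu1
              push_cast at hu1
              rw [add_zero] at hu1
              exact (add_right_cancel hu1).symm
            have h3 : S2 = sc q z j + 1 + (((u : ℤ) - 1 : ℤ) : ZMod (p * q)) := by
              have : S2 = S1 - 1 := by
                rw [hS2, hS1, c5]
                push_cast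
                ring
              rw [this, hu1]
              push_cast
              ring
            have h6 := off_int h3 (by omega) (by rw [hMc]; linarith)
            have h8 : (off (sc q z j + 1) S2 : ℤ) < a * q := by
              rw [h6]
              linarith
            exact_mod_cast h8
        rw [if_pos hj, if_pos this]
        norm_num
      · rw [if_neg hj]
        split_ifs <;> norm_num
  have hfin := H p q a b hsum (by omega) (by omega) z X1 S1 X2 S2 (fun W => h.hF _ _ _ hX1)
    (fun W => h.hF _ _ _ hX2) NN1 NN2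
  have haZ : (0 : ℤ) ≤ a := by positivity
  have hbZ : (0 : ℤ) ≤ b := by positivity
  have habZ : (b : ℤ) < a := by exact_mod_cast hab
  have k1 : (a : ℤ) * 3 ≤ a * nz q b z X2 := mul_le_mul_of_nonneg_left nz2 haZ
  have k2 : (a : ℤ) * nz q b z X1 ≤ a * 2 := mul_le_mul_of_nonneg_left nz1 haZ
  have k3 : (b : ℤ) * ns q a z S1 ≤ b * (ns q a z S2 + 1) := mul_le_mul_of_nonneg_left ns12 hbZ
  linarith

end

end Helper25.AV
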