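import Pool.Agent.Helper25.KW.AV1

set_option autoImplicit false
set_option linter.unusedSectionVars false
set_option linter.unusedVariables false

/-!
# The averaging argument in the abstract worlds
-/

namespace Helper25.AV

open Helper11.N1 Helper55.KE Helper25.FLT Helper25.KW Helper12.TL Helper48.AV Helper81.CT

/-- a single element `N` of `K'`, `x > 0`, the only one with `0 < x < b`, and two elements on the
left with `x > -b` and `x < x_N - b` do not exist together -/
def AVF (p a b l ds : ℤ) (D : ℝ) (Cl : ℤ → ℤ → ℤ → ℤ → ℝ → Prop) : Prop :=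
  ∀ (N X R : ℤ) (I : ℝ), KGF p a b ds D (P1 l p) Cl N X R I → b < a → 2 * (b : ℝ) < D →
    0 < X + ds * I →
    (∀ (N' X' R' : ℤ) (I' : ℝ), KGF p a b ds D (P1 l p) Cl N' X' R' I' → N' = N) →
    (∀ (N' X' R' : ℤ) (I' : ℝ), Cl N' 0 X' R' I' → 0 < N' → N' < p → P1 l p N' → N' ≠ N →
      0 < X' + ds * I' → X' + ds * I' < b → False) →
    ∀ (N1 X1 R1 : ℤ) (I1 : ℝ), Cl N1 0 X1 R1 I1 → 0 < N1 → N1 < p → P1 l p N1 →
    -b < X1 + ds * I1 → X1 + ds * I1 < 0 → b + (X1 + ds * I1) < X + ds * I →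
    ∀ (N2 X2 R2 : ℤ) (I2 : ℝ), Cl N2 0 X2 R2 I2 → 0 < N2 → N2 < p → P1 l p N2 →
    -b < X2 + ds * I2 → X2 + ds * I2 < 0 → b + (X2 + ds * I2) < X + ds * I → N1 ≠ N2 → False

section

variable {p q a b c : ℕ} [NeZero p] [NeZero q] {z : ZMod p → ZMod (p * q)} {i0 ρ : ZMod p}
  {θ : ZMod (p * q)} {δ l : ℕ} {k : ℤ} {s ds J : ℤ}

/-- equal abscissas give equal indices modulo `q` -/
theorem dvd_idx (h : LS p q a b c z i0 ρ θ δ l k) {m : ℤ} (hm : (m : ZMod (p * q)) * θ = 0) :
    (q : ℤ) ∣ m := by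
  have h1 := congrArg (res p q) hm
  rw [map_mul, map_zero, res_int] at h1
  rw [← ZMod.intCast_zmod_eq_zero_iff_dvd]
  exact (h.unit.mul_left_eq_zero).1 h1

theorem idx_eq (h : LS p q a b c z i0 ρ θ δ l k) {n m : ℕ} (hn : n < p) (hm : m < p) {x : ℤ}
    (h1 : (n : ZMod (p * q)) * θ = (x : ZMod (p * q)))
    (h2 : (m : ZMod (p * q)) * θ = (x : ZMod (p * q))) : n = m := by
  have h3 := dvd_idx h (m := (n : ℤ) - m) (by push_cast; linear_combination h1 - h2)
  have hpq := h.hpq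
  have h4 := Int.eq_zero_of_abs_lt_dvd h3 (by rw [abs_lt]; constructor <;> omega)
  omega

/-- an index with abscissa in `(-b q + c, b q)` is none of `l`, `p - l` -/
theorem p1x (h : SG p q a b c z i0 ρ θ δ l k s ds J) (hps : 2 * (b : ℤ) * q < p * s) {f : ℕ}
    {x : ℤ} (hx : (f : ZMod (p * q)) * θ = (x : ZMod (p * q))) (h1 : c - x < b * q)
    (h2 : x < b * q) : P1 l p f := by
  have hq := h.q0
  have hP := h.ls.hP
  have hps2 : 2 * ((p : ℤ) * s) ≤ p * q - p := by
    have h1 : 2 * s + 1 ≤ q := h.h2s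
    have h2 : (p : ℤ) * (2 * s + 1) ≤ p * q := mul_le_mul_of_nonneg_left h1 (by positivity)
    linarith
  have hp3 : (3 : ℤ) ≤ p := by
    have := hP.ha
    have := hP.hb
    have := hP.hab
    omega
  have hbq0 : (0 : ℤ) ≤ b * q := by positivity
  have hc0 : (0 : ℤ) ≤ c := by positivity
  have hcc : (1 - 2 * (c : ℤ)) = 1 ∧ (c : ℤ) = 0 ∨ (1 - 2 * (c : ℤ)) = -1 ∧ (c : ℤ) = 1 := by
    rcases h.ls.eps with ⟨h1, h3⟩ | ⟨h1, h3⟩
    · left
      exact ⟨h1, by exact_mod_cast h3⟩
    · right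
      exact ⟨h1, by exact_mod_cast h3⟩
  constructor
  · intro hfl
    have hfl' : f = l := by exact_mod_cast hfl
    subst hfl'
    rw [h.ls.hxl] at hx
    refine no_mod hx.symm ?_ ?_
    · rcases hcc with ⟨g1, g2⟩ | ⟨g1, g2⟩ <;> linarith
    · push_cast
      rcases hcc with ⟨g1, g2⟩ | ⟨g1, g2⟩ <;> linarith
  · intro h0
    have h0' : f + l = p := by exact_mod_cast h0
    have h2' := h.ls.hxl
    have h3 := h.ls.hδ
    have h4 : (x : ZMod (p * q)) = (((δ : ℤ) + b * q + (1 - 2 * c) : ℤ) : ZMod (p * q)) := by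
      have h5 : ((f : ZMod (p * q)) + (l : ZMod (p * q))) = (p : ZMod (p * q)) := by
        exact_mod_cast congrArg (Nat.cast : ℕ → ZMod (p * q)) h0'
      rw [← hx]
      push_cast at h2' ⊢
      rw [h3, ← h5]
      linear_combination -h2'
    rcases h.hδ with ⟨_, hd⟩ | ⟨_, hd⟩
    · rw [hd] at h4
      refine no_mod h4.symm ?_ ?_
      · rcases hcc with ⟨g1, g2⟩ | ⟨g1, g2⟩ <;> linarith
      · push_cast
        rcases hcc with ⟨g1, g2⟩ | ⟨g1, g2⟩ <;> linarith
    · rw [hd] at h4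
      have h6 : (x : ZMod (p * q)) = ((-(p * s : ℤ) + b * q + (1 - 2 * c) : ℤ) : ZMod (p * q)) := by
        rw [h4]
        push_cast
        have := cast_M (p := p) (q := q)
        push_cast at this
        linear_combination this
      refine no_mod h6 ?_ ?_
      · rcases hcc with ⟨g1, g2⟩ | ⟨g1, g2⟩ <;> linarith
      · push_cast
        rcases hcc with ⟨g1, g2⟩ | ⟨g1, g2⟩ <;> linarith

theorem avf (H : StCMP) (h : SG p q a b c z i0 ρ θ δ l k s ds J) (h2b : 2 * b < p)
    (hq : p + l ≤ q) : AVF p a b l ds (DD p q s) (ClS p q c ρ θ s ds) := by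
  have hq0 := h.q0
  have hqR := h.q0R
  have hpq := h.ls.hpq
  have hP := h.ls.hP
  have hb := hP.hb
  have hl0 := h.ls.hl0
  have hlp := h.ls.hl
  have hcc : (1 - 2 * (c : ℤ)) = 1 ∧ (c : ℤ) = 0 ∨ (1 - 2 * (c : ℤ)) = -1 ∧ (c : ℤ) = 1 := by
    rcases h.ls.eps with ⟨h1, h3⟩ | ⟨h1, h3⟩
    · left
      exact ⟨h1, by exact_mod_cast h3⟩
    · right
      exact ⟨h1, by exact_mod_cast h3⟩
  -- the two elements on the left, the first one is nearer to `0`
  have main : ∀ (N X R : ℤ) (I : ℝ),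
      KGF p a b ds (DD p q s) (P1 l p) (ClS p q c ρ θ s ds) N X R I → (b : ℤ) < a →
      2 * ((b : ℤ) : ℝ) < DD p q s → 0 < X + ds * I →
      (∀ (N' X' R' : ℤ) (I' : ℝ),
        KGF p a b ds (DD p q s) (P1 l p) (ClS p q c ρ θ s ds) N' X' R' I' → N' = N) →
      (∀ (N' X' R' : ℤ) (I' : ℝ), ClS p q c ρ θ s ds N' 0 X' R' I' → 0 < N' → N' < p →
        P1 l p N' → N' ≠ N → 0 < X' + ds * I' → X' + ds * I' < (b : ℤ) → False) →
      ∀ (N1 X1 R1 : ℤ) (I1 : ℝ), ClS p q c ρ θ s ds N1 0 X1 R1 I1 → 0 < N1 → N1 < p →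
      P1 l p N1 → -((b : ℤ) : ℝ) < X1 + ds * I1 → X1 + ds * I1 < 0 →
      ((b : ℤ) : ℝ) + (X1 + ds * I1) < X + ds * I →
      ∀ (N2 X2 R2 : ℤ) (I2 : ℝ), ClS p q c ρ θ s ds N2 0 X2 R2 I2 → 0 < N2 → N2 < p →
      P1 l p N2 → -((b : ℤ) : ℝ) < X2 + ds * I2 → X2 + ds * I2 < 0 →
      ((b : ℤ) : ℝ) + (X2 + ds * I2) < X + ds * I → X2 + ds * I2 < X1 + ds * I1 → False := by
    intro N X R I hK hab hD hx hU hV N1 X1 R1 I1 hC1 h10 h1p hP1 hx1 hx1n ho1 N2 X2 R2 I2 hC2 h20
      h2p hP2 hx2 hx2n ho2 h21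
    have hN0 := hK.N0
    have hNp := hK.Np
    have hPN := hK.NP
    have hAt := hK.cl
    obtain ⟨b1, b2, b3, b4⟩ := hK.bx
    obtain ⟨n, rfl⟩ := Int.eq_ofNat_of_zero_le hN0.le
    obtain ⟨n1, rfl⟩ := Int.eq_ofNat_of_zero_le h10.le
    obtain ⟨n2, rfl⟩ := Int.eq_ofNat_of_zero_le h20.le
    have gen : ∀ {m : ℕ} {Y : ℤ} {K : ℝ} {W : ℤ}, ClS p q c ρ θ s ds m 0 Y W K →
        ((Y : ℝ) + ds * K) * q = ((Y * q + ds * s * m : ℤ) : ℝ) := by
      intro m Y K W hC
      have := h.qx hC 0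
      push_cast at this ⊢
      linarith
    have e0 := gen hAt
    have e1 := gen hC1
    have e2 := gen hC2
    have A0 := h.atr hAt
    have A1 := h.atr hC1
    have A2 := h.atr hC2
    set x : ℤ := X * q + ds * s * n with hxdef
    set x1 : ℤ := X1 * q + ds * s * n1 with hx1def
    set x2 : ℤ := X2 * q + ds * s * n2 with hx2def
    push_cast at b1 b2 b3 b4 hD hx1 hx2 ho1 ho2
    have hx0 : 0 < x := by
      have h1 : (0 : ℝ) < x := by rw [← e0]; exact mul_pos hx hqR
      exact_mod_cast h1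
    have hxb : x < b * q := by
      have h1 : (x : ℝ) < b * q := by rw [← e0]; exact mul_lt_mul_of_pos_right b2 hqR
      exact_mod_cast h1
    have hs1 : -(a * q : ℤ) < x + R * q := by
      have h1 : -((a : ℝ) * q) < (x : ℝ) + R * q := by
        have h9 : (x : ℝ) + R * q = ((X : ℝ) + ds * I + R) * q := by rw [add_mul, e0]
        rw [h9, ← neg_mul]
        exact mul_lt_mul_of_pos_right b3 hqR
      exact_mod_cast h1
    have hs2 : x + R * q < a * q := by
      have h1 : (x : ℝ) + R * q < a * q := by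
        have h9 : (x : ℝ) + R * q = ((X : ℝ) + ds * I + R) * q := by rw [add_mul, e0]
        rw [h9]
        exact mul_lt_mul_of_pos_right b4 hqR
      exact_mod_cast h1
    have h21' : x2 < x1 := by
      have h1 : (x2 : ℝ) < x1 := by rw [← e1, ← e2]; exact mul_lt_mul_of_pos_right h21 hqR
      exact_mod_cast h1
    have h1n' : x1 < 0 := by
      have h1 : (x1 : ℝ) < 0 := by
        rw [← e1]
        exact mul_neg_of_neg_of_pos hx1n hqR
      exact_mod_cast h1
    have h2b' : -(b * q : ℤ) < x2 := by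
      have h1 : -((b : ℝ) * q) < x2 := by
        rw [← e2, ← neg_mul]
        exact mul_lt_mul_of_pos_right hx2 hqR
      exact_mod_cast h1
    have hout : (b * q : ℤ) ≤ x - x2 := by
      have h1 : (b : ℝ) * q + x2 < x := by
        rw [← e2, ← e0, ← add_mul]
        exact mul_lt_mul_of_pos_right ho2 hqR
      have h2 : (b * q : ℤ) + x2 < x := by exact_mod_cast h1
      linarith
    have hps : 2 * (b : ℤ) * q < p * s := by
      have hD2 : (q : ℝ) * DD p q s = ((p * s : ℤ) : ℝ) := by rw [h.pD]; push_cast; ring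
      have h1 : (q : ℝ) * (2 * (b : ℝ)) < q * DD p q s := mul_lt_mul_of_pos_left hD hqR
      rw [hD2] at h1
      have h2 : (q : ℤ) * (2 * (b : ℤ)) < p * s := by exact_mod_cast h1
      linarith
    have hn0 : 0 < n := by exact_mod_cast hN0
    have hnp : n < p := by exact_mod_cast hNp
    have hn10 : 0 < n1 := by exact_mod_cast h10
    have hn1p : n1 < p := by exact_mod_cast h1p
    have hn20 : 0 < n2 := by exact_mod_cast h20
    have hn2p : n2 < p := by exact_mod_cast h2p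
    have hxc : x + c < b * q := by
      rcases hcc with ⟨g1, g2⟩ | ⟨g1, g2⟩
      · linarith
      · refine lt_of_le_of_ne (by linarith) ?_
        intro h9
        have h3 := dvd_idx h.ls (m := (n : ℤ) + l) (by
          have h4 := A0.hx
          have h5 := h.ls.hxl
          have h6 : x = b * q - c := by linarith
          rw [g1] at h5
          rw [h6, g2] at h4
          push_cast at h4 h5 ⊢
          linear_combination h4 + h5)
        have := Int.le_of_dvd (by omega) h3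
        omega
    have hx2c : c - x2 < b * q := by
      rcases hcc with ⟨g1, g2⟩ | ⟨g1, g2⟩
      · linarith
      · refine lt_of_le_of_ne (by linarith) ?_
        intro h9
        refine hP2.1 ?_
        have h6 : x2 = -(b * q) - (1 - 2 * c) := by linarith
        have h4 := A2.hx
        rw [h6] at h4
        exact_mod_cast idx_eq h.ls hn2p hlp h4 h.ls.hxl
    refine av1 H h.ls (by exact_mod_cast hab) hn0 hnp hn10 hn1p hn20 hn2p A0 A1 A2 hx0 hxc hs1 hs2
      h21' h1n' hx2c hout ?_ ?_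
    · intro f x' hf0 hfp hfx h1 h2
      by_contra hne
      have hc0 : (0 : ℤ) ≤ c := by positivity
      have hc1 : (c : ℤ) ≤ 1 := by rcases hcc with ⟨g1, g2⟩ | ⟨g1, g2⟩ <;> omega
      have hp := p1x h hps hfx (by
        have : (0 : ℤ) < b * q := by linarith
        linarith) h2
      obtain ⟨X', I', hC, hxI⟩ := h.cex f x' (((f : ZMod p) * ρ).val : ℕ) (by
        push_cast at hfx ⊢
        exact hfx) (by
        push_cast
        rw [ZMod.natCast_zmod_val])
      have hxq : ((X' : ℝ) + ds * I') * q = x' := by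
        rw [hxI]
        field_simp
      refine hV f X' _ I' hC (by exact_mod_cast hf0) (by exact_mod_cast hfp) hp
        (by exact_mod_cast hne) ?_ ?_
      · have h6 : (0 : ℝ) < x' := by exact_mod_cast h1
        rw [← hxq] at h6
        exact pos_of_mul_pos h6 hqR
      · have h6 : (x' : ℝ) < b * q := by exact_mod_cast h2
        rw [← hxq] at h6
        push_cast
        exact lt_of_mul_lt_mul_right h6 hqR.le
    · intro f x' r' hf0 hfp hfA h1 h2 h3 h4
      have hp := p1x h hps hfA.hx (by linarith) (by linarith)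
      obtain ⟨X', I', hK', hxI⟩ := h.khAt (P := P1 l p) hf0 hfp hp hfA (by
        rw [abs_lt]
        constructor <;> linarith) (by
        rw [abs_lt]
        exact ⟨h3, h4⟩)
      have h5 := hU _ _ _ _ (h.kgf hK')
      have h6 : f = n := by exact_mod_cast h5
      subst h6
      have h7 := A0.hx
      rw [hfA.hx] at h7
      refine no_mod h7.symm (by linarith) ?_
      push_cast
      have h8 : ((a : ℤ) + b + 1) * q ≤ p * q :=
        mul_le_mul_of_nonneg_right (by exact_mod_cast hP.hab) hq0.le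
      have h9 : (b : ℤ) * q ≤ a * q := mul_le_mul_of_nonneg_right hab.le hq0.le
      linarith
  intro N X R I hK hab hD hx hU hV N1 X1 R1 I1 hC1 h10 h1p hP1 hx1 hx1n ho1 N2 X2 R2 I2 hC2 h20
    h2p hP2 hx2 hx2n ho2 hne
  rcases lt_trichotomy ((X2 : ℝ) + ds * I2) (X1 + ds * I1) with g | g | g
  · exact main N X R I hK hab hD hx hU hV N1 X1 R1 I1 hC1 h10 h1p hP1 hx1 hx1n ho1 N2 X2 R2 I2 hC2
      h20 h2p hP2 hx2 hx2n ho2 g
  · obtain ⟨n1, rfl⟩ := Int.eq_ofNat_of_zero_le h10.le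
    obtain ⟨n2, rfl⟩ := Int.eq_ofNat_of_zero_le h20.le
    apply hne
    have e1 := h.qx hC1 0
    have e2 := h.qx hC2 0
    push_cast at e1 e2
    have A1 := h.atr hC1
    have A2 := h.atr hC2
    have h3 : (X2 * q + ds * s * n2 : ℤ) = X1 * q + ds * s * n1 := by
      have h4 : (((X2 * q + ds * s * n2 : ℤ)) : ℝ) = ((X1 * q + ds * s * n1 : ℤ) : ℝ) := by
        push_cast
        have h5 : ((X2 : ℝ) + ds * I2) * q = (X1 + ds * I1) * q := by rw [g]
        linarith
      exact_mod_cast h4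
    have h4 := A2.hx
    rw [h3] at h4
    exact_mod_cast idx_eq h.ls (by exact_mod_cast h1p) (by exact_mod_cast h2p) A1.hx h4
  · exact main N X R I hK hab hD hx hU hV N2 X2 R2 I2 hC2 h20 h2p hP2 hx2 hx2n ho2 N1 X1 R1 I1 hC1
      h10 h1p hP1 hx1 hx1n ho1 g

end

end Helper25.AV
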