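import Pool.Agent.Helper25.KW.W1

set_option autoImplicit false
set_option linter.unusedSectionVars false

/-!
# `s = 2 J` implies `J = 1`
-/

namespace Helper25.KW

open Helper11.N1 Helper55.KE

section

variable {p q a b c : ℕ} [NeZero p] [NeZero q] {z : ZMod p → ZMod (p * q)} {i0 ρ : ZMod p}
  {θ : ZMod (p * q)} {δ l : ℕ} {k : ℤ} {s ds J : ℤ}

theorem SG.ej (h : SG p q a b c z i0 ρ θ δ l k s ds J) (hE : s = 2 * J) : J = 1 := by
  have hs := h.hs
  have hJ := h.hJ
  have h1 : J ∣ 1 := by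
    have h2 : J ∣ ds * (1 - 2 * (c : ℤ)) := by
      refine ⟨q - 2 * l, ?_⟩
      rw [hE] at hJ
      linear_combination hJ
    have h3 : (1 - 2 * (c : ℤ)) = 1 ∨ (1 - 2 * (c : ℤ)) = -1 := by
      have := h.ls.hB.hc
      omega
    rcases h.hds with h4 | h4 <;> rcases h3 with h5 | h5 <;> rw [h4, h5] at h2 <;>
      norm_num at h2 ⊢ <;> exact h2
  have h2 := Int.le_of_dvd one_pos h1
  omega

end

end Helper25.KW
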