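import Pool.Agent.Helper25.FLT.End
import Pool.Agent.Helper11.LV.All
import Pool.Agent.Helper25.KG.PLAll
import Pool.Agent.Helper11.CT.S2All
import Pool.Agent.Helper12.TQ.Fill

set_option autoImplicit false

/-!
# Assembly of the conjecture on flat ternary cyclotomic polynomials from `S1`
-/

namespace Helper25.KW

open Helper25.FLT

/-- the conjecture from the class `S1`, `p + l ≤ q` -/
theorem main_of2 (h1 : StS1) :
    ∀ p q r : ℕ, p.Prime → q.Prime → r.Prime → Odd p → Odd q → Odd r →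
      p < q → q < r →
      (∀ k : ℕ, |(Polynomial.cyclotomic (p * q * r) ℤ).coeff k| ≤ 1) →
      (Int.ModEq (p : ℤ) (q : ℤ) 1 ∨ Int.ModEq (p : ℤ) (q : ℤ) (-1)) ∨
      (Int.ModEq ((p * q : ℕ) : ℤ) (r : ℤ) 1 ∨ Int.ModEq ((p * q : ℕ) : ℤ) (r : ℤ) (-1)) :=
  end_of (stLSs_of Helper11.LV.lx_h
    (stKN_of h1 Helper11.CT.stS2 (stPL_of Helper25.KG.stTP) Helper12.TQ.stQ2))

end Helper25.KW
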