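import Pool.Agent.Helper25.KW.S1G
import Pool.Agent.Helper25.KW.AVF

set_option autoImplicit false
set_option linter.unusedSectionVars false
set_option linter.unusedVariables false

/-!
# The averaging argument for `k`, `w` and `2 w`
-/

namespace Helper25.KW

open Helper11.N1 Helper55.KE Helper25.KG Helper48.KY Helper11.CT

section

variable {p a b c J ds l q : ℤ} {D dl : ℝ} {Cl : ℤ → ℤ → ℤ → ℤ → ℝ → Prop}

theorem nx_false (W : Base p a b c J ds l q D dl Cl) (S : Sel p a b l ds D dl Cl)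
    (hA : Aux p a b ds D Cl) (hAr : Ar p l D) (hAv : Helper25.AV.AVF p a b l ds D Cl)
    (hab : b < a) (hD : 2 * (b : ℝ) < D)
    {N X R Nw Xw Rw : ℤ} {I Iw : ℝ} (hT : KU p a b l ds Cl (fun _ _ _ => True) N)
    (hK : KGF p a b ds D (P1 l p) Cl N X R I)
    (hJ : (J : ℝ) < I) (hIJ : D < I + J) (hx : 0 < (X : ℝ) + ds * I)
    (hn : StN p b l ds Cl (Zp ds) N N) (w : SW p a b l ds D Cl (Zx ds) N Nw Xw Rw Iw)
    (hlt : Iw < I) : False := by
  obtain ⟨al, t, F⟩ := nxf W S hA hAr hD hK hJ hIJ hx hn w hlt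
  have hb := W.hb
  have hbR : (2 : ℝ) ≤ b := by exact_mod_cast hb
  have hal := F.eb.a1
  have hal3 : 3 ≤ al := by omega
  have halR : (b : ℝ) + 1 ≤ al := by exact_mod_cast hal
  have hw0 := w.w.N0
  have hwp := w.w.Np
  have hx1 := w.x1
  have hx2 := w.z
  unfold Zx at hx2
  have hlp := W.hlp
  have hl := F.eu.l
  have hds : |(ds : ℝ)| = 1 := by
    rcases W.hds with ⟨rfl, _⟩ | ⟨rfl, _⟩ <;> norm_num
  have e5 : |(ds : ℝ) * (al * Iw - J)| < 1 / 4 := by
    rw [abs_mul, hds, one_mul]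
    linarith [F.eu.I1]
  have e6 := abs_lt.1 e5
  have hX : (al : ℝ) * Xw = -b - ds * J := by exact_mod_cast F.eu.X
  have hy : (al : ℝ) * (Xw + ds * Iw) = -b + ds * (al * Iw - J) := by linear_combination hX
  have h2x : -(b : ℝ) < 2 * (Xw + ds * Iw) := by nlinarith
  have m2 := Helper48.KY.mul W w.w.cl 2
  push_cast at m2
  have h2l : 2 * Nw < l := by rw [hl]; nlinarith
  have hxk := F.eb.xk
  refine hAv N X R I hK hab hD hx ?_ ?_ Nw Xw Rw Iw w.w.cl hw0 hwp ⟨w.w.nl, w.w.npl⟩ hx1 hx2 hxk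
    (2 * Nw) (2 * Xw) (2 * Rw) (2 * Iw) m2 (by omega) (by omega) ⟨by omega, ?_⟩ ?_ ?_ ?_ (by omega)
  · intro N' X' R' I' g
    exact hT g.cl (by norm_num) g.N0 g.Np g.NP g.bx trivial
  · intro N' X' R' I' g g0 gp gP gn g1 g2
    exact hn g (by norm_num) g0 gp gP gn gn (by linarith) g2 g1
  · intro h'
    refine Helper91.Strip.xnpl' W S hD h' m2 ⟨?_, ?_⟩ <;> push_cast <;> linarith
  · push_cast
    linarith
  · push_cast
    linarith
  · push_cast
    linarith

end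

end Helper25.KW
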