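import Pool.Agent.Helper25.KW.S1G
import Pool.Agent.Helper81.CT.CTF
import Pool.Agent.Helper25.KW.S1H
import Pool.Agent.Helper25.KW.S1O

set_option autoImplicit false
set_option linter.unusedSectionVars false
set_option linter.unusedVariables false

/-!
# The arithmetic of the index `l` as an additional hypothesis
-/

namespace Helper25.KW

open Helper11.N1 Helper55.KE Helper25.KG

section

variable {p q a b c : ℕ} [NeZero p] [NeZero q] {z : ZMod p → ZMod (p * q)} {i0 ρ : ZMod p}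
  {θ : ZMod (p * q)} {δ l : ℕ} {k : ℤ} {s ds J : ℤ}

theorem SG.ar (h : SG p q a b c z i0 ρ θ δ l k s ds J) (hq : p + l ≤ q) :
    Ar p l (DD p q s) := by
  have hJ := h.hJ
  have hlp := h.ls.hl
  have hpD := h.pD
  have hpD' : (q : ℝ) * DD p q s = p * s := hpD
  refine ⟨q, J, s, ?_, by push_cast; exact hpD', ?_⟩
  · have : 0 < l := by
      by_contra hc
      have h0 : l = 0 := by omega
      subst h0
      rcases h.hds with h1 | h1 <;> rcases h.c01 with h2 | h2 <;>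
        rw [h1, h2] at hJ <;> push_cast at hJ
      all_goals
        have h3 : (q : ℤ) ∣ 1 := by
          first
            | exact ⟨J, by linarith⟩
            | exact ⟨-J, by linarith⟩
        have h4 := Int.le_of_dvd (by norm_num) h3
        have h5 := h.hs
        have h6 := h.h2s
        omega
    exact_mod_cast (by omega : p < q)
  · rcases h.hds with h1 | h1 <;> rcases h.c01 with h2 | h2 <;>
      rw [h1, h2] at hJ <;> push_cast at hJ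
    · right; linarith
    · left; linarith
    · left; linarith
    · right; linarith

end

/-- the additional facts -/
structure XA (p a b l ds : ℤ) (D : ℝ) (Cl : ℤ → ℤ → ℤ → ℤ → ℝ → Prop) : Prop where
  ar : Ar p l D
  ct : Helper81.CT.CTF p a b l ds D Cl
  av : Helper25.AV.AVF p a b l ds D Cl

/-- `S1`, `p + l ≤ q`, with all the elements and the free choice -/
def StT1a : Prop := ∀ (p a b c J ds l q : ℤ) (D dl : ℝ) (Cl : ℤ → ℤ → ℤ → ℤ → ℝ → Prop),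
  World p a b c J ds l q D dl Cl → -a < c →
  (∃ (N X R : ℤ) (I m : ℝ), KGF p a b ds D (P1 l p) Cl N X R I ∧
    KMin p a b ds (P1 l p) Cl N m ∧ m < D ∧ Cas a b ds R (X + ds * I) m) →
  YW p a b ds D (P1 l p) Cl →
  Aux p a b ds D Cl → Phys p J D → ND2 D → Helper12.TT.TTF p a b c l ds D Cl →
  Helper55.TR.TRF p a b c J l ds D Cl → Helper55.TR.TRG p a b c J l ds D Cl →
  Sel p a b l ds D dl Cl → UVB p D Cl → XA p a b l ds D Cl → False

theorem stS1_of_a (HC : Helper48.AV.StCMP) (H : StT1a) : StS1 := by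
  intro p q a b c _ _ z i0 ρ θ δ l k s ds J h h2a h2b hap hbp hρ hl2 hk0 hka hq
  rintro ⟨N, X, R, I, hK, hor⟩
  have hk := h.ka hka
  have W := h.world h2a h2b hl2 hk0 hka hq
  have hne : ∃ N X R I, KH p q a b c ρ θ s ds (P1 l p) N X R I ∧
      (b + ds * (X + ds * I) < DD p q s ∨ a + ds * (X + ds * I + R) < DD p q s) :=
    ⟨N, X, R, I, ⟨hK.cl, hK.N0, hK.Np, ⟨hK.Nl, hK.Npl⟩, hK.bx⟩, hor⟩
  obtain ⟨N', X', R', I', hK', m, g1, g2, g3⟩ := h.s1G h2a h2b (P := P1 l p) hne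
  refine H p a b k J ds l q _ _ _ W (by rw [abs_lt] at hk; exact hk.1)
    ⟨N', X', R', I', m, hK', g1, g2, g3⟩ (h.yw h2a h2b hne) (h.aux h2a h2b hap hbp)
    (h.phys h2b hl2 hq) (h.nd2 h2b) (Helper12.TT.ttf h W.toBase h2b hk0 hk)
    (Helper55.TR.trf h W.toBase h2b hk0 hk) (Helper55.TR.trg h W.toBase h2b hk0 hk)
    (h.sel h2a h2b) (h.uvb h2b) ⟨h.ar hq, Helper81.CT.ctf h h2b, Helper25.AV.avf HC h h2b hq⟩

/-- a part of `Y`, `b < 2 a`, with the free choice -/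
def CXsA (sc ds : ℤ) (Q : ℤ → ℤ → ℤ → Prop) : Prop :=
  ∀ (p a b c J l q : ℤ) (D dl : ℝ) (Cl : ℤ → ℤ → ℤ → ℤ → ℝ → Prop),
  World p a b c J ds l q D dl Cl → -a < c → 0 < sc * c → b < 2 * a →
  ∀ (N X R : ℤ) (I : ℝ), KGF p a b ds D (P1 l p) Cl N X R I →
  KMY p a b ds (P1 l p) Cl N (b + ds * (X + ds * I)) → b + ds * (X + ds * I) < D →
  Aux p a b ds D Cl → Phys p J D → ND2 D → Sel p a b l ds D dl Cl → UVB p D Cl → XA p a b l ds D Cl → Q a b c → False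

theorem CXs.a {sc ds : ℤ} {Q : ℤ → ℤ → ℤ → Prop} (h : CXs sc ds Q) : CXsA sc ds Q :=
  fun p a b c J l q D dl Cl W hc h0 hb N X R I g1 g2 g3 hA hP hN hS hX _ hQ =>
    h p a b c J l q D dl Cl W hc h0 hb N X R I g1 g2 g3 hA hP hN hS hX hQ

/-- `Y`, `b < 2 a`, with the free choice -/
def CXA (sc ds : ℤ) : Prop := CXsA sc ds (fun _ _ _ => True)

theorem cxa_of {sc ds : ℤ} (h35 : CXsA sc ds (Q35 sc)) (h2 : CXsA sc ds (Q2 sc))
    (h1 : CXsA sc ds (Q1 sc)) : CXA sc ds := by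
  intro p a b c J l q D dl Cl W hc h0 hb N X R I g1 g2 g3 hA hP hN hS hX hAr _
  rcases le_or_gt a b with h | h
  · exact h35 p a b c J l q D dl Cl W hc h0 hb N X R I g1 g2 g3 hA hP hN hS hX hAr h
  · rcases le_or_gt a (b + sc * c) with h' | h'
    · exact h2 p a b c J l q D dl Cl W hc h0 hb N X R I g1 g2 g3 hA hP hN hS hX hAr ⟨h, h'⟩
    · exact h1 p a b c J l q D dl Cl W hc h0 hb N X R I g1 g2 g3 hA hP hN hS hX hAr h'

/-- `S1` from the classes -/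
theorem stT1a_of (hY1 : CXA 1 1) (hY2 : CXA 1 (-1)) (hY3 : CXA (-1) 1) (hY4 : CXA (-1) (-1))
    (hW1 : CW 1 1) (hW2 : CW 1 (-1)) (hW3 : CW (-1) 1) (hW4 : CW (-1) (-1))
    (hB1 : CBX 1 1) (hB2 : CBX 1 (-1)) (hB3 : CBX (-1) 1) (hB4 : CBX (-1) (-1)) : StT1a := by
  intro p a b c J ds l q D dl Cl W hc hV hY hA hP hN hT hR hR' hS hX hAr
  have hc0 := W.hc0
  rcases W.hds with ⟨rfl, _⟩ | ⟨rfl, _⟩ <;> rcases lt_or_gt_of_ne hc0 with h0 | h0 <;>
    rcases lt_or_ge b (2 * a) with h1 | h1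
  · rcases hY with ⟨N, X, R, I, g1, g2, g3⟩ | ⟨N, X, R, I, g1, g2, g3, g4, g5⟩
    · exact hY3 p a b c J l q D dl Cl W hc (by omega) h1 N X R I g1 g2 g3 hA hP hN hS hX hAr trivial
    · exact hW3 p a b c J l q D dl Cl W hc (by omega) h1 N X R I g1 g2 g3 g4 g5 hA hP hN
  · exact hB3 p a b c J l q D dl Cl W hc (by omega) h1 hV hY hA hP hN hT hR hR' hX
  · rcases hY with ⟨N, X, R, I, g1, g2, g3⟩ | ⟨N, X, R, I, g1, g2, g3, g4, g5⟩
    · exact hY1 p a b c J l q D dl Cl W hc (by omega) h1 N X R I g1 g2 g3 hA hP hN hS hX hAr trivial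
    · exact hW1 p a b c J l q D dl Cl W hc (by omega) h1 N X R I g1 g2 g3 g4 g5 hA hP hN
  · exact hB1 p a b c J l q D dl Cl W hc (by omega) h1 hV hY hA hP hN hT hR hR' hX
  · rcases hY with ⟨N, X, R, I, g1, g2, g3⟩ | ⟨N, X, R, I, g1, g2, g3, g4, g5⟩
    · exact hY4 p a b c J l q D dl Cl W hc (by omega) h1 N X R I g1 g2 g3 hA hP hN hS hX hAr trivial
    · exact hW4 p a b c J l q D dl Cl W hc (by omega) h1 N X R I g1 g2 g3 g4 g5 hA hP hN
  · exact hB4 p a b c J l q D dl Cl W hc (by omega) h1 hV hY hA hP hN hT hR hR' hX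
  · rcases hY with ⟨N, X, R, I, g1, g2, g3⟩ | ⟨N, X, R, I, g1, g2, g3, g4, g5⟩
    · exact hY2 p a b c J l q D dl Cl W hc (by omega) h1 N X R I g1 g2 g3 hA hP hN hS hX hAr trivial
    · exact hW2 p a b c J l q D dl Cl W hc (by omega) h1 N X R I g1 g2 g3 g4 g5 hA hP hN
  · exact hB2 p a b c J l q D dl Cl W hc (by omega) h1 hV hY hA hP hN hT hR hR' hX

/-- a cell with an element of `K'` -/
def ZCellA (sc ds : ℤ) (Q : ℤ → ℤ → ℤ → Prop)
    (F : ℤ → ℤ → ℤ → ℤ → ℤ → ℤ → ℝ → (ℤ → ℤ → ℤ → ℤ → ℝ → Prop) → ℤ → ℤ → ℤ → ℝ → Prop) : Prop :=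
  ∀ (p a b c J l q : ℤ) (D dl : ℝ) (Cl : ℤ → ℤ → ℤ → ℤ → ℝ → Prop),
  World p a b c J ds l q D dl Cl → -a < c → 0 < sc * c → b < 2 * a → Q a b c →
  Aux p a b ds D Cl → Phys p J D → ND2 D → Sel p a b l ds D dl Cl → UVB p D Cl → XA p a b l ds D Cl →
  ∀ (N X R : ℤ) (I : ℝ), KGF p a b ds D (P1 l p) Cl N X R I → F p a b c J l D Cl N X R I → False

theorem ZCellX.a {sc ds : ℤ} {Q : ℤ → ℤ → ℤ → Prop}
    {F : ℤ → ℤ → ℤ → ℤ → ℤ → ℤ → ℝ → (ℤ → ℤ → ℤ → ℤ → ℝ → Prop) → ℤ → ℤ → ℤ → ℝ → Prop}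
    (h : ZCellX sc ds Q F) : ZCellA sc ds Q F :=
  fun p a b c J l q D dl Cl W hc h0 hb hQ hA hP hN hS hX _ N X R I hk hF =>
    h p a b c J l q D dl Cl W hc h0 hb hQ hA hP hN hS hX N X R I hk hF

theorem zcella_C {sc ds : ℤ} {Q : ℤ → ℤ → ℤ → Prop} {d : Bool} (h : ZCellA sc ds Q (FI ds d)) :
    ZCellA sc ds Q (FC ds d) := by
  intro p a b c J l q D dl Cl W hc h0 hb hQ hA hP hN hS hX hAr N X R I hk hF
  obtain ⟨f1, f2, f3, f4, f5, f6, f7⟩ := hF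
  obtain ⟨N', X', R', I', g1, g2, g3⟩ := hS.picki W.toBase (keep_Zy W.toBase)
    ⟨N, X, R, I, ⟨hk.cl, hk.N0, hk.Np, hk.NP, hk.bx⟩, f3⟩
  refine h p a b c J l q D dl Cl W hc h0 hb hQ hA hP hN hS hX hAr N' X' R' I' g1
    ⟨f1, ?_, g2, ?_, g3, f6, f7⟩
  · rcases lt_trichotomy ((X' : ℝ) + ds * I') 0 with h1 | h1 | h1
    · exact absurd (f6 g1.cl (by norm_num) g1.N0 g1.Np g1.NP g1.bx ⟨h1, g2⟩) id
    · exact absurd h1 (ne_z W.toBase g1.toKG)
    · exact h1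
  · rcases lt_trichotomy (I' + J) D with h1 | h1 | h1
    · exact absurd (f7 g1.cl (by norm_num) g1.N0 g1.Np g1.NP g1.bx ⟨h1, g2⟩) id
    · exact absurd (by rw [h1]; push_cast; ring)
        (Helper25.KG.ne_iJD W (Helper25.KG.KCl.of g1) 0)
    · exact h1

theorem zcella_I {sc ds : ℤ} {Q : ℤ → ℤ → ℤ → Prop} {d : Bool} (h0 : ZCellA sc ds Q (FI0 ds d))
    (h1 : ZCellA sc ds Q (FI1 ds d)) : ZCellA sc ds Q (FI ds d) := by
  intro p a b c J l q D dl Cl W hc h0' hb hQ hA hP hN hS hX hAr N X R I hk hF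
  rcases lt_trichotomy I J with h2 | h2 | h2
  · exact h0 p a b c J l q D dl Cl W hc h0' hb hQ hA hP hN hS hX hAr N X R I hk ⟨hF, h2⟩
  · exact absurd (by rw [h2]; push_cast; ring) (Helper25.KG.ne_iJ W (Helper25.KG.KCl.of hk) 0)
  · refine h1 p a b c J l q D dl Cl W hc h0' hb hQ hA hP hN hS hX hAr N X R I hk ⟨hF, h2, ?_⟩
    intro N' τ X' R' I' hC hτ k0 kp hP' hb' hz
    obtain ⟨f1, f2, f3, f4, f5, f6, f7⟩ := hF
    obtain ⟨I2, e1, e2, e3⟩ := hS.tr hC hτ k0 kp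
    have k1 := keep_Zi (c := c) (J := J) (l := l) (q := q) (a := a) (Cl := Cl) W.toBase J _ _ _ _ e2 e3 hz.1
    have k2 := keep_Zy W.toBase _ _ _ _ e2 e3 hz.2
    have k3 := f5 e1 (by norm_num) k0 kp hP' (Or.inl rfl) (hb'.tr e2 e3) k2
    exact absurd (lt_of_le_of_lt k3 k1) (not_lt.mpr h2.le)

/-- the part `b + |c| < a` (or another part) from the cells -/
theorem cxsa_of {sc ds : ℤ} {Q : ℤ → ℤ → ℤ → Prop}
    (hA1 : ZCellA sc ds Q (FA ds true)) (hA2 : ZCellA sc ds Q (FA ds false))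
    (hB1 : ZCellA sc ds Q (FB ds true)) (hB2 : ZCellA sc ds Q (FB ds false))
    (hC1 : ZCellA sc ds Q (FC ds true)) (hC2 : ZCellA sc ds Q (FC ds false)) :
    CXsA sc ds Q := by
  intro p a b c J l q D dl Cl W hc h0 hb N X R I hk hM hy hAu hP hN hS hX hAr hQ
  have hD : ∃ d, Sd b D d := by
    rcases lt_trichotomy D (2 * b) with h1 | h1 | h1
    · exact ⟨true, h1⟩
    · exact absurd (by rw [h1]; push_cast; ring) (hN (4 * b))
    · exact ⟨false, h1⟩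
  obtain ⟨d, hd⟩ := hD
  by_cases hx : ∃ N X R I, KG p a b ds (P1 l p) Cl N X R I ∧ (Zx ds X R I ∧ Zy b ds D X R I)
  · obtain ⟨N', X', R', I', g1, g2, g3⟩ := hS.picks W.toBase
      (keep_Zx.and (keep_Zy W.toBase)) 1 (Or.inl rfl) hx
    cases d
    · exact hA2 p a b c J l q D dl Cl W hc h0 hb hQ hAu hP hN hS hX hAr N' X' R' I' g1 ⟨hd, g2.1, g2.2, g3⟩
    · exact hA1 p a b c J l q D dl Cl W hc h0 hb hQ hAu hP hN hS hX hAr N' X' R' I' g1 ⟨hd, g2.1, g2.2, g3⟩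
  have hno : KNo p a b l ds Cl (fun X R I => Zx ds X R I ∧ Zy b ds D X R I) :=
    hS.no (keep_Zx.and (keep_Zy W.toBase)) hx
  have hpos : ∀ {N X R : ℤ} {I : ℝ}, KG p a b ds (P1 l p) Cl N X R I → Zy b ds D X R I →
      Zp ds X R I := by
    intro N X R I g1 g2
    rcases lt_trichotomy ((X : ℝ) + ds * I) 0 with h1 | h1 | h1
    · exact absurd (hno g1.cl (by norm_num) g1.N0 g1.Np g1.NP g1.bx ⟨h1, g2⟩) id
    · exact absurd h1 (ne_z W.toBase g1)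
    · exact h1
  by_cases hi : ∃ N X R I, KG p a b ds (P1 l p) Cl N X R I ∧ (ZiD D J X R I ∧ Zy b ds D X R I)
  · obtain ⟨N', X', R', I', g1, g2, g3⟩ := hS.picks W.toBase
      ((keep_ZiD W.toBase J).and (keep_Zy W.toBase)) 1 (Or.inl rfl) hi
    have g4 := hpos g1.toKG g2.2
    cases d
    · exact hB2 p a b c J l q D dl Cl W hc h0 hb hQ hAu hP hN hS hX hAr N' X' R' I' g1
        ⟨hd, g4, g2.2, g2.1, hno⟩
    · exact hB1 p a b c J l q D dl Cl W hc h0 hb hQ hAu hP hN hS hX hAr N' X' R' I' g1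
        ⟨hd, g4, g2.2, g2.1, hno⟩
  have hni : KNo p a b l ds Cl (fun X R I => ZiD D J X R I ∧ Zy b ds D X R I) :=
    hS.no ((keep_ZiD W.toBase J).and (keep_Zy W.toBase)) hi
  have hz : Zy b ds D X R I := hy
  have hiJ : D < I + J := by
    rcases lt_trichotomy (I + J) D with h1 | h1 | h1
    · exact absurd ⟨N, X, R, I, hk.toKG, h1, hz⟩ hi
    · exact absurd (by rw [h1]; push_cast; ring)
        (Helper25.KG.ne_iJD W (Helper25.KG.KCl.of hk) 0)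
    · exact h1
  cases d
  · exact hC2 p a b c J l q D dl Cl W hc h0 hb hQ hAu hP hN hS hX hAr N X R I hk
      ⟨hd, hpos hk.toKG hz, hz, hiJ, hM, hno, hni⟩
  · exact hC1 p a b c J l q D dl Cl W hc h0 hb hQ hAu hP hN hS hX hAr N X R I hk
      ⟨hd, hpos hk.toKG hz, hz, hiJ, hM, hno, hni⟩

theorem zcella_U {sc ds : ℤ} {Q : ℤ → ℤ → ℤ → Prop} {d : Bool} (hs : ds = 1 ∨ d = false)
    (hU : ZCellA sc ds Q (FU ds d)) (hV : ZCellA sc ds Q (FV ds d)) :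
    ZCellA sc ds Q (FI1 ds d) := by
  intro p a b c J l q D dl Cl W hc h0' hb hQ hA hP hN hS hX hAr N X R I hk hF
  obtain ⟨⟨f1, f2, f3, f4, f5, f6, f7⟩, f8, f9⟩ := hF
  by_cases hw : ∃ N' X' R' I', KG p a b ds (P1 l p) Cl N' X' R' I' ∧ Zy b ds D X' R' I' ∧ N ≠ N'
  · obtain ⟨N', X', R', I', g1, g2, g3⟩ := hw
    -- two elements, in the right order
    have key : ∀ {N X R N' X' R' : ℤ} {I I' : ℝ}, KG p a b ds (P1 l p) Cl N X R I →
        KG p a b ds (P1 l p) Cl N' X' R' I' → Zy b ds D X R I → Zy b ds D X' R' I' →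
        N ≠ N' → (a : ℝ) + (X + ds * I + R) < X' + ds * I' + R' → False := by
      intro N X R N' X' R' I I' g g' z z' hne hlt
      obtain ⟨x, j, i⟩ := zfac W f6 f7 f9 g z
      obtain ⟨x', j', i'⟩ := zfac W f6 f7 f9 g' z'
      obtain ⟨b1, b2, b3, b4⟩ := g.bx
      obtain ⟨c1, c2, c3, c4⟩ := g'.bx
      refine hV p a b c J l q D dl Cl W hc h0' hb hQ hA hP hN hS hX hAr N X R I (kgf_of W.toBase g)
        ⟨f1, x, z, j, i, ?_, N', X', R', I', kgf_of W.toBase g', hne, x', z', j', i', ?_, hlt,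
        ?_, f6, f7, f9⟩
      · unfold Zs
        linarith
      · unfold Zsp
        linarith
      · intro M τ Y T K hC hτ k0 kp hP' hb' hz
        obtain ⟨K2, t1, t2, t3⟩ := hS.tr hC hτ k0 kp
        have u1 : KG p a b ds (P1 l p) Cl M Y T K2 := ⟨t1, k0, kp, hP', hb'.tr t2 t3⟩
        have u2 := keep_Zy W.toBase _ _ _ _ t2 t3 hz
        by_contra hcon
        push Not at hcon
        obtain ⟨d1, d2, d3, d4⟩ := u1.bx
        rcases zdist W f1 hs f6 f7 f9 u1 g u2 z hcon.1 with v1 | v1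
        · linarith
        · rcases zdist W f1 hs f6 f7 f9 u1 g' u2 z' hcon.2 with v2 | v2
          · linarith
          · linarith
    rcases zdist W f1 hs f6 f7 f9 hk.toKG g1 f3 g2 g3 with v | v
    · exact key hk.toKG g1 f3 g2 g3 v
    · exact key g1 hk.toKG g2 f3 (Ne.symm g3) v
  · refine hU p a b c J l q D dl Cl W hc h0' hb hQ hA hP hN hS hX hAr N X R I hk
      ⟨f1, f2, f3, f4, f8, ?_, f6, f7, f9⟩
    intro M τ Y T K hC hτ k0 kp hP' hb' hz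
    obtain ⟨K2, t1, t2, t3⟩ := hS.tr hC hτ k0 kp
    by_contra hcon
    exact hw ⟨M, Y, T, K2, ⟨t1, k0, kp, hP', hb'.tr t2 t3⟩, keep_Zy W.toBase _ _ _ _ t2 t3 hz,
      fun h => hcon h.symm⟩


/-- a part of `Y` on one side of `D = 2 b` -/
def CSdA (sc ds : ℤ) (Q : ℤ → ℤ → ℤ → Prop) (d : Bool) : Prop :=
  ∀ (p a b c J l q : ℤ) (D dl : ℝ) (Cl : ℤ → ℤ → ℤ → ℤ → ℝ → Prop),
  World p a b c J ds l q D dl Cl → -a < c → 0 < sc * c → b < 2 * a →
  ∀ (N X R : ℤ) (I : ℝ), KGF p a b ds D (P1 l p) Cl N X R I →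
  KMY p a b ds (P1 l p) Cl N (b + ds * (X + ds * I)) → b + ds * (X + ds * I) < D →
  Aux p a b ds D Cl → Phys p J D → ND2 D → Sel p a b l ds D dl Cl → UVB p D Cl → XA p a b l ds D Cl → Q a b c →
  Sd b D d → False

theorem CSd.a {sc ds : ℤ} {Q : ℤ → ℤ → ℤ → Prop} {d : Bool} (h : CSd sc ds Q d) :
    CSdA sc ds Q d :=
  fun p a b c J l q D dl Cl W hc h0 hb N X R I g1 g2 g3 hA hP hN hS hX _ hQ hd =>
    h p a b c J l q D dl Cl W hc h0 hb N X R I g1 g2 g3 hA hP hN hS hX hQ hd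

theorem cxsa_sd {sc ds : ℤ} {Q : ℤ → ℤ → ℤ → Prop} (h1 : CSdA sc ds Q true)
    (h2 : CSdA sc ds Q false) : CXsA sc ds Q := by
  intro p a b c J l q D dl Cl W hc h0 hb N X R I hk hM hy hAu hP hN hS hX hAr hQ
  rcases lt_trichotomy D (2 * b) with h3 | h3 | h3
  · exact h1 p a b c J l q D dl Cl W hc h0 hb N X R I hk hM hy hAu hP hN hS hX hAr hQ h3
  · exact absurd (by rw [h3]; push_cast; ring) (hN (4 * b))
  · exact h2 p a b c J l q D dl Cl W hc h0 hb N X R I hk hM hy hAu hP hN hS hX hAr hQ h3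

theorem csda_of {sc ds : ℤ} {Q : ℤ → ℤ → ℤ → Prop} {d : Bool}
    (hA : ZCellA sc ds Q (FA ds d)) (hB : ZCellA sc ds Q (FB ds d))
    (hC : ZCellA sc ds Q (FC ds d)) : CSdA sc ds Q d := by
  intro p a b c J l q D dl Cl W hc h0 hb N X R I hk hM hy hAu hP hN hS hX hAr hQ hd
  by_cases hx : ∃ N X R I, KG p a b ds (P1 l p) Cl N X R I ∧ (Zx ds X R I ∧ Zy b ds D X R I)
  · obtain ⟨N', X', R', I', g1, g2, g3⟩ := hS.picks W.toBase
      (keep_Zx.and (keep_Zy W.toBase)) 1 (Or.inl rfl) hx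
    exact hA p a b c J l q D dl Cl W hc h0 hb hQ hAu hP hN hS hX hAr N' X' R' I' g1
      ⟨hd, g2.1, g2.2, g3⟩
  have hno : KNo p a b l ds Cl (fun X R I => Zx ds X R I ∧ Zy b ds D X R I) :=
    hS.no (keep_Zx.and (keep_Zy W.toBase)) hx
  have hpos : ∀ {N X R : ℤ} {I : ℝ}, KG p a b ds (P1 l p) Cl N X R I → Zy b ds D X R I →
      Zp ds X R I := by
    intro N X R I g1 g2
    rcases lt_trichotomy ((X : ℝ) + ds * I) 0 with h1 | h1 | h1
    · exact absurd (hno g1.cl (by norm_num) g1.N0 g1.Np g1.NP g1.bx ⟨h1, g2⟩) id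
    · exact absurd h1 (ne_z W.toBase g1)
    · exact h1
  by_cases hi : ∃ N X R I, KG p a b ds (P1 l p) Cl N X R I ∧ (ZiD D J X R I ∧ Zy b ds D X R I)
  · obtain ⟨N', X', R', I', g1, g2, g3⟩ := hS.picks W.toBase
      ((keep_ZiD W.toBase J).and (keep_Zy W.toBase)) 1 (Or.inl rfl) hi
    have g4 := hpos g1.toKG g2.2
    exact hB p a b c J l q D dl Cl W hc h0 hb hQ hAu hP hN hS hX hAr N' X' R' I' g1
      ⟨hd, g4, g2.2, g2.1, hno⟩
  have hni : KNo p a b l ds Cl (fun X R I => ZiD D J X R I ∧ Zy b ds D X R I) :=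
    hS.no ((keep_ZiD W.toBase J).and (keep_Zy W.toBase)) hi
  have hz : Zy b ds D X R I := hy
  have hiJ : D < I + J := by
    rcases lt_trichotomy (I + J) D with h1 | h1 | h1
    · exact absurd ⟨N, X, R, I, hk.toKG, h1, hz⟩ hi
    · exact absurd (by rw [h1]; push_cast; ring)
        (Helper25.KG.ne_iJD W (Helper25.KG.KCl.of hk) 0)
    · exact h1
  exact hC p a b c J l q D dl Cl W hc h0 hb hQ hAu hP hN hS hX hAr N X R I hk
    ⟨hd, hpos hk.toKG hz, hz, hiJ, hM, hno, hni⟩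

theorem zcella_I0 {sc : ℤ} {Q : ℤ → ℤ → ℤ → Prop} {d : Bool}
    (hU : ZCellA sc 1 Q (FU0 1 d)) (hV : ZCellA sc 1 Q (FV0 1 d true))
    (hV' : ZCellA sc 1 Q (FV0 1 d false)) (hH : ZCellA sc 1 Q (FIh 1 d)) :
    ZCellA sc 1 Q (FI0 1 d) := by
  intro p a b c J l q D dl Cl W hc h0' hb hQ hA hP hN hS hX hAr N X R I hk hF
  have hF' := hF
  obtain ⟨⟨f1, f2, f3, f4, f5, f6, f7⟩, f8⟩ := hF
  rcases lt_trichotomy (2 * I) D with h2 | h2 | h2
  · exact hH p a b c J l q D dl Cl W hc h0' hb hQ hA hP hN hS hX hAr N X R I hk ⟨hF', h2⟩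
  · exact absurd h2 (ne_half W f1 hk.toKG f3 f2)
  have hmin : ∀ {N X R : ℤ} {I' : ℝ}, KG p a b 1 (P1 l p) Cl N X R I' → Zy b 1 D X R I' →
      I ≤ I' := fun g z => f5 g.cl (by norm_num) g.N0 g.Np g.NP (Or.inl rfl) g.bx z
  by_cases hw : ∃ N' X' R' I', KG p a b 1 (P1 l p) Cl N' X' R' I' ∧ Zy b 1 D X' R' I' ∧ N ≠ N'
  · obtain ⟨N', X', R', I', g1, g2, g3⟩ := hw
    obtain ⟨x', j'⟩ := zfac0 W f6 f7 g1 g2
    have i1 := hmin g1 g2
    have i2 : I < I' := by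
      refine lt_of_le_of_ne i1 ?_
      intro h
      have h3 := W.add hk.cl (W.neg g1.cl)
      exact W.ne0 h3 (by norm_num) (Or.inl (by omega)) (by rw [h]; ring)
    have hKU : KU2 p a b l 1 Cl (Zy b 1 D) N N' := by
      intro M τ Y T K hC hτ k0 kp hP' hb' hz
      obtain ⟨K2, t1, t2, t3⟩ := hS.tr hC hτ k0 kp
      have u1 : KG p a b 1 (P1 l p) Cl M Y T K2 := ⟨t1, k0, kp, hP', hb'.tr t2 t3⟩
      have u2 := keep_Zy W.toBase _ _ _ _ t2 t3 hz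
      by_contra hcon
      push Not at hcon
      obtain ⟨b1, b2, b3, b4⟩ := hk.bx
      obtain ⟨c1, c2, c3, c4⟩ := g1.bx
      obtain ⟨d1, d2, d3, d4⟩ := u1.bx
      push_cast at b1 b2 b3 b4 c1 c2 c3 c4 d1 d2 d3 d4
      rcases cdist W hA hP f1 f8 h2 f6 f7 hmin u1 hk.toKG u2 f3 hcon.1 with v1 | v1 <;>
        rcases cdist W hA hP f1 f8 h2 f6 f7 hmin u1 g1 u2 g2 hcon.2 with v2 | v2 <;>
        rcases cdist W hA hP f1 f8 h2 f6 f7 hmin hk.toKG g1 f3 g2 g3 with v3 | v3 <;>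
        linarith
    obtain ⟨b1, b2, b3, b4⟩ := hk.bx
    obtain ⟨c1, c2, c3, c4⟩ := g1.bx
    rcases cdist W hA hP f1 f8 h2 f6 f7 hmin hk.toKG g1 f3 g2 g3 with v | v
    · refine hV p a b c J l q D dl Cl W hc h0' hb hQ hA hP hN hS hX hAr N X R I hk
        ⟨f1, f2, f3, f4, f8, h2, N', X', R', I', kgf_of W.toBase g1, g3, x', g2, j', i2,
        by linarith, ⟨?_, ?_, ?_⟩, hKU, f6, f7⟩
      · unfold Zs
        push_cast at *
        linarith
      · unfold Zsp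
        push_cast at *
        linarith
      · push_cast
        linarith
    · refine hV' p a b c J l q D dl Cl W hc h0' hb hQ hA hP hN hS hX hAr N X R I hk
        ⟨f1, f2, f3, f4, f8, h2, N', X', R', I', kgf_of W.toBase g1, g3, x', g2, j', i2,
        by linarith, ⟨?_, ?_, ?_⟩, hKU, f6, f7⟩
      · unfold Zsp
        push_cast at *
        linarith
      · unfold Zs
        push_cast at *
        linarith
      · push_cast
        linarith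
  · refine hU p a b c J l q D dl Cl W hc h0' hb hQ hA hP hN hS hX hAr N X R I hk
      ⟨f1, f2, f3, f4, f8, h2, ?_, f6, f7⟩
    intro M τ Y T K hC hτ k0 kp hP' hb' hz
    obtain ⟨K2, t1, t2, t3⟩ := hS.tr hC hτ k0 kp
    by_contra hcon
    exact hw ⟨M, Y, T, K2, ⟨t1, k0, kp, hP', hb'.tr t2 t3⟩, keep_Zy W.toBase _ _ _ _ t2 t3 hz,
      fun h => hcon h.symm⟩

theorem rk_lt {p a b l ds : ℤ} {D : ℝ} {Cl : ℤ → ℤ → ℤ → ℤ → ℝ → Prop}
    (hX : Helper81.CT.CTF p a b l ds D Cl) {N X R : ℤ} {I : ℝ}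
    (hT : KU p a b l ds Cl (fun _ _ _ => True) N) (hk : KGF p a b ds D (P1 l p) Cl N X R I)
    (hab : b ≤ a) (hD : 2 * (b : ℝ) < D) (hx : 0 < (X : ℝ) + ds * I) : R + b + 1 ≤ a := by
  by_contra hc
  push Not at hc
  obtain ⟨N', X', R', I', g, g1, -⟩ := hX N X R I hk hab hD (by omega) hx
  exact g1 (hT g.cl (by norm_num) g.N0 g.Np g.NP g.bx trivial)

end Helper25.KW
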