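import Pool.Agent.Helper25.KW.S1I

set_option autoImplicit false
set_option linter.unusedSectionVars false
set_option linter.unusedVariables false

/-!
# The classes of `Y`, `b < 2 a`: the parts `a ≤ b`, `b < a ≤ b + |c|`, `b + |c| < a`
-/

namespace Helper25.KW

open Helper11.N1 Helper55.KE

/-- a part of `CY` -/
def CYs (sc ds : ℤ) (Q : ℤ → ℤ → ℤ → Prop) : Prop :=
  ∀ (p a b c J l q : ℤ) (D dl : ℝ) (Cl : ℤ → ℤ → ℤ → ℤ → ℝ → Prop),
  World p a b c J ds l q D dl Cl → -a < c → 0 < sc * c → b < 2 * a →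
  ∀ (N X R : ℤ) (I : ℝ), KGF p a b ds D (P1 l p) Cl N X R I →
  KMY p a b ds (P1 l p) Cl N (b + ds * (X + ds * I)) → b + ds * (X + ds * I) < D →
  Aux p a b ds D Cl → Phys p J D → ND2 D → Q a b c → False

/-- `a ≤ b` -/
def Q35 (_ : ℤ) (a b _ : ℤ) : Prop := a ≤ b

/-- `b < a ≤ b + |c|` -/
def Q2 (sc : ℤ) (a b c : ℤ) : Prop := b < a ∧ a ≤ b + sc * c

/-- `b + |c| < a` -/
def Q1 (sc : ℤ) (a b c : ℤ) : Prop := b + sc * c < a

theorem cy_of {sc ds : ℤ} (h35 : CYs sc ds (Q35 sc)) (h2 : CYs sc ds (Q2 sc))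
    (h1 : CYs sc ds (Q1 sc)) : CY sc ds := by
  intro p a b c J l q D dl Cl W hc h0 hb N X R I g1 g2 g3 hA hP hN
  rcases le_or_gt a b with h | h
  · exact h35 p a b c J l q D dl Cl W hc h0 hb N X R I g1 g2 g3 hA hP hN h
  · rcases le_or_gt a (b + sc * c) with h' | h'
    · exact h2 p a b c J l q D dl Cl W hc h0 hb N X R I g1 g2 g3 hA hP hN ⟨h, h'⟩
    · exact h1 p a b c J l q D dl Cl W hc h0 hb N X R I g1 g2 g3 hA hP hN h'

end Helper25.KW
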