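import Pool.Agent.Helper25.KW.S1O
import Pool.Agent.Helper91.Strip.Two
import Pool.Agent.Helper48.KY.StripA

set_option autoImplicit false
set_option linter.unusedSectionVars false
set_option linter.unusedVariables false

/-!
# The strip element as a second element: case splits
-/

namespace Helper25.KW

open Helper11.N1 Helper55.KE Helper25.KG

/-- the chosen element of the strip -/
structure SW (p a b l ds : ℤ) (D : ℝ) (Cl : ℤ → ℤ → ℤ → ℤ → ℝ → Prop) (Z : ℤ → ℤ → ℝ → Prop)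
    (N Nw Xw Rw : ℤ) (Iw : ℝ) : Prop where
  w : KCl p l Cl Nw Xw Rw Iw
  ne : N ≠ Nw
  I0 : 0 < Iw
  ID : Iw < D
  x1 : -(b : ℝ) < Xw + ds * Iw
  x2 : Xw + ds * Iw < b
  z : Z Xw Rw Iw
  s1 : (a : ℝ) < Xw + ds * Iw + Rw
  s2 : (Xw : ℝ) + ds * Iw + Rw < p - a
  st : StK p b l ds Cl Z N Nw Iw

section

variable {p a b c J ds l q : ℤ} {D dl : ℝ} {Cl : ℤ → ℤ → ℤ → ℤ → ℝ → Prop}

theorem StK.toN {Z Z' : ℤ → ℤ → ℝ → Prop} {Nk Nw : ℤ} {m : ℝ} (h : StK p b l ds Cl Z Nk Nw m)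
    (hZ : ∀ (X R : ℤ) (I : ℝ), Z' X R I → Z X R I ∧ I < m) : StN p b l ds Cl Z' Nk Nw :=
  fun h1 h2 h3 h4 h5 h6 h7 h8 h9 h10 =>
    absurd (h h1 h2 h3 h4 h5 h6 h7 h8 h9 (hZ _ _ _ h10).1) (not_le.2 (hZ _ _ _ h10).2)

theorem StN.mono {Z Z' : ℤ → ℤ → ℝ → Prop} {Nk Nw : ℤ} (h : StN p b l ds Cl Z Nk Nw)
    (hZ : ∀ (X R : ℤ) (I : ℝ), Z' X R I → Z X R I) : StN p b l ds Cl Z' Nk Nw :=
  fun h1 h2 h3 h4 h5 h6 h7 h8 h9 h10 => h h1 h2 h3 h4 h5 h6 h7 h8 h9 (hZ _ _ _ h10)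

theorem StN.w {Z : ℤ → ℤ → ℝ → Prop} {Nk : ℤ} (h : StN p b l ds Cl Z Nk Nk) (Nw : ℤ) :
    StN p b l ds Cl Z Nk Nw :=
  fun h1 h2 h3 h4 h5 h6 _ h8 h9 h10 => h h1 h2 h3 h4 h5 h6 h6 h8 h9 h10

theorem stN_mono {Z Z' : ℤ → ℤ → ℝ → Prop} {Nk : ℤ} (Nw : ℤ) (h : StN p b l ds Cl Z Nk Nk)
    (hZ : ∀ (X R : ℤ) (I : ℝ), Z' X R I → Z X R I) : StN p b l ds Cl Z' Nk Nw :=
  fun h1 h2 h3 h4 h5 h6 _ h8 h9 h10 => h h1 h2 h3 h4 h5 h6 h6 h8 h9 (hZ _ _ _ h10)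

theorem KU.mono {Z Z' : ℤ → ℤ → ℝ → Prop} {Nk : ℤ} (h : KU p a b l ds Cl Z Nk)
    (hZ : ∀ X R I, Bx a b ds X R I → Z' X R I → Z X R I) : KU p a b l ds Cl Z' Nk :=
  fun h1 h2 h3 h4 h5 h6 h7 => h h1 h2 h3 h4 h5 h6 (hZ _ _ _ h6 h7)

theorem ne_z0 (W : Base p a b c J ds l q D dl Cl) {N X R : ℤ} {I : ℝ}
    (h : Cl N 0 X R I) (h0 : 0 < N) (hp : N < p) : (X : ℝ) + ds * I ≠ 0 := by
  intro h0'
  have hd : (ds : ℝ) * ds = 1 := by
    rcases W.hds with ⟨rfl, _⟩ | ⟨rfl, _⟩ <;> norm_num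
  have h1 : I = ((-(ds * X) : ℤ) : ℝ) := by
    push_cast
    linear_combination (ds : ℝ) * h0' - I * hd
  have h2 := W.int h h1
  rw [zero_mul, sub_zero] at h2
  have h3 := Int.le_of_dvd h0 h2
  have h5 := W.hpq
  omega

theorem ne_i0 (W : Base p a b c J ds l q D dl Cl) {N X R : ℤ} {I : ℝ}
    (h : Cl N 0 X R I) (h0 : 0 < N) (hp : N < p) (m : ℤ) : (X : ℝ) + ds * I ≠ m := by
  intro h0'
  have hd : (ds : ℝ) * ds = 1 := by
    rcases W.hds with ⟨rfl, _⟩ | ⟨rfl, _⟩ <;> norm_num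
  have h1 : I = ((ds * (m - X) : ℤ) : ℝ) := by
    push_cast
    linear_combination (ds : ℝ) * h0' - I * hd
  have h2 := W.int h h1
  rw [zero_mul, sub_zero] at h2
  have h3 := Int.le_of_dvd h0 h2
  have h5 := W.hpq
  omega

/-- selection -/
theorem sw_pick (W : Base p a b c J ds l q D dl Cl) (S : Sel p a b l ds D dl Cl) {N : ℤ}
    (hU : KU p a b l ds Cl (fun _ _ _ => True) N) {Z : ℤ → ℤ → ℝ → Prop} (hZ : Keep ds dl Z)
    (hR : ∀ X R R' I, Z X R I → Z X R' I)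
    (h : ∃ N' X R I, SEl p b ds (fun M => P1 l p M ∧ M ≠ N) Cl N' X R I ∧ Z X R I) :
    ∃ Nw Xw Rw Iw, SW p a b l ds D Cl Z N Nw Xw Rw Iw := by
  obtain ⟨Nw, Xw, Rw, Iw, h1, h2, h3, h4, h5, h6, h7, h8⟩ := Helper91.Strip.hPick W S hU hZ hR h
  exact ⟨Nw, Xw, Rw, Iw, ⟨⟨h1.cl, h1.N0, h1.Np, h1.NP.1, h1.NP.2⟩, fun h => h2 h.symm, h3, h4,
    h1.x1, h1.x2, h5, h6, h7, h8⟩⟩

/-- strict order of exact index coordinates -/
theorem lt_of_N (W : Base p a b c J ds l q D dl Cl) {N X R N' X' R' : ℤ} {I I' : ℝ}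
    (h : Cl N 0 X R I) (h' : Cl N' 0 X' R' I') (h0 : 0 < N') (hlt : N' < N) : I' < I := by
  have h1 := Helper48.KY.pI W h (by omega)
  have h2 := Helper48.KY.pI W h' (by omega)
  have hp : (0 : ℝ) < p := by
    have : 0 < p := by have := W.ha; have := W.h2a; omega
    exact_mod_cast this
  have hD : 0 < D := by
    have h8 := W.hJD
    have : (1 : ℝ) ≤ J := by exact_mod_cast W.hJ
    linarith
  have h3 : (N' : ℝ) + 1 ≤ N := by exact_mod_cast hlt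
  by_contra hh
  push Not at hh
  nlinarith

/-- the alternative `x > 0` or nobody with `x > 0` -/
theorem sw_split (W : Base p a b c J ds l q D dl Cl) (S : Sel p a b l ds D dl Cl) {N : ℤ}
    (hU : KU p a b l ds Cl (fun _ _ _ => True) N)
    (hex : ∃ N' X R I, SEl p b ds (fun M => P1 l p M ∧ M ≠ N) Cl N' X R I)
    (hP : ∀ {Nw Xw Rw : ℤ} {Iw : ℝ}, SW p a b l ds D Cl (Zp ds) N Nw Xw Rw Iw → False)
    (hM : StN p b l ds Cl (Zp ds) N N → ∀ {Nw Xw Rw : ℤ} {Iw : ℝ},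
      SW p a b l ds D Cl (Zx ds) N Nw Xw Rw Iw → False) : False := by
  by_cases h : ∃ N' X R I, SEl p b ds (fun M => P1 l p M ∧ M ≠ N) Cl N' X R I ∧ Zp ds X R I
  · obtain ⟨Nw, Xw, Rw, Iw, hw⟩ := sw_pick W S hU keep_Zp (fun _ _ _ _ h => h) h
    exact hP hw
  · have hn : StN p b l ds Cl (Zp ds) N N := by
      refine Helper91.Strip.hNone W S keep_Zp ?_
      rintro ⟨N', X, R, I, g, gz⟩
      exact h ⟨N', X, R, I, ⟨g.cl, g.N0, g.Np, ⟨g.NP.1, g.NP.2.1⟩, g.x1, g.x2⟩, gz⟩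
    obtain ⟨N', X, R, I, g⟩ := hex
    have hx : Zx ds X R I := by
      rcases lt_trichotomy ((X : ℝ) + ds * I) 0 with h1 | h1 | h1
      · exact h1
      · exact absurd h1 (ne_z0 W g.cl g.N0 g.Np)
      · exact absurd ⟨N', X, R, I, g, h1⟩ h
    obtain ⟨Nw, Xw, Rw, Iw, hw⟩ := sw_pick W S hU keep_Zx (fun _ _ _ _ h => h)
      ⟨N', X, R, I, g, hx⟩
    exact hM hn hw

/-- the same with a bound on the index -/
theorem sw_split_lt (W : Base p a b c J ds l q D dl Cl) (S : Sel p a b l ds D dl Cl) {N X R : ℤ}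
    {I : ℝ} (hk : KGF p a b ds D (P1 l p) Cl N X R I)
    (hU : KU p a b l ds Cl (fun _ _ _ => True) N)
    (hex : ∃ N' X R I, SEl p b ds (fun M => P1 l p M ∧ M ≠ N) Cl N' X R I ∧ N' < N)
    (hP : ∀ {Nw Xw Rw : ℤ} {Iw : ℝ}, SW p a b l ds D Cl (Zp ds) N Nw Xw Rw Iw → False)
    (hM : StN p b l ds Cl (Zp ds) N N → ∀ {Nw Xw Rw : ℤ} {Iw : ℝ},
      SW p a b l ds D Cl (Zx ds) N Nw Xw Rw Iw → Iw < I → False) : False := by
  obtain ⟨N', X', R', I', g, hlt⟩ := hex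
  refine sw_split W S hU ⟨N', X', R', I', g⟩ hP ?_
  intro hn Nw Xw Rw Iw hw
  refine hM hn hw ?_
  have hI := lt_of_N W hk.cl g.cl g.N0 hlt
  rcases eq_or_ne N' Nw with h | h
  · subst h
    have h1 := Helper48.KY.dif W g.cl hw.w.cl
    rw [sub_self, sub_self] at h1
    have h2 := Helper48.KY.zer W h1
    linarith
  · have hx : Zx ds X' R' I' := by
      rcases lt_trichotomy ((X' : ℝ) + ds * I') 0 with h1 | h1 | h1
      · exact h1
      · exact absurd h1 (ne_z0 W g.cl g.N0 g.Np)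
      · exact (hn g.cl (by norm_num) g.N0 g.Np g.NP.1 g.NP.2 g.NP.2 g.x1 g.x2 h1).elim
    have := hw.st g.cl (by norm_num) g.N0 g.Np g.NP.1 g.NP.2 h g.x1 g.x2 hx
    linarith

/-- existence of an element of the strip with smaller index, `I < J`, `D < 2 I` -/
theorem ex0 (W : Base p a b c J ds l q D dl Cl) (hA : Aux p a b ds D Cl)
    (S : Sel p a b l ds D dl Cl) (hD : 2 * (b : ℝ) < D) {N X R : ℤ} {I : ℝ}
    (hk : KGF p a b ds D (P1 l p) Cl N X R I) (h1 : I < J) (h3 : D < 2 * I) :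
    ∃ N' X R I, SEl p b ds (fun M => P1 l p M ∧ M ≠ N) Cl N' X R I ∧ N' < N := by
  obtain ⟨N', X', R', I', g, g0, gb, x1, x2⟩ := Helper48.KY.stripA W hA
  have h4 := Helper48.KY.pI W hk.cl hk.N0.le
  have hp : (0 : ℝ) < p := by
    have : 0 < p := by have := W.ha; have := W.h2a; omega
    exact_mod_cast this
  have hD0 : 0 < D := by
    have h8 := W.hJD
    have : (1 : ℝ) ≤ J := by exact_mod_cast W.hJ
    linarith
  have h5 : (p : ℝ) < 2 * N := by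
    by_contra hh
    push Not at hh
    nlinarith
  have h6 : p < 2 * N := by exact_mod_cast h5
  have hb := W.hb
  have h7 : 2 * N' ≤ p := by nlinarith
  have hlN : N < l := by
    have h8 := W.add W.cl (W.neg hk.cl)
    have h9 := W.pos h8 (by norm_num) (by linarith)
    have h10 : N ≠ l := hk.NP.1
    omega
  refine ⟨N', X', R', I', ⟨g, g0, by omega, ⟨⟨by omega, ?_⟩, by omega⟩, x1, x2⟩, by omega⟩
  intro h
  exact Helper91.Strip.xnpl' W S hD h g ⟨x1, x2⟩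

end

end Helper25.KW
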