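import Pool.Agent.Helper25.KW.S1Q
import Pool.Agent.Helper1.ST.Ex1

set_option autoImplicit false

/-!
# A second element of the strip always exists (`J < I`)
-/

namespace Helper25.KW

open Helper11.N1 Helper55.KE Helper25.KG

theorem ex1 {p a b c J ds l q : ℤ} {D dl : ℝ} {Cl : ℤ → ℤ → ℤ → ℤ → ℝ → Prop}
    (W : Base p a b c J ds l q D dl Cl) (hA : Aux p a b ds D Cl)
    (S : Sel p a b l ds D dl Cl) (hD : 2 * (b : ℝ) < D) {N X R : ℤ}
    {I : ℝ} (hk : KGF p a b ds D (P1 l p) Cl N X R I) (h1 : (J : ℝ) < I) (h3 : D < I + J) :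
    ∃ N' X R I, SEl p b ds (fun M => P1 l p M ∧ M ≠ N) Cl N' X R I ∧ N' < N :=
  Helper1.ST.ex1S W S hA hD hk h1 h3

end Helper25.KW
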