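import Pool.Agent.Helper25.KW.Fin2
import Pool.Agent.Helper25.KW.S1A
import Pool.Agent.Helper25.S1T.CXAll
import Pool.Agent.Helper25.S1T.CWAll
import Pool.Agent.Helper48.AV.Av
import Pool.Agent.Helper55.CB.CBpp
import Pool.Agent.Helper55.CB.CBmm

set_option autoImplicit false

/-!
# The conjecture from the classes `2 a ≤ b`, `c ds < 0`
-/

namespace Helper25.KW

open Helper25.S1T

/-- the conjecture from the classes `2 a ≤ b`, `c ds < 0` -/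
theorem main_of3 (h2 : CBX 1 (-1)) (h3 : CBX (-1) 1) :
    ∀ p q r : ℕ, p.Prime → q.Prime → r.Prime → Odd p → Odd q → Odd r →
      p < q → q < r →
      (∀ k : ℕ, |(Polynomial.cyclotomic (p * q * r) ℤ).coeff k| ≤ 1) →
      (Int.ModEq (p : ℤ) (q : ℤ) 1 ∨ Int.ModEq (p : ℤ) (q : ℤ) (-1)) ∨
      (Int.ModEq ((p * q : ℕ) : ℤ) (r : ℤ) 1 ∨ Int.ModEq ((p * q : ℕ) : ℤ) (r : ℤ) (-1)) :=
  main_of2 (stS1_of_a Helper48.AV.hCMP
    (stT1a_of cx_1_1 cx_1_m1 cx_m1_1 cx_m1_m1 cw_1_1 cw_1_m1 cw_m1_1 cw_m1_m1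
      Helper55.CB.cb_1_1.x h2 h3 Helper55.CB.cb_m1_m1.x))

end Helper25.KW
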