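import Pool.Agent.Helper25.KW.W4

set_option autoImplicit false
set_option linter.unusedSectionVars false

/-!
# Overlap vectors in the world
-/

namespace Helper25.KW

open Helper11.N1 Helper55.KE

/-- the cluster `N` lies in the open box (formal coordinates) -/
def Bx (a b ds : ℤ) (X R : ℤ) (I : ℝ) : Prop :=
  -(b : ℝ) < X + ds * I ∧ X + ds * I < b ∧ -(a : ℝ) < X + ds * I + R ∧ X + ds * I + R < a

/-- elements of `K'` with exact coordinates -/
structure KP (p a b l ds : ℤ) (Cl : ℤ → ℤ → ℤ → ℤ → ℝ → Prop) (N X R : ℤ) (I : ℝ) : Prop where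
  cl : Cl N 0 X R I
  N0 : 0 < N
  Np : N < p
  Nl : N ≠ l
  Npl : N + l ≠ p
  bx : Bx a b ds X R I

section

variable {p q a b c : ℕ} [NeZero p] [NeZero q] {z : ZMod p → ZMod (p * q)} {i0 ρ : ZMod p}
  {θ : ZMod (p * q)} {δ l : ℕ} {k : ℤ} {s ds J : ℤ}

/-- exact coordinates -/
theorem SG.ex (h : SG p q a b c z i0 ρ θ δ l k s ds J) {N τ X R : ℤ} {I : ℝ}
    (hC : ClS p q c ρ θ s ds N τ X R I) :
    ∃ I' : ℝ, ClS p q c ρ θ s ds N 0 X R I' ∧
      (X : ℝ) + ds * I' = ((X * q + ds * s * N : ℤ) : ℝ) / q ∧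
      (q : ℝ) * (X + ds * I) = (q : ℝ) * (X + ds * I') + τ * (1 - 2 * (c : ℤ)) := by
  have hq := h.q0R
  have h0 : ClS p q c ρ θ s ds N 0 X R ((s * N : ℤ) / (q : ℝ)) := by
    refine ⟨hC.1, hC.2.1, ?_⟩
    push_cast
    field_simp
    ring
  refine ⟨_, h0, ?_, ?_⟩
  · rw [h.fv h0, zero_mul, add_zero]
  · rw [h.fv h0, h.fv hC]
    push_cast
    field_simp
    ring

/-- a formal box contains the exact position -/
theorem SG.bxe (h : SG p q a b c z i0 ρ θ δ l k s ds J) {N τ X R : ℤ} {I : ℝ}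
    (hC : ClS p q c ρ θ s ds N τ X R I) (hτ : |τ| ≤ 1) (hN0 : 0 < N) (hNp : N < p)
    (hb : Bx a b ds X R I) :
    ∃ I' : ℝ, ClS p q c ρ θ s ds N 0 X R I' ∧ Bx a b ds X R I' ∧
      (q : ℝ) * (X + ds * I) = (q : ℝ) * (X + ds * I') + τ * (1 - 2 * (c : ℤ)) := by
  obtain ⟨I', h1, h2, h3⟩ := h.ex hC
  obtain ⟨b1, b2, b3, b4⟩ := hb
  refine ⟨I', h1, ?_, h3⟩
  have t0 := h.trr hC hτ hN0 hNp 0
  have t1 := h.trr hC hτ hN0 hNp R
  rw [Int.cast_zero, add_zero, add_zero, ← h2] at t0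
  rw [← h2] at t1
  refine ⟨?_, ?_, ?_, ?_⟩
  · have := (t0 (-b)).1
    push_cast at this
    exact this b1
  · exact (t0 b).2.1 b2
  · have := (t1 (-a)).1
    push_cast at this
    exact this b3
  · exact (t1 a).2.1 b4

/-- comparison of two values with denominators `q` -/
theorem le_of_shift {q : ℝ} {x y : ℤ} {X Y Z : ℝ} {e : ℤ} (hq : 0 < q) (he : |e| ≤ 1)
    (hx : q * X = x) (hy : q * Y = y) (hZ : q * Z = q * X + e) (hYZ : Y < Z) : Y ≤ X := by
  have h1 : (y : ℝ) < x + e := by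
    rw [← hx, ← hy, ← hZ]
    exact mul_lt_mul_of_pos_left hYZ hq
  have h2 : y < x + e := by exact_mod_cast h1
  rw [abs_le] at he
  have h3 : y ≤ x := by omega
  have h4 : q * Y ≤ q * X := by
    rw [hx, hy]
    exact_mod_cast h3
  exact le_of_mul_le_mul_left h4 hq

/-- equal exact abscissae modulo 1: equal indices modulo `q` -/
theorem SG.neq (h : SG p q a b c z i0 ρ θ δ l k s ds J) {N N' X R X' R' : ℤ} {I I' : ℝ}
    (hC : ClS p q c ρ θ s ds N 0 X R I) (hC' : ClS p q c ρ θ s ds N' 0 X' R' I') {m : ℤ}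
    (hI : I - I' = m) : (q : ℤ) ∣ N - N' := by
  have h1 := h.cadd hC (h.cneg hC')
  have h2 := h.ii h1 (m := m) (by linarith)
  have h3 : (0 + -0 : ℤ) * l = 0 := by ring
  rw [h3, sub_zero] at h2
  exact h2

/-- existence of coordinates -/
theorem SG.cex (h : SG p q a b c z i0 ρ θ δ l k s ds J) (N x r : ℤ)
    (hx : (N : ZMod (p * q)) * θ = (x : ZMod (p * q))) (hr : (N : ZMod p) * ρ = (r : ZMod p)) :
    ∃ X : ℤ, ∃ I : ℝ, ClS p q c ρ θ s ds N 0 X r I ∧ (X : ℝ) + ds * I = (x : ℝ) / q := by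
  have hq := h.q0R
  have h1 : (q : ℤ) ∣ x - ds * s * N := by
    rw [← ZMod.intCast_zmod_eq_zero_iff_dvd]
    have h2 := congrArg (res p q) hx
    rw [map_mul, map_intCast, map_intCast, h.hθ] at h2
    push_cast at h2 ⊢
    linear_combination -h2
  obtain ⟨X, hX⟩ := h1
  have h3 : ClS p q c ρ θ s ds N 0 X r ((s * N : ℤ) / (q : ℝ)) := by
    refine ⟨?_, hr.symm, ?_⟩
    · rw [hx]
      have : X * q + ds * s * N = x := by linear_combination -hX
      rw [this]
    · push_cast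
      field_simp
      ring
  refine ⟨X, _, h3, ?_⟩
  rw [h.fv h3]
  have : X * q + ds * s * N + 0 * (1 - 2 * (c : ℤ)) = x := by linear_combination -hX
  rw [this]

/-- uniqueness of the exact coordinates in the box -/
theorem SG.cun (h : SG p q a b c z i0 ρ θ δ l k s ds J) (h2a : 2 * a < p) (h2b : 2 * b < p)
    {N X R X' R' : ℤ} {I I' : ℝ}
    (hC : ClS p q c ρ θ s ds N 0 X R I) (hC' : ClS p q c ρ θ s ds N 0 X' R' I')
    (hb : Bx a b ds X R I) (hb' : Bx a b ds X' R' I') : X = X' ∧ R = R' ∧ I = I' := by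
  have hq := h.q0R
  have hI : I = I' := by
    have h1 := hC.2.2
    have h2 := hC'.2.2
    have h3 : (q : ℝ) * I = q * I' := by rw [h1, h2]
    exact mul_left_cancel₀ hq.ne' h3
  subst hI
  obtain ⟨b1, b2, b3, b4⟩ := hb
  obtain ⟨c1, c2, c3, c4⟩ := hb'
  have hX : X = X' := by
    have h1 : ((X - X') * q : ℤ) = ((X - X') * q : ℤ) := rfl
    have h2 : (((X - X') * q : ℤ) : ZMod (p * q)) = 0 := by
      have e1 := hC.1
      have e2 := hC'.1
      push_cast at e1 e2 ⊢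
      linear_combination e1 - e2
    rw [ZMod.intCast_zmod_eq_zero_iff_dvd] at h2
    push_cast at h2
    have h3 : (p : ℤ) ∣ X - X' := (mul_dvd_mul_iff_right h.q0.ne').1 h2
    by_contra hne
    have h4 : |(X : ℝ) - X'| < p := by
      have : (2 : ℝ) * b < p := by exact_mod_cast h2b
      rw [abs_lt]
      push_cast at b1 b2 c1 c2
      constructor <;> linarith
    have h5 : |X - X'| < (p : ℤ) := by exact_mod_cast h4
    exact hne (sub_eq_zero.1 (Int.eq_zero_of_abs_lt_dvd h3 h5))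
  subst hX
  refine ⟨rfl, ?_, rfl⟩
  have h2 : (((R - R') : ℤ) : ZMod p) = 0 := by
    have e1 := hC.2.1
    have e2 := hC'.2.1
    push_cast at e1 e2 ⊢
    linear_combination e1 - e2
  rw [ZMod.intCast_zmod_eq_zero_iff_dvd] at h2
  by_contra hne
  have h4 : |(R : ℝ) - R'| < p := by
    have : (2 : ℝ) * a < p := by exact_mod_cast h2a
    rw [abs_lt]
    push_cast at b3 b4 c3 c4
    constructor <;> linarith
  have h5 : |R - R'| < (p : ℤ) := by exact_mod_cast h4
  exact hne (sub_eq_zero.1 (Int.eq_zero_of_abs_lt_dvd h2 h5))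

end

end Helper25.KW
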