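import Pool.Agent.Helper25.KW.Pr

set_option autoImplicit false
set_option linter.unusedSectionVars false

/-!
# The element of the T-lemma
-/

namespace Helper25.KW

open Helper11.N1 Helper55.KE

/-- a cluster with small abscissa -/
structure TT (a c : ℤ) (z s : ℝ) : Prop where
  hz : |z| < a - |(c : ℝ)|
  h1 : |(c : ℝ)| < |s|
  h2 : |s| < a

section

variable {p q a b c : ℕ} [NeZero p] [NeZero q] {z : ZMod p → ZMod (p * q)} {i0 ρ : ZMod p}
  {θ : ZMod (p * q)} {δ l : ℕ} {k : ℤ} {s ds J : ℤ}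

/-- for `2 a ≤ b` there is an overlap vector with a small abscissa -/
theorem SG.tt (h : SG p q a b c z i0 ρ θ δ l k s ds J) (h2b : 2 * b < p) (hk0 : k ≠ 0)
    (hka : |k| < a) (hab : 2 * a ≤ b) :
    ∃ N X R I, KGF p a b ds (DD p q s) (fun N => P1 l p N ∧ N + l ≠ q)
      (ClS p q c ρ θ s ds) N X R I ∧ TT a k (X + ds * I) (X + ds * I + R) := by
  obtain ⟨n, x, r, hn0, hnp, hnl, hnpl, hAt, hx1, hx2, hx3⟩ :=
    Helper12.TL.tk h.ls hk0 hka hab h2b
  have hq := h.q0
  have hqR := h.q0R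
  have hkp : 0 < |k| := abs_pos.2 hk0
  have hnq : (n : ℤ) + l ≠ q := by
    intro hcon
    -- `x = b q ± 1` modulo `p q`
    have e1 : (n : ZMod (p * q)) * θ = ((x : ℤ) : ZMod (p * q)) := hAt.hx
    have e2 := h.ls.hxl
    have e3 : ((n : ZMod (p * q)) + l) * θ = 0 := by
      have : ((n : ZMod (p * q)) + l) = ((q : ℕ) : ZMod (p * q)) := by
        have h5 : n + l = q := by exact_mod_cast hcon
        rw [← h5]
        push_cast
        ring
      rw [this]
      exact q_mul_zero h.rp0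
    have e4 : ((x - (b * q + (1 - 2 * (c : ℤ))) : ℤ) : ZMod (p * q)) = 0 := by
      push_cast at e1 e2 ⊢
      linear_combination e3 - e1 - e2
    rw [ZMod.intCast_zmod_eq_zero_iff_dvd] at e4
    obtain ⟨w, hw⟩ := e4
    push_cast at hw
    have he : |1 - 2 * (c : ℤ)| ≤ 1 := by
      rcases h.c01 with h3 | h3 <;> rw [h3] <;> norm_num
    have h5 : |(q : ℤ) * (b + w * p)| < q * a := by
      have h6 : (q : ℤ) * (b + w * p) = x - (1 - 2 * (c : ℤ)) := by linear_combination -hw
      rw [h6]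
      have h7 := abs_sub x (1 - 2 * (c : ℤ))
      have h8 : (q : ℤ) * (a - |k|) ≤ q * (a - 1) := mul_le_mul_of_nonneg_left (by omega) hq.le
      have h9 : (q : ℤ) * (a - 1) = q * a - q := by ring
      have hpq := h.ls.hpq
      have := hn0
      omega
    have h6 : |(b : ℤ) + w * p| < a := by
      rw [abs_mul, abs_of_pos hq] at h5
      exact lt_of_mul_lt_mul_left h5 hq.le
    rw [abs_lt] at h6
    have hp0 : (0 : ℤ) < p := by omega
    rcases lt_trichotomy w 0 with h7 | h7 | h7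
    · have : w * p ≤ (-1) * p := mul_le_mul_of_nonneg_right (by omega) hp0.le
      omega
    · rw [h7] at h6
      omega
    · have : 1 * (p : ℤ) ≤ w * p := mul_le_mul_of_nonneg_right (by omega) hp0.le
      omega
  obtain ⟨X, I, hK, hxI⟩ := h.khAt (P := fun N => P1 l p N ∧ N + l ≠ q) hn0 hnp
    ⟨⟨by exact_mod_cast hnl, by exact_mod_cast hnpl⟩, hnq⟩ hAt (by
      refine lt_of_lt_of_le hx1 ?_
      rw [mul_comm]
      apply mul_le_mul_of_nonneg_right _ hq.le
      have := abs_nonneg k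
      omega) hx3
  refine ⟨_, _, _, _, h.kgf hK, ?_, ?_, ?_⟩
  · have h8 : |(x : ℝ)| < q * (a - |(k : ℝ)|) := by exact_mod_cast hx1
    have hxq : ((X : ℝ) + ds * I) * q = x := by
      rw [hxI]
      field_simp
    rw [← hxq, abs_mul, abs_of_pos hqR, mul_comm] at h8
    push_cast
    exact lt_of_mul_lt_mul_left h8 hqR.le
  · have hxq : ((X : ℝ) + ds * I) * q = x := by
      rw [hxI]
      field_simp
    have h8 : |(k : ℝ)| * q < |(x : ℝ) + r * q| := by exact_mod_cast hx2
    have h9 : (x : ℝ) + r * q = ((X : ℝ) + ds * I + r) * q := by rw [add_mul, hxq]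
    rw [h9, abs_mul ((X : ℝ) + ds * I + r), abs_of_pos hqR] at h8
    exact lt_of_mul_lt_mul_right h8 hqR.le
  · have hxq : ((X : ℝ) + ds * I) * q = x := by
      rw [hxI]
      field_simp
    have h8 : |(x : ℝ) + r * q| < a * q := by exact_mod_cast hx3
    have h9 : (x : ℝ) + r * q = ((X : ℝ) + ds * I + r) * q := by rw [add_mul, hxq]
    rw [h9, abs_mul, abs_of_pos hqR] at h8
    push_cast
    exact lt_of_mul_lt_mul_right h8 hqR.le

end

end Helper25.KW
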