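import Pool.Agent.Helper12.TT.Top3
import Pool.Agent.Helper25.KW.K11D
import Pool.Agent.Helper55.TR.TRF

set_option autoImplicit false
set_option linter.unusedSectionVars false
set_option linter.unusedVariables false

/-!
# The two minimal elements `Y`, `W` of the world `S1`
-/

namespace Helper25.KW

open Helper11.N1 Helper55.KE

section

variable {p q a b c : ℕ} [NeZero p] [NeZero q] {z : ZMod p → ZMod (p * q)} {i0 ρ : ZMod p}
  {θ : ZMod (p * q)} {δ l : ℕ} {k : ℤ} {s ds J : ℤ}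

/-- equality with `D` does not occur -/
theorem SG.neD (h : SG p q a b c z i0 ρ θ δ l k s ds J) {N X R : ℤ} {I : ℝ}
    (hC : ClS p q c ρ θ s ds N 0 X R I) (hN0 : 0 < N) (hNp : N < p) (A r : ℤ) :
    (A : ℝ) + ds * (X + ds * I + r) ≠ DD p q s := by
  intro he
  have hd2 : (ds : ℝ) * ds = 1 := by exact_mod_cast h.ds2
  have h5 : I - DD p q s = ((-(A + ds * (X + r)) : ℤ) : ℝ) := by
    push_cast
    linear_combination he - I * hd2
  have h6 := h.neq hC h.ccp h5
  have hpq := h.ls.hpq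
  exact ndvd_small (q := q) (m := N - p) (by omega) (by omega) (by omega) h6

/-- `2 D` is not an integer -/
theorem SG.nd2 (h : SG p q a b c z i0 ρ θ δ l k s ds J) (h2b : 2 * b < p) (A : ℤ) :
    2 * DD p q s ≠ A := by
  intro h1
  have h0 : ClS p q c ρ θ s ds 0 0 0 0 0 := by
    have := h.cadd h.ccp (h.cneg h.ccp)
    simpa using this
  have h2 := h.cadd h.ccp h.ccp
  have h4 : (DD p q s + DD p q s) - 0 = ((A : ℤ) : ℝ) := by
    rw [sub_zero, ← h1]
    ring
  obtain ⟨w, hw⟩ := h.neq h2 h0 h4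
  have hb := h.ls.hP.hb
  have hpq : (p : ℤ) < q := by exact_mod_cast h.ls.hpq
  have hp4 : (4 : ℤ) < p := by omega
  have hq0 : (0 : ℤ) < q := by omega
  have w0 : 0 < w := by
    by_contra hc
    have : (q : ℤ) * w ≤ 0 := mul_nonpos_of_nonneg_of_nonpos hq0.le (not_lt.mp hc)
    omega
  have w2 : w < 2 := by
    by_contra hc
    have : (q : ℤ) * 2 ≤ q * w := mul_le_mul_of_nonneg_left (not_lt.mp hc) hq0.le
    omega
  have w1 : w = 1 := by omega
  subst w1
  have h9 := h.bq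
  rw [ZMod.intCast_zmod_eq_zero_iff_dvd] at h9
  have h10 : (q : ℤ) = 2 * p := by omega
  rw [h10] at h9
  have h11 : (p : ℤ) ∣ 1 - 2 * (c : ℤ) := by
    have : (1 - 2 * (c : ℤ)) = (b * (2 * p) + (1 - 2 * (c : ℤ))) - p * (2 * b) := by ring
    rw [this]
    exact dvd_sub h9 (dvd_mul_right _ _)
  have h12 : (p : ℤ) ∣ 1 := by
    rcases h.c01 with h5 | h5 <;> rw [h5] at h11 <;> norm_num at h11 <;> exact h11
  have := Int.le_of_dvd (by norm_num) h12
  omega

theorem SG.yw (h : SG p q a b c z i0 ρ θ δ l k s ds J) (h2a : 2 * a < p) (h2b : 2 * b < p)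
    {P : ℤ → Prop}
    (hne : ∃ N X R I, KH p q a b c ρ θ s ds P N X R I ∧
      (b + ds * (X + ds * I) < DD p q s ∨ a + ds * (X + ds * I + R) < DD p q s)) :
    YW p a b ds (DD p q s) P (ClS p q c ρ θ s ds) := by
  have hds : ds = 1 ∨ ds = -1 := h.hds
  by_cases hy : ∃ N X R I, KH p q a b c ρ θ s ds P N X R I ∧ b + ds * (X + ds * I) < DD p q s
  · left
    obtain ⟨N0, X0, R0, I0, hK0, h0⟩ := hy
    obtain ⟨N, X, R, I, hK, hmax⟩ := h.emaxG h2a h2b (P := P)
      (fun z _ => -(b + ds * z)) ⟨N0, X0, R0, I0, hK0⟩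
    refine ⟨N, X, R, I, h.kgf hK, ?_, ?_⟩
    · intro N' τ X' R' I' hC hτ hN0 hNp hP hx hb
      obtain ⟨I1, h1, h2, h3⟩ := h.bxe hC hτ hN0 hNp hb
      have g1 := hmax N' X' R' I1 ⟨h1, hN0, hNp, hP, h2⟩
      have := h.cmp hK.cl hK.N0 hK.Np hC hτ hN0 hNp hx h1 h3 hds (A := 0) (by
        push_cast
        linarith)
      push_cast at this ⊢
      linarith
    · have h1 := hmax _ _ _ _ hK0
      push_cast at h1 ⊢
      linarith
  · right
    push Not at hy
    obtain ⟨N0, X0, R0, I0, hK0, h0⟩ := hne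
    have h0 : a + ds * (X0 + ds * I0 + R0) < DD p q s := by
      rcases h0 with h1 | h1
      · exact absurd h1 (not_lt.mpr (hy _ _ _ _ hK0))
      · exact h1
    obtain ⟨N, X, R, I, hK, hmax⟩ := h.emaxG h2a h2b (P := P)
      (fun _ s => -(a + ds * s)) ⟨N0, X0, R0, I0, hK0⟩
    have hyD : ∀ N X R I, KH p q a b c ρ θ s ds P N X R I →
        DD p q s < b + ds * (X + ds * I) := by
      intro N X R I hK
      refine lt_of_le_of_ne (hy _ _ _ _ hK) (fun he => ?_)
      have := h.neD hK.cl hK.N0 hK.Np b 0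
      push_cast at this
      rw [add_zero] at this
      exact this he.symm
    refine ⟨N, X, R, I, h.kgf hK, ?_, ?_, hyD _ _ _ _ hK, ?_⟩
    · intro N' τ X' R' I' hC hτ hN0 hNp hP hx hb
      obtain ⟨I1, h1, h2, h3⟩ := h.bxe hC hτ hN0 hNp hb
      have g1 := hmax N' X' R' I1 ⟨h1, hN0, hNp, hP, h2⟩
      have := h.cmp hK.cl hK.N0 hK.Np hC hτ hN0 hNp hx h1 h3 hds (A := ds * R - ds * R') (by
        push_cast
        linarith)
      push_cast at this ⊢
      linarith
    · have h1 := hmax _ _ _ _ hK0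
      push_cast at h1 ⊢
      linarith
    · intro N τ X R I hC hτ hN0 hNp hPN hb
      obtain ⟨I', h1, h2, h3⟩ := h.bxe hC hτ hN0 hNp hb
      have s1 := hyD N X R I' ⟨h1, hN0, hNp, hPN, h2⟩
      have hq := h.q0R
      have hD : (q : ℝ) * DD p q s = ((p * s : ℤ) : ℝ) := by rw [h.pD]; push_cast; ring
      have e1 := h.eab hτ ds hds
      rw [abs_le] at e1
      have h5 : (q : ℝ) * DD p q s < q * (b + ds * (X + ds * I')) :=
        mul_lt_mul_of_pos_left s1 hq
      have x3 := h.qx h1 0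
      rw [Int.cast_zero, add_zero, zero_mul, add_zero] at x3
      have h6 : (q : ℝ) * (b + ds * (X + ds * I')) =
          ((q * b + ds * (X * q + ds * s * N) : ℤ) : ℝ) := by
        push_cast at x3 ⊢
        linear_combination (ds : ℝ) * x3
      rw [hD, h6] at h5
      have h7 : (p * s : ℤ) < q * b + ds * (X * q + ds * s * N) := by exact_mod_cast h5
      have h8 : (q : ℝ) * (b + ds * (X + ds * I)) =
          ((q * b + ds * (X * q + ds * s * N) + ds * (τ * (1 - 2 * (c : ℤ))) : ℤ) : ℝ) := by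
        push_cast at h6 h3 ⊢
        linear_combination h6 + (ds : ℝ) * h3
      have h9 : (p * s : ℤ) ≤ q * b + ds * (X * q + ds * s * N) +
          ds * (τ * (1 - 2 * (c : ℤ))) := by linarith [e1.1]
      have h10 : (q : ℝ) * DD p q s ≤ q * (b + ds * (X + ds * I)) := by
        rw [hD, h8]
        exact_mod_cast h9
      exact le_of_mul_le_mul_left h10 hq

end

/-- `2 D` is not an integer -/
def ND2 (D : ℝ) : Prop := ∀ A : ℤ, 2 * D ≠ A

/-- `S1`, `p + l ≤ q`, with all the elements -/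
def StT1x : Prop := ∀ (p a b c J ds l q : ℤ) (D dl : ℝ) (Cl : ℤ → ℤ → ℤ → ℤ → ℝ → Prop),
  World p a b c J ds l q D dl Cl → -a < c →
  (∃ (N X R : ℤ) (I m : ℝ), KGF p a b ds D (P1 l p) Cl N X R I ∧
    KMin p a b ds (P1 l p) Cl N m ∧ m < D ∧ Cas a b ds R (X + ds * I) m) →
  YW p a b ds D (P1 l p) Cl →
  Aux p a b ds D Cl → Phys p J D → ND2 D → Helper12.TT.TTF p a b c l ds D Cl →
  Helper55.TR.TRF p a b c J l ds D Cl → Helper55.TR.TRG p a b c J l ds D Cl → False

theorem stS1_of_x (H : StT1x) : StS1 := by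
  intro p q a b c _ _ z i0 ρ θ δ l k s ds J h h2a h2b hap hbp hρ hl2 hk0 hka hq
  rintro ⟨N, X, R, I, hK, hor⟩
  have hk := h.ka hka
  have W := h.world h2a h2b hl2 hk0 hka hq
  have hne : ∃ N X R I, KH p q a b c ρ θ s ds (P1 l p) N X R I ∧
      (b + ds * (X + ds * I) < DD p q s ∨ a + ds * (X + ds * I + R) < DD p q s) :=
    ⟨N, X, R, I, ⟨hK.cl, hK.N0, hK.Np, ⟨hK.Nl, hK.Npl⟩, hK.bx⟩, hor⟩
  obtain ⟨N', X', R', I', hK', m, g1, g2, g3⟩ := h.s1G h2a h2b (P := P1 l p) hne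
  refine H p a b k J ds l q _ _ _ W (by rw [abs_lt] at hk; exact hk.1)
    ⟨N', X', R', I', m, hK', g1, g2, g3⟩ (h.yw h2a h2b hne) (h.aux h2a h2b hap hbp)
    (h.phys h2b hl2 hq) (h.nd2 h2b) (Helper12.TT.ttf h W.toBase h2b hk0 hk)
    (Helper55.TR.trf h W.toBase h2b hk0 hk) (Helper55.TR.trg h W.toBase h2b hk0 hk)

end Helper25.KW
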