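import Pool.Agent.Helper25.KW.K1

set_option autoImplicit false
set_option linter.unusedSectionVars false

/-!
# Extremal overlap vectors
-/

namespace Helper25.KW

open Helper11.N1 Helper55.KE

section

variable {p q a b c : ℕ} [NeZero p] [NeZero q] {z : ZMod p → ZMod (p * q)} {i0 ρ : ZMod p}
  {θ : ZMod (p * q)} {δ l : ℕ} {k : ℤ} {s ds J : ℤ}

/-- overlap vectors with exact coordinates -/
abbrev KQ (p q a b c : ℕ) (ρ : ZMod p) (θ : ZMod (p * q)) (l : ℕ) (s ds : ℤ)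
    (N X R : ℤ) (I : ℝ) : Prop := KP p a b l ds (ClS p q c ρ θ s ds) N X R I

/-- `D` -/
noncomputable abbrev DD (p q : ℕ) (s : ℤ) : ℝ := ((p * s : ℤ) / (q : ℝ) : ℝ)

/-- a maximal element -/
theorem SG.emax (h : SG p q a b c z i0 ρ θ δ l k s ds J) (h2a : 2 * a < p) (h2b : 2 * b < p)
    (g : ℝ → ℝ → ℝ) (hne : ∃ N X R I, KQ p q a b c ρ θ l s ds N X R I) :
    ∃ N X R I, KQ p q a b c ρ θ l s ds N X R I ∧
      ∀ N' X' R' I', KQ p q a b c ρ θ l s ds N' X' R' I' →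
        g (X' + ds * I') (X' + ds * I' + R') ≤ g (X + ds * I) (X + ds * I + R) := by
  classical
  set S : Finset ℤ := (Finset.Ioo (0 : ℤ) p).filter
    (fun N => ∃ X R I, KQ p q a b c ρ θ l s ds N X R I) with hS
  have hmem : ∀ {N X R I}, KQ p q a b c ρ θ l s ds N X R I → N ∈ S := by
    intro N X R I hK
    rw [hS, Finset.mem_filter, Finset.mem_Ioo]
    exact ⟨⟨hK.N0, hK.Np⟩, X, R, I, hK⟩
  have hch : ∀ N : ℤ, ∃ v : ℤ × ℤ × ℝ, N ∈ S → KQ p q a b c ρ θ l s ds N v.1 v.2.1 v.2.2 := by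
    intro N
    by_cases hN : N ∈ S
    · rw [hS, Finset.mem_filter] at hN
      obtain ⟨_, X, R, I, hK⟩ := hN
      exact ⟨(X, R, I), fun _ => hK⟩
    · exact ⟨(0, 0, 0), fun h1 => absurd h1 hN⟩
  choose v hv using hch
  obtain ⟨N0, X0, R0, I0, hK0⟩ := hne
  obtain ⟨N, hN, hmax⟩ := S.exists_max_image
    (fun N => g ((v N).1 + ds * (v N).2.2) ((v N).1 + ds * (v N).2.2 + (v N).2.1))
    ⟨N0, hmem hK0⟩
  refine ⟨N, _, _, _, hv N hN, ?_⟩
  intro N' X' R' I' hK'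
  have h1 := hmax N' (hmem hK')
  have h2 := hv N' (hmem hK')
  obtain ⟨e1, e2, e3⟩ := h.cun h2a h2b hK'.cl h2.cl hK'.bx h2.bx
  rw [e1, e2, e3]
  exact h1

/-- the reflection -/
theorem SG.refl (h : SG p q a b c z i0 ρ θ δ l k s ds J) {N X R : ℤ} {I : ℝ}
    (hK : KQ p q a b c ρ θ l s ds N X R I)
    (h1 : DD p q s < b + ds * (X + ds * I)) (h2 : DD p q s < a + ds * (X + ds * I + R)) :
    KQ p q a b c ρ θ l s ds (p - N) (-X) (-R) (DD p q s - I) := by
  have h3 := h.cadd h.ccp (h.cneg hK.cl)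
  have e0 : (0 + -0 : ℤ) = 0 := by ring
  have e1 : (0 + -X : ℤ) = -X := by ring
  have e2 : (0 + -R : ℤ) = -R := by ring
  rw [e0, e1, e2, ← sub_eq_add_neg, ← sub_eq_add_neg] at h3
  have hD : 0 < DD p q s := by
    have : (0 : ℤ) < p * s := by
      have h5 := h.hs
      have h6 : (0 : ℤ) < p := by
        have := hK.N0.trans hK.Np
        exact this
      positivity
    have h6 : (0 : ℝ) < (p * s : ℤ) := by exact_mod_cast this
    exact div_pos h6 h.q0R
  obtain ⟨b1, b2, b3, b4⟩ := hK.bx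
  refine ⟨h3, by have := hK.Np; omega, by have := hK.N0; omega, by have := hK.Npl; omega,
    by have := hK.Nl; omega, ?_⟩
  unfold Bx
  push_cast at b1 b2 b3 b4 ⊢
  rcases h.hds with h4 | h4 <;> subst h4 <;> push_cast at * <;>
    refine ⟨?_, ?_, ?_, ?_⟩ <;> linarith

/-- no overlap vector of index `p / 2` in the world `S2` -/
theorem SG.half (h : SG p q a b c z i0 ρ θ δ l k s ds J) (h2a : 2 * a < p) (h2b : 2 * b < p)
    {N X R : ℤ} {I : ℝ} (hK : KQ p q a b c ρ θ l s ds N X R I)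
    (h1 : DD p q s < b + ds * (X + ds * I)) (h2 : DD p q s < a + ds * (X + ds * I + R)) :
    2 * N ≠ p := by
  intro h3
  have h4 := h.refl hK h1 h2
  have h5 : (p : ℤ) - N = N := by omega
  rw [h5] at h4
  obtain ⟨e1, e2, e3⟩ := h.cun h2a h2b hK.cl h4.cl hK.bx h4.bx
  have hR : R = 0 := by omega
  have h6 := hK.cl.2.1
  rw [hR, Int.cast_zero] at h6
  obtain ⟨u, hu⟩ := h.ls.hAP.1
  rw [← hu] at h6
  have h7 : ((N : ℤ) : ZMod p) = 0 := by
    have h8 := congrArg (· * (↑u⁻¹ : ZMod p)) h6.symm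
    simpa [mul_assoc] using h8
  rw [ZMod.intCast_zmod_eq_zero_iff_dvd] at h7
  have := Int.le_of_dvd hK.N0 h7
  have := hK.Np
  omega

/-- twice the abscissa (ordinate) is not an integer plus `D` -/
theorem SG.half' (h : SG p q a b c z i0 ρ θ δ l k s ds J) (h2a : 2 * a < p) (h2b : 2 * b < p)
    {N X R : ℤ} {I : ℝ} (hK : KQ p q a b c ρ θ l s ds N X R I)
    (h1 : DD p q s < b + ds * (X + ds * I)) (h2 : DD p q s < a + ds * (X + ds * I + R))
    (r : ℤ) : 2 * (X + ds * I + r) ≠ ds * DD p q s := by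
  intro h3
  have h4 := h.cadd hK.cl hK.cl
  have h5 : I + I - DD p q s = ((-(2 * ds * (X + r)) : ℤ) : ℝ) := by
    have h6 : (ds : ℝ) * ds = 1 := by exact_mod_cast h.ds2
    push_cast
    linear_combination (ds : ℝ) * h3 - (2 * I - DD p q s) * h6
  have h6 := h.neq h4 h.ccp h5
  have hpq := h.ls.hpq
  have hN0 := hK.N0
  have hNp := hK.Np
  by_cases h7 : N + N - p = 0
  · exact h.half h2a h2b hK h1 h2 (by omega)
  · exact ndvd_small h7 (by omega) (by omega) h6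

end

end Helper25.KW
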