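import Pool.Agent.Helper25.KW.K2

set_option autoImplicit false
set_option linter.unusedSectionVars false

/-!
# The world `S2`: formal statements
-/

namespace Helper25.KW

open Helper11.N1 Helper55.KE

/-- extremality in the direction `EXT = 10` -/
def KExt10 (p a b l ds : ℤ) (D : ℝ) (Cl : ℤ → ℤ → ℤ → ℤ → ℝ → Prop) (Nk : ℤ) (zk : ℝ) : Prop :=
  ∀ {N τ X R : ℤ} {I : ℝ}, Cl N τ X R I → |τ| ≤ 1 → 0 < N → N < p → N ≠ l → N + l ≠ p →
    (τ = 0 ∨ (N ≠ Nk ∧ N + Nk ≠ p)) → Bx a b ds X R I →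
    X + ds * I < zk → ds * D < zk + (X + ds * I) → False

section

variable {p q a b c : ℕ} [NeZero p] [NeZero q] {z : ZMod p → ZMod (p * q)} {i0 ρ : ZMod p}
  {θ : ZMod (p * q)} {δ l : ℕ} {k : ℤ} {s ds J : ℤ}

/-- the world `S2`: all overlap vectors -/
def S2E (p q a b c : ℕ) (ρ : ZMod p) (θ : ZMod (p * q)) (l : ℕ) (s ds : ℤ) : Prop :=
  ∀ N X R I, KQ p q a b c ρ θ l s ds N X R I →
    DD p q s < b + ds * (X + ds * I) ∧ DD p q s < a + ds * (X + ds * I + R)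

/-- `q` times an exact abscissa, moved by `r` -/
theorem SG.qx (h : SG p q a b c z i0 ρ θ δ l k s ds J) {N X R : ℤ} {I : ℝ}
    (hC : ClS p q c ρ θ s ds N 0 X R I) (r : ℤ) :
    (q : ℝ) * (X + ds * I + r) = ((X * q + ds * s * N + r * q : ℤ) : ℝ) := by
  rw [h.fv hC]
  have := h.q0R
  push_cast
  field_simp
  ring

theorem SG.eab (h : SG p q a b c z i0 ρ θ δ l k s ds J) {τ : ℤ} (hτ : |τ| ≤ 1) (σ : ℤ)
    (hσ : σ = 1 ∨ σ = -1) : |σ * (τ * (1 - 2 * (c : ℤ)))| ≤ 1 := by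
  have h1 : |σ| = 1 := by rcases hσ with rfl | rfl <;> norm_num
  have h2 : |1 - 2 * (c : ℤ)| = 1 := by rcases h.c01 with h3 | h3 <;> rw [h3] <;> norm_num
  rw [abs_mul, abs_mul, h1, h2]
  linarith

/-- the formal form of the property `S2` -/
theorem SG.ks2 (h : SG p q a b c z i0 ρ θ δ l k s ds J) (hS : S2E p q a b c ρ θ l s ds) :
    KS2 p a b l ds (DD p q s) (ClS p q c ρ θ s ds) := by
  intro N τ X R I hC hτ hN0 hNp hNl hNpl b1 b2 b3 b4
  obtain ⟨I', h1, h2, h3⟩ := h.bxe hC hτ hN0 hNp ⟨b1, b2, b3, b4⟩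
  obtain ⟨s1, s2⟩ := hS N X R I' ⟨h1, hN0, hNp, hNl, hNpl, h2⟩
  have hq := h.q0R
  have hD : (q : ℝ) * DD p q s = ((p * s : ℤ) : ℝ) := by rw [h.pD]; push_cast; ring
  have x1 := h.qx h1 0
  have x2 := h.qx h1 R
  have hds : ds = 1 ∨ ds = -1 := h.hds
  have e1 := h.eab hτ ds hds
  rw [abs_le] at e1
  have key : ∀ (A r : ℤ), DD p q s < A + ds * (X + ds * I' + r) →
      DD p q s ≤ A + ds * (X + ds * I + r) := by
    intro A r h4
    have h5 : (q : ℝ) * DD p q s < q * (A + ds * (X + ds * I' + r)) :=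
      mul_lt_mul_of_pos_left h4 hq
    have x3 := h.qx h1 r
    have h6 : (q : ℝ) * (A + ds * (X + ds * I' + r)) =
        ((q * A + ds * (X * q + ds * s * N + r * q) : ℤ) : ℝ) := by
      push_cast at x3 ⊢
      linear_combination (ds : ℝ) * x3
    rw [hD, h6] at h5
    have h7 : (p * s : ℤ) < q * A + ds * (X * q + ds * s * N + r * q) := by exact_mod_cast h5
    have h8 : (q : ℝ) * (A + ds * (X + ds * I + r)) =
        ((q * A + ds * (X * q + ds * s * N + r * q) + ds * (τ * (1 - 2 * (c : ℤ))) : ℤ) : ℝ) := by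
      push_cast at h6 h3 ⊢
      linear_combination h6 + (ds : ℝ) * h3
    have h9 : (p * s : ℤ) ≤ q * A + ds * (X * q + ds * s * N + r * q) +
        ds * (τ * (1 - 2 * (c : ℤ))) := by linarith [e1.1]
    have h10 : (q : ℝ) * DD p q s ≤ q * (A + ds * (X + ds * I + r)) := by
      rw [hD, h8]
      exact_mod_cast h9
    exact le_of_mul_le_mul_left h10 hq
  constructor
  · have := key b 0 (by push_cast at s1 ⊢; rw [add_zero]; exact s1)
    push_cast at this ⊢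
    rwa [add_zero] at this
  · have := key a R (by push_cast at s2 ⊢; exact s2)
    push_cast at this ⊢
    exact this

/-- the formal form of an extremality: value `σ (z + w)` where `w` is `0` or the row -/
theorem SG.kext (h : SG p q a b c z i0 ρ θ δ l k s ds J) {Nk Xk Rk : ℤ} {Ik : ℝ}
    (hk : KQ p q a b c ρ θ l s ds Nk Xk Rk Ik) {σ w : ℤ} (hσ : σ = 1 ∨ σ = -1)
    (hmax : ∀ N' X' R' I', KQ p q a b c ρ θ l s ds N' X' R' I' →
        σ * (X' + ds * I' + w * R') ≤ σ * (Xk + ds * Ik + w * Rk))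
    {N τ X R : ℤ} {I : ℝ} (hC : ClS p q c ρ θ s ds N τ X R I) (hτ : |τ| ≤ 1) (hN0 : 0 < N)
    (hNp : N < p) (hNl : N ≠ l) (hNpl : N + l ≠ p) (hx : τ = 0 ∨ N ≠ Nk)
    (hb : Bx a b ds X R I) :
    (σ : ℝ) * (X + ds * I + w * R) ≤ σ * (Xk + ds * Ik + w * Rk) := by
  obtain ⟨I', h1, h2, h3⟩ := h.bxe hC hτ hN0 hNp hb
  have h4 := hmax N X R I' ⟨h1, hN0, hNp, hNl, hNpl, h2⟩
  have hq := h.q0R
  by_contra hcon
  push Not at hcon
  have x1 := h.qx h1 (w * R)
  have x2 := h.qx hk.cl (w * Rk)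
  have h5 : (σ : ℝ) * (Xk + ds * Ik + w * Rk) ≤ σ * (X + ds * I' + w * R) := by
    refine le_of_shift (q := q) (x := σ * (X * q + ds * s * N + w * R * q))
      (y := σ * (Xk * q + ds * s * Nk + w * Rk * q)) hq (h.eab hτ σ hσ) ?_ ?_ ?_ hcon
    · push_cast at x1 ⊢
      linear_combination (σ : ℝ) * x1
    · push_cast at x2 ⊢
      linear_combination (σ : ℝ) * x2
    · push_cast at h3 ⊢
      linear_combination (σ : ℝ) * h3
  rcases hx with h6 | h6
  · subst h6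
    have h7 : I = I' := by
      have a1 := hC.2.2
      have a2 := h1.2.2
      have a3 : (q : ℝ) * I = q * I' := by rw [a1, a2]
      exact mul_left_cancel₀ hq.ne' a3
    rw [h7] at hcon
    linarith
  · have h7 : (σ : ℝ) * (Xk + ds * Ik + w * Rk) = σ * (X + ds * I' + w * R) := le_antisymm h5 h4
    have hσ2 : (σ : ℝ) * σ = 1 := by
      rcases hσ with rfl | rfl <;> norm_num
    have hd2 : (ds : ℝ) * ds = 1 := by exact_mod_cast h.ds2
    have h8 : I' - Ik = ((ds * (Xk - X + w * Rk - w * R) : ℤ) : ℝ) := by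
      push_cast
      linear_combination (-(ds : ℝ) * σ) * h7 + (Ik - I') * hd2 +
        (ds : ℝ) * (Xk + ds * Ik + w * Rk - (X + ds * I' + w * R)) * hσ2
    have h9 := h.neq h1 hk.cl h8
    have hk0 := hk.N0
    have hkp := hk.Np
    have hpq := h.ls.hpq
    exact ndvd_small (q := q) (m := N - Nk) (by omega) (by omega) (by omega) h9

/-- the four extremalities -/
theorem SG.kx1 (h : SG p q a b c z i0 ρ θ δ l k s ds J) {Nk Xk Rk : ℤ} {Ik : ℝ}
    (hk : KQ p q a b c ρ θ l s ds Nk Xk Rk Ik)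
    (hmax : ∀ N' X' R' I', KQ p q a b c ρ θ l s ds N' X' R' I' →
        X' + ds * I' ≤ Xk + ds * Ik) :
    KExt p a b l ds (ClS p q c ρ θ s ds) Nk (fun z _ => z) (Xk + ds * Ik) := by
  intro N τ X R I hC hτ hN0 hNp hNl hNpl hx b1 b2 b3 b4
  have := h.kext hk (σ := 1) (w := 0) (Or.inl rfl) (by
    intro N' X' R' I' hK'
    have := hmax N' X' R' I' hK'
    push_cast
    linarith) hC hτ hN0 hNp hNl hNpl hx ⟨b1, b2, b3, b4⟩
  push_cast at this
  simp only
  linarith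

theorem SG.kx2 (h : SG p q a b c z i0 ρ θ δ l k s ds J) {Nk Xk Rk : ℤ} {Ik : ℝ}
    (hk : KQ p q a b c ρ θ l s ds Nk Xk Rk Ik)
    (hmax : ∀ N' X' R' I', KQ p q a b c ρ θ l s ds N' X' R' I' →
        -(X' + ds * I') ≤ -(Xk + ds * Ik)) :
    KExt p a b l ds (ClS p q c ρ θ s ds) Nk (fun z _ => -z) (-(Xk + ds * Ik)) := by
  intro N τ X R I hC hτ hN0 hNp hNl hNpl hx b1 b2 b3 b4
  have := h.kext hk (σ := -1) (w := 0) (Or.inr rfl) (by
    intro N' X' R' I' hK'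
    have := hmax N' X' R' I' hK'
    push_cast
    linarith) hC hτ hN0 hNp hNl hNpl hx ⟨b1, b2, b3, b4⟩
  push_cast at this
  simp only
  linarith

theorem SG.kx3 (h : SG p q a b c z i0 ρ θ δ l k s ds J) {Nk Xk Rk : ℤ} {Ik : ℝ}
    (hk : KQ p q a b c ρ θ l s ds Nk Xk Rk Ik)
    (hmax : ∀ N' X' R' I', KQ p q a b c ρ θ l s ds N' X' R' I' →
        X' + ds * I' + R' ≤ Xk + ds * Ik + Rk) :
    KExt p a b l ds (ClS p q c ρ θ s ds) Nk (fun _ s => s) (Xk + ds * Ik + Rk) := by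
  intro N τ X R I hC hτ hN0 hNp hNl hNpl hx b1 b2 b3 b4
  have := h.kext hk (σ := 1) (w := 1) (Or.inl rfl) (by
    intro N' X' R' I' hK'
    have := hmax N' X' R' I' hK'
    push_cast
    linarith) hC hτ hN0 hNp hNl hNpl hx ⟨b1, b2, b3, b4⟩
  push_cast at this
  simp only
  linarith

theorem SG.kx4 (h : SG p q a b c z i0 ρ θ δ l k s ds J) {Nk Xk Rk : ℤ} {Ik : ℝ}
    (hk : KQ p q a b c ρ θ l s ds Nk Xk Rk Ik)
    (hmax : ∀ N' X' R' I', KQ p q a b c ρ θ l s ds N' X' R' I' →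
        -(X' + ds * I' + R') ≤ -(Xk + ds * Ik + Rk)) :
    KExt p a b l ds (ClS p q c ρ θ s ds) Nk (fun _ s => -s) (-(Xk + ds * Ik + Rk)) := by
  intro N τ X R I hC hτ hN0 hNp hNl hNpl hx b1 b2 b3 b4
  have := h.kext hk (σ := -1) (w := 1) (Or.inr rfl) (by
    intro N' X' R' I' hK'
    have := hmax N' X' R' I' hK'
    push_cast
    linarith) hC hτ hN0 hNp hNl hNpl hx ⟨b1, b2, b3, b4⟩
  push_cast at this
  simp only
  linarith

end

end Helper25.KW
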