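import Pool.Agent.Helper25.KW.K4

set_option autoImplicit false
set_option linter.unusedSectionVars false

/-!
# The clusters `u`, `v`, `v2`
-/

namespace Helper25.KW

open Helper11.N1 Helper55.KE

section

variable {p q a b c : ℕ} [NeZero p] [NeZero q] {z : ZMod p → ZMod (p * q)} {i0 ρ : ZMod p}
  {θ : ZMod (p * q)} {δ l : ℕ} {k : ℤ} {s ds J : ℤ}

/-- `m`: the integer part of the first cluster -/
theorem SG.m1 (h : SG p q a b c z i0 ρ θ δ l k s ds J) :
    ∃ m : ℤ, ∀ N X : ℤ, (p : ℤ) ∣ X - N * m →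
      ((X * q + ds * s * N : ℤ) : ZMod (p * q)) = (N : ZMod (p * q)) * θ := by
  obtain ⟨m, I, hC, _⟩ := h.cex 1 (θ.val : ℤ) (ρ.val : ℤ) (by
    rw [Int.cast_natCast, ZMod.natCast_zmod_val, Int.cast_one, one_mul]) (by
    rw [Int.cast_natCast, ZMod.natCast_zmod_val, Int.cast_one, one_mul])
  refine ⟨m, fun N X ⟨w, hw⟩ => ?_⟩
  have h1 := hC.1
  have h2 : ((p * q : ℤ) : ZMod (p * q)) = 0 := by
    have := ZMod.natCast_self (p * q)
    push_cast at this ⊢
    exact this
  have h3 : (X : ZMod (p * q)) = N * m + p * w := by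
    have : X = N * m + p * w := by linarith
    rw [this]
    push_cast
    ring
  push_cast at h1 h2 ⊢
  rw [h3]
  linear_combination (N : ZMod (p * q)) * h1 + (w : ZMod (p * q)) * h2

/-- coordinates with a small row -/
theorem SG.crow (h : SG p q a b c z i0 ρ θ δ l k s ds J) {N X : ℤ}
    (h1 : ((X * q + ds * s * N : ℤ) : ZMod (p * q)) = (N : ZMod (p * q)) * θ) :
    ∃ R : ℤ, ∃ I : ℝ, ClS p q c ρ θ s ds N 0 X R I ∧ -(p : ℤ) < 2 * R ∧ 2 * R ≤ p := by
  refine ⟨((N : ZMod p) * ρ).valMinAbs, (s * N : ℤ) / (q : ℝ), ⟨h1, ?_, ?_⟩, ?_⟩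
  · exact ZMod.coe_valMinAbs _
  · have := h.q0R
    push_cast
    field_simp
    ring
  · have := ZMod.valMinAbs_mem_Ioc ((N : ZMod p) * ρ)
    rw [Set.mem_Ioc] at this
    constructor <;> linarith [this.1, this.2]

theorem SG.dd (h : SG p q a b c z i0 ρ θ δ l k s ds J) {N τ X R : ℤ} {I : ℝ}
    (hC : ClS p q c ρ θ s ds N τ X R I) (hR : (p : ℤ) ∣ 2 * R) : (p : ℤ) ∣ 2 * N := by
  have h1 := h.cadd hC hC
  have h2 := h.nrow h1 (by rw [← two_mul]; exact hR)
  rwa [← two_mul] at h2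

theorem SG.uvw (h : SG p q a b c z i0 ρ θ δ l k s ds J) (h2b : 2 * b < p) :
    (∃ N R I, UFac p b (DD p q s) (ClS p q c ρ θ s ds) N R I) ∨
    (∃ N R I, VFac p (DD p q s) (ClS p q c ρ θ s ds) N R I) ∨
    (∃ N R I, WFac p (DD p q s) (ClS p q c ρ θ s ds) N R I) := by
  obtain ⟨m, hm⟩ := h.m1
  have hb := h.ls.hP.hb
  have hq := h.q0R
  have hp0 : 0 < p := by omega
  set g := Int.gcd m p with hg
  have hgp : (g : ℤ) ∣ p := Int.gcd_dvd_right m p
  have hgm : (g : ℤ) ∣ m := Int.gcd_dvd_left m p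
  have hg0 : 0 < g := Int.gcd_pos_of_ne_zero_right m (by exact_mod_cast hp0.ne')
  have hst : ∀ N X : ℤ, 0 < N → N < p → ((X * q + ds * s * N : ℤ) : ZMod (p * q)) =
      (N : ZMod (p * q)) * θ → ∃ R : ℤ, ∃ I : ℝ, ClS p q c ρ θ s ds N 0 X R I ∧
        -(p : ℤ) < 2 * R ∧ 2 * R ≤ p ∧ 0 < I ∧ I < DD p q s := by
    intro N X h1 h2 h3
    obtain ⟨R, I, hC, h4, h5⟩ := h.crow h3
    obtain ⟨h6, h7⟩ := h.II hC h1 h2
    exact ⟨R, I, hC, h4, h5, h6, h7⟩
  rcases (by omega : g = 1 ∨ g = 2 ∨ 3 ≤ g) with h1 | h1 | h1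
  · -- `u`
    left
    have h2 : IsUnit ((m : ℤ) : ZMod p) := by
      rw [ZMod.coe_int_isUnit_iff_isCoprime, Int.isCoprime_iff_gcd_eq_one]
      rw [← h1, hg]
      exact Int.gcd_comm _ _
    obtain ⟨w, hw⟩ := h2
    set N : ℤ := (((b : ZMod p) * (↑w⁻¹ : ZMod p)).val : ℤ) with hN
    have hNb : (p : ℤ) ∣ b - N * m := by
      rw [← ZMod.intCast_zmod_eq_zero_iff_dvd]
      push_cast
      rw [hN, Int.cast_natCast, ZMod.natCast_zmod_val, ← hw, mul_assoc, Units.inv_mul]
      ring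
    have hN0 : N ≠ 0 := by
      intro h3
      rw [h3, zero_mul, sub_zero] at hNb
      have := Int.le_of_dvd (by omega) hNb
      omega
    have hNp : N < p := by
      rw [hN]
      exact_mod_cast ZMod.val_lt _
    have hN1 : 0 ≤ N := by rw [hN]; positivity
    obtain ⟨R, I, hC, h4, h5, h6, h7⟩ := hst N b (by omega) hNp (hm N b hNb)
    refine ⟨N, R, I, hC, by omega, hNp, h6, h7, h4, lt_of_le_of_ne h5 ?_⟩
    intro h8
    have h9 := h.dd hC ⟨1, by rw [h8]; ring⟩
    have h10 : (p : ℤ) ∣ 2 * b := by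
      have e1 : (2 * b : ℤ) = 2 * (b - N * m) + 2 * N * m := by ring
      rw [e1]
      exact dvd_add (Dvd.dvd.mul_left hNb 2) (Dvd.dvd.mul_right h9 m)
    have := Int.le_of_dvd (by omega) h10
    omega
  · -- `v2`
    right; right
    rw [h1] at hgp hgm
    obtain ⟨N, hN⟩ := hgp
    obtain ⟨m', hm'⟩ := hgm
    push_cast at hN hm'
    obtain ⟨R, I, hC, h4, h5, h6, h7⟩ := hst N 0 (by omega) (by omega) (hm N 0
      ⟨-m', by rw [hN, hm']; ring⟩)
    have h8 : (p : ℤ) ∣ R + R := (by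
      have h9 := (h.cadd hC hC).2.1
      rw [← ZMod.intCast_zmod_eq_zero_iff_dvd, h9]
      have : N + N = p := by omega
      rw [this, Int.cast_natCast, ZMod.natCast_self, zero_mul])
    have h10 : ¬ (p : ℤ) ∣ R := by
      intro h11
      have := Int.le_of_dvd (by omega) (h.nrow hC h11)
      omega
    have h12 : 2 * R = p := by
      obtain ⟨w, hw⟩ := h8
      have hp0' : (0 : ℤ) < p := by exact_mod_cast hp0
      have : w = 0 ∨ w = 1 := by
        have h13 : -(p : ℤ) < p * w := by omega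
        have h14 : p * w ≤ (p : ℤ) := by omega
        have h15 : -1 < w := by
          by_contra h16
          have : (p : ℤ) * w ≤ p * (-1) := mul_le_mul_of_nonneg_left (by omega) hp0'.le
          omega
        have h17 : w ≤ 1 := by
          by_contra h16
          have : (p : ℤ) * 2 ≤ p * w := mul_le_mul_of_nonneg_left (by omega) hp0'.le
          omega
        omega
      rcases this with rfl | rfl
      · exact absurd (by rw [show R = 0 by omega]; exact dvd_zero _) h10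
      · omega
    refine ⟨N, R, I, hC, by omega, by omega, h6, ?_, h12⟩
    have a1 := hC.2.2
    have a2 := h.pD
    have a3 : (q : ℝ) * (2 * I) = q * DD p q s := by
      have a4 : (2 : ℝ) * N = p := by exact_mod_cast (show (2 * N : ℤ) = p by omega)
      have a5 : (q : ℝ) * DD p q s = p * s := a2
      rw [a5]
      push_cast at a1
      linear_combination 2 * a1 + s * a4
    exact mul_left_cancel₀ hq.ne' a3
  · -- `v`
    right; left
    obtain ⟨N, hN⟩ := hgp
    obtain ⟨m', hm'⟩ := hgm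
    have hg3 : (3 : ℤ) ≤ g := by exact_mod_cast h1
    have hp0' : (0 : ℤ) < p := by exact_mod_cast hp0
    have hN0 : 0 < N := by
      by_contra h3
      have : (g : ℤ) * N ≤ 0 := mul_nonpos_of_nonneg_of_nonpos (by omega) (by omega)
      omega
    have hN2 : 3 * N ≤ p := by
      rw [hN]
      exact mul_le_mul_of_nonneg_right hg3 hN0.le
    obtain ⟨R, I, hC, h4, h5, h6, h7⟩ := hst N 0 (by omega) (by omega) (hm N 0
      ⟨-m', by rw [hN, hm']; ring⟩)
    refine ⟨N, R, I, hC, by omega, by omega, h6, ?_, h4, lt_of_le_of_ne h5 ?_⟩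
    · have h8 := h.II (h.cadd hC hC) (by omega) (by omega)
      linarith [h8.2]
    · intro h8
      have h9 := Int.le_of_dvd (by omega) (h.dd hC ⟨1, by rw [h8]; ring⟩)
      omega

end

end Helper25.KW
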