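import Pool.Agent.Helper25.KW.K5

set_option autoImplicit false
set_option linter.unusedSectionVars false

/-!
# Overlap vectors with an arbitrary set `P` of admissible indices
-/

namespace Helper25.KW

open Helper11.N1 Helper55.KE

/-- elements of `K'` with exact coordinates; `P` is the set of admissible indices -/
structure KG (p a b ds : ℤ) (P : ℤ → Prop) (Cl : ℤ → ℤ → ℤ → ℤ → ℝ → Prop) (N X R : ℤ) (I : ℝ) :
    Prop where
  cl : Cl N 0 X R I
  N0 : 0 < N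
  Np : N < p
  NP : P N
  bx : Bx a b ds X R I

/-- the same with simple consequences -/
structure KGF (p a b ds : ℤ) (D : ℝ) (P : ℤ → Prop) (Cl : ℤ → ℤ → ℤ → ℤ → ℝ → Prop)
    (N X R : ℤ) (I : ℝ) : Prop extends KG p a b ds P Cl N X R I where
  I0 : 0 < I
  ID : I < D
  R0 : R ≠ 0

/-- no cluster in `K'` -/
def KEmp (p a b ds : ℤ) (P : ℤ → Prop) (Cl : ℤ → ℤ → ℤ → ℤ → ℝ → Prop) : Prop :=
  ∀ {N τ X R : ℤ} {I : ℝ}, Cl N τ X R I → |τ| ≤ 1 → 0 < N → N < p → P N → Bx a b ds X R I → False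

/-- `min (b + ds x, a + ds s)` is at least `m` on `K'` -/
def KMin (p a b ds : ℤ) (P : ℤ → Prop) (Cl : ℤ → ℤ → ℤ → ℤ → ℝ → Prop) (Nk : ℤ) (m : ℝ) : Prop :=
  ∀ {N τ X R : ℤ} {I : ℝ}, Cl N τ X R I → |τ| ≤ 1 → 0 < N → N < p → P N → (τ = 0 ∨ N ≠ Nk) →
    Bx a b ds X R I → m ≤ b + ds * (X + ds * I) ∧ m ≤ a + ds * (X + ds * I + R)

/-- the world `S2` -/
def KS2G (p a b ds : ℤ) (D : ℝ) (P : ℤ → Prop) (Cl : ℤ → ℤ → ℤ → ℤ → ℝ → Prop) : Prop :=
  ∀ {N τ X R : ℤ} {I : ℝ}, Cl N τ X R I → |τ| ≤ 1 → 0 < N → N < p → P N → Bx a b ds X R I →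
    D ≤ b + ds * (X + ds * I) ∧ D ≤ a + ds * (X + ds * I + R)

/-- extremality of the cluster `Nk`: `g z s ≤ gk` on `K'` -/
def KExtG (p a b ds : ℤ) (P : ℤ → Prop) (Cl : ℤ → ℤ → ℤ → ℤ → ℝ → Prop) (Nk : ℤ) (g : ℝ → ℝ → ℝ)
    (gk : ℝ) : Prop :=
  ∀ {N τ X R : ℤ} {I : ℝ}, Cl N τ X R I → |τ| ≤ 1 → 0 < N → N < p → P N → (τ = 0 ∨ N ≠ Nk) →
    Bx a b ds X R I → g (X + ds * I) (X + ds * I + R) ≤ gk

/-- extremality in the direction `EXT = 10` -/
def KExtG10 (p a b ds : ℤ) (D : ℝ) (P : ℤ → Prop) (Cl : ℤ → ℤ → ℤ → ℤ → ℝ → Prop) (Nk : ℤ)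
    (zk : ℝ) : Prop :=
  ∀ {N τ X R : ℤ} {I : ℝ}, Cl N τ X R I → |τ| ≤ 1 → 0 < N → N < p → P N →
    (τ = 0 ∨ (N ≠ Nk ∧ N + Nk ≠ p)) → Bx a b ds X R I →
    X + ds * I < zk → ds * D < zk + (X + ds * I) → False

section

variable {p q a b c : ℕ} [NeZero p] [NeZero q] {z : ZMod p → ZMod (p * q)} {i0 ρ : ZMod p}
  {θ : ZMod (p * q)} {δ l : ℕ} {k : ℤ} {s ds J : ℤ}

abbrev KH (p q a b c : ℕ) (ρ : ZMod p) (θ : ZMod (p * q)) (s ds : ℤ) (P : ℤ → Prop)
    (N X R : ℤ) (I : ℝ) : Prop := KG p a b ds P (ClS p q c ρ θ s ds) N X R I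

theorem SG.kgf (h : SG p q a b c z i0 ρ θ δ l k s ds J) {P : ℤ → Prop} {N X R : ℤ} {I : ℝ}
    (hK : KH p q a b c ρ θ s ds P N X R I) :
    KGF p a b ds (DD p q s) P (ClS p q c ρ θ s ds) N X R I := by
  obtain ⟨h1, h2⟩ := h.II hK.cl hK.N0 hK.Np
  refine { toKG := hK, I0 := h1, ID := h2, R0 := ?_ }
  intro h5
  have h6 := h.nrow hK.cl (by rw [h5]; exact dvd_zero _)
  have := Int.le_of_dvd hK.N0 h6
  have := hK.Np
  omega

/-- comparison with a formal cluster -/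
theorem SG.cmp (h : SG p q a b c z i0 ρ θ δ l k s ds J) {Nk Xk Rk N τ X R σ A : ℤ}
    {Ik I I' : ℝ} (hk : ClS p q c ρ θ s ds Nk 0 Xk Rk Ik) (hk0 : 0 < Nk) (hkp : Nk < p)
    (hC : ClS p q c ρ θ s ds N τ X R I) (hτ : |τ| ≤ 1) (hN0 : 0 < N) (hNp : N < p)
    (hx : τ = 0 ∨ N ≠ Nk) (h1 : ClS p q c ρ θ s ds N 0 X R I')
    (h3 : (q : ℝ) * (X + ds * I) = (q : ℝ) * (X + ds * I') + τ * (1 - 2 * (c : ℤ)))
    (hσ : σ = 1 ∨ σ = -1)
    (hle : (σ : ℝ) * (Xk + ds * Ik) + A ≤ σ * (X + ds * I')) :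
    (σ : ℝ) * (Xk + ds * Ik) + A ≤ σ * (X + ds * I) := by
  have hq := h.q0R
  by_contra hcon
  push Not at hcon
  have x1 := h.qx h1 0
  have x2 := h.qx hk 0
  rw [Int.cast_zero, add_zero, zero_mul, add_zero] at x1 x2
  have e1 : |-(σ * (τ * (1 - 2 * (c : ℤ))))| ≤ 1 := by
    rw [abs_neg]
    exact h.eab hτ σ hσ
  have h5 : -((σ : ℝ) * (Xk + ds * Ik) + A) ≤ -(σ * (X + ds * I')) := by
    refine le_of_shift (q := q) (Z := -((σ : ℝ) * (X + ds * I)))
      (x := -(σ * (X * q + ds * s * N)))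
      (y := -(σ * (Xk * q + ds * s * Nk) + A * q)) hq e1 ?_ ?_ ?_ (by linarith)
    · push_cast at x1 ⊢
      linear_combination (-(σ : ℝ)) * x1
    · push_cast at x2 ⊢
      linear_combination (-(σ : ℝ)) * x2
    · push_cast at h3 ⊢
      linear_combination (-(σ : ℝ)) * h3
  rcases hx with h6 | h6
  · subst h6
    have h7 : I = I' := by
      have a1 := hC.2.2
      have a2 := h1.2.2
      have a3 : (q : ℝ) * I = q * I' := by rw [a1, a2]
      exact mul_left_cancel₀ hq.ne' a3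
    rw [h7] at hcon
    linarith
  · have h7 : (σ : ℝ) * (Xk + ds * Ik) + A = σ * (X + ds * I') := le_antisymm hle (by linarith)
    have hσ2 : (σ : ℝ) * σ = 1 := by
      rcases hσ with rfl | rfl <;> norm_num
    have hd2 : (ds : ℝ) * ds = 1 := by exact_mod_cast h.ds2
    have h8 : I' - Ik = ((ds * (Xk - X + σ * A) : ℤ) : ℝ) := by
      push_cast
      linear_combination (-(ds : ℝ) * σ) * h7 + (Ik - I') * hd2 +
        (ds : ℝ) * (Xk + ds * Ik - (X + ds * I')) * hσ2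
    have h9 := h.neq h1 hk h8
    have hpq := h.ls.hpq
    exact ndvd_small (q := q) (m := N - Nk) (by omega) (by omega) (by omega) h9

theorem SG.emaxG (h : SG p q a b c z i0 ρ θ δ l k s ds J) (h2a : 2 * a < p) (h2b : 2 * b < p)
    {P : ℤ → Prop} (g : ℝ → ℝ → ℝ) (hne : ∃ N X R I, KH p q a b c ρ θ s ds P N X R I) :
    ∃ N X R I, KH p q a b c ρ θ s ds P N X R I ∧
      ∀ N' X' R' I', KH p q a b c ρ θ s ds P N' X' R' I' →
        g (X' + ds * I') (X' + ds * I' + R') ≤ g (X + ds * I) (X + ds * I + R) := by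
  classical
  set S : Finset ℤ := (Finset.Ioo (0 : ℤ) p).filter
    (fun N => ∃ X R I, KH p q a b c ρ θ s ds P N X R I) with hS
  have hmem : ∀ {N X R I}, KH p q a b c ρ θ s ds P N X R I → N ∈ S := by
    intro N X R I hK
    rw [hS, Finset.mem_filter, Finset.mem_Ioo]
    exact ⟨⟨hK.N0, hK.Np⟩, X, R, I, hK⟩
  have hch : ∀ N : ℤ, ∃ v : ℤ × ℤ × ℝ, N ∈ S → KH p q a b c ρ θ s ds P N v.1 v.2.1 v.2.2 := by
    intro N
    by_cases hN : N ∈ S
    · rw [hS, Finset.mem_filter] at hN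
      obtain ⟨_, X, R, I, hK⟩ := hN
      exact ⟨(X, R, I), fun _ => hK⟩
    · exact ⟨(0, 0, 0), fun h1 => absurd h1 hN⟩
  choose v hv using hch
  obtain ⟨N0, X0, R0, I0, hK0⟩ := hne
  obtain ⟨N, hN, hmax⟩ := S.exists_max_image
    (fun N => g ((v N).1 + ds * (v N).2.2) ((v N).1 + ds * (v N).2.2 + (v N).2.1))
    ⟨N0, hmem hK0⟩
  refine ⟨N, _, _, _, hv N hN, ?_⟩
  intro N' X' R' I' hK'
  have h1 := hmax N' (hmem hK')
  have h2 := hv N' (hmem hK')
  obtain ⟨e1, e2, e3⟩ := h.cun h2a h2b hK'.cl h2.cl hK'.bx h2.bx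
  rw [e1, e2, e3]
  exact h1

theorem SG.emp (h : SG p q a b c z i0 ρ θ δ l k s ds J) {P : ℤ → Prop}
    (hne : ¬ ∃ N X R I, KH p q a b c ρ θ s ds P N X R I) :
    KEmp p a b ds P (ClS p q c ρ θ s ds) := by
  intro N τ X R I hC hτ hN0 hNp hP hb
  obtain ⟨I', h1, h2, _⟩ := h.bxe hC hτ hN0 hNp hb
  exact hne ⟨N, X, R, I', ⟨h1, hN0, hNp, hP, h2⟩⟩

theorem SG.ds2R (h : SG p q a b c z i0 ρ θ δ l k s ds J) : (ds : ℝ) * ds = 1 := by
  exact_mod_cast h.ds2

/-- the world `S1` -/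
theorem SG.s1G (h : SG p q a b c z i0 ρ θ δ l k s ds J) (h2a : 2 * a < p) (h2b : 2 * b < p)
    {P : ℤ → Prop}
    (hne : ∃ N X R I, KH p q a b c ρ θ s ds P N X R I ∧
      (b + ds * (X + ds * I) < DD p q s ∨ a + ds * (X + ds * I + R) < DD p q s)) :
    ∃ N X R I, KGF p a b ds (DD p q s) P (ClS p q c ρ θ s ds) N X R I ∧
      ∃ m : ℝ, KMin p a b ds P (ClS p q c ρ θ s ds) N m ∧ m < DD p q s ∧
        ((b - a + 1 ≤ ds * R ∧ m = b + ds * (X + ds * I)) ∨
          (ds * R + 1 ≤ b - a ∧ m = a + ds * (X + ds * I + R)) ∨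
          (ds * R = b - a ∧ m = b + ds * (X + ds * I))) := by
  obtain ⟨N0, X0, R0, I0, hK0, hor⟩ := hne
  obtain ⟨N, X, R, I, hK, hmax⟩ := h.emaxG h2a h2b (P := P)
    (fun z s => -(min (b + ds * z) (a + ds * s))) ⟨N0, X0, R0, I0, hK0⟩
  have hds2 := h.ds2R
  set y : ℝ := b + ds * (X + ds * I) with hy
  set w : ℝ := a + ds * (X + ds * I + R) with hw
  have hmD : min y w < DD p q s := by
    have h1 := hmax _ _ _ _ hK0
    have h2 : min ((b : ℝ) + ds * (X0 + ds * I0)) (a + ds * (X0 + ds * I0 + R0)) < DD p q s := by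
      rcases hor with h3 | h3
      · exact lt_of_le_of_lt (min_le_left _ _) h3
      · exact lt_of_le_of_lt (min_le_right _ _) h3
    have h3 : min y w ≤ min ((b : ℝ) + ds * (X0 + ds * I0)) (a + ds * (X0 + ds * I0 + R0)) := by
      rw [hy, hw]
      linarith
    exact lt_of_le_of_lt h3 h2
  have hmin : ∀ N' X' R' I', KH p q a b c ρ θ s ds P N' X' R' I' →
      min y w ≤ b + ds * (X' + ds * I') ∧ min y w ≤ a + ds * (X' + ds * I' + R') := by
    intro N' X' R' I' hK'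
    have h1 := hmax _ _ _ _ hK'
    have h3 : min y w ≤ min ((b : ℝ) + ds * (X' + ds * I')) (a + ds * (X' + ds * I' + R')) := by
      rw [hy, hw]
      linarith
    exact ⟨h3.trans (min_le_left _ _), h3.trans (min_le_right _ _)⟩
  have hds : ds = 1 ∨ ds = -1 := h.hds
  have hdR : w - y = ((a - b + ds * R : ℤ) : ℝ) := by
    rw [hy, hw]
    push_cast
    ring
  have kmin : KMin p a b ds P (ClS p q c ρ θ s ds) N (min y w) := by
    intro N' τ X' R' I' hC hτ hN0 hNp hP hx hb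
    obtain ⟨I1, h1, h2, h3⟩ := h.bxe hC hτ hN0 hNp hb
    obtain ⟨g1, g2⟩ := hmin N' X' R' I1 ⟨h1, hN0, hNp, hP, h2⟩
    rcases min_choice y w with h5 | h5 <;> rw [h5] at g1 g2 ⊢
    · constructor
      · have := h.cmp hK.cl hK.N0 hK.Np hC hτ hN0 hNp hx h1 h3 hds (A := 0) (by
          rw [hy] at g1
          push_cast
          linarith)
        rw [hy]
        push_cast at this ⊢
        linarith
      · have := h.cmp hK.cl hK.N0 hK.Np hC hτ hN0 hNp hx h1 h3 hds (A := b - a - ds * R') (by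
          rw [hy] at g2
          push_cast
          linarith)
        rw [hy]
        push_cast at this ⊢
        linarith
    · constructor
      · have := h.cmp hK.cl hK.N0 hK.Np hC hτ hN0 hNp hx h1 h3 hds (A := a - b + ds * R) (by
          rw [hw] at g1
          push_cast
          linarith)
        rw [hw]
        push_cast at this ⊢
        linarith
      · have := h.cmp hK.cl hK.N0 hK.Np hC hτ hN0 hNp hx h1 h3 hds (A := ds * R - ds * R') (by
          rw [hw] at g2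
          push_cast
          linarith)
        rw [hw]
        push_cast at this ⊢
        linarith
  refine ⟨N, X, R, I, h.kgf hK, min y w, kmin, hmD, ?_⟩
  rcases lt_trichotomy (a - b + ds * R) 0 with h6 | h6 | h6
  · right; left
    have h7 : w - y < 0 := by
      rw [hdR]
      exact_mod_cast h6
    exact ⟨by omega, min_eq_right (by linarith)⟩
  · right; right
    have h7 : w - y = 0 := by
      rw [hdR]
      exact_mod_cast h6
    exact ⟨by omega, min_eq_left (by linarith)⟩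
  · left
    have h7 : 0 < w - y := by
      rw [hdR]
      exact_mod_cast h6
    exact ⟨by omega, min_eq_left (by linarith)⟩

/-- the reflection -/
theorem SG.reflG (h : SG p q a b c z i0 ρ θ δ l k s ds J) {P : ℤ → Prop}
    (hP : ∀ N, P N → P (p - N)) {N X R : ℤ} {I : ℝ}
    (hK : KH p q a b c ρ θ s ds P N X R I)
    (h1 : DD p q s < b + ds * (X + ds * I)) (h2 : DD p q s < a + ds * (X + ds * I + R)) :
    KH p q a b c ρ θ s ds P (p - N) (-X) (-R) (DD p q s - I) := by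
  have h3 := h.cadd h.ccp (h.cneg hK.cl)
  have e0 : (0 + -0 : ℤ) = 0 := by ring
  have e1 : (0 + -X : ℤ) = -X := by ring
  have e2 : (0 + -R : ℤ) = -R := by ring
  rw [e0, e1, e2, ← sub_eq_add_neg, ← sub_eq_add_neg] at h3
  have hD : 0 < DD p q s := by
    have : (0 : ℤ) < p * s := by
      have h5 := h.hs
      have h6 : (0 : ℤ) < p := by
        have := hK.N0.trans hK.Np
        exact this
      positivity
    have h6 : (0 : ℝ) < (p * s : ℤ) := by exact_mod_cast this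
    exact div_pos h6 h.q0R
  obtain ⟨b1, b2, b3, b4⟩ := hK.bx
  refine ⟨h3, by have := hK.Np; omega, by have := hK.N0; omega, hP _ hK.NP, ?_⟩
  unfold Bx
  push_cast at b1 b2 b3 b4 ⊢
  rcases h.hds with h4 | h4 <;> subst h4 <;> push_cast at * <;>
    refine ⟨?_, ?_, ?_, ?_⟩ <;> linarith

/-- no overlap vector of index `p / 2` in the world `S2` -/
theorem SG.halfG (h : SG p q a b c z i0 ρ θ δ l k s ds J) (h2a : 2 * a < p) (h2b : 2 * b < p)
    {P : ℤ → Prop} (hP : ∀ N, P N → P (p - N))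
    {N X R : ℤ} {I : ℝ} (hK : KH p q a b c ρ θ s ds P N X R I)
    (h1 : DD p q s < b + ds * (X + ds * I)) (h2 : DD p q s < a + ds * (X + ds * I + R)) :
    2 * N ≠ p := by
  intro h3
  have h4 := h.reflG hP hK h1 h2
  have h5 : (p : ℤ) - N = N := by omega
  rw [h5] at h4
  obtain ⟨e1, e2, e3⟩ := h.cun h2a h2b hK.cl h4.cl hK.bx h4.bx
  have hR : R = 0 := by omega
  have h6 := h.nrow hK.cl (by rw [hR]; exact dvd_zero _)
  have := Int.le_of_dvd hK.N0 h6
  have := hK.Np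
  omega

theorem SG.halfG' (h : SG p q a b c z i0 ρ θ δ l k s ds J) (h2a : 2 * a < p) (h2b : 2 * b < p)
    {P : ℤ → Prop} (hP : ∀ N, P N → P (p - N))
    {N X R : ℤ} {I : ℝ} (hK : KH p q a b c ρ θ s ds P N X R I)
    (h1 : DD p q s < b + ds * (X + ds * I)) (h2 : DD p q s < a + ds * (X + ds * I + R))
    (r : ℤ) : 2 * (X + ds * I + r) ≠ ds * DD p q s := by
  intro h3
  have h4 := h.cadd hK.cl hK.cl
  have h5 : I + I - DD p q s = ((-(2 * ds * (X + r)) : ℤ) : ℝ) := by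
    have h6 : (ds : ℝ) * ds = 1 := by exact_mod_cast h.ds2
    push_cast
    linear_combination (ds : ℝ) * h3 - (2 * I - DD p q s) * h6
  have h6 := h.neq h4 h.ccp h5
  have hpq := h.ls.hpq
  have hN0 := hK.N0
  have hNp := hK.Np
  by_cases h7 : N + N - p = 0
  · exact h.halfG h2a h2b hP hK h1 h2 (by omega)
  · exact ndvd_small h7 (by omega) (by omega) h6

/-- the world `S2`: all overlap vectors -/
def S2G (p q a b c : ℕ) (ρ : ZMod p) (θ : ZMod (p * q)) (s ds : ℤ) (P : ℤ → Prop) : Prop :=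
  ∀ N X R I, KH p q a b c ρ θ s ds P N X R I →
    DD p q s < b + ds * (X + ds * I) ∧ DD p q s < a + ds * (X + ds * I + R)

/-- the formal form of the property `S2` -/
theorem SG.ks2G (h : SG p q a b c z i0 ρ θ δ l k s ds J) {P : ℤ → Prop}
    (hS : S2G p q a b c ρ θ s ds P) : KS2G p a b ds (DD p q s) P (ClS p q c ρ θ s ds) := by
  intro N τ X R I hC hτ hN0 hNp hPN hb
  obtain ⟨I', h1, h2, h3⟩ := h.bxe hC hτ hN0 hNp hb
  obtain ⟨s1, s2⟩ := hS N X R I' ⟨h1, hN0, hNp, hPN, h2⟩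
  have hq := h.q0R
  have hD : (q : ℝ) * DD p q s = ((p * s : ℤ) : ℝ) := by rw [h.pD]; push_cast; ring
  have hds : ds = 1 ∨ ds = -1 := h.hds
  have e1 := h.eab hτ ds hds
  rw [abs_le] at e1
  have key : ∀ (A r : ℤ), DD p q s < A + ds * (X + ds * I' + r) →
      DD p q s ≤ A + ds * (X + ds * I + r) := by
    intro A r h4
    have h5 : (q : ℝ) * DD p q s < q * (A + ds * (X + ds * I' + r)) :=
      mul_lt_mul_of_pos_left h4 hq
    have x3 := h.qx h1 r
    have h6 : (q : ℝ) * (A + ds * (X + ds * I' + r)) =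
        ((q * A + ds * (X * q + ds * s * N + r * q) : ℤ) : ℝ) := by
      push_cast at x3 ⊢
      linear_combination (ds : ℝ) * x3
    rw [hD, h6] at h5
    have h7 : (p * s : ℤ) < q * A + ds * (X * q + ds * s * N + r * q) := by exact_mod_cast h5
    have h8 : (q : ℝ) * (A + ds * (X + ds * I + r)) =
        ((q * A + ds * (X * q + ds * s * N + r * q) + ds * (τ * (1 - 2 * (c : ℤ))) : ℤ) : ℝ) := by
      push_cast at h6 h3 ⊢
      linear_combination h6 + (ds : ℝ) * h3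
    have h9 : (p * s : ℤ) ≤ q * A + ds * (X * q + ds * s * N + r * q) +
        ds * (τ * (1 - 2 * (c : ℤ))) := by linarith [e1.1]
    have h10 : (q : ℝ) * DD p q s ≤ q * (A + ds * (X + ds * I + r)) := by
      rw [hD, h8]
      exact_mod_cast h9
    exact le_of_mul_le_mul_left h10 hq
  constructor
  · have := key b 0 (by push_cast at s1 ⊢; rw [add_zero]; exact s1)
    push_cast at this ⊢
    rwa [add_zero] at this
  · have := key a R (by push_cast at s2 ⊢; exact s2)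
    push_cast at this ⊢
    exact this

/-- the formal form of an extremality: value `σ (z + w)` where `w` is `0` or the row -/
theorem SG.kextG (h : SG p q a b c z i0 ρ θ δ l k s ds J) {P : ℤ → Prop} {Nk Xk Rk : ℤ} {Ik : ℝ}
    (hk : KH p q a b c ρ θ s ds P Nk Xk Rk Ik) {σ w : ℤ} (hσ : σ = 1 ∨ σ = -1)
    (hmax : ∀ N' X' R' I', KH p q a b c ρ θ s ds P N' X' R' I' →
        σ * (X' + ds * I' + w * R') ≤ σ * (Xk + ds * Ik + w * Rk))
    {N τ X R : ℤ} {I : ℝ} (hC : ClS p q c ρ θ s ds N τ X R I) (hτ : |τ| ≤ 1) (hN0 : 0 < N)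
    (hNp : N < p) (hPN : P N) (hx : τ = 0 ∨ N ≠ Nk)
    (hb : Bx a b ds X R I) :
    (σ : ℝ) * (X + ds * I + w * R) ≤ σ * (Xk + ds * Ik + w * Rk) := by
  obtain ⟨I', h1, h2, h3⟩ := h.bxe hC hτ hN0 hNp hb
  have h4 := hmax N X R I' ⟨h1, hN0, hNp, hPN, h2⟩
  have := h.cmp hk.cl hk.N0 hk.Np hC hτ hN0 hNp hx h1 h3 (σ := -σ)
    (A := -σ * (w * Rk - w * R)) (by omega) (by push_cast; linarith)
  push_cast at this
  linarith

end

end Helper25.KW
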