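import Pool.Agent.Helper25.KW.K7

set_option autoImplicit false
set_option linter.unusedSectionVars false

/-!
# Facts on `J`, `D` and the cluster with given row label
-/

namespace Helper25.KW

open Helper11.N1 Helper55.KE

/-- facts on the cluster `e` with row label `r` -/
structure EFac (p ds : ℤ) (D : ℝ) (Cl : ℤ → ℤ → ℤ → ℤ → ℝ → Prop) (r N X : ℤ) (I : ℝ) :
    Prop where
  cl : Cl N 0 X r I
  N0 : 0 < N
  Np : N < p
  I0 : 0 < I
  ID : I < D
  x0 : 0 < X + ds * I
  xp : X + ds * I < p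

section

variable {p q a b c : ℕ} [NeZero p] [NeZero q] {z : ZMod p → ZMod (p * q)} {i0 ρ : ZMod p}
  {θ : ZMod (p * q)} {δ l : ℕ} {k : ℤ} {s ds J : ℤ}

theorem SG.phys (h : SG p q a b c z i0 ρ θ δ l k s ds J) (h2b : 2 * b < p) (hl2 : 2 ≤ l)
    (hq : p + l ≤ q) :
    (J = 1 ∧ (p : ℝ) - 1 < 2 * DD p q s) ∨
      (1 < p - 2 * DD p q s ∧ DD p q s - 1 < J * (p - 2 * DD p q s)) := by
  have hb := h.ls.hP.hb
  have hqR := h.q0R
  have hpD := h.pD
  have hs := h.hs
  have h2s := h.h2s
  have hlp := h.ls.hl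
  have hJ := h.hJ
  obtain ⟨e, he, he'⟩ : ∃ e : ℤ, (e = 1 ∨ e = -1) ∧ l * s + e = J * q := by
    refine ⟨ds * (1 - 2 * (c : ℤ)), ?_, hJ⟩
    rcases h.hds with h1 | h1 <;> rcases h.c01 with h2 | h2 <;> rw [h1, h2] <;> norm_num
  have hpq' : (p : ℤ) + l ≤ q := by exact_mod_cast hq
  have hl2' : (2 : ℤ) ≤ l := by exact_mod_cast hl2
  have hlp' : (l : ℤ) < p := by exact_mod_cast hlp
  have hp5 : (5 : ℤ) ≤ p := by omega
  have hq0 : (0 : ℤ) < q := by omega
  -- `q (p - 2 D) = p (q - 2 s)`
  have hqD : (q : ℝ) * (p - 2 * DD p q s) = ((p * (q - 2 * s) : ℤ) : ℝ) := by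
    have : (q : ℝ) * DD p q s = p * s := hpD
    push_cast
    linear_combination -2 * this
  rcases le_or_gt (l : ℤ) (2 * J) with h1 | h1
  · left
    have h3 : l * (q - 2 * s) ≤ 2 * e := by nlinarith
    have h4 : e = 1 := by
      rcases he with h4 | h4
      · exact h4
      · exfalso
        have : (0 : ℤ) ≤ l * (q - 2 * s) := by
          apply mul_nonneg <;> omega
        omega
    have h5 : q - 2 * s = 1 := by
      by_contra h6
      have h7 : (2 : ℤ) ≤ q - 2 * s := by omega
      have : (2 : ℤ) * 2 ≤ l * (q - 2 * s) := mul_le_mul hl2' h7 (by norm_num) (by omega)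
      omega
    have h6 : (l : ℤ) = 2 := by
      rw [h5] at h3
      omega
    have h7 : J = 1 := by
      rw [h4, h6] at he'
      have h8 : J * q = 1 * q := by linarith
      exact mul_right_cancel₀ hq0.ne' h8
    refine ⟨h7, ?_⟩
    rw [h5] at hqD
    push_cast at hqD
    rw [mul_one] at hqD
    have h8 : (p : ℝ) < q * 1 := by
      rw [mul_one]
      exact_mod_cast (show (p : ℤ) < q by omega)
    rw [← hqD] at h8
    have := lt_of_mul_lt_mul_left h8 hqR.le
    linarith
  · right
    have h3 : q + 2 * e ≤ l * (q - 2 * s) := by nlinarith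
    have h4 : (2 : ℤ) ≤ q - 2 * s := by
      by_contra h5
      have h6 : q - 2 * s = 1 := by omega
      rw [h6] at h3
      rcases he with h7 | h7 <;> rw [h7] at h3 <;> omega
    constructor
    · have h5 : (q : ℤ) ≤ p * (q - 2 * s) := by
        have h6 : (1 : ℤ) * 2 ≤ (p - l) * (q - 2 * s) :=
          mul_le_mul (by omega) h4 (by norm_num) (by omega)
        have h7 : (p : ℤ) * (q - 2 * s) = l * (q - 2 * s) + (p - l) * (q - 2 * s) := by ring
        rcases he with h8 | h8 <;> rw [h8] at h3 <;> omega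
      have h6 : (q : ℤ) ≠ p * (q - 2 * s) := by
        intro h7
        have h8 : (p : ℤ) ∣ q := ⟨q - 2 * s, h7⟩
        have h9 := h.bq
        rw [ZMod.intCast_zmod_eq_zero_iff_dvd] at h9
        have h10 : (p : ℤ) ∣ (1 - 2 * (c : ℤ)) := by
          have : (1 - 2 * (c : ℤ)) = (b * q + (1 - 2 * (c : ℤ))) - b * q := by ring
          rw [this]
          exact dvd_sub h9 (Dvd.dvd.mul_left h8 _)
        rcases h.c01 with h2 | h2 <;> rw [h2] at h10 <;> norm_num at h10
        · have := Int.le_of_dvd one_pos h10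
          omega
        · have := Int.le_of_dvd one_pos h10
          omega
      have h7 : (q : ℤ) < p * (q - 2 * s) := lt_of_le_of_ne h5 h6
      have h8 : (q : ℝ) * 1 < q * (p - 2 * DD p q s) := by
        rw [hqD, mul_one]
        exact_mod_cast h7
      exact lt_of_mul_lt_mul_left h8 hqR.le
    · -- `J (p - 2 D) + 1 > D`
      have h5 : e * q ≤ (l * s + e) * (q - 2 * s) - s * q := by
        have h6 : s * (q + 2 * e) ≤ s * (l * (q - 2 * s)) :=
          mul_le_mul_of_nonneg_left h3 (by omega)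
        nlinarith
      have h6 : -(q : ℤ) ≤ (J * q) * (q - 2 * s) - s * q := by
        rw [← he']
        rcases he with h8 | h8 <;> rw [h8] at h5 ⊢ <;> linarith
      have h7 : -(q : ℤ) * p ≤ ((J * q) * (q - 2 * s) - s * q) * p :=
        mul_le_mul_of_nonneg_right h6 (by omega)
      have h8 : -(q : ℤ) * q < ((J * q) * (q - 2 * s) - s * q) * p := by
        have : (q : ℤ) * p < q * q := mul_lt_mul_of_pos_left (by omega) hq0
        linarith
      have h9 : -(q : ℝ) * q < ((J * q) * (q - 2 * s) - s * q) * p := by exact_mod_cast h8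
      have h10 : (q : ℝ) * DD p q s = p * s := hpD
      have h11 : ((J * q) * (q - 2 * s) - s * q) * (p : ℝ) =
          (q * q) * (J * (p - 2 * DD p q s) - DD p q s) := by
        push_cast at hqD
        linear_combination (-(J : ℝ) * q) * hqD + (q : ℝ) * h10
      rw [h11] at h9
      have h12 : (q : ℝ) * q * (-1) < (q * q) * (J * (p - 2 * DD p q s) - DD p q s) := by
        linarith
      have := lt_of_mul_lt_mul_left h12 (by positivity)
      linarith

/-- a cluster with given row label -/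
theorem SG.ecl (h : SG p q a b c z i0 ρ θ δ l k s ds J) {r : ℤ} (hr : ¬ (p : ℤ) ∣ r) :
    ∃ N X I, EFac p ds (DD p q s) (ClS p q c ρ θ s ds) r N X I := by
  obtain ⟨m, hm⟩ := h.m1
  obtain ⟨w, hw⟩ := h.ls.hAP.1
  have hp0 : (0 : ℤ) < p := by
    have := Nat.pos_of_ne_zero (NeZero.ne p)
    exact_mod_cast this
  set N : ℤ := (((r : ZMod p) * (↑w⁻¹ : ZMod p)).val : ℤ) with hN
  have hNr : ((r : ℤ) : ZMod p) = (N : ZMod p) * ρ := by
    rw [hN, Int.cast_natCast, ZMod.natCast_zmod_val, ← hw, mul_assoc, Units.inv_mul, mul_one]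
  have hN1 : 0 ≤ N := by rw [hN]; positivity
  have hNp : N < p := by
    rw [hN]
    exact_mod_cast ZMod.val_lt _
  have hN0 : N ≠ 0 := by
    intro h1
    rw [h1, Int.cast_zero, zero_mul] at hNr
    exact hr ((ZMod.intCast_zmod_eq_zero_iff_dvd _ _).1 hNr)
  have hN0' : 0 < N := by omega
  have hq := h.q0R
  set I : ℝ := (s * N : ℤ) / (q : ℝ) with hI
  have hc : ∀ X : ℤ, (p : ℤ) ∣ X - N * m → ClS p q c ρ θ s ds N 0 X r I := by
    intro X hX
    refine ⟨hm N X hX, hNr, ?_⟩
    rw [hI]
    push_cast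
    field_simp
    ring
  have hX0 : (p : ℤ) ∣ (N * m) % p - N * m :=
    (Int.dvd_iff_emod_eq_zero.2 (by simp [Int.sub_emod]))
  have hx1 := Int.emod_nonneg (N * m) hp0.ne'
  have hx2 := Int.emod_lt_of_pos (N * m) hp0
  set X0 := (N * m) % p with hX0'
  have hC0 := hc X0 hX0
  obtain ⟨h1, h2⟩ := h.II hC0 hN0' hNp
  have hD : 2 * DD p q s < p := by
    have h3 : (q : ℝ) * DD p q s = p * s := h.pD
    have h4 : (q : ℝ) * (2 * DD p q s) < q * p := by
      have h5 : (2 : ℝ) * s < q := by exact_mod_cast h.h2s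
      have h6 : (0 : ℝ) < p := by exact_mod_cast hp0
      nlinarith
    exact lt_of_mul_lt_mul_left h4 hq.le
  have hni : ∀ A : ℤ, (X0 : ℝ) + ds * I ≠ A := by
    intro A hA
    have h0 : ClS p q c ρ θ s ds 0 0 0 0 0 := by
      have := h.cadd h.ccp (h.cneg h.ccp)
      simpa using this
    have h3 := h.neq hC0 h0 (m := ds * (A - X0)) (by
      have := h.ds2R
      push_cast
      linear_combination (ds : ℝ) * hA - I * this)
    rw [sub_zero] at h3
    have hpq := h.ls.hpq
    exact ndvd_small (q := q) (m := N) (by omega) (by omega) (by omega) h3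
  have x1 : (0 : ℝ) ≤ X0 := by exact_mod_cast hx1
  have x2 : (X0 : ℝ) + 1 ≤ p := by exact_mod_cast hx2
  rcases h.hds with h3 | h3 <;> subst h3
  · rcases lt_trichotomy ((X0 : ℝ) + (1 : ℤ) * I) p with h4 | h4 | h4
    · exact ⟨N, X0, I, hC0, hN0', hNp, h1, h2, by push_cast; linarith, h4⟩
    · exact absurd h4 (hni p)
    · refine ⟨N, X0 - p, I, hc _ ?_, hN0', hNp, h1, h2, ?_, ?_⟩
      · have : X0 - p - N * m = (X0 - N * m) - p := by ring
        rw [this]
        exact dvd_sub hX0 (dvd_refl _)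
      · push_cast at h4 ⊢
        linarith
      · push_cast
        linarith
  · rcases lt_trichotomy ((X0 : ℝ) + (-1 : ℤ) * I) 0 with h4 | h4 | h4
    · refine ⟨N, X0 + p, I, hc _ ?_, hN0', hNp, h1, h2, ?_, ?_⟩
      · have : X0 + p - N * m = (X0 - N * m) + p := by ring
        rw [this]
        exact dvd_add hX0 (dvd_refl _)
      · push_cast
        linarith
      · push_cast at h4 ⊢
        linarith
    · exact absurd (by rw [h4, Int.cast_zero]) (hni 0)
    · exact ⟨N, X0, I, hC0, hN0', hNp, h1, h2, h4, by push_cast; linarith⟩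

end

end Helper25.KW
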