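import Pool.Agent.Helper25.KW.K8

set_option autoImplicit false
set_option linter.unusedSectionVars false

/-!
# Auxiliary clusters
-/

namespace Helper25.KW

open Helper11.N1 Helper55.KE

/-- facts on a cluster with `X + R = B` -/
structure SFac (p B : ℤ) (D : ℝ) (Cl : ℤ → ℤ → ℤ → ℤ → ℝ → Prop) (N R : ℤ) (I : ℝ) :
    Prop where
  cl : Cl N 0 (B - R) R I
  N0 : 0 < N
  Np : N < p
  I0 : 0 < I
  ID : I < D
  R1 : -p < 2 * R
  R2 : 2 * R < p

/-- facts on a cluster with `X + R = 0`, `2 N < p` -/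
structure YFac (p : ℤ) (D : ℝ) (Cl : ℤ → ℤ → ℤ → ℤ → ℝ → Prop) (N R : ℤ) (I : ℝ) :
    Prop where
  cl : Cl N 0 (-R) R I
  N0 : 0 < N
  Np : 2 * N < p
  I0 : 0 < I
  ID : 2 * I < D
  R1 : -p < 2 * R
  R2 : 2 * R < p

/-- facts on a cluster with `X + R = 0`, `2 N = p` -/
structure ZFac (p : ℤ) (D : ℝ) (Cl : ℤ → ℤ → ℤ → ℤ → ℝ → Prop) (N R : ℤ) (I : ℝ) :
    Prop where
  cl : Cl N 0 (-R) R I
  N0 : 0 < N
  Np : 2 * N = p
  I0 : 0 < I
  ID : 2 * I = D
  R2 : 2 * R = p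

/-- auxiliary clusters -/
structure Aux (p a b ds : ℤ) (D : ℝ) (Cl : ℤ → ℤ → ℤ → ℤ → ℝ → Prop) : Prop where
  /-- abscissa label -/
  uvw : (∃ N R I, UFac p b D Cl N R I) ∨ (∃ N R I, VFac p D Cl N R I) ∨
    ((∃ N R I, WFac p D Cl N R I) ∧ ∀ B : ℤ, 2 ∣ B → 0 < B → B < p → ∃ N R I, UFac p B D Cl N R I)
  /-- ordinate label -/
  syz : (∃ N R I, SFac p a D Cl N R I) ∨ (∃ N R I, YFac p D Cl N R I) ∨
    (∃ N R I, ZFac p D Cl N R I)
  /-- row label -/
  ecl : ∀ r, ¬ p ∣ r → ∃ N X I, EFac p ds D Cl r N X I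
  odd : 2 ∣ p → ¬ 2 ∣ a ∧ ¬ 2 ∣ b

section

variable {p q a b c : ℕ} [NeZero p] [NeZero q] {z : ZMod p → ZMod (p * q)} {i0 ρ : ZMod p}
  {θ : ZMod (p * q)} {δ l : ℕ} {k : ℤ} {s ds J : ℤ}

/-- an index with given label -/
theorem lab (p : ℕ) [NeZero p] (μ B : ℤ) (h1 : Int.gcd μ p = 1) :
    ∃ N : ℤ, 0 ≤ N ∧ N < p ∧ (p : ℤ) ∣ B - N * μ := by
  have h2 : IsUnit ((μ : ℤ) : ZMod p) := by
    rw [ZMod.coe_int_isUnit_iff_isCoprime, Int.isCoprime_iff_gcd_eq_one]
    rw [← h1]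
    exact Int.gcd_comm _ _
  obtain ⟨w, hw⟩ := h2
  refine ⟨(((B : ZMod p) * (↑w⁻¹ : ZMod p)).val : ℤ), by positivity, ?_, ?_⟩
  · exact_mod_cast ZMod.val_lt _
  · rw [← ZMod.intCast_zmod_eq_zero_iff_dvd]
    push_cast
    rw [ZMod.natCast_zmod_val, ← hw, mul_assoc, Units.inv_mul]
    ring

/-- coordinates with a small row and given ordinate label -/
theorem SG.csum (h : SG p q a b c z i0 ρ θ δ l k s ds J) {m : ℤ}
    (hm : ∀ N X : ℤ, (p : ℤ) ∣ X - N * m →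
      ((X * q + ds * s * N : ℤ) : ZMod (p * q)) = (N : ZMod (p * q)) * θ) {N B : ℤ}
    (hN0 : 0 < N) (hNp : N < p) (hB : (p : ℤ) ∣ B - N * (m + (ρ.val : ℤ))) :
    ∃ R : ℤ, ∃ I : ℝ, ClS p q c ρ θ s ds N 0 (B - R) R I ∧ -(p : ℤ) < 2 * R ∧ 2 * R ≤ p ∧
      0 < I ∧ I < DD p q s := by
  set R : ℤ := ((N : ZMod p) * ρ).valMinAbs with hR
  have hR1 : ((R : ℤ) : ZMod p) = (N : ZMod p) * ρ := ZMod.coe_valMinAbs _
  have hR2 : (p : ℤ) ∣ N * (ρ.val : ℤ) - R := by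
    rw [← ZMod.intCast_zmod_eq_zero_iff_dvd]
    push_cast
    rw [ZMod.natCast_zmod_val, hR1]
    ring
  have h1 : (p : ℤ) ∣ (B - R) - N * m := by
    have e : (B - R) - N * m = (B - N * (m + (ρ.val : ℤ))) + (N * (ρ.val : ℤ) - R) := by ring
    rw [e]
    exact dvd_add hB hR2
  have hq := h.q0R
  have hC : ClS p q c ρ θ s ds N 0 (B - R) R ((s * N : ℤ) / (q : ℝ)) := by
    refine ⟨hm N _ h1, hR1, ?_⟩
    push_cast
    field_simp
    ring
  obtain ⟨h3, h4⟩ := h.II hC hN0 hNp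
  have h5 := ZMod.valMinAbs_mem_Ioc ((N : ZMod p) * ρ)
  rw [Set.mem_Ioc] at h5
  exact ⟨R, _, hC, by linarith [h5.1], by linarith [h5.2], h3, h4⟩

theorem SG.half2 (h : SG p q a b c z i0 ρ θ δ l k s ds J) {N X R : ℤ} {I : ℝ}
    (hC : ClS p q c ρ θ s ds N 0 X R I) (hN0 : 0 < N) (hN : 2 * N = p) (hR1 : -(p : ℤ) < 2 * R)
    (hR2 : 2 * R ≤ p) : 2 * R = p ∧ 2 * I = DD p q s := by
  have hp0 : 0 < p := Nat.pos_of_ne_zero (NeZero.ne p)
  have hq := h.q0R
  have h8 : (p : ℤ) ∣ R + R := (by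
    have h9 := (h.cadd hC hC).2.1
    rw [← ZMod.intCast_zmod_eq_zero_iff_dvd, h9]
    have : N + N = p := by omega
    rw [this, Int.cast_natCast, ZMod.natCast_self, zero_mul])
  have h10 : ¬ (p : ℤ) ∣ R := by
    intro h11
    have := Int.le_of_dvd (by omega) (h.nrow hC h11)
    omega
  have h12 : 2 * R = p := by
    obtain ⟨w, hw⟩ := h8
    have hp0' : (0 : ℤ) < p := by exact_mod_cast hp0
    have : w = 0 ∨ w = 1 := by
      have h13 : -(p : ℤ) < p * w := by omega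
      have h14 : p * w ≤ (p : ℤ) := by omega
      have h15 : -1 < w := by
        by_contra h16
        have : (p : ℤ) * w ≤ p * (-1) := mul_le_mul_of_nonneg_left (by omega) hp0'.le
        omega
      have h17 : w ≤ 1 := by
        by_contra h16
        have : (p : ℤ) * 2 ≤ p * w := mul_le_mul_of_nonneg_left (by omega) hp0'.le
        omega
      omega
    rcases this with rfl | rfl
    · exact absurd (by rw [show R = 0 by omega]; exact dvd_zero _) h10
    · omega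
  refine ⟨h12, ?_⟩
  have a1 := hC.2.2
  have a2 := h.pD
  have a3 : (q : ℝ) * (2 * I) = q * DD p q s := by
    have a4 : (2 : ℝ) * N = p := by exact_mod_cast (show (2 * N : ℤ) = p by omega)
    have a5 : (q : ℝ) * DD p q s = p * s := a2
    rw [a5]
    push_cast at a1
    linear_combination 2 * a1 + s * a4
  exact mul_left_cancel₀ hq.ne' a3

theorem SG.syz (h : SG p q a b c z i0 ρ θ δ l k s ds J) (h2a : 2 * a < p) :
    (∃ N R I, SFac p a (DD p q s) (ClS p q c ρ θ s ds) N R I) ∨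
    (∃ N R I, YFac p (DD p q s) (ClS p q c ρ θ s ds) N R I) ∨
    (∃ N R I, ZFac p (DD p q s) (ClS p q c ρ θ s ds) N R I) := by
  obtain ⟨m, hm⟩ := h.m1
  have ha := h.ls.hP.ha
  have hp0 : 0 < p := by omega
  set μ : ℤ := m + (ρ.val : ℤ) with hμ
  set g := Int.gcd μ p with hg
  have hgp : (g : ℤ) ∣ p := Int.gcd_dvd_right μ p
  have hgm : (g : ℤ) ∣ μ := Int.gcd_dvd_left μ p
  have hg0 : 0 < g := Int.gcd_pos_of_ne_zero_right μ (by exact_mod_cast hp0.ne')
  rcases (by omega : g = 1 ∨ g = 2 ∨ 3 ≤ g) with h1 | h1 | h1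
  · left
    obtain ⟨N, hN1, hNp, hNb⟩ := lab p μ a (by rw [← hg, h1])
    have hN0 : N ≠ 0 := by
      intro h3
      rw [h3, zero_mul, sub_zero] at hNb
      have := Int.le_of_dvd (by omega) hNb
      omega
    obtain ⟨R, I, hC, h4, h5, h6, h7⟩ := h.csum hm (by omega : 0 < N) hNp hNb
    refine ⟨N, R, I, hC, by omega, hNp, h6, h7, h4, lt_of_le_of_ne h5 ?_⟩
    intro h8
    have h9 := h.dd hC ⟨1, by rw [h8]; ring⟩
    have h10 : (p : ℤ) ∣ 2 * a := by
      have e1 : (2 * a : ℤ) = 2 * (a - N * μ) + 2 * N * μ := by ring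
      rw [e1]
      exact dvd_add (Dvd.dvd.mul_left hNb 2) (Dvd.dvd.mul_right h9 μ)
    have := Int.le_of_dvd (by omega) h10
    omega
  · right; right
    rw [h1] at hgp hgm
    obtain ⟨N, hN⟩ := hgp
    obtain ⟨m', hm'⟩ := hgm
    push_cast at hN hm'
    obtain ⟨R, I, hC, h4, h5, h6, h7⟩ := h.csum hm (N := N) (B := 0) (by omega) (by omega)
      ⟨-m', by rw [← hμ, hN, hm']; ring⟩
    rw [zero_sub] at hC
    obtain ⟨h8, h9⟩ := h.half2 hC (by omega) (by omega) h4 h5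
    exact ⟨N, R, I, hC, by omega, by omega, h6, h9, h8⟩
  · right; left
    obtain ⟨N, hN⟩ := hgp
    obtain ⟨m', hm'⟩ := hgm
    have hg3 : (3 : ℤ) ≤ g := by exact_mod_cast h1
    have hp0' : (0 : ℤ) < p := by exact_mod_cast hp0
    have hN0 : 0 < N := by
      by_contra h3
      have : (g : ℤ) * N ≤ 0 := mul_nonpos_of_nonneg_of_nonpos (by omega) (by omega)
      omega
    have hN2 : 3 * N ≤ p := by
      rw [hN]
      exact mul_le_mul_of_nonneg_right hg3 hN0.le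
    obtain ⟨R, I, hC, h4, h5, h6, h7⟩ := h.csum hm (N := N) (B := 0) (by omega) (by omega)
      ⟨-m', by rw [← hμ, hN, hm']; ring⟩
    rw [zero_sub] at hC
    refine ⟨N, R, I, hC, by omega, by omega, h6, ?_, h4, lt_of_le_of_ne h5 ?_⟩
    · have h8 := h.II (h.cadd hC hC) (by omega) (by omega)
      linarith [h8.2]
    · intro h8
      have h9 := Int.le_of_dvd (by omega) (h.dd hC ⟨1, by rw [h8]; ring⟩)
      omega

theorem SG.uvw2 (h : SG p q a b c z i0 ρ θ δ l k s ds J) (h2b : 2 * b < p) :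
    (∃ N R I, UFac p b (DD p q s) (ClS p q c ρ θ s ds) N R I) ∨
    (∃ N R I, VFac p (DD p q s) (ClS p q c ρ θ s ds) N R I) ∨
    ((∃ N R I, WFac p (DD p q s) (ClS p q c ρ θ s ds) N R I) ∧
      ∀ B : ℤ, 2 ∣ B → 0 < B → B < p →
        ∃ N R I, UFac p B (DD p q s) (ClS p q c ρ θ s ds) N R I) := by
  obtain ⟨m, hm⟩ := h.m1
  have hb := h.ls.hP.hb
  have hq := h.q0R
  have hp0 : 0 < p := by omega
  set g := Int.gcd m p with hg
  have hgp : (g : ℤ) ∣ p := Int.gcd_dvd_right m p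
  have hgm : (g : ℤ) ∣ m := Int.gcd_dvd_left m p
  have hg0 : 0 < g := Int.gcd_pos_of_ne_zero_right m (by exact_mod_cast hp0.ne')
  have hst : ∀ N X : ℤ, 0 < N → N < p → ((X * q + ds * s * N : ℤ) : ZMod (p * q)) =
      (N : ZMod (p * q)) * θ → ∃ R : ℤ, ∃ I : ℝ, ClS p q c ρ θ s ds N 0 X R I ∧
        -(p : ℤ) < 2 * R ∧ 2 * R ≤ p ∧ 0 < I ∧ I < DD p q s := by
    intro N X h1 h2 h3
    obtain ⟨R, I, hC, h4, h5⟩ := h.crow h3
    obtain ⟨h6, h7⟩ := h.II hC h1 h2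
    exact ⟨R, I, hC, h4, h5, h6, h7⟩
  rcases (by omega : g = 1 ∨ g = 2 ∨ 3 ≤ g) with h1 | h1 | h1
  · left
    obtain ⟨N, hN1, hNp, hNb⟩ := lab p m b (by rw [← hg, h1])
    have hN0 : N ≠ 0 := by
      intro h3
      rw [h3, zero_mul, sub_zero] at hNb
      have := Int.le_of_dvd (by omega) hNb
      omega
    obtain ⟨R, I, hC, h4, h5, h6, h7⟩ := hst N b (by omega) hNp (hm N b hNb)
    refine ⟨N, R, I, hC, by omega, hNp, h6, h7, h4, lt_of_le_of_ne h5 ?_⟩
    intro h8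
    have h9 := h.dd hC ⟨1, by rw [h8]; ring⟩
    have h10 : (p : ℤ) ∣ 2 * b := by
      have e1 : (2 * b : ℤ) = 2 * (b - N * m) + 2 * N * m := by ring
      rw [e1]
      exact dvd_add (Dvd.dvd.mul_left hNb 2) (Dvd.dvd.mul_right h9 m)
    have := Int.le_of_dvd (by omega) h10
    omega
  · right; right
    have hgp' := hgp
    rw [h1] at hgp hgm
    obtain ⟨M, hM⟩ := hgp
    obtain ⟨m', hm'⟩ := hgm
    push_cast at hM hm'
    constructor
    · obtain ⟨R, I, hC, h4, h5, h6, h7⟩ := hst M 0 (by omega) (by omega) (hm M 0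
        ⟨-m', by rw [hM, hm']; ring⟩)
      obtain ⟨h8, h9⟩ := h.half2 hC (by omega) (by omega) h4 h5
      exact ⟨M, R, I, hC, by omega, by omega, h6, h9, h8⟩
    · intro B hB2 hB0 hBp
      obtain ⟨B', hB'⟩ := hB2
      -- `gcd (m', M) = 1`
      have hcop : Int.gcd m' M = 1 := by
        have h3 : Int.gcd m p = 2 * Int.gcd m' M := by
          rw [hm', hM, Int.gcd_mul_left]
          rfl
        omega
      have hM0 : 0 < M := by omega
      obtain ⟨Mn, hMn⟩ := Int.eq_ofNat_of_zero_le hM0.le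
      have hMn0 : Mn ≠ 0 := by omega
      have : NeZero Mn := ⟨hMn0⟩
      obtain ⟨N, hN1, hNp, hNb⟩ := lab Mn m' B' (by rw [← hMn]; exact hcop)
      have hNb' : (p : ℤ) ∣ B - N * m := by
        obtain ⟨w, hw⟩ := hNb
        refine ⟨w, ?_⟩
        rw [hB', hm', hM, hMn]
        linear_combination 2 * hw
      have hN0 : N ≠ 0 := by
        intro h3
        rw [h3, zero_mul, sub_zero] at hNb'
        have := Int.le_of_dvd hB0 hNb'
        omega
      obtain ⟨R, I, hC, h4, h5, h6, h7⟩ := hst N B (by omega) (by omega) (hm N B hNb')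
      refine ⟨N, R, I, hC, by omega, by omega, h6, h7, h4, lt_of_le_of_ne h5 ?_⟩
      intro h8
      have h9 := Int.le_of_dvd (by omega) (h.dd hC ⟨1, by rw [h8]; ring⟩)
      omega
  · right; left
    obtain ⟨N, hN⟩ := hgp
    obtain ⟨m', hm'⟩ := hgm
    have hg3 : (3 : ℤ) ≤ g := by exact_mod_cast h1
    have hp0' : (0 : ℤ) < p := by exact_mod_cast hp0
    have hN0 : 0 < N := by
      by_contra h3
      have : (g : ℤ) * N ≤ 0 := mul_nonpos_of_nonneg_of_nonpos (by omega) (by omega)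
      omega
    have hN2 : 3 * N ≤ p := by
      rw [hN]
      exact mul_le_mul_of_nonneg_right hg3 hN0.le
    obtain ⟨R, I, hC, h4, h5, h6, h7⟩ := hst N 0 (by omega) (by omega) (hm N 0
      ⟨-m', by rw [hN, hm']; ring⟩)
    refine ⟨N, R, I, hC, by omega, by omega, h6, ?_, h4, lt_of_le_of_ne h5 ?_⟩
    · have h8 := h.II (h.cadd hC hC) (by omega) (by omega)
      linarith [h8.2]
    · intro h8
      have h9 := Int.le_of_dvd (by omega) (h.dd hC ⟨1, by rw [h8]; ring⟩)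
      omega

theorem SG.aux (h : SG p q a b c z i0 ρ θ δ l k s ds J) (h2a : 2 * a < p) (h2b : 2 * b < p)
    (hap : a.Coprime p) (hbp : b.Coprime p) :
    Aux p a b ds (DD p q s) (ClS p q c ρ θ s ds) where
  uvw := h.uvw2 h2b
  syz := h.syz h2a
  ecl := fun r hr => h.ecl hr
  odd := by
    intro h1
    have h2 : 2 ∣ p := by exact_mod_cast h1
    constructor
    · intro h3
      have h4 : 2 ∣ a := by exact_mod_cast h3
      have h5 := Nat.dvd_gcd h4 h2
      rw [hap] at h5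
      omega
    · intro h3
      have h4 : 2 ∣ b := by exact_mod_cast h3
      have h5 := Nat.dvd_gcd h4 h2
      rw [hbp] at h5
      omega

end

end Helper25.KW
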