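import Pool.Agent.Helper25.KW.S1Q

set_option autoImplicit false
set_option linter.unusedSectionVars false
set_option linter.unusedVariables false

/-!
# The elements of the strip with `x < 0` are multiples of the first one
-/

namespace Helper25.KW

open Helper11.N1 Helper55.KE Helper25.KG Helper48.KY

/-- arithmetic of the index `l` -/
def Ar (p l : ℤ) (D : ℝ) : Prop :=
  ∃ Q K s : ℤ, p < Q ∧ (Q : ℝ) * D = p * s ∧ (l * s = K * Q + 1 ∨ l * s = K * Q - 1)

section

variable {p a b c J ds l q : ℤ} {D dl : ℝ} {Cl : ℤ → ℤ → ℤ → ℤ → ℝ → Prop}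

theorem same (W : Base p a b c J ds l q D dl Cl) {N X R X' R' : ℤ} {I I' : ℝ}
    (h : Cl N 0 X R I) (h' : Cl N 0 X' R' I') : p ∣ X - X' ∧ I = I' := by
  have h1 := dif W h h'
  rw [sub_self, sub_self] at h1
  exact ⟨W.dvX h1 (dvd_zero _), by linarith [zer W h1]⟩

theorem same_x (W : Base p a b c J ds l q D dl Cl) {N X R X' R' : ℤ} {I I' : ℝ}
    (h : Cl N 0 X R I) (h' : Cl N 0 X' R' I')
    (h1 : ((X : ℝ) + ds * I) - (X' + ds * I') < p)
    (h2 : -(p : ℝ) < ((X : ℝ) + ds * I) - (X' + ds * I')) :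
    X = X' ∧ (X : ℝ) + ds * I = X' + ds * I' := by
  obtain ⟨⟨t, ht⟩, hI⟩ := same W h h'
  have h3 : (X : ℝ) - X' = p * t := by exact_mod_cast ht
  rw [hI] at h1 h2
  have h4 : (p : ℝ) * t < p := by linarith
  have h5 : -(p : ℝ) < p * t := by linarith
  have h4' : p * t < p := by exact_mod_cast h4
  have h5' : -p < p * t := by exact_mod_cast h5
  have hp : 0 < p := by have := W.ha; have := W.h2a; omega
  have ht0 : t = 0 := by
    rcases lt_trichotomy t 0 with g | g | g
    · nlinarith
    · exact g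
    · nlinarith
  rw [ht0, mul_zero] at ht
  have : X = X' := by omega
  exact ⟨this, by rw [this, hI]⟩

/-- `|I - I'| < 1 / 2` for two clusters of the same index -/
theorem half_lt (W : Base p a b c J ds l q D dl Cl) (hA : Aux p a b ds D Cl)
    {N τ τ' X R X' R' : ℤ} {I I' : ℝ}
    (h : Cl N τ X R I) (h' : Cl N τ' X' R' I') (hτ : |τ - τ'| ≤ 2) : |I - I'| < 1 / 2 := by
  have h1 := dif W h h'
  rw [sub_self] at h1
  have h2 := small W hA h1 hτ
  have h3 := W.hD
  have hp : (0 : ℝ) < p := by
    have : 0 < p := by have := W.ha; have := W.h2a; omega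
    exact_mod_cast this
  by_contra hc
  push Not at hc
  nlinarith

theorem w_lt_l (W : Base p a b c J ds l q D dl Cl) (S : Sel p a b l ds D dl Cl)
    (hA : Aux p a b ds D Cl) {N Nw Xw Rw : ℤ} {Iw : ℝ} (hn : StN p b l ds Cl (Zp ds) N N)
    (w : SW p a b l ds D Cl (Zx ds) N Nw Xw Rw Iw) (hNw : Nw < N) : Nw < l := by
  by_contra hc
  push Not at hc
  have hl1 : l < Nw := lt_of_le_of_ne hc (fun h => w.w.nl h.symm)
  have h1 := dif W w.w.cl W.cl
  have hl := W.hl
  have hwp := w.w.Np
  have hb2 : 2 * (b : ℝ) < p := by exact_mod_cast W.h2b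
  have hb : 2 ≤ (b : ℝ) := by exact_mod_cast W.hb
  have hx1 := w.x1
  have hx2 := w.z
  unfold Zx at hx2
  have e1 : ((Xw - (-b - ds * J) : ℤ) : ℝ) + ds * (Iw - J) = Xw + ds * Iw + b := by
    push_cast
    ring
  obtain ⟨I', g1, g2, -⟩ := S.tr h1 (by norm_num) (by omega) (by omega)
  have g3 := (g2 0).1
  have g4 := (g2 b).2.1
  rw [e1] at g3 g4
  rw [Int.cast_zero] at g3
  have g5 := g3 (by linarith)
  have g6 := g4 (by linarith)
  refine hn g1 (by norm_num) (by omega) (by omega) ⟨?_, ?_⟩ (by omega) (by omega) (by linarith)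
    g6 g5
  · intro h
    rw [h] at g1
    obtain ⟨k, e, h3, h4⟩ := Helper91.Strip.xl W hA g1
    rw [h3] at g5 g6
    have h5 := abs_lt.1 (show |e| < 1 / 4 by linarith)
    rcases lt_trichotomy k 0 with hk | hk | hk
    · have : (k : ℝ) ≤ -1 := by exact_mod_cast (show k ≤ -1 by omega)
      nlinarith
    · subst hk
      push_cast at g5
      linarith
    · have : (1 : ℝ) ≤ k := by exact_mod_cast hk
      have h6 : 2 * b + 1 ≤ p := W.h2b
      have h7 : 2 * (b : ℝ) + 1 ≤ p := by exact_mod_cast h6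
      nlinarith
  · omega

theorem eucl (W : Base p a b c J ds l q D dl Cl) (S : Sel p a b l ds D dl Cl)
    (hA : Aux p a b ds D Cl) (hD : 2 * (b : ℝ) < D) {N Nw Xw Rw : ℤ} {Iw : ℝ} (hNp : N < p)
    (hn : StN p b l ds Cl (Zp ds) N N) (w : SW p a b l ds D Cl (Zx ds) N Nw Xw Rw Iw) :
    ∀ (m : ℕ) {n X R : ℤ} {I : ℝ}, n ≤ m → Cl n 0 X R I → 0 < n → n < N → P1 l p n →
      -(b : ℝ) < X + ds * I → (X : ℝ) + ds * I < 0 →
      ∃ j : ℕ, 0 < j ∧ n = j * Nw ∧ (X : ℝ) + ds * I = j * (Xw + ds * Iw) := by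
  have hb2 : 2 * (b : ℝ) < p := by exact_mod_cast W.h2b
  have hb : 2 ≤ (b : ℝ) := by exact_mod_cast W.hb
  have hx1 := w.x1
  have hx2 := w.z
  unfold Zx at hx2
  have hw0 := w.w.N0
  have hwp := w.w.Np
  intro m
  induction m with
  | zero => intro n X R I h1 h2 h3; omega
  | succ m ih =>
    intro n X R I h1 h2 h3 h4 h5 h6 h7
    by_cases hnw : n = Nw
    · subst hnw
      obtain ⟨g1, g2⟩ := same_x W h2 w.w.cl (by linarith) (by linarith)
      exact ⟨1, one_pos, by simp, by rw [g2]; simp⟩
    · have g1 := w.st h2 (by norm_num) h3 (by omega) h5 (by omega) hnw h6 (by linarith) h7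
      have g2 : Nw < n := by
        rcases eq_or_ne Iw I with g | g
        · have := pI W h2 h3.le
          have g3 := pI W w.w.cl hw0.le
          rw [g, this] at g3
          have hD0 : 0 < D := by linarith
          have g4 : ((n : ℝ) - Nw) * D = 0 := by linarith
          rcases mul_eq_zero.1 g4 with g5 | g5
          · exact absurd (by exact_mod_cast (sub_eq_zero.1 g5)) hnw
          · linarith
        · have g3 := W.add h2 (W.neg w.w.cl)
          have g4 := (W.pos0 (by simpa using g3)).1 (show 0 < I + -Iw by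
            have := lt_of_le_of_ne g1 g
            linarith)
          omega
      have g3 := dif W h2 w.w.cl
      rw [sub_self] at g3
      have e1 : ((X - Xw : ℤ) : ℝ) + ds * (I - Iw) = (X + ds * I) - (Xw + ds * Iw) := by
        push_cast
        ring
      have hPl : n - Nw ≠ l := by
        intro h
        have k1 := W.add W.cl w.w.cl
        obtain ⟨I', k2, k3, -⟩ := S.tr k1 (by norm_num) (by have := W.hl; omega) (by omega)
        have e2 : ((-b - ds * J + Xw : ℤ) : ℝ) + ds * (J + Iw) = -b + (Xw + ds * Iw) := by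
          push_cast
          ring
        have k4 := (k3 (-b)).2.1
        have k5 := (k3 (-(2 * b))).1
        rw [e2] at k4 k5
        push_cast at k4 k5
        have k6 := k4 (by linarith)
        have k7 := k5 (by linarith)
        have hnl : n = l + Nw := by omega
        rw [hnl] at h2
        have k8 := (same_x W h2 k2 (by push_cast; linarith) (by push_cast; linarith)).2
        push_cast at k8
        linarith
      have hPp : n - Nw + l ≠ p := fun h =>
        Helper91.Strip.xnpl' W S hD h g3 ⟨by rw [e1]; linarith, by rw [e1]; linarith⟩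
      rcases lt_trichotomy (((X - Xw : ℤ) : ℝ) + ds * (I - Iw)) 0 with g | g | g
      · obtain ⟨j, j1, j2, j3⟩ := ih (by push_cast at h1; omega) g3 (by omega) (by omega)
          ⟨hPl, hPp⟩ (by rw [e1]; linarith) g
        refine ⟨j + 1, by omega, ?_, ?_⟩
        · push_cast
          linarith
        · rw [e1] at j3
          push_cast
          linarith
      · exact absurd g (ne_z0 W g3 (by omega) (by omega))
      · exact (hn g3 (by norm_num) (by omega) (by omega) ⟨hPl, hPp⟩ (by omega) (by omega)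
          (by rw [e1]; linarith) (by rw [e1]; linarith) g).elim

/-- `l` is the multiple `al` of `Nw` -/
structure EU (p b c J ds l : ℤ) (D : ℝ) (Nw Xw Rw : ℤ) (Iw : ℝ) (al t : ℤ) : Prop where
  a2 : 2 ≤ al
  l : l = al * Nw
  X : al * Xw = -b - ds * J
  R : al * Rw = c + b + p * t
  I1 : 4 * |al * Iw - J| < 1
  I2 : p * |al * Iw - J| ≤ D
  gcd : ∀ g : ℤ, g ∣ al → g ∣ b → g ∣ 1

theorem euclid (W : Base p a b c J ds l q D dl Cl) (S : Sel p a b l ds D dl Cl)
    (hA : Aux p a b ds D Cl) (hAr : Ar p l D) (hD : 2 * (b : ℝ) < D) {N Nw Xw Rw : ℤ} {Iw : ℝ}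
    (hNp : N < p) (hlN : l < N)
    (hn : StN p b l ds Cl (Zp ds) N N) (w : SW p a b l ds D Cl (Zx ds) N Nw Xw Rw Iw)
    (hNw : Nw < N) : ∃ al t : ℤ, EU p b c J ds l D Nw Xw Rw Iw al t := by
  have hwl := w_lt_l W S hA hn w hNw
  have hb2 : 2 * (b : ℝ) < p := by exact_mod_cast W.h2b
  have hb : 2 ≤ (b : ℝ) := by exact_mod_cast W.hb
  have hx1 := w.x1
  have hx2 := w.z
  unfold Zx at hx2
  have hw0 := w.w.N0
  have hwp := w.w.Np
  have hp : 0 < p := by omega
  have hpR : (0 : ℝ) < p := by exact_mod_cast hp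
  have hD0 : 0 < D := by linarith
  have h1 := dif W W.cl w.w.cl
  obtain ⟨I', g1, g2, -⟩ := S.tr h1 (by norm_num) (by omega) (by omega)
  have e1 : ((-b - ds * J - Xw : ℤ) : ℝ) + ds * (J - Iw) = -b - (Xw + ds * Iw) := by
    push_cast
    ring
  have g3 := (g2 0).2.1
  have g4 := (g2 (-b)).1
  rw [e1] at g3 g4
  rw [Int.cast_zero] at g3
  push_cast at g4
  have g5 := g3 (by linarith)
  have g6 := g4 (by linarith)
  have hPp : l - Nw + l ≠ p := fun h =>
    Helper91.Strip.xnpl' W S hD h g1 ⟨by push_cast; linarith, by linarith⟩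
  obtain ⟨m, hm⟩ := Int.eq_ofNat_of_zero_le (show 0 ≤ l - Nw by omega)
  obtain ⟨j, j1, j2, j3⟩ := eucl W S hA hD hNp hn w m (by rw [hm]) g1 (by omega) (by omega)
    ⟨by omega, hPp⟩ (by push_cast; linarith) g5
  have hl : l = (j + 1 : ℤ) * Nw := by linarith
  have i1 := pI W g1 (by omega)
  have i2 := pI W w.w.cl hw0.le
  have i3 : I' = j * Iw := by
    have : (p : ℝ) * I' = p * (j * Iw) := by
      rw [i1, j2]
      push_cast
      linear_combination -(j : ℝ) * i2
    exact mul_left_cancel₀ hpR.ne' this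
  have hX : (j + 1 : ℤ) * Xw = -b - ds * J := by
    have : (((j + 1 : ℤ) * Xw : ℤ) : ℝ) = ((-b - ds * J : ℤ) : ℝ) := by
      push_cast
      rw [i3] at j3
      push_cast at j3
      linarith
    exact_mod_cast this
  have m1 := Helper48.KY.mul W w.w.cl (j + 1)
  push_cast at m1
  have m2 := dif W W.cl m1
  rw [← hl, sub_self] at m2
  have hR : p ∣ c + b - (j + 1 : ℤ) * Rw := (W.dvd m2).1 (dvd_zero _)
  obtain ⟨t, ht⟩ := hR
  have I2 := small W hA m2 (by norm_num)
  obtain ⟨Ie, he, hIe⟩ := elE W hA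
  have hIe' : Ie = (j + 1 : ℤ) * Iw := by
    have := m1
    rw [← hl] at this
    have := (same W he.cl this).2
    rw [this]
    push_cast
    ring
  have hI1 : 4 * |((j + 1 : ℤ) : ℝ) * Iw - J| < 1 := by rw [← hIe']; exact hIe
  refine ⟨j + 1, -t, ⟨by omega, hl, hX, by linarith, hI1, ?_, ?_⟩⟩
  · have : |((j + 1 : ℤ) : ℝ) * Iw - J| = |(J : ℝ) - ((j : ℝ) + 1) * Iw| := by
      rw [abs_sub_comm]
      push_cast
      rfl
    rw [this]
    exact I2
  · intro g hg1 hg2
    obtain ⟨Q, K, s, hQ, hQD, hls⟩ := hAr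
    have hpI := pI W he.cl (by have := W.hl; omega)
    have hQI : (Q : ℝ) * Ie = l * s := by
      have : (p : ℝ) * (Q * Ie) = p * (l * s) := by
        calc (p : ℝ) * (Q * Ie) = Q * (p * Ie) := by ring
          _ = Q * (l * D) := by rw [hpI]
          _ = l * (Q * D) := by ring
          _ = l * (p * s) := by rw [hQD]
          _ = p * (l * s) := by ring
      exact mul_left_cancel₀ hpR.ne' this
    have hp5 : 5 ≤ p := by have := W.ha; have := W.h2a; omega
    have hQR : (6 : ℝ) ≤ Q := by exact_mod_cast (show 6 ≤ Q by omega)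
    have hKJ : K = J := by
      have h5 := abs_lt.1 (show |Ie - J| < 1 / 4 by linarith)
      have h6 : (-1 : ℝ) ≤ Q * Ie - K * Q ∧ (Q : ℝ) * Ie - K * Q ≤ 1 := by
        rw [hQI]
        rcases hls with h | h
        · have : (l : ℝ) * s = K * Q + 1 := by exact_mod_cast h
          rw [this]
          constructor <;> linarith
        · have : (l : ℝ) * s = K * Q - 1 := by exact_mod_cast h
          rw [this]
          constructor <;> linarith
      have h7 : (K : ℝ) - J < 1 := by
        by_contra hc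
        push Not at hc
        nlinarith
      have h8 : (J : ℝ) - K < 1 := by
        by_contra hc
        push Not at hc
        nlinarith
      have h7' : K - J < 1 := by exact_mod_cast h7
      have h8' : J - K < 1 := by exact_mod_cast h8
      omega
    subst hKJ
    have hds : ds * ds = 1 := by
      rcases W.hds with ⟨rfl, _⟩ | ⟨rfl, _⟩ <;> norm_num
    have hgJ : g ∣ K := by
      have h5 : g ∣ ds * K := by
        have : ds * K = -b - (j + 1 : ℤ) * Xw := by linarith
        rw [this]
        exact dvd_sub (dvd_neg.2 hg2) (Dvd.dvd.mul_right hg1 _)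
      have h6 : K = ds * (ds * K) := by rw [← mul_assoc, hds, one_mul]
      rw [h6]
      exact Dvd.dvd.mul_left h5 _
    have hgl : g ∣ l * s := by
      rw [hl]
      exact Dvd.dvd.mul_right (Dvd.dvd.mul_right hg1 _) _
    rcases hls with h | h
    · have : (1 : ℤ) = l * s - K * Q := by linarith
      rw [this]
      exact dvd_sub hgl (Dvd.dvd.mul_right hgJ _)
    · have : (1 : ℤ) = K * Q - l * s := by linarith
      rw [this]
      exact dvd_sub (Dvd.dvd.mul_right hgJ _) hgl

end

end Helper25.KW
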