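import Pool.Agent.Helper25.KW.S1E

set_option autoImplicit false
set_option linter.unusedSectionVars false
set_option linter.unusedVariables false

/-!
# The first element `w` of the strip with `x < 0` and the only one `k` with `x > 0` are a basis
-/

namespace Helper25.KW

open Helper11.N1 Helper55.KE Helper25.KG Helper48.KY Helper11.CT

section

variable {p a b c J ds l q : ℤ} {D dl : ℝ} {Cl : ℤ → ℤ → ℤ → ℤ → ℝ → Prop}

/-- the determinant of two clusters is a multiple of `p` -/
theorem det (W : Base p a b c J ds l q D dl Cl) {N X R N' X' R' : ℤ} {I I' : ℝ}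
    (h : Cl N 0 X R I) (h' : Cl N' 0 X' R' I') (h0 : 0 ≤ N) (h0' : 0 ≤ N') :
    ∃ m : ℤ, N' * X - N * X' = p * m ∧
      (N' : ℝ) * (X + ds * I) - N * (X' + ds * I') = p * m := by
  obtain ⟨n, hn⟩ := Int.eq_ofNat_of_zero_le h0
  obtain ⟨n', hn'⟩ := Int.eq_ofNat_of_zero_le h0'
  have h1 := Helper48.KY.mul W h n'
  have h2 := Helper48.KY.mul W h' n
  have h3 := dif W h1 h2
  have e1 : (n' : ℤ) * N - n * N' = 0 := by rw [hn, hn']; ring
  rw [e1] at h3
  obtain ⟨m, hm⟩ := W.dvX (by simpa using h3) (dvd_zero _)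
  have h4 := zer W (by simpa using h3)
  have e2 : (n : ℤ) = N := hn.symm
  have e3 : (n' : ℤ) = N' := hn'.symm
  have e4 : (n : ℝ) = N := by simp [hn]
  have e5 : (n' : ℝ) = N' := by simp [hn']
  rw [e2, e3] at hm
  rw [e4, e5] at h4
  refine ⟨m, hm, ?_⟩
  have h5 : (N' : ℝ) * X - N * X' = p * m := by exact_mod_cast hm
  linear_combination h5 + ds * h4

/-- `N = 1` -/
theorem one_cl (W : Base p a b c J ds l q D dl Cl) (hA : Aux p a b ds D Cl) :
    ∃ Xe Re : ℤ, ∃ Ie : ℝ, Cl 1 0 Xe Re Ie := by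
  obtain ⟨X, R, I, h, -⟩ := oneE' W hA
  exact ⟨X, R, I, h.cl⟩

/-- integral linear combinations -/
theorem lin2 (W : Base p a b c J ds l q D dl Cl) {N X R N' X' R' N'' X'' R'' : ℤ} {I I' I'' : ℝ}
    (h : Cl N 0 X R I) (h' : Cl N' 0 X' R' I') (h'' : Cl N'' 0 X'' R'' I'') (u v : ℤ) :
    Cl (N + u * N' + v * N'') 0 (X + u * X' + v * X'') (R + u * R' + v * R'')
      (I + u * I' + v * I'') := by
  have h1 := W.add (W.add h (Base.smul W h' u)) (Base.smul W h'' v)
  simpa using h1

/-- no lattice point in the parallelogram -/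
theorem par (W : Base p a b c J ds l q D dl Cl) (S : Sel p a b l ds D dl Cl)
    (hA : Aux p a b ds D Cl) (hD : 2 * (b : ℝ) < D) {N X Nw Xw Rw : ℤ} {I Iw : ℝ}
    (hNp : N < p) (hx : 0 < (X : ℝ) + ds * I) (hxb : (X : ℝ) + ds * I < b)
    (hn : StN p b l ds Cl (Zp ds) N N) (w : SW p a b l ds D Cl (Zx ds) N Nw Xw Rw Iw)
    (hNw : Nw < N) {al t : ℤ} (e : EU p b c J ds l D Nw Xw Rw Iw al t) {M : ℤ} (hM : 0 < M)
    (hMd : (Nw : ℝ) * (X + ds * I) - N * (Xw + ds * Iw) = p * M)
    {n Y T σ τ : ℤ} {K : ℝ} (h : Cl n 0 Y T K) (s0 : 0 ≤ σ) (s1 : σ < M) (t0 : 0 ≤ τ)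
    (t1 : τ < M) (st : σ + τ ≤ M) (hnn : M * n = σ * Nw + τ * N)
    (hxx : (M : ℝ) * (Y + ds * K) = σ * (Xw + ds * Iw) + τ * (X + ds * I)) :
    σ = 0 ∧ τ = 0 := by
  by_contra hc
  have hb2 : 2 * b + 1 ≤ p := W.h2b
  have hb2R : 2 * (b : ℝ) + 1 ≤ p := by exact_mod_cast hb2
  have hb : 2 ≤ (b : ℝ) := by exact_mod_cast W.hb
  have hx1 := w.x1
  have hx2 := w.z
  unfold Zx at hx2
  have hw0 := w.w.N0
  have hMR : (0 : ℝ) < M := by exact_mod_cast hM
  have s0R : (0 : ℝ) ≤ σ := by exact_mod_cast s0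
  have t0R : (0 : ℝ) ≤ τ := by exact_mod_cast t0
  have stR : (σ : ℝ) + τ ≤ M := by exact_mod_cast st
  have hp : (0 : ℝ) < p := by linarith
  have hnnR : (M : ℝ) * n = σ * Nw + τ * N := by exact_mod_cast hnn
  -- linear independence
  have ind : ∀ r : ℤ, n = r * Nw → (Y : ℝ) + ds * K = r * (Xw + ds * Iw) → M ≤ M * r → False := by
    intro r r1 r2 r3
    have r1' : (n : ℝ) = r * Nw := by exact_mod_cast r1
    have r4 : (τ : ℝ) * (p * M) = 0 := by
      rw [← hMd]
      rw [r2] at hxx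
      rw [r1'] at hnnR
      linear_combination (Xw + ds * Iw) * hnnR - Nw * hxx
    have r5 : (τ : ℝ) = 0 := by
      rcases mul_eq_zero.1 r4 with g | g
      · exact g
      · rcases mul_eq_zero.1 g with g | g
        · linarith
        · linarith
    have r6 : τ = 0 := by exact_mod_cast r5
    rw [r6, r1] at hnn
    have r7 : (M * r - σ) * Nw = 0 := by linarith
    rcases mul_eq_zero.1 r7 with g | g
    · omega
    · omega
  have hpos : 0 < σ * Nw + τ * N := by
    rcases lt_or_eq_of_le s0 with g | g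
    · have : 0 < σ * Nw := mul_pos g hw0
      have : 0 ≤ τ * N := mul_nonneg t0 (by omega)
      linarith
    · rcases lt_or_eq_of_le t0 with g' | g'
      · have : 0 < τ * N := mul_pos g' (by omega)
        have : 0 ≤ σ * Nw := mul_nonneg s0 (by omega)
        linarith
      · exact absurd ⟨g.symm, g'.symm⟩ hc
  have n0 : 0 < n := by
    by_contra hn0
    push Not at hn0
    nlinarith
  have nN : n < N := by
    have : σ * Nw + τ * N < M * N := by
      rcases lt_or_eq_of_le s0 with g | g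
      · have g1 : σ * Nw < σ * N := mul_lt_mul_of_pos_left hNw g
        have g2 : (σ + τ) * N ≤ M * N := mul_le_mul_of_nonneg_right st (by omega)
        linarith
      · rw [← g]
        have g2 : τ * N < M * N := mul_lt_mul_of_pos_right t1 (by omega)
        linarith
    rw [← hnn] at this
    exact lt_of_mul_lt_mul_left this hM.le
  have x1 : -(b : ℝ) < Y + ds * K := by
    have g1 : -(M : ℝ) * b < M * (Y + ds * K) := by
      rw [hxx]
      have g2 : 0 ≤ (τ : ℝ) * (X + ds * I) := mul_nonneg t0R hx.le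
      rcases lt_or_eq_of_le s0 with g | g
      · have g3 : (0 : ℝ) < σ := by exact_mod_cast g
        nlinarith
      · rw [← g]
        push_cast
        nlinarith
    by_contra hc'
    push Not at hc'
    nlinarith
  have x2 : (Y : ℝ) + ds * K < b := by
    have g1 : (M : ℝ) * (Y + ds * K) < M * b := by
      rw [hxx]
      have g2 : (σ : ℝ) * (Xw + ds * Iw) ≤ 0 := mul_nonpos_of_nonneg_of_nonpos s0R hx2.le
      rcases lt_or_eq_of_le t0 with g | g
      · have g3 : (0 : ℝ) < τ := by exact_mod_cast g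
        nlinarith
      · rw [← g]
        push_cast
        nlinarith
    exact lt_of_mul_lt_mul_left g1 hMR.le
  have hPp : n + l ≠ p := fun h' => Helper91.Strip.xnpl' W S hD h' h ⟨x1, x2⟩
  have hPl : n ≠ l := by
    intro h'
    obtain ⟨j, hj⟩ := Int.eq_ofNat_of_zero_le (show 0 ≤ al by have := e.a2; omega)
    have m1 := Helper48.KY.mul W w.w.cl j
    have hjR : (j : ℝ) = al := by simp [hj]
    have e2 : (j : ℤ) * Nw = n := by rw [h', e.l, hj]
    rw [e2] at m1
    have e3 : (((j : ℤ) * Xw : ℤ) : ℝ) + ds * ((j : ℝ) * Iw) = al * (Xw + ds * Iw) := by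
      push_cast
      rw [hjR]
      ring
    have e4 : (al : ℝ) * (Xw + ds * Iw) = -b + ds * (al * Iw - J) := by
      have := e.X
      have h6 : (al : ℝ) * Xw = -b - ds * J := by exact_mod_cast this
      linear_combination h6
    have hds : |(ds : ℝ)| = 1 := by
      rcases W.hds with ⟨rfl, _⟩ | ⟨rfl, _⟩ <;> norm_num
    have e5 : |(ds : ℝ) * (al * Iw - J)| < 1 / 4 := by
      rw [abs_mul, hds, one_mul]
      linarith [e.I1]
    have e6 := abs_lt.1 e5
    have k8 := (same_x W h m1 (by rw [e3, e4]; linarith) (by rw [e3, e4]; linarith)).2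
    rw [e3] at k8
    refine ind al (by rw [h', e.l]) k8 ?_
    have := e.a2
    nlinarith
  rcases lt_trichotomy ((Y : ℝ) + ds * K) 0 with g | g | g
  · obtain ⟨m, hm⟩ := Int.eq_ofNat_of_zero_le n0.le
    obtain ⟨j, j1, j2, j3⟩ := eucl W S hA hD hNp hn w m (by rw [hm]) h n0 nN
      ⟨hPl, hPp⟩ x1 g
    refine ind j j2 (by rw [j3]; push_cast; ring) ?_
    have : (1 : ℤ) ≤ j := by exact_mod_cast j1
    nlinarith
  · exact ne_z0 W h n0 (by omega) g
  · exact hn h (by norm_num) n0 (by omega) ⟨hPl, hPp⟩ (by omega) (by omega) x1 x2 g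

/-- the determinant is `p` -/
theorem basis (W : Base p a b c J ds l q D dl Cl) (S : Sel p a b l ds D dl Cl)
    (hA : Aux p a b ds D Cl) (hD : 2 * (b : ℝ) < D) {N X R Nw Xw Rw : ℤ} {I Iw : ℝ}
    (hk : Cl N 0 X R I)
    (hNp : N < p) (hx : 0 < (X : ℝ) + ds * I) (hxb : (X : ℝ) + ds * I < b)
    (hn : StN p b l ds Cl (Zp ds) N N) (w : SW p a b l ds D Cl (Zx ds) N Nw Xw Rw Iw)
    (hNw : Nw < N) {al t : ℤ} (e : EU p b c J ds l D Nw Xw Rw Iw al t) :
    Nw * X - N * Xw = p ∧ (Nw : ℝ) * (X + ds * I) - N * (Xw + ds * Iw) = p := by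
  have hw0 := w.w.N0
  have hx2 := w.z
  unfold Zx at hx2
  have hb2 : 2 * b + 1 ≤ p := W.h2b
  have hbi := W.hb
  have hp : 0 < p := by omega
  have hpR : (0 : ℝ) < p := by exact_mod_cast hp
  obtain ⟨M, hM1, hM2⟩ := det W hk w.w.cl (by omega) hw0.le
  have hM : 0 < M := by
    have h1 : (0 : ℝ) < p * M := by
      rw [← hM2]
      have h2 : (0 : ℝ) < Nw := by exact_mod_cast hw0
      have h3 : (0 : ℝ) < N := by exact_mod_cast (by omega : 0 < N)
      nlinarith [mul_pos h2 hx, mul_pos h3 (neg_pos.2 hx2)]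
    have h2 : (0 : ℝ) < M := by
      rcases mul_pos_iff.1 h1 with g | g
      · exact g.2
      · linarith
    exact_mod_cast h2
  have hMR : (0 : ℝ) < M := by exact_mod_cast hM
  -- divisibility of the coordinates of every cluster
  have key : ∀ {n Y T : ℤ} {K : ℝ}, Cl n 0 Y T K → 0 ≤ n → ∃ s u : ℤ,
      n = s * Nw + u * N ∧ Y = s * Xw + u * X := by
    intro n Y T K h h0
    obtain ⟨σ, s1, s2⟩ := det W hk h (by omega) h0
    obtain ⟨τ, t1, t2⟩ := det W h w.w.cl h0 hw0.le
    have g1 : M * n = σ * Nw + τ * N := by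
      have : p * (M * n) = p * (σ * Nw + τ * N) := by
        linear_combination n * (-hM1) + Nw * s1 + N * t1
      exact mul_left_cancel₀ hp.ne' this
    have g2 : M * Y = σ * Xw + τ * X := by
      have : p * (M * Y) = p * (σ * Xw + τ * X) := by
        linear_combination Y * (-hM1) + Xw * s1 + X * t1
      exact mul_left_cancel₀ hp.ne' this
    have g3 : (M : ℝ) * (Y + ds * K) = σ * (Xw + ds * Iw) + τ * (X + ds * I) := by
      have : (p : ℝ) * (M * (Y + ds * K)) = p * (σ * (Xw + ds * Iw) + τ * (X + ds * I)) := by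
        linear_combination (Y + ds * K) * (-hM2) + (Xw + ds * Iw) * s2 + (X + ds * I) * t2
      exact mul_left_cancel₀ hpR.ne' this
    -- reduce
    have h1 := lin2 W h w.w.cl hk (-(σ / M)) (-(τ / M))
    have r1 := Int.emod_nonneg σ hM.ne'
    have r2 := Int.emod_lt_of_pos σ hM
    have r3 := Int.emod_nonneg τ hM.ne'
    have r4 := Int.emod_lt_of_pos τ hM
    have r5 := Int.emod_add_mul_ediv σ M
    have r6 := Int.emod_add_mul_ediv τ M
    have r5R : ((σ % M : ℤ) : ℝ) + M * ((σ / M : ℤ) : ℝ) = σ := by exact_mod_cast r5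
    have r6R : ((τ % M : ℤ) : ℝ) + M * ((τ / M : ℤ) : ℝ) = τ := by exact_mod_cast r6
    have z : σ % M = 0 ∧ τ % M = 0 := by
      rcases le_or_gt (σ % M + τ % M) M with g | g
      · refine par W S hA hD hNp hx hxb hn w hNw e hM hM2 h1 r1 r2 r3 r4 g ?_ ?_
        · linear_combination g1 - Nw * r5 - N * r6
        · push_cast
          linear_combination g3 - (Xw + ds * Iw) * r5R - (X + ds * I) * r6R
      · have h2 := dif W (W.add w.w.cl hk) h1
        have := par W S hA hD hNp hx hxb hn w hNw e hM hM2 (σ := M - σ % M) (τ := M - τ % M)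
          (by simpa using h2) (by omega) (by omega) (by omega) (by omega) (by omega) ?_ ?_
        · omega
        · linear_combination -g1 + Nw * r5 + N * r6
        · push_cast
          linear_combination -g3 + (Xw + ds * Iw) * r5R + (X + ds * I) * r6R
    rw [z.1, zero_add] at r5
    rw [z.2, zero_add] at r6
    refine ⟨σ / M, τ / M, ?_, ?_⟩
    · have : M * n = M * (σ / M * Nw + τ / M * N) := by
        linear_combination g1 - Nw * r5 - N * r6
      exact mul_left_cancel₀ hM.ne' this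
    · have : M * Y = M * (σ / M * Xw + τ / M * X) := by
        linear_combination g2 - Xw * r5 - X * r6
      exact mul_left_cancel₀ hM.ne' this
  obtain ⟨Xe, Re, Ie, he⟩ := one_cl W hA
  obtain ⟨s1, u1, a1, a2⟩ := key he (by norm_num)
  obtain ⟨s0, u0, b1, b2⟩ := key W.cX le_rfl
  have h1 : p * (M * (u0 * s1 - s0 * u1)) = p * 1 := by
    have : p * (M * (u0 * s1 - s0 * u1)) = (Nw * X - N * Xw) * (u0 * s1 - s0 * u1) := by
      rw [hM1]
      ring
    rw [this]
    linear_combination (-(s0 * Xw + u0 * X)) * a1 + (s1 * Xw + u1 * X) * b1 - b2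
  have h2 := mul_left_cancel₀ hp.ne' h1
  have h3 : M = 1 := by
    have : M ∣ 1 := ⟨_, h2.symm⟩
    exact Int.eq_one_of_dvd_one hM.le this
  subst h3
  rw [mul_one] at hM1
  push_cast at hM2
  rw [mul_one] at hM2
  exact ⟨hM1, hM2⟩

theorem no_pos (W : Base p a b c J ds l q D dl Cl) (S : Sel p a b l ds D dl Cl)
    (hA : Aux p a b ds D Cl) (hD : 2 * (b : ℝ) < D) {N : ℤ}
    (hn : StN p b l ds Cl (Zp ds) N N) {n Y T : ℤ} {K : ℝ} (h : Cl n 0 Y T K) (n0 : 0 < n)
    (np : n < p) (nN : n ≠ N) (x1 : 0 < (Y : ℝ) + ds * K) (x2 : (Y : ℝ) + ds * K < b) :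
    False := by
  have hb2 : 2 * b + 1 ≤ p := W.h2b
  have hb2R : 2 * (b : ℝ) + 1 ≤ p := by exact_mod_cast hb2
  have hb : 2 ≤ (b : ℝ) := by exact_mod_cast W.hb
  refine hn h (by norm_num) n0 np ⟨?_, ?_⟩ nN nN (by linarith) x2 x1
  · intro h'
    rw [h'] at h
    obtain ⟨k, e, h3, h4⟩ := Helper91.Strip.xl W hA h
    rw [h3] at x1 x2
    have h5 := abs_lt.1 (show |e| < 1 / 4 by linarith)
    rcases lt_trichotomy k 0 with hk | hk | hk
    · have : (k : ℝ) ≤ -1 := by exact_mod_cast (show k ≤ -1 by omega)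
      nlinarith
    · subst hk
      push_cast at x1
      linarith
    · have : (1 : ℝ) ≤ k := by exact_mod_cast hk
      nlinarith
  · exact fun h' => Helper91.Strip.xnpl' W S hD h' h ⟨by linarith, x2⟩

/-- the facts for `w` and `k` -/
structure EB (p b ds : ℤ) (D : ℝ) (N X Nw Xw : ℤ) (I Iw : ℝ) (al : ℤ) : Prop where
  bas : Nw * X - N * Xw = p
  ar : Iw * (X + ds * I) - I * (Xw + ds * Iw) = D
  xk : b + (Xw + ds * Iw) < X + ds * I
  NN : p < N + Nw
  II : D < I + Iw
  a1 : b + 1 ≤ al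
  a2 : al + 1 ≤ 2 * b

theorem eb (W : Base p a b c J ds l q D dl Cl) (S : Sel p a b l ds D dl Cl)
    (hA : Aux p a b ds D Cl) (hD : 2 * (b : ℝ) < D) {N X R Nw Xw Rw : ℤ} {I Iw : ℝ}
    (hk : Cl N 0 X R I)
    (hNp : N < p) (hlN : l < N) (hpN : p < N + l)
    (hx : 0 < (X : ℝ) + ds * I) (hxb : (X : ℝ) + ds * I < b)
    (hn : StN p b l ds Cl (Zp ds) N N) (w : SW p a b l ds D Cl (Zx ds) N Nw Xw Rw Iw)
    (hNw : Nw < N) {al t : ℤ} (e : EU p b c J ds l D Nw Xw Rw Iw al t) :
    EB p b ds D N X Nw Xw I Iw al := by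
  obtain ⟨B1, B2⟩ := basis W S hA hD hk hNp hx hxb hn w hNw e
  have hw0 := w.w.N0
  have hx1 := w.x1
  have hx2 := w.z
  unfold Zx at hx2
  have hb2 : 2 * b + 1 ≤ p := W.h2b
  have hb2R : 2 * (b : ℝ) + 1 ≤ p := by exact_mod_cast hb2
  have hbi := W.hb
  have hb : (2 : ℝ) ≤ b := by exact_mod_cast hbi
  have hp : 0 < p := by omega
  have hpR : (0 : ℝ) < p := by exact_mod_cast hp
  have hpD := W.hD
  have hl2 := W.hl
  obtain ⟨y, hy⟩ : ∃ y : ℝ, y = al * (Xw + ds * Iw) := ⟨_, rfl⟩
  have hal := e.a2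
  have halR : (2 : ℝ) ≤ al := by exact_mod_cast hal
  have hds : |(ds : ℝ)| = 1 := by
    rcases W.hds with ⟨rfl, _⟩ | ⟨rfl, _⟩ <;> norm_num
  have hy1 : y = -b + ds * (al * Iw - J) := by
    have h6 : (al : ℝ) * Xw = -b - ds * J := by exact_mod_cast e.X
    rw [hy]
    linear_combination h6
  have e5 : |(ds : ℝ) * (al * Iw - J)| < 1 / 4 := by
    rw [abs_mul, hds, one_mul]
    linarith [e.I1]
  have e6 := abs_lt.1 e5
  have y1 : -(b : ℝ) - 1 / 4 < y := by linarith
  have y2 : y < -(b : ℝ) + 1 / 4 := by linarith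
  have i1 := pI W hk (by omega)
  have i2 := pI W w.w.cl hw0.le
  have har : Iw * (X + ds * I) - I * (Xw + ds * Iw) = D := by
    have : (p : ℝ) * (Iw * (X + ds * I) - I * (Xw + ds * Iw)) = p * D := by
      linear_combination (X + ds * I) * i2 - (Xw + ds * Iw) * i1 + D * B2
    exact mul_left_cancel₀ hpR.ne' this
  have hxk : (b : ℝ) + (Xw + ds * Iw) < X + ds * I := by
    have h1 := dif W hk w.w.cl
    rw [sub_self] at h1
    have e1 : ((X - Xw : ℤ) : ℝ) + ds * (I - Iw) = (X + ds * I) - (Xw + ds * Iw) := by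
      push_cast
      ring
    have h2 := ne_i0 W h1 (by omega) (by omega) b
    rw [e1] at h2
    by_contra hc
    push Not at hc
    refine no_pos W S hA hD hn h1 (by omega) (by omega) (by omega) (by rw [e1]; linarith) ?_
    rw [e1]
    exact lt_of_le_of_ne (by linarith) h2
  have hNR : (0 : ℝ) < Nw := by exact_mod_cast hw0
  have hlR : (l : ℝ) = al * Nw := by exact_mod_cast e.l
  have hly : (Nw : ℝ) * y = l * (Xw + ds * Iw) := by
    rw [hy, hlR]
    ring
  -- `l x_k - N y = al p`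
  have hal1 : (l : ℝ) * (X + ds * I) - N * y = al * p := by
    rw [hy, hlR]
    linear_combination al * B2
  have hNN : 3 ≤ al → p < N + Nw := by
    intro h3
    have h3R : (3 : ℝ) ≤ al := by exact_mod_cast h3
    have hpos : 0 < (X : ℝ) + ds * I + (Xw + ds * Iw) := by
      have : (al : ℝ) * (b + 2 * (Xw + ds * Iw)) = al * b + 2 * y := by rw [hy]; ring
      have h4 : 0 < (al : ℝ) * (b + 2 * (Xw + ds * Iw)) := by
        rw [this]
        nlinarith
      have h5 : 0 < (b : ℝ) + 2 * (Xw + ds * Iw) := by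
        rcases mul_pos_iff.1 h4 with g | g
        · exact g.2
        · linarith
      linarith
    have h1 := W.add hk w.w.cl
    rw [add_zero] at h1
    have e1 : ((X + Xw : ℤ) : ℝ) + ds * (I + Iw) = (X + ds * I) + (Xw + ds * Iw) := by
      push_cast
      ring
    by_contra hc
    push Not at hc
    rcases lt_or_eq_of_le hc with g | g
    · exact no_pos W S hA hD hn h1 (by omega) g (by omega) (by rw [e1]; linarith)
        (by rw [e1]; linarith)
    · rw [g] at h1
      obtain ⟨⟨u, hu⟩, hI⟩ := same W h1 W.cp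
      rw [sub_zero] at hu
      have huR : ((X + Xw : ℤ) : ℝ) = p * u := by exact_mod_cast hu
      rw [huR, hI] at e1
      rcases W.hds with ⟨h6, -⟩ | ⟨h6, -⟩
      · rw [h6] at e1 hpos hxb hx2
        push_cast at e1 hpos hxb hx2
        rw [h6] at hx
        push_cast at hx
        rcases lt_or_ge u 0 with hk' | hk'
        · have : (u : ℝ) ≤ -1 := by exact_mod_cast (show u ≤ -1 by omega)
          nlinarith
        · have : (0 : ℝ) ≤ u := by exact_mod_cast hk'
          nlinarith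
      · rw [h6] at e1 hpos hxb hx2
        push_cast at e1 hpos hxb hx2
        rcases lt_or_ge u 1 with hk' | hk'
        · have : (u : ℝ) ≤ 0 := by exact_mod_cast (show u ≤ 0 by omega)
          nlinarith
        · have : (1 : ℝ) ≤ u := by exact_mod_cast hk'
          nlinarith
  have hxl : (l : ℝ) * (b + (Xw + ds * Iw)) < l * (X + ds * I) := by
    have : (0 : ℝ) < l := by exact_mod_cast (by omega : 0 < l)
    exact mul_lt_mul_of_pos_left hxk this
  have hab : al ≠ b := by
    intro h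
    have h1 := Int.le_of_dvd one_pos (e.gcd b (by rw [h]) (dvd_refl _))
    omega
  have ha2b : al ≠ 2 * b := by
    intro h
    have h1 := Int.le_of_dvd one_pos (e.gcd b (by rw [h]; exact Dvd.intro_left _ rfl) (dvd_refl _))
    omega
  have hlpR : (l : ℝ) ≤ p - 1 := by exact_mod_cast (by have := W.hlp; omega : l ≤ p - 1)
  have hNpR : (N : ℝ) ≤ p - 1 := by exact_mod_cast (by omega : N ≤ p - 1)
  have hlR0 : (0 : ℝ) < l := by exact_mod_cast (by omega : 0 < l)
  have hNR0 : (0 : ℝ) < N := by exact_mod_cast (by omega : 0 < N)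
  have hup : al ≤ 2 * b := by
    have h1 : (al : ℝ) * p < (2 * b + 1) * p := by
      rw [← hal1]
      have h2 : (l : ℝ) * (X + ds * I) < l * b := mul_lt_mul_of_pos_left hxb hlR0
      have h3 : -((N : ℝ) * y) < N * (b + 1 / 4) := by nlinarith
      have h4 : (l : ℝ) * b ≤ (p - 1) * b := mul_le_mul_of_nonneg_right hlpR (by linarith)
      have h5 : (N : ℝ) * (b + 1 / 4) ≤ (p - 1) * (b + 1 / 4) :=
        mul_le_mul_of_nonneg_right hNpR (by linarith)
      nlinarith
    have h2 : (al : ℝ) < 2 * b + 1 := lt_of_mul_lt_mul_right h1 hpR.le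
    have h3 : al < 2 * b + 1 := by exact_mod_cast h2
    omega
  have hlow : b ≤ al := by
    rcases (by omega : al = 2 ∨ 3 ≤ al) with h2 | h3
    · by_contra hc
      push Not at hc
      have hb3 : 3 ≤ b := by omega
      have hb3R : (3 : ℝ) ≤ b := by exact_mod_cast hb3
      have h4 : (l : ℝ) * (b + (Xw + ds * Iw)) = l * b + Nw * y := by
        rw [hly]
        ring
      rw [h2] at hlR hal1
      push_cast at hlR hal1
      have h5 : (l : ℝ) * (b + y / 2) - N * y < 2 * p := by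
        rw [h4] at hxl
        have : (l : ℝ) * (b + y / 2) = l * b + Nw * y := by
          rw [hlR]
          ring
        linarith
      have h6 : (p : ℝ) - N + 1 ≤ l := by exact_mod_cast (by omega : p - N + 1 ≤ l)
      have h7 : (p : ℝ) + 1 ≤ 2 * N := by exact_mod_cast (by omega : p + 1 ≤ 2 * N)
      have h8 : 0 < (b : ℝ) + y / 2 := by linarith
      have h9 : ((p : ℝ) - N) * (b + y / 2) ≤ l * (b + y / 2) :=
        mul_le_mul_of_nonneg_right (by linarith) h8.le
      nlinarith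
    · have h3R : (3 : ℝ) ≤ al := by exact_mod_cast h3
      have h4 : (l : ℝ) * (b + (Xw + ds * Iw)) = l * b + Nw * y := by
        rw [hly]
        ring
      rw [h4] at hxl
      have h5 : (p : ℝ) ≤ N + Nw := by exact_mod_cast (hNN h3).le
      have h6 : 0 ≤ (Nw : ℝ) * (al * b + 2 * y) := by
        refine mul_nonneg hNR.le ?_
        nlinarith
      have h7 : (p : ℝ) * (-y) < al * p := by
        rw [← hal1]
        have : (l : ℝ) * b = Nw * (al * b) := by rw [hlR]; ring
        nlinarith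
      have h8 : -y < al := by
        have : (-y) * p < al * p := by linarith
        exact lt_of_mul_lt_mul_right this hpR.le
      have h9 : (b : ℝ) < al + 1 := by linarith
      have h10 : b < al + 1 := by exact_mod_cast h9
      omega
  have h3 : 3 ≤ al := by omega
  have hII : D < I + Iw := by
    have h1 : (p : ℝ) + 1 ≤ N + Nw := by exact_mod_cast (hNN h3)
    have hD0 : 0 < D := by linarith
    have h2 : (p : ℝ) * D < p * (I + Iw) := by
      have : (p : ℝ) * (I + Iw) = (N + Nw) * D := by linear_combination i1 + i2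
      rw [this]
      nlinarith
    exact lt_of_mul_lt_mul_left h2 hpR.le
  exact ⟨B1, har, hxk, hNN h3, hII, by omega, by omega⟩

/-- all the elements of the strip: `k` and the multiples of `w` -/
theorem full (W : Base p a b c J ds l q D dl Cl) (S : Sel p a b l ds D dl Cl)
    (hA : Aux p a b ds D Cl) (hD : 2 * (b : ℝ) < D) {N X Nw Xw Rw : ℤ} {I Iw : ℝ}
    (hNp : N < p) (hlN : l < N)
    (hn : StN p b l ds Cl (Zp ds) N N) (w : SW p a b l ds D Cl (Zx ds) N Nw Xw Rw Iw)
    {al t : ℤ} (e : EU p b c J ds l D Nw Xw Rw Iw al t)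
    (g : EB p b ds D N X Nw Xw I Iw al) {n Y T : ℤ} {K : ℝ} (h : Cl n 0 Y T K) (n0 : 0 < n)
    (np : n < p) (hP : P1 l p n) (nN : n ≠ N) (x1 : -(b : ℝ) < Y + ds * K)
    (x2 : (Y : ℝ) + ds * K < b) :
    ∃ j : ℕ, 0 < j ∧ (j : ℤ) < al ∧ n = j * Nw ∧ (Y : ℝ) + ds * K = j * (Xw + ds * Iw) := by
  have hb2 : 2 * b + 1 ≤ p := W.h2b
  have hb2R : 2 * (b : ℝ) + 1 ≤ p := by exact_mod_cast hb2
  have hb : 2 ≤ (b : ℝ) := by exact_mod_cast W.hb
  have hw0 := w.w.N0
  have hx1 := w.x1
  have hx2 := w.z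
  unfold Zx at hx2
  obtain ⟨y, hy⟩ : ∃ y : ℝ, y = al * (Xw + ds * Iw) := ⟨_, rfl⟩
  have hds : |(ds : ℝ)| = 1 := by
    rcases W.hds with ⟨rfl, _⟩ | ⟨rfl, _⟩ <;> norm_num
  have hy1 : y = -b + ds * (al * Iw - J) := by
    have h6 : (al : ℝ) * Xw = -b - ds * J := by exact_mod_cast e.X
    rw [hy]
    linear_combination h6
  have e5 : |(ds : ℝ) * (al * Iw - J)| < 1 / 4 := by
    rw [abs_mul, hds, one_mul]
    linarith [e.I1]
  have e6 := abs_lt.1 e5
  have halR : (al : ℝ) ≤ 2 * b - 1 := by exact_mod_cast (by have := g.a2; omega : al ≤ 2 * b - 1)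
  have halR1 : (b : ℝ) + 1 ≤ al := by exact_mod_cast g.a1
  have hxw : (Xw : ℝ) + ds * Iw < -1 / 2 := by
    by_contra hc
    push Not at hc
    nlinarith
  -- an element with an index `< N`
  have key : ∀ {n Y T : ℤ} {K : ℝ}, Cl n 0 Y T K → 0 < n → n < N → P1 l p n →
      -(b : ℝ) < Y + ds * K → (Y : ℝ) + ds * K < 0 →
      ∃ j : ℕ, 0 < j ∧ (j : ℤ) < al ∧ n = j * Nw ∧ (Y : ℝ) + ds * K = j * (Xw + ds * Iw) := by
    intro n Y T K h n0 nN hP x1 x2
    obtain ⟨m, hm⟩ := Int.eq_ofNat_of_zero_le n0.le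
    obtain ⟨j, j1, j2, j3⟩ := eucl W S hA hD hNp hn w m (by rw [hm]) h n0 nN hP x1 x2
    refine ⟨j, j1, ?_, j2, j3⟩
    by_contra hc
    push Not at hc
    rcases lt_or_eq_of_le hc with h1 | h1
    · have h2 : (al : ℝ) + 1 ≤ j := by exact_mod_cast (by omega : al + 1 ≤ j)
      rw [j3] at x1
      nlinarith
    · exact hP.1 (by rw [j2, ← h1, e.l])
  rcases lt_trichotomy ((Y : ℝ) + ds * K) 0 with g1 | g1 | g1
  · rcases lt_or_gt_of_ne nN with h1 | h1
    · exact key h n0 h1 hP x1 g1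
    · -- `n > N`
      exfalso
      have h2 := dif W h w.w.cl
      rw [sub_self] at h2
      have e1 : ((Y - Xw : ℤ) : ℝ) + ds * (K - Iw) = (Y + ds * K) - (Xw + ds * Iw) := by
        push_cast
        ring
      have hNN := g.NN
      have hNwl : Nw < l := by
        have := e.l
        have := e.a2
        nlinarith
      have h3 : n - Nw < N := by omega
      rcases lt_trichotomy (((Y - Xw : ℤ) : ℝ) + ds * (K - Iw)) 0 with g2 | g2 | g2
      · by_cases hl : n - Nw = l
        · rw [hl] at h2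
          have k1 := W.add W.cl w.w.cl
          obtain ⟨I', k2, k3, -⟩ := S.tr k1 (by norm_num) (by have := W.hl; omega) (by omega)
          have e2 : ((-b - ds * J + Xw : ℤ) : ℝ) + ds * (J + Iw) = -b + (Xw + ds * Iw) := by
            push_cast
            ring
          have k4 := (k3 (-b)).2.1
          have k5 := (k3 (-(2 * b))).1
          rw [e2] at k4 k5
          push_cast at k4 k5
          have k6 := k4 (by linarith)
          have k7 := k5 (by linarith)
          have hnl : n = l + Nw := by omega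
          rw [hnl] at h
          have k8 := (same_x W h k2 (by push_cast; linarith) (by push_cast; linarith)).2
          push_cast at k8
          linarith
        · have hPp : n - Nw + l ≠ p := fun h' =>
            Helper91.Strip.xnpl' W S hD h' h2 ⟨by rw [e1]; linarith, by rw [e1]; linarith⟩
          obtain ⟨j, j1, j2, j3, j4⟩ := key h2 (by omega) h3 ⟨hl, hPp⟩ (by rw [e1]; linarith) g2
          have h5 : n = (j + 1) * Nw := by linarith
          have h6 : (j : ℤ) + 1 ≤ al := by omega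
          have h7 : n ≤ l := by
            rw [h5, e.l]
            exact mul_le_mul_of_nonneg_right h6 hw0.le
          omega
      · exact ne_z0 W h2 (by omega) (by omega) g2
      · refine no_pos W S hA hD hn h2 (by omega) (by omega) (by omega) g2 ?_
        rw [e1]
        linarith
  · exact absurd g1 (ne_z0 W h n0 np)
  · exact (no_pos W S hA hD hn h n0 np nN g1 x2).elim

/-- kills: the formal versions of the multiples `j w`, `2 ≤ j < al`, are near `j w` -/
theorem kill (W : Base p a b c J ds l q D dl Cl) (S : Sel p a b l ds D dl Cl)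
    (hA : Aux p a b ds D Cl) (hD : 2 * (b : ℝ) < D) {N X Nw Xw Rw : ℤ} {I Iw : ℝ}
    (hNp : N < p) (hlN : l < N)
    (hn : StN p b l ds Cl (Zp ds) N N) (w : SW p a b l ds D Cl (Zx ds) N Nw Xw Rw Iw)
    {al t : ℤ} (e : EU p b c J ds l D Nw Xw Rw Iw al t)
    (g : EB p b ds D N X Nw Xw I Iw al) (Z : ℤ → ℤ → ℝ → Prop)
    (hZ : ∀ (j : ℤ) (Y T : ℤ) (K : ℝ), 2 ≤ j → j < al → Z Y T K → Y = j * Xw →
      p ∣ T - j * Rw → p * |K - j * Iw| ≤ D → 4 * |K - j * Iw| < 1 → False) :
    StN p b l ds Cl Z N Nw := by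
  intro n τ Y T K h hτ n0 np hP nk nw x1 x2 hz
  have hb2 : 2 * b + 1 ≤ p := W.h2b
  have hb2R : 2 * (b : ℝ) + 1 ≤ p := by exact_mod_cast hb2
  obtain ⟨K', h1, h2, -⟩ := S.tr h hτ n0 np
  obtain ⟨y1, y2⟩ := Helper91.Strip.strip_tr (b := b) h2 x1 x2
  obtain ⟨j, j1, j2, j3, j4⟩ := full W S hA hD hNp hlN hn w e g h1 n0 np hP nk y1 y2
  have j5 : j ≠ 1 := by
    intro h'
    subst h'
    apply nw
    rw [j3]
    push_cast
    ring
  have m1 := Helper48.KY.mul W w.w.cl j
  rw [← j3] at m1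
  have e3 : (((j : ℤ) * Xw : ℤ) : ℝ) + ds * ((j : ℝ) * Iw) = j * (Xw + ds * Iw) := by
    push_cast
    ring
  have m2 := same_x W h1 m1 (by rw [e3, j4]; linarith) (by rw [e3, j4]; linarith)
  have m3 := dif W h m1
  rw [sub_self] at m3
  refine hZ j Y T K (by omega) j2 hz m2.1 ?_ ?_ ?_
  · exact (W.dvd m3).1 (dvd_zero _)
  · have := small W hA m3 (by rw [sub_zero]; omega)
    exact_mod_cast this
  · obtain ⟨i, hi⟩ := Int.eq_ofNat_of_zero_le (show 0 ≤ al by have := e.a2; omega)
    have hiR : (i : ℝ) = al := by simp [hi]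
    have u1 := dif W W.cl (Helper48.KY.mul W w.w.cl i)
    rw [← hi, ← e.l, sub_self, hiR] at u1
    have u2 := dif W m3 (Base.smul W u1 τ)
    have u3 := zer W (by simpa using u2)
    have u4 : K - (j : ℤ) * Iw = τ * (J - al * Iw) := by
      push_cast
      linarith
    rw [u4, abs_mul]
    have u5 : |(τ : ℝ)| ≤ 1 := by exact_mod_cast hτ
    have u6 := e.I1
    rw [abs_sub_comm] at u6
    have u7 := abs_nonneg ((J : ℝ) - al * Iw)
    nlinarith [abs_nonneg (τ : ℝ)]

end

end Helper25.KW
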