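import Pool.Agent.Helper25.KW.S1F

set_option autoImplicit false
set_option linter.unusedSectionVars false
set_option linter.unusedVariables false

/-!
# The facts for `k` and `w`, nobody else with `x > 0`
-/

namespace Helper25.KW

open Helper11.N1 Helper55.KE Helper25.KG Helper48.KY Helper11.CT

section

variable {p a b c J ds l q : ℤ} {D dl : ℝ} {Cl : ℤ → ℤ → ℤ → ℤ → ℝ → Prop}

theorem l_lt (W : Base p a b c J ds l q D dl Cl) (hA : Aux p a b ds D Cl)
    {N X R : ℤ} {I : ℝ} (hK : KGF p a b ds D (P1 l p) Cl N X R I) (hJ : (J : ℝ) < I) :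
    l < N := by
  obtain ⟨Xe, Re, Ie, he, -, -, -, hpI⟩ := oneE' W hA
  have hI0 := he.I0
  rcases lt_or_gt_of_ne hK.NP.1 with h | h
  · have := dm0 W hA he.cl hK.cl hK.N0.le h
    linarith
  · exact h

theorem p_lt (W : Base p a b c J ds l q D dl Cl) (hA : Aux p a b ds D Cl)
    {N X R : ℤ} {I : ℝ} (hK : KGF p a b ds D (P1 l p) Cl N X R I) (hIJ : D < I + J) :
    p < N + l := by
  obtain ⟨Xe, Re, Ie, he, -, -, -, hpI⟩ := oneE' W hA
  have hI0 := he.I0
  rcases lt_or_gt_of_ne hK.NP.2 with h | h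
  · have := dn0 W hA he.cl hK.cl hK.N0.le h
    linarith
  · exact h

/-- the facts of the case -/
structure NXF (p a b c J ds l : ℤ) (D : ℝ) (N X Nw Xw Rw : ℤ) (I Iw : ℝ) (al t : ℤ) : Prop where
  eu : EU p b c J ds l D Nw Xw Rw Iw al t
  eb : EB p b ds D N X Nw Xw I Iw al
  lN : l < N
  t0 : 1 ≤ t
  t1 : t + 1 ≤ al

theorem nxf (W : Base p a b c J ds l q D dl Cl) (S : Sel p a b l ds D dl Cl)
    (hA : Aux p a b ds D Cl) (hAr : Ar p l D) (hD : 2 * (b : ℝ) < D)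
    {N X R Nw Xw Rw : ℤ} {I Iw : ℝ} (hK : KGF p a b ds D (P1 l p) Cl N X R I)
    (hJ : (J : ℝ) < I) (hIJ : D < I + J) (hx : 0 < (X : ℝ) + ds * I)
    (hn : StN p b l ds Cl (Zp ds) N N) (w : SW p a b l ds D Cl (Zx ds) N Nw Xw Rw Iw)
    (hlt : Iw < I) : ∃ al t : ℤ, NXF p a b c J ds l D N X Nw Xw Rw I Iw al t := by
  have h1 := l_lt W hA hK hJ
  have h2 := p_lt W hA hK hIJ
  have h3 : Nw < N := by
    have h4 := dif W hK.cl w.w.cl
    rw [sub_self] at h4
    have := (W.pos0 h4).1 (by linarith)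
    omega
  obtain ⟨b1, b2, b3, b4⟩ := hK.bx
  obtain ⟨al, t, e⟩ := euclid W S hA hAr hD hK.Np h1 hn w h3
  have g := eb W S hA hD hK.cl hK.Np h1 h2 hx b2 hn w h3 e
  have hX : (al : ℝ) * Xw = -b - ds * J := by exact_mod_cast e.X
  have hR : (al : ℝ) * Rw = c + b + p * t := by exact_mod_cast e.R
  have hds : |(ds : ℝ)| = 1 := by
    rcases W.hds with ⟨rfl, _⟩ | ⟨rfl, _⟩ <;> norm_num
  have e5 : |(ds : ℝ) * (al * Iw - J)| < 1 / 4 := by
    rw [abs_mul, hds, one_mul]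
    linarith [e.I1]
  have e6 := abs_lt.1 e5
  have hs : (al : ℝ) * (Xw + ds * Iw + Rw) = ds * (al * Iw - J) + c + p * t := by
    linear_combination hX + hR
  have hb := W.hb
  have ha := W.ha
  have hal := g.a1
  have h2a : 2 * a + 1 ≤ p := W.h2a
  have hca := W.hca
  have hca' := W.hca'
  have halR : (3 : ℝ) ≤ al := by exact_mod_cast (by omega : 3 ≤ al)
  have haR : (2 : ℝ) ≤ a := by exact_mod_cast ha
  have h2aR : 2 * (a : ℝ) + 1 ≤ p := by exact_mod_cast h2a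
  have hcaR : -(a : ℝ) ≤ c := by exact_mod_cast hca
  have hcaR' : (c : ℝ) + 1 ≤ a := by exact_mod_cast hca'
  refine ⟨al, t, e, g, h1, ?_, ?_⟩
  · by_contra hc
    have ht : t ≤ 0 := by omega
    have htR : (t : ℝ) ≤ 0 := by exact_mod_cast ht
    have k1 : (al : ℝ) * a < al * (Xw + ds * Iw + Rw) :=
      mul_lt_mul_of_pos_left w.s1 (by linarith)
    rw [hs] at k1
    nlinarith
  · by_contra hc
    have ht : al ≤ t := by omega
    have htR : (al : ℝ) ≤ t := by exact_mod_cast ht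
    have k1 : (al : ℝ) * (Xw + ds * Iw + Rw) < al * (p - a) :=
      mul_lt_mul_of_pos_left w.s2 (by linarith)
    rw [hs] at k1
    nlinarith

end

end Helper25.KW
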