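import Pool.Agent.Helper25.KW.K11

set_option autoImplicit false
set_option linter.unusedSectionVars false
set_option linter.unusedVariables false

/-!
# The classes of `S1`, `p + l ≤ q`: `sc = ± 1` is the sign of `c`
-/

namespace Helper25.KW

open Helper11.N1 Helper55.KE

/-- `Y`, `b < 2 a` -/
def CY (sc ds : ℤ) : Prop := ∀ (p a b c J l q : ℤ) (D dl : ℝ) (Cl : ℤ → ℤ → ℤ → ℤ → ℝ → Prop),
  World p a b c J ds l q D dl Cl → -a < c → 0 < sc * c → b < 2 * a →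
  ∀ (N X R : ℤ) (I : ℝ), KGF p a b ds D (P1 l p) Cl N X R I →
  KMY p a b ds (P1 l p) Cl N (b + ds * (X + ds * I)) → b + ds * (X + ds * I) < D →
  Aux p a b ds D Cl → Phys p J D → ND2 D → False

/-- `W`, `b < 2 a` -/
def CW (sc ds : ℤ) : Prop := ∀ (p a b c J l q : ℤ) (D dl : ℝ) (Cl : ℤ → ℤ → ℤ → ℤ → ℝ → Prop),
  World p a b c J ds l q D dl Cl → -a < c → 0 < sc * c → b < 2 * a →
  ∀ (N X R : ℤ) (I : ℝ), KGF p a b ds D (P1 l p) Cl N X R I →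
  KMW p a b ds (P1 l p) Cl N (a + ds * (X + ds * I + R)) → a + ds * (X + ds * I + R) < D →
  D < b + ds * (X + ds * I) → KGe p a b ds D (P1 l p) Cl →
  Aux p a b ds D Cl → Phys p J D → ND2 D → False

/-- `S1`, `2 a ≤ b` -/
def CB (sc ds : ℤ) : Prop := ∀ (p a b c J l q : ℤ) (D dl : ℝ) (Cl : ℤ → ℤ → ℤ → ℤ → ℝ → Prop),
  World p a b c J ds l q D dl Cl → -a < c → 0 < sc * c → 2 * a ≤ b →
  (∃ (N X R : ℤ) (I m : ℝ), KGF p a b ds D (P1 l p) Cl N X R I ∧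
    KMin p a b ds (P1 l p) Cl N m ∧ m < D ∧ Cas a b ds R (X + ds * I) m) →
  YW p a b ds D (P1 l p) Cl →
  Aux p a b ds D Cl → Phys p J D → ND2 D → Helper12.TT.TTF p a b c l ds D Cl →
  Helper55.TR.TRF p a b c J l ds D Cl → Helper55.TR.TRG p a b c J l ds D Cl → False

/-- `S1` from the classes -/
theorem stT1x_of (hY1 : CY 1 1) (hY2 : CY 1 (-1)) (hY3 : CY (-1) 1) (hY4 : CY (-1) (-1))
    (hW1 : CW 1 1) (hW2 : CW 1 (-1)) (hW3 : CW (-1) 1) (hW4 : CW (-1) (-1))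
    (hB1 : CB 1 1) (hB2 : CB 1 (-1)) (hB3 : CB (-1) 1) (hB4 : CB (-1) (-1)) : StT1x := by
  intro p a b c J ds l q D dl Cl W hc hV hY hA hP hN hT hR hR'
  have hc0 := W.hc0
  rcases W.hds with ⟨rfl, _⟩ | ⟨rfl, _⟩ <;> rcases lt_or_gt_of_ne hc0 with h0 | h0 <;>
    rcases lt_or_ge b (2 * a) with h1 | h1
  · rcases hY with ⟨N, X, R, I, g1, g2, g3⟩ | ⟨N, X, R, I, g1, g2, g3, g4, g5⟩
    · exact hY3 p a b c J l q D dl Cl W hc (by omega) h1 N X R I g1 g2 g3 hA hP hN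
    · exact hW3 p a b c J l q D dl Cl W hc (by omega) h1 N X R I g1 g2 g3 g4 g5 hA hP hN
  · exact hB3 p a b c J l q D dl Cl W hc (by omega) h1 hV hY hA hP hN hT hR hR'
  · rcases hY with ⟨N, X, R, I, g1, g2, g3⟩ | ⟨N, X, R, I, g1, g2, g3, g4, g5⟩
    · exact hY1 p a b c J l q D dl Cl W hc (by omega) h1 N X R I g1 g2 g3 hA hP hN
    · exact hW1 p a b c J l q D dl Cl W hc (by omega) h1 N X R I g1 g2 g3 g4 g5 hA hP hN
  · exact hB1 p a b c J l q D dl Cl W hc (by omega) h1 hV hY hA hP hN hT hR hR'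
  · rcases hY with ⟨N, X, R, I, g1, g2, g3⟩ | ⟨N, X, R, I, g1, g2, g3, g4, g5⟩
    · exact hY4 p a b c J l q D dl Cl W hc (by omega) h1 N X R I g1 g2 g3 hA hP hN
    · exact hW4 p a b c J l q D dl Cl W hc (by omega) h1 N X R I g1 g2 g3 g4 g5 hA hP hN
  · exact hB4 p a b c J l q D dl Cl W hc (by omega) h1 hV hY hA hP hN hT hR hR'
  · rcases hY with ⟨N, X, R, I, g1, g2, g3⟩ | ⟨N, X, R, I, g1, g2, g3, g4, g5⟩
    · exact hY2 p a b c J l q D dl Cl W hc (by omega) h1 N X R I g1 g2 g3 hA hP hN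
    · exact hW2 p a b c J l q D dl Cl W hc (by omega) h1 N X R I g1 g2 g3 g4 g5 hA hP hN
  · exact hB2 p a b c J l q D dl Cl W hc (by omega) h1 hV hY hA hP hN hT hR hR'

end Helper25.KW
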