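import Pool.Agent.Helper25.KW.S1J

set_option autoImplicit false
set_option linter.unusedSectionVars false
set_option linter.unusedVariables false

/-!
# Free choice of the element of `K'` in the world `S1`, `p + l ≤ q`
-/

namespace Helper25.KW

open Helper11.N1 Helper55.KE

/-- exact companions and extremal elements -/
structure Sel (p a b l ds : ℤ) (D dl : ℝ) (Cl : ℤ → ℤ → ℤ → ℤ → ℝ → Prop) : Prop where
  /-- the exact companion of a cluster -/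
  tr : ∀ {N τ X R : ℤ} {I : ℝ}, Cl N τ X R I → |τ| ≤ 1 → 0 < N → N < p →
    ∃ I' : ℝ, Cl N 0 X R I' ∧ Tr dl (X + ds * I) (X + ds * I') ∧
      Tr dl (X + ds * I + R) (X + ds * I' + R)
  /-- extremal elements for a condition on the index -/
  ez : ∀ (Q : ℤ → Prop) (σ : ℤ), (σ = 1 ∨ σ = -1) →
    (∃ N X R I, KG p a b ds (fun N => P1 l p N ∧ Q N) Cl N X R I) →
    ∃ N X R I, KGF p a b ds D (fun N => P1 l p N ∧ Q N) Cl N X R I ∧
      KExtG p a b ds (fun N => P1 l p N ∧ Q N) Cl N (fun z _ => -(σ * z))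
        (-(σ * (X + ds * I)))
  es : ∀ (Q : ℤ → Prop) (σ : ℤ), (σ = 1 ∨ σ = -1) →
    (∃ N X R I, KG p a b ds (fun N => P1 l p N ∧ Q N) Cl N X R I) →
    ∃ N X R I, KGF p a b ds D (fun N => P1 l p N ∧ Q N) Cl N X R I ∧
      KExtG p a b ds (fun N => P1 l p N ∧ Q N) Cl N (fun _ s => -(σ * s))
        (-(σ * (X + ds * I + R)))

section

variable {p q a b c : ℕ} [NeZero p] [NeZero q] {z : ZMod p → ZMod (p * q)} {i0 ρ : ZMod p}
  {θ : ZMod (p * q)} {δ l : ℕ} {k : ℤ} {s ds J : ℤ}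

theorem SG.sel (h : SG p q a b c z i0 ρ θ δ l k s ds J) (h2a : 2 * a < p) (h2b : 2 * b < p) :
    Sel p a b l ds (DD p q s) ((δ : ℝ) / q) (ClS p q c ρ θ s ds) := by
  refine ⟨?_, ?_, ?_⟩
  · intro N τ X R I hC hτ hN0 hNp
    obtain ⟨I', h1, h2, h3⟩ := h.ex hC
    refine ⟨I', h1, ?_, ?_⟩
    · have t0 := h.trr hC hτ hN0 hNp 0
      rw [Int.cast_zero, add_zero, add_zero, ← h2] at t0
      exact t0
    · have t1 := h.trr hC hτ hN0 hNp R
      rw [← h2] at t1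
      exact t1
  · intro Q σ hσ hne
    obtain ⟨N, X, R, I, hK, hmax⟩ := h.emaxG h2a h2b (P := fun N => P1 l p N ∧ Q N)
      (fun z _ => -(σ * z)) hne
    refine ⟨N, X, R, I, h.kgf hK, ?_⟩
    intro N' τ X' R' I' hC hτ hN0 hNp hP hx hb
    obtain ⟨I1, h1, h2, h3⟩ := h.bxe hC hτ hN0 hNp hb
    have g1 := hmax N' X' R' I1 ⟨h1, hN0, hNp, hP, h2⟩
    have := h.cmp hK.cl hK.N0 hK.Np hC hτ hN0 hNp hx h1 h3 hσ (A := 0) (by
      push_cast
      linarith)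
    push_cast at this
    linarith
  · intro Q σ hσ hne
    obtain ⟨N, X, R, I, hK, hmax⟩ := h.emaxG h2a h2b (P := fun N => P1 l p N ∧ Q N)
      (fun _ s => -(σ * s)) hne
    refine ⟨N, X, R, I, h.kgf hK, ?_⟩
    intro N' τ X' R' I' hC hτ hN0 hNp hP hx hb
    obtain ⟨I1, h1, h2, h3⟩ := h.bxe hC hτ hN0 hNp hb
    have g1 := hmax N' X' R' I1 ⟨h1, hN0, hNp, hP, h2⟩
    have := h.cmp hK.cl hK.N0 hK.Np hC hτ hN0 hNp hx h1 h3 hσ (A := σ * R - σ * R') (by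
      push_cast
      linarith)
    push_cast at this
    linarith

end

/-- `S1`, `p + l ≤ q`, with all the elements and the free choice -/
def StT1y : Prop := ∀ (p a b c J ds l q : ℤ) (D dl : ℝ) (Cl : ℤ → ℤ → ℤ → ℤ → ℝ → Prop),
  World p a b c J ds l q D dl Cl → -a < c →
  (∃ (N X R : ℤ) (I m : ℝ), KGF p a b ds D (P1 l p) Cl N X R I ∧
    KMin p a b ds (P1 l p) Cl N m ∧ m < D ∧ Cas a b ds R (X + ds * I) m) →
  YW p a b ds D (P1 l p) Cl →
  Aux p a b ds D Cl → Phys p J D → ND2 D → Helper12.TT.TTF p a b c l ds D Cl →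
  Helper55.TR.TRF p a b c J l ds D Cl → Helper55.TR.TRG p a b c J l ds D Cl →
  Sel p a b l ds D dl Cl → False

theorem stS1_of_y (H : StT1y) : StS1 := by
  intro p q a b c _ _ z i0 ρ θ δ l k s ds J h h2a h2b hap hbp hρ hl2 hk0 hka hq
  rintro ⟨N, X, R, I, hK, hor⟩
  have hk := h.ka hka
  have W := h.world h2a h2b hl2 hk0 hka hq
  have hne : ∃ N X R I, KH p q a b c ρ θ s ds (P1 l p) N X R I ∧
      (b + ds * (X + ds * I) < DD p q s ∨ a + ds * (X + ds * I + R) < DD p q s) :=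
    ⟨N, X, R, I, ⟨hK.cl, hK.N0, hK.Np, ⟨hK.Nl, hK.Npl⟩, hK.bx⟩, hor⟩
  obtain ⟨N', X', R', I', hK', m, g1, g2, g3⟩ := h.s1G h2a h2b (P := P1 l p) hne
  refine H p a b k J ds l q _ _ _ W (by rw [abs_lt] at hk; exact hk.1)
    ⟨N', X', R', I', m, hK', g1, g2, g3⟩ (h.yw h2a h2b hne) (h.aux h2a h2b hap hbp)
    (h.phys h2b hl2 hq) (h.nd2 h2b) (Helper12.TT.ttf h W.toBase h2b hk0 hk)
    (Helper55.TR.trf h W.toBase h2b hk0 hk) (Helper55.TR.trg h W.toBase h2b hk0 hk)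
    (h.sel h2a h2b)

end Helper25.KW
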