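import Pool.Agent.Helper25.KW.S1K2
import Pool.Agent.Helper25.KG.S1F

set_option autoImplicit false
set_option linter.unusedSectionVars false
set_option linter.unusedVariables false

/-!
# Free choice of the element of `K'`: the cells
-/

namespace Helper25.KW

open Helper11.N1 Helper55.KE

/-- the order of `D` and `2 b` -/
def Sd (b : ℤ) (D : ℝ) : Bool → Prop
  | true => D < 2 * b
  | false => 2 * b < D

/-- a cell with an element of `K'` -/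
def ZCell (sc ds : ℤ) (Q : ℤ → ℤ → ℤ → Prop)
    (F : ℤ → ℤ → ℤ → ℤ → ℤ → ℤ → ℝ → (ℤ → ℤ → ℤ → ℤ → ℝ → Prop) → ℤ → ℤ → ℤ → ℝ → Prop) : Prop :=
  ∀ (p a b c J l q : ℤ) (D dl : ℝ) (Cl : ℤ → ℤ → ℤ → ℤ → ℝ → Prop),
  World p a b c J ds l q D dl Cl → -a < c → 0 < sc * c → b < 2 * a → Q a b c →
  Aux p a b ds D Cl → Phys p J D → ND2 D → Sel p a b l ds D dl Cl →
  ∀ (N X R : ℤ) (I : ℝ), KGF p a b ds D (P1 l p) Cl N X R I → F p a b c J l D Cl N X R I → False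

/-- `x < 0`, minimal `s` -/
def FA (ds : ℤ) (d : Bool) (p a b c J l : ℤ) (D : ℝ) (Cl : ℤ → ℤ → ℤ → ℤ → ℝ → Prop)
    (N X R : ℤ) (I : ℝ) : Prop :=
  Sd b D d ∧ Zx ds X R I ∧ Zy b ds D X R I ∧
    KZ p a b l ds Cl (fun X R I => Zx ds X R I ∧ Zy b ds D X R I) N
      (fun X R I => (1 : ℤ) * (X + ds * I + R)) ((1 : ℤ) * (X + ds * I + R))

/-- no element of the zone with `x < 0`, an element with `i + J < D` -/
def FB (ds : ℤ) (d : Bool) (p a b c J l : ℤ) (D : ℝ) (Cl : ℤ → ℤ → ℤ → ℤ → ℝ → Prop)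
    (N X R : ℤ) (I : ℝ) : Prop :=
  Sd b D d ∧ Zp ds X R I ∧ Zy b ds D X R I ∧ I + J < D ∧
    KNo p a b l ds Cl (fun X R I => Zx ds X R I ∧ Zy b ds D X R I)

/-- no element of the zone with `x < 0`, none with `i + J < D`; minimal `y` -/
def FC (ds : ℤ) (d : Bool) (p a b c J l : ℤ) (D : ℝ) (Cl : ℤ → ℤ → ℤ → ℤ → ℝ → Prop)
    (N X R : ℤ) (I : ℝ) : Prop :=
  Sd b D d ∧ Zp ds X R I ∧ Zy b ds D X R I ∧ D < I + J ∧
    KMY p a b ds (P1 l p) Cl N (b + ds * (X + ds * I)) ∧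
    KNo p a b l ds Cl (fun X R I => Zx ds X R I ∧ Zy b ds D X R I) ∧
    KNo p a b l ds Cl (fun X R I => ZiD D J X R I ∧ Zy b ds D X R I)

/-- the same with the element of minimal `i` -/
def FI (ds : ℤ) (d : Bool) (p a b c J l : ℤ) (D : ℝ) (Cl : ℤ → ℤ → ℤ → ℤ → ℝ → Prop)
    (N X R : ℤ) (I : ℝ) : Prop :=
  Sd b D d ∧ Zp ds X R I ∧ Zy b ds D X R I ∧ D < I + J ∧
    KZ p a b l ds Cl (Zy b ds D) N (fun _ _ I => I) I ∧
    KNo p a b l ds Cl (fun X R I => Zx ds X R I ∧ Zy b ds D X R I) ∧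
    KNo p a b l ds Cl (fun X R I => ZiD D J X R I ∧ Zy b ds D X R I)

/-- minimal `i`, `i < J` -/
def FI0 (ds : ℤ) (d : Bool) (p a b c J l : ℤ) (D : ℝ) (Cl : ℤ → ℤ → ℤ → ℤ → ℝ → Prop)
    (N X R : ℤ) (I : ℝ) : Prop :=
  FI ds d p a b c J l D Cl N X R I ∧ I < J

/-- minimal `i`, `J < i` -/
def FI1 (ds : ℤ) (d : Bool) (p a b c J l : ℤ) (D : ℝ) (Cl : ℤ → ℤ → ℤ → ℤ → ℝ → Prop)
    (N X R : ℤ) (I : ℝ) : Prop :=
  FI ds d p a b c J l D Cl N X R I ∧ J < I ∧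
    KNo p a b l ds Cl (fun X R I => Zi J X R I ∧ Zy b ds D X R I)

theorem zcell_C {sc ds : ℤ} {Q : ℤ → ℤ → ℤ → Prop} {d : Bool} (h : ZCell sc ds Q (FI ds d)) :
    ZCell sc ds Q (FC ds d) := by
  intro p a b c J l q D dl Cl W hc h0 hb hQ hA hP hN hS N X R I hk hF
  obtain ⟨f1, f2, f3, f4, f5, f6, f7⟩ := hF
  obtain ⟨N', X', R', I', g1, g2, g3⟩ := hS.picki W.toBase (keep_Zy W.toBase)
    ⟨N, X, R, I, ⟨hk.cl, hk.N0, hk.Np, hk.NP, hk.bx⟩, f3⟩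
  refine h p a b c J l q D dl Cl W hc h0 hb hQ hA hP hN hS N' X' R' I' g1
    ⟨f1, ?_, g2, ?_, g3, f6, f7⟩
  · rcases lt_trichotomy ((X' : ℝ) + ds * I') 0 with h1 | h1 | h1
    · exact absurd (f6 g1.cl (by norm_num) g1.N0 g1.Np g1.NP g1.bx ⟨h1, g2⟩) id
    · exact absurd h1 (ne_z W.toBase g1.toKG)
    · exact h1
  · rcases lt_trichotomy (I' + J) D with h1 | h1 | h1
    · exact absurd (f7 g1.cl (by norm_num) g1.N0 g1.Np g1.NP g1.bx ⟨h1, g2⟩) id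
    · exact absurd (by rw [h1]; push_cast; ring)
        (Helper25.KG.ne_iJD W (Helper25.KG.KCl.of g1) 0)
    · exact h1

theorem zcell_I {sc ds : ℤ} {Q : ℤ → ℤ → ℤ → Prop} {d : Bool} (h0 : ZCell sc ds Q (FI0 ds d))
    (h1 : ZCell sc ds Q (FI1 ds d)) : ZCell sc ds Q (FI ds d) := by
  intro p a b c J l q D dl Cl W hc h0' hb hQ hA hP hN hS N X R I hk hF
  rcases lt_trichotomy I J with h2 | h2 | h2
  · exact h0 p a b c J l q D dl Cl W hc h0' hb hQ hA hP hN hS N X R I hk ⟨hF, h2⟩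
  · exact absurd (by rw [h2]; push_cast; ring) (Helper25.KG.ne_iJ W (Helper25.KG.KCl.of hk) 0)
  · refine h1 p a b c J l q D dl Cl W hc h0' hb hQ hA hP hN hS N X R I hk ⟨hF, h2, ?_⟩
    intro N' τ X' R' I' hC hτ k0 kp hP' hb' hz
    obtain ⟨f1, f2, f3, f4, f5, f6, f7⟩ := hF
    obtain ⟨I2, e1, e2, e3⟩ := hS.tr hC hτ k0 kp
    have k1 := keep_Zi (c := c) (J := J) (l := l) (q := q) (a := a) (Cl := Cl) W.toBase J _ _ _ _ e2 e3 hz.1
    have k2 := keep_Zy W.toBase _ _ _ _ e2 e3 hz.2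
    have k3 := f5 e1 (by norm_num) k0 kp hP' (Or.inl rfl) (hb'.tr e2 e3) k2
    exact absurd (lt_of_le_of_lt k3 k1) (not_lt.mpr h2.le)

/-- the part `b + |c| < a` (or another part) from the cells -/
theorem czs_of {sc ds : ℤ} {Q : ℤ → ℤ → ℤ → Prop}
    (hA1 : ZCell sc ds Q (FA ds true)) (hA2 : ZCell sc ds Q (FA ds false))
    (hB1 : ZCell sc ds Q (FB ds true)) (hB2 : ZCell sc ds Q (FB ds false))
    (hC1 : ZCell sc ds Q (FC ds true)) (hC2 : ZCell sc ds Q (FC ds false)) :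
    CZs sc ds Q := by
  intro p a b c J l q D dl Cl W hc h0 hb N X R I hk hM hy hAu hP hN hS hQ
  have hD : ∃ d, Sd b D d := by
    rcases lt_trichotomy D (2 * b) with h1 | h1 | h1
    · exact ⟨true, h1⟩
    · exact absurd (by rw [h1]; push_cast; ring) (hN (4 * b))
    · exact ⟨false, h1⟩
  obtain ⟨d, hd⟩ := hD
  by_cases hx : ∃ N X R I, KG p a b ds (P1 l p) Cl N X R I ∧ (Zx ds X R I ∧ Zy b ds D X R I)
  · obtain ⟨N', X', R', I', g1, g2, g3⟩ := hS.picks W.toBase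
      (keep_Zx.and (keep_Zy W.toBase)) 1 (Or.inl rfl) hx
    cases d
    · exact hA2 p a b c J l q D dl Cl W hc h0 hb hQ hAu hP hN hS N' X' R' I' g1 ⟨hd, g2.1, g2.2, g3⟩
    · exact hA1 p a b c J l q D dl Cl W hc h0 hb hQ hAu hP hN hS N' X' R' I' g1 ⟨hd, g2.1, g2.2, g3⟩
  have hno : KNo p a b l ds Cl (fun X R I => Zx ds X R I ∧ Zy b ds D X R I) :=
    hS.no (keep_Zx.and (keep_Zy W.toBase)) hx
  have hpos : ∀ {N X R : ℤ} {I : ℝ}, KG p a b ds (P1 l p) Cl N X R I → Zy b ds D X R I →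
      Zp ds X R I := by
    intro N X R I g1 g2
    rcases lt_trichotomy ((X : ℝ) + ds * I) 0 with h1 | h1 | h1
    · exact absurd (hno g1.cl (by norm_num) g1.N0 g1.Np g1.NP g1.bx ⟨h1, g2⟩) id
    · exact absurd h1 (ne_z W.toBase g1)
    · exact h1
  by_cases hi : ∃ N X R I, KG p a b ds (P1 l p) Cl N X R I ∧ (ZiD D J X R I ∧ Zy b ds D X R I)
  · obtain ⟨N', X', R', I', g1, g2, g3⟩ := hS.picks W.toBase
      ((keep_ZiD W.toBase J).and (keep_Zy W.toBase)) 1 (Or.inl rfl) hi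
    have g4 := hpos g1.toKG g2.2
    cases d
    · exact hB2 p a b c J l q D dl Cl W hc h0 hb hQ hAu hP hN hS N' X' R' I' g1
        ⟨hd, g4, g2.2, g2.1, hno⟩
    · exact hB1 p a b c J l q D dl Cl W hc h0 hb hQ hAu hP hN hS N' X' R' I' g1
        ⟨hd, g4, g2.2, g2.1, hno⟩
  have hni : KNo p a b l ds Cl (fun X R I => ZiD D J X R I ∧ Zy b ds D X R I) :=
    hS.no ((keep_ZiD W.toBase J).and (keep_Zy W.toBase)) hi
  have hz : Zy b ds D X R I := hy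
  have hiJ : D < I + J := by
    rcases lt_trichotomy (I + J) D with h1 | h1 | h1
    · exact absurd ⟨N, X, R, I, hk.toKG, h1, hz⟩ hi
    · exact absurd (by rw [h1]; push_cast; ring)
        (Helper25.KG.ne_iJD W (Helper25.KG.KCl.of hk) 0)
    · exact h1
  cases d
  · exact hC2 p a b c J l q D dl Cl W hc h0 hb hQ hAu hP hN hS N X R I hk
      ⟨hd, hpos hk.toKG hz, hz, hiJ, hM, hno, hni⟩
  · exact hC1 p a b c J l q D dl Cl W hc h0 hb hQ hAu hP hN hS N X R I hk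
      ⟨hd, hpos hk.toKG hz, hz, hiJ, hM, hno, hni⟩

end Helper25.KW
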