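import Pool.Agent.Helper25.KW.S1L
import Pool.Agent.Helper25.KG.C4

set_option autoImplicit false
set_option linter.unusedSectionVars false
set_option linter.unusedVariables false

/-!
# All elements of the zone with `x > 0`, `i > J`, `i > D - J`: at most two elements
-/

namespace Helper25.KW

open Helper11.N1 Helper55.KE Helper25.KG

/-- one element -/
def FU (ds : ℤ) (d : Bool) (p a b c J l : ℤ) (D : ℝ) (Cl : ℤ → ℤ → ℤ → ℤ → ℝ → Prop)
    (N X R : ℤ) (I : ℝ) : Prop :=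
  Sd b D d ∧ Zp ds X R I ∧ Zy b ds D X R I ∧ D < I + J ∧ J < I ∧
    KU p a b l ds Cl (Zy b ds D) N ∧
    KNo p a b l ds Cl (fun X R I => Zx ds X R I ∧ Zy b ds D X R I) ∧
    KNo p a b l ds Cl (fun X R I => ZiD D J X R I ∧ Zy b ds D X R I) ∧
    KNo p a b l ds Cl (fun X R I => Zi J X R I ∧ Zy b ds D X R I)

/-- two elements, `s < 0` and `s' > 0`, `s' - s > a` -/
def FV (ds : ℤ) (d : Bool) (p a b c J l : ℤ) (D : ℝ) (Cl : ℤ → ℤ → ℤ → ℤ → ℝ → Prop)
    (N X R : ℤ) (I : ℝ) : Prop :=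
  Sd b D d ∧ Zp ds X R I ∧ Zy b ds D X R I ∧ D < I + J ∧ J < I ∧ Zs ds X R I ∧
    ∃ (Nw Xw Rw : ℤ) (Iw : ℝ), KGF p a b ds D (P1 l p) Cl Nw Xw Rw Iw ∧ N ≠ Nw ∧
    Zp ds Xw Rw Iw ∧ Zy b ds D Xw Rw Iw ∧ D < Iw + J ∧ J < Iw ∧ Zsp ds Xw Rw Iw ∧
    a + (X + ds * I + R) < Xw + ds * Iw + Rw ∧
    KU2 p a b l ds Cl (Zy b ds D) N Nw ∧
    KNo p a b l ds Cl (fun X R I => Zx ds X R I ∧ Zy b ds D X R I) ∧
    KNo p a b l ds Cl (fun X R I => ZiD D J X R I ∧ Zy b ds D X R I) ∧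
    KNo p a b l ds Cl (fun X R I => Zi J X R I ∧ Zy b ds D X R I)

section

variable {p a b c J ds l q : ℤ} {D dl : ℝ} {Cl : ℤ → ℤ → ℤ → ℤ → ℝ → Prop}

theorem kgf_of (W : Base p a b c J ds l q D dl Cl) {N X R : ℤ} {I : ℝ}
    (h : KG p a b ds (P1 l p) Cl N X R I) : KGF p a b ds D (P1 l p) Cl N X R I := by
  refine ⟨h, (W.pos0 h.cl).2 h.N0, (W.ltp0 h.cl).2 h.Np, ?_⟩
  intro h0
  have h1 := (W.dvd h.cl).2 (by rw [h0]; exact dvd_zero p)
  have h2 := Int.le_of_dvd h.N0 h1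
  have h3 := h.Np
  omega

/-- difference of two elements -/
theorem zdif (W : World p a b c J ds l q D dl Cl) {d : Bool} (hd : Sd b D d)
    (hs : ds = 1 ∨ d = false)
    (h1 : KNo p a b l ds Cl (fun X R I => Zx ds X R I ∧ Zy b ds D X R I))
    (h2 : KNo p a b l ds Cl (fun X R I => ZiD D J X R I ∧ Zy b ds D X R I))
    (h3 : KNo p a b l ds Cl (fun X R I => Zi J X R I ∧ Zy b ds D X R I))
    {N X R N' X' R' : ℤ} {I I' : ℝ}
    (g : KG p a b ds (P1 l p) Cl N X R I) (g' : KG p a b ds (P1 l p) Cl N' X' R' I')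
    (z : Zy b ds D X R I) (z' : Zy b ds D X' R' I') (hN : N' < N)
    (x : Zp ds X R I) (x' : Zp ds X' R' I') (i' : J < I') (j' : D < I' + J)
    (s1 : (X + ds * I + R : ℝ) - (X' + ds * I' + R') < a)
    (s2 : (X' + ds * I' + R' : ℝ) - (X + ds * I + R) < a) : False := by
  have hd' := W.add g.cl (W.neg g'.cl)
  rw [neg_zero, add_zero] at hd'
  obtain ⟨b1, b2, b3, b4⟩ := g.bx
  obtain ⟨c1, c2, c3, c4⟩ := g'.bx
  have hI := (W.ltp0 g.cl).2 g.Np
  unfold Zp at x x'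
  have g0 := g.Np
  have g0' := g'.N0
  refine h3 (N := N + -N') (τ := 0) (X := X + -X') (R := R + -R') (I := I + -I') hd'
    (by norm_num) (by omega) (by omega) ⟨?_, ?_⟩ ⟨?_, ?_, ?_, ?_⟩ ⟨?_, ?_⟩
  · intro h4
    have h5 := W.add (W.add g'.cl W.cl) (W.neg W.cp)
    have h6 := W.pos h5 (by norm_num) (by linarith)
    omega
  · intro h4
    have h5 := W.add g'.cl (W.neg W.cl)
    have h6 := W.pos h5 (by norm_num) (by linarith)
    omega
  · push_cast
    linarith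
  · push_cast
    linarith
  · push_cast
    linarith
  · push_cast
    linarith
  · show I + -I' < J
    linarith
  · unfold Zy at *
    push_cast
    rcases hs with rfl | rfl
    · push_cast at *
      linarith
    · rcases W.hds with ⟨rfl, _⟩ | ⟨rfl, _⟩
      · push_cast at *
        linarith
      · simp only [Sd] at hd
        push_cast at *
        linarith

/-- facts on the elements -/
theorem zfac (W : World p a b c J ds l q D dl Cl)
    (h1 : KNo p a b l ds Cl (fun X R I => Zx ds X R I ∧ Zy b ds D X R I))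
    (h2 : KNo p a b l ds Cl (fun X R I => ZiD D J X R I ∧ Zy b ds D X R I))
    (h3 : KNo p a b l ds Cl (fun X R I => Zi J X R I ∧ Zy b ds D X R I))
    {N X R : ℤ} {I : ℝ} (g : KG p a b ds (P1 l p) Cl N X R I) (z : Zy b ds D X R I) :
    Zp ds X R I ∧ D < I + J ∧ J < I := by
  have hk := KCl.of (kgf_of W.toBase g)
  refine ⟨?_, ?_, ?_⟩
  · rcases lt_trichotomy ((X : ℝ) + ds * I) 0 with h | h | h
    · exact absurd (h1 g.cl (by norm_num) g.N0 g.Np g.NP g.bx ⟨h, z⟩) id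
    · exact absurd h (ne_z W.toBase g)
    · exact h
  · rcases lt_trichotomy (I + J) D with h | h | h
    · exact absurd (h2 g.cl (by norm_num) g.N0 g.Np g.NP g.bx ⟨h, z⟩) id
    · exact absurd (by rw [h]; push_cast; ring) (Helper25.KG.ne_iJD W hk 0)
    · exact h
  · rcases lt_trichotomy I J with h | h | h
    · exact absurd (h3 g.cl (by norm_num) g.N0 g.Np g.NP g.bx ⟨h, z⟩) id
    · exact absurd (by rw [h]; push_cast; ring) (Helper25.KG.ne_iJ W hk 0)
    · exact h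

/-- two different elements: the distance of the `s` is larger than `a` -/
theorem zdist (W : World p a b c J ds l q D dl Cl) {d : Bool} (hd : Sd b D d)
    (hs : ds = 1 ∨ d = false)
    (h1 : KNo p a b l ds Cl (fun X R I => Zx ds X R I ∧ Zy b ds D X R I))
    (h2 : KNo p a b l ds Cl (fun X R I => ZiD D J X R I ∧ Zy b ds D X R I))
    (h3 : KNo p a b l ds Cl (fun X R I => Zi J X R I ∧ Zy b ds D X R I))
    {N X R N' X' R' : ℤ} {I I' : ℝ}
    (g : KG p a b ds (P1 l p) Cl N X R I) (g' : KG p a b ds (P1 l p) Cl N' X' R' I')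
    (z : Zy b ds D X R I) (z' : Zy b ds D X' R' I') (hN : N ≠ N') :
    (a : ℝ) + (X + ds * I + R) < X' + ds * I' + R' ∨
      (a : ℝ) + (X' + ds * I' + R') < X + ds * I + R := by
  by_contra hcon
  push Not at hcon
  obtain ⟨e1, e2⟩ := hcon
  obtain ⟨x, j, i⟩ := zfac W h1 h2 h3 g z
  obtain ⟨x', j', i'⟩ := zfac W h1 h2 h3 g' z'
  have hnd : ∀ m : ℤ, I - I' ≠ m :=
    W.nint g.cl g'.cl (by norm_num) g.N0 g.Np g'.N0.le g'.Np.le (by
      rw [sub_self, zero_mul]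
      omega)
  have hdd : (ds : ℝ) * ds = 1 := by
    rcases W.hds with ⟨rfl, _⟩ | ⟨rfl, _⟩ <;> norm_num
  have e3 : (a : ℝ) + (X + ds * I + R) ≠ X' + ds * I' + R' := by
    intro h
    apply hnd (ds * (X' + R' - X - R - a))
    push_cast
    linear_combination (ds : ℝ) * h - (I - I') * hdd
  have e4 : (a : ℝ) + (X' + ds * I' + R') ≠ X + ds * I + R := by
    intro h
    apply hnd (ds * (X' + R' - X - R + a))
    push_cast
    linear_combination -(ds : ℝ) * h - (I - I') * hdd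
  have f1 := lt_of_le_of_ne e1 e3.symm
  have f2 := lt_of_le_of_ne e2 e4.symm
  rcases lt_or_gt_of_ne hN with h | h
  · exact zdif W hd hs h1 h2 h3 g' g z' z h x' x i j (by linarith) (by linarith)
  · exact zdif W hd hs h1 h2 h3 g g' z z' h x x' i' j' (by linarith) (by linarith)

theorem zcell_U {sc ds : ℤ} {Q : ℤ → ℤ → ℤ → Prop} {d : Bool} (hs : ds = 1 ∨ d = false)
    (hU : ZCell sc ds Q (FU ds d)) (hV : ZCell sc ds Q (FV ds d)) :
    ZCell sc ds Q (FI1 ds d) := by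
  intro p a b c J l q D dl Cl W hc h0' hb hQ hA hP hN hS N X R I hk hF
  obtain ⟨⟨f1, f2, f3, f4, f5, f6, f7⟩, f8, f9⟩ := hF
  by_cases hw : ∃ N' X' R' I', KG p a b ds (P1 l p) Cl N' X' R' I' ∧ Zy b ds D X' R' I' ∧ N ≠ N'
  · obtain ⟨N', X', R', I', g1, g2, g3⟩ := hw
    -- two elements, in the right order
    have key : ∀ {N X R N' X' R' : ℤ} {I I' : ℝ}, KG p a b ds (P1 l p) Cl N X R I →
        KG p a b ds (P1 l p) Cl N' X' R' I' → Zy b ds D X R I → Zy b ds D X' R' I' →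
        N ≠ N' → (a : ℝ) + (X + ds * I + R) < X' + ds * I' + R' → False := by
      intro N X R N' X' R' I I' g g' z z' hne hlt
      obtain ⟨x, j, i⟩ := zfac W f6 f7 f9 g z
      obtain ⟨x', j', i'⟩ := zfac W f6 f7 f9 g' z'
      obtain ⟨b1, b2, b3, b4⟩ := g.bx
      obtain ⟨c1, c2, c3, c4⟩ := g'.bx
      refine hV p a b c J l q D dl Cl W hc h0' hb hQ hA hP hN hS N X R I (kgf_of W.toBase g)
        ⟨f1, x, z, j, i, ?_, N', X', R', I', kgf_of W.toBase g', hne, x', z', j', i', ?_, hlt,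
        ?_, f6, f7, f9⟩
      · unfold Zs
        linarith
      · unfold Zsp
        linarith
      · intro M τ Y T K hC hτ k0 kp hP' hb' hz
        obtain ⟨K2, t1, t2, t3⟩ := hS.tr hC hτ k0 kp
        have u1 : KG p a b ds (P1 l p) Cl M Y T K2 := ⟨t1, k0, kp, hP', hb'.tr t2 t3⟩
        have u2 := keep_Zy W.toBase _ _ _ _ t2 t3 hz
        by_contra hcon
        push Not at hcon
        obtain ⟨d1, d2, d3, d4⟩ := u1.bx
        rcases zdist W f1 hs f6 f7 f9 u1 g u2 z hcon.1 with v1 | v1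
        · linarith
        · rcases zdist W f1 hs f6 f7 f9 u1 g' u2 z' hcon.2 with v2 | v2
          · linarith
          · linarith
    rcases zdist W f1 hs f6 f7 f9 hk.toKG g1 f3 g2 g3 with v | v
    · exact key hk.toKG g1 f3 g2 g3 v
    · exact key g1 hk.toKG g2 f3 (Ne.symm g3) v
  · refine hU p a b c J l q D dl Cl W hc h0' hb hQ hA hP hN hS N X R I hk
      ⟨f1, f2, f3, f4, f8, ?_, f6, f7, f9⟩
    intro M τ Y T K hC hτ k0 kp hP' hb' hz
    obtain ⟨K2, t1, t2, t3⟩ := hS.tr hC hτ k0 kp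
    by_contra hcon
    exact hw ⟨M, Y, T, K2, ⟨t1, k0, kp, hP', hb'.tr t2 t3⟩, keep_Zy W.toBase _ _ _ _ t2 t3 hz,
      fun h => hcon h.symm⟩

theorem _root_.Helper25.KG.KU.mono {Z Z' : ℤ → ℤ → ℝ → Prop} {Nk : ℤ} (h : KU p a b l ds Cl Z Nk)
    (hZ : ∀ X R I, Bx a b ds X R I → Z' X R I → Z X R I) : KU p a b l ds Cl Z' Nk :=
  fun h1 h2 h3 h4 h5 h6 h7 => h h1 h2 h3 h4 h5 h6 (hZ _ _ _ h6 h7)

theorem _root_.Helper25.KG.KU2.mono {Z Z' : ℤ → ℤ → ℝ → Prop} {Nk Nw : ℤ} (h : KU2 p a b l ds Cl Z Nk Nw)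
    (hZ : ∀ X R I, Bx a b ds X R I → Z' X R I → Z X R I) : KU2 p a b l ds Cl Z' Nk Nw :=
  fun h1 h2 h3 h4 h5 h6 h7 => h h1 h2 h3 h4 h5 h6 (hZ _ _ _ h6 h7)

end

end Helper25.KW
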