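import Pool.Agent.Helper25.KW.S1K3
import Pool.Agent.Helper25.KG.C5

set_option autoImplicit false
set_option linter.unusedSectionVars false
set_option linter.unusedVariables false

/-!
# `ds = 1`, all elements of the zone with `x > 0`, `i > D - J`; minimal `i`, `i < J`
-/

namespace Helper25.KW

open Helper11.N1 Helper55.KE Helper25.KG

/-- one element, `2 i > D` -/
def FU0 (ds : ℤ) (d : Bool) (p a b c J l : ℤ) (D : ℝ) (Cl : ℤ → ℤ → ℤ → ℤ → ℝ → Prop)
    (N X R : ℤ) (I : ℝ) : Prop :=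
  Sd b D d ∧ Zp ds X R I ∧ Zy b ds D X R I ∧ D < I + J ∧ I < J ∧ D < 2 * I ∧
    KU p a b l ds Cl (Zy b ds D) N ∧
    KNo p a b l ds Cl (fun X R I => Zx ds X R I ∧ Zy b ds D X R I) ∧
    KNo p a b l ds Cl (fun X R I => ZiD D J X R I ∧ Zy b ds D X R I)

/-- the order of the two elements -/
def So (a ds : ℤ) (X R : ℤ) (I : ℝ) (Xw Rw : ℤ) (Iw : ℝ) : Bool → Prop
  | true => Zs ds X R I ∧ Zsp ds Xw Rw Iw ∧ a + (X + ds * I + R) < Xw + ds * Iw + Rw
  | false => Zsp ds X R I ∧ Zs ds Xw Rw Iw ∧ a + (Xw + ds * Iw + Rw) < X + ds * I + R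

/-- two elements, `D < 2 i < 2 i'` -/
def FV0 (ds : ℤ) (d o : Bool) (p a b c J l : ℤ) (D : ℝ) (Cl : ℤ → ℤ → ℤ → ℤ → ℝ → Prop)
    (N X R : ℤ) (I : ℝ) : Prop :=
  Sd b D d ∧ Zp ds X R I ∧ Zy b ds D X R I ∧ D < I + J ∧ I < J ∧ D < 2 * I ∧
    ∃ (Nw Xw Rw : ℤ) (Iw : ℝ), KGF p a b ds D (P1 l p) Cl Nw Xw Rw Iw ∧ N ≠ Nw ∧
    Zp ds Xw Rw Iw ∧ Zy b ds D Xw Rw Iw ∧ D < Iw + J ∧ I < Iw ∧ D < 2 * Iw ∧
    So a ds X R I Xw Rw Iw o ∧
    KU2 p a b l ds Cl (Zy b ds D) N Nw ∧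
    KNo p a b l ds Cl (fun X R I => Zx ds X R I ∧ Zy b ds D X R I) ∧
    KNo p a b l ds Cl (fun X R I => ZiD D J X R I ∧ Zy b ds D X R I)

/-- minimal `i`, `i < J`, `2 i < D` -/
def FIh (ds : ℤ) (d : Bool) (p a b c J l : ℤ) (D : ℝ) (Cl : ℤ → ℤ → ℤ → ℤ → ℝ → Prop)
    (N X R : ℤ) (I : ℝ) : Prop :=
  FI0 ds d p a b c J l D Cl N X R I ∧ 2 * I < D

section

variable {p a b c J l q : ℤ} {D dl : ℝ} {Cl : ℤ → ℤ → ℤ → ℤ → ℝ → Prop}

/-- facts on the elements -/
theorem zfac0 (W : World p a b c J 1 l q D dl Cl)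
    (h1 : KNo p a b l 1 Cl (fun X R I => Zx 1 X R I ∧ Zy b 1 D X R I))
    (h2 : KNo p a b l 1 Cl (fun X R I => ZiD D J X R I ∧ Zy b 1 D X R I))
    {N X R : ℤ} {I : ℝ} (g : KG p a b 1 (P1 l p) Cl N X R I) (z : Zy b 1 D X R I) :
    Zp 1 X R I ∧ D < I + J := by
  have hk := KCl.of (kgf_of W.toBase g)
  refine ⟨?_, ?_⟩
  · rcases lt_trichotomy ((X : ℝ) + (1 : ℤ) * I) 0 with h | h | h
    · exact absurd (h1 g.cl (by norm_num) g.N0 g.Np g.NP g.bx ⟨h, z⟩) id
    · exact absurd h (ne_z W.toBase g)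
    · exact h
  · rcases lt_trichotomy (I + J) D with h | h | h
    · exact absurd (h2 g.cl (by norm_num) g.N0 g.Np g.NP g.bx ⟨h, z⟩) id
    · exact absurd (by rw [h]; push_cast; ring) (Helper25.KG.ne_iJD W hk 0)
    · exact h

/-- the bound for the zone: `x < m`, `m + D + b + 1 / 4 < p` -/
theorem zone_lt (W : World p a b c J 1 l q D dl Cl) (hP : Phys p J D) {d : Bool} (hd : Sd b D d)
    (hJ : D < 2 * J) {X R : ℤ} {I : ℝ} (g : Bx a b 1 X R I) (z : Zy b 1 D X R I)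
    (x : Zp 1 X R I) : (X + I : ℝ) + D + b + 1 / 4 < p := by
  obtain ⟨b1, b2, b3, b4⟩ := g
  unfold Zy at z
  unfold Zp at x
  push_cast at *
  have hb : (2 : ℝ) ≤ b := by exact_mod_cast W.hb
  have hb' : 2 * (b : ℝ) < p := by exact_mod_cast W.h2b
  rcases hP with ⟨h1, h2⟩ | ⟨h1, h2⟩
  · exfalso
    have h3 : (J : ℝ) = 1 := by exact_mod_cast h1
    linarith
  · cases d
    · simp only [Sd] at hd
      linarith
    · simp only [Sd] at hd
      linarith

/-- difference of two elements -/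
theorem cdif (W : World p a b c J 1 l q D dl Cl) (hA : Aux p a b 1 D Cl) (hP : Phys p J D)
    {d : Bool} (hd : Sd b D d) (hJ : D < 2 * J)
    {N X R N' X' R' : ℤ} {I I' : ℝ}
    (g : KG p a b 1 (P1 l p) Cl N X R I) (g' : KG p a b 1 (P1 l p) Cl N' X' R' I')
    (z : Zy b 1 D X R I) (z' : Zy b 1 D X' R' I') (hN : N' < N)
    (x : Zp 1 X R I) (x' : Zp 1 X' R' I') (j' : D < I' + J)
    (s1 : (X + I + R : ℝ) - (X' + I' + R') < a)
    (s2 : (X' + I' + R' : ℝ) - (X + I + R) < a) :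
    KG p a b 1 (P1 l p) Cl (N + -N') (X + -X') (R + -R') (I + -I') ∧
      Zy b 1 D (X + -X') (R + -R') (I + -I') := by
  have hd' := W.add g.cl (W.neg g'.cl)
  rw [neg_zero, add_zero] at hd'
  have m1 := zone_lt W hP hd hJ g.bx z x
  have m2 := zone_lt W hP hd hJ g'.bx z' x'
  obtain ⟨b1, b2, b3, b4⟩ := g.bx
  obtain ⟨c1, c2, c3, c4⟩ := g'.bx
  unfold Zp at x x'
  have g0 := g.Np
  have g0' := g'.N0
  have hD0 : (0 : ℝ) < D := by
    have h9 := W.hJD
    have h10 : (1 : ℝ) ≤ J := by exact_mod_cast W.hJ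
    linarith
  push_cast at b1 b2 b3 b4 c1 c2 c3 c4 x x'
  refine ⟨⟨hd', by omega, by omega, ⟨?_, ?_⟩, ?_, ?_, ?_, ?_⟩, ?_⟩
  · intro h4
    have h5 := W.add (W.add g'.cl W.cl) (W.neg W.cp)
    have h6 := W.pos h5 (by norm_num) (by linarith)
    omega
  · intro h4
    have h5 := W.add (W.add g.cl W.cl) (W.neg g'.cl)
    have e0 : N + l + -N' = 1 * p := by omega
    rw [e0] at h5
    have h6 := shift W.toBase hA h5
    have e1 : (0 : ℤ) + 1 + -0 = 1 := by norm_num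
    rw [e1] at h6
    push_cast at h6
    rw [abs_one, one_mul] at h6
    have h7 : |I + J + -I' - D| ≤ 1 / 4 := by linarith
    rw [abs_le] at h7
    obtain ⟨m, hm⟩ := W.dvX h5 (by rw [one_mul])
    have hmR : (X : ℝ) + (-b - J) - X' = p * m := by
      have : X + (-b - 1 * J) + -X' = p * m := hm
      have h8 : ((X + (-b - 1 * J) + -X' : ℤ) : ℝ) = ((p * m : ℤ) : ℝ) := by rw [this]
      push_cast at h8
      linarith
    have hp0 : (0 : ℝ) < p := by
      have h9 := W.hD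
      linarith
    have hb0 : (0 : ℝ) ≤ b := by
      have : (2 : ℝ) ≤ b := by exact_mod_cast W.hb
      linarith
    have hb2 : 2 * (b : ℝ) < p := by exact_mod_cast W.h2b
    have hD2 := W.hD
    rcases lt_or_ge m 0 with h8 | h8
    · have h9 : (m : ℝ) ≤ -1 := by exact_mod_cast (by omega : m ≤ -1)
      have h10 : (p : ℝ) * m ≤ -p := by nlinarith
      linarith
    · have h9 : (0 : ℝ) ≤ m := by exact_mod_cast h8
      have h10 : 0 ≤ (p : ℝ) * m := mul_nonneg hp0.le h9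
      have h11 : (1 : ℝ) < D := by
        have h12 := W.hJD
        have h13 : (1 : ℝ) ≤ J := by exact_mod_cast W.hJ
        linarith
      linarith
  · push_cast
    linarith
  · push_cast
    linarith
  · push_cast
    linarith
  · push_cast
    linarith
  · unfold Zy at *
    push_cast at *
    linarith

/-- with the minimal `i > D / 2`: two different elements have distance `> a` of the `s` -/
theorem cdist (W : World p a b c J 1 l q D dl Cl) (hA : Aux p a b 1 D Cl) (hP : Phys p J D)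
    {d : Bool} (hd : Sd b D d) {m : ℝ} (hmJ : m < J) (hm : D < 2 * m)
    (h1 : KNo p a b l 1 Cl (fun X R I => Zx 1 X R I ∧ Zy b 1 D X R I))
    (h2 : KNo p a b l 1 Cl (fun X R I => ZiD D J X R I ∧ Zy b 1 D X R I))
    (hmin : ∀ {N X R : ℤ} {I : ℝ}, KG p a b 1 (P1 l p) Cl N X R I → Zy b 1 D X R I → m ≤ I)
    {N X R N' X' R' : ℤ} {I I' : ℝ}
    (g : KG p a b 1 (P1 l p) Cl N X R I) (g' : KG p a b 1 (P1 l p) Cl N' X' R' I')
    (z : Zy b 1 D X R I) (z' : Zy b 1 D X' R' I') (hN : N ≠ N') :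
    (a : ℝ) + (X + I + R) < X' + I' + R' ∨ (a : ℝ) + (X' + I' + R') < X + I + R := by
  by_contra hcon
  push Not at hcon
  obtain ⟨e1, e2⟩ := hcon
  obtain ⟨x, j⟩ := zfac0 W h1 h2 g z
  obtain ⟨x', j'⟩ := zfac0 W h1 h2 g' z'
  have hnd : ∀ m : ℤ, I - I' ≠ m :=
    W.nint g.cl g'.cl (by norm_num) g.N0 g.Np g'.N0.le g'.Np.le (by
      rw [sub_self, zero_mul]
      omega)
  have e3 : (a : ℝ) + (X + I + R) ≠ X' + I' + R' := by
    intro h
    apply hnd (X' + R' - X - R - a)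
    push_cast
    linear_combination h
  have e4 : (a : ℝ) + (X' + I' + R') ≠ X + I + R := by
    intro h
    apply hnd (X' + R' - X - R + a)
    push_cast
    linear_combination -h
  have f1 := lt_of_le_of_ne e1 e3.symm
  have f2 := lt_of_le_of_ne e2 e4.symm
  have hI := (W.ltp0 g.cl).2 g.Np
  have hI' := (W.ltp0 g'.cl).2 g'.Np
  have n1 := hmin g z
  have n2 := hmin g' z'
  rcases lt_or_gt_of_ne hN with h | h
  · obtain ⟨k1, k2⟩ := cdif W hA hP hd (by linarith) g' g z' z h x' x j (by linarith)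
      (by linarith)
    have := hmin k1 k2
    linarith
  · obtain ⟨k1, k2⟩ := cdif W hA hP hd (by linarith) g g' z z' h x x' j' (by linarith)
      (by linarith)
    have := hmin k1 k2
    linarith

/-- `2 i ≠ D` for elements of the zone -/
theorem ne_half (W : World p a b c J 1 l q D dl Cl) {d : Bool} (hd : Sd b D d)
    {N X R : ℤ} {I : ℝ} (g : KG p a b 1 (P1 l p) Cl N X R I) (z : Zy b 1 D X R I)
    (x : Zp 1 X R I) : 2 * I ≠ D := by
  intro h
  have h1 := W.add (W.add g.cl g.cl) (W.neg W.cp)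
  have h2 : I + I + -D = 0 := by linarith
  rw [h2] at h1
  have h3 : N + N + -p = 0 := by
    by_contra h4
    exact W.ne0 h1 (by norm_num) (Or.inl h4) rfl
  obtain ⟨m, hm⟩ := W.dvX h1 (by rw [h3]; exact dvd_zero p)
  have hmR : 2 * (X : ℝ) = p * m := by
    have h8 : ((X + X + -0 : ℤ) : ℝ) = ((p * m : ℤ) : ℝ) := by rw [hm]
    push_cast at h8
    linarith
  obtain ⟨b1, b2, b3, b4⟩ := g.bx
  unfold Zy at z
  unfold Zp at x
  push_cast at *
  have hp0 : (0 : ℝ) < p := by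
    have h9 := W.hD
    have h10 := W.hJD
    have h13 : (1 : ℝ) ≤ J := by exact_mod_cast W.hJ
    linarith
  have hb2 : 2 * (b : ℝ) < p := by exact_mod_cast W.h2b
  have hD2 := W.hD
  have h10 := W.hJD
  have h13 : (1 : ℝ) ≤ J := by exact_mod_cast W.hJ
  rcases lt_trichotomy m 0 with h8 | h8 | h8
  · have h9 : (m : ℝ) ≤ -1 := by exact_mod_cast (by omega : m ≤ -1)
    have h10 : (p : ℝ) * m ≤ -p := by nlinarith
    linarith
  · subst h8
    push_cast at hmR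
    cases d
    · simp only [Sd] at hd
      linarith
    · simp only [Sd] at hd
      linarith
  · have h9 : (1 : ℝ) ≤ m := by exact_mod_cast h8
    have h10 : (p : ℝ) ≤ p * m := by nlinarith
    linarith

theorem zcellx_I0 {sc : ℤ} {Q : ℤ → ℤ → ℤ → Prop} {d : Bool}
    (hU : ZCellX sc 1 Q (FU0 1 d)) (hV : ZCellX sc 1 Q (FV0 1 d true))
    (hV' : ZCellX sc 1 Q (FV0 1 d false)) (hH : ZCellX sc 1 Q (FIh 1 d)) :
    ZCellX sc 1 Q (FI0 1 d) := by
  intro p a b c J l q D dl Cl W hc h0' hb hQ hA hP hN hS hX N X R I hk hF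
  have hF' := hF
  obtain ⟨⟨f1, f2, f3, f4, f5, f6, f7⟩, f8⟩ := hF
  rcases lt_trichotomy (2 * I) D with h2 | h2 | h2
  · exact hH p a b c J l q D dl Cl W hc h0' hb hQ hA hP hN hS hX N X R I hk ⟨hF', h2⟩
  · exact absurd h2 (ne_half W f1 hk.toKG f3 f2)
  have hmin : ∀ {N X R : ℤ} {I' : ℝ}, KG p a b 1 (P1 l p) Cl N X R I' → Zy b 1 D X R I' →
      I ≤ I' := fun g z => f5 g.cl (by norm_num) g.N0 g.Np g.NP (Or.inl rfl) g.bx z
  by_cases hw : ∃ N' X' R' I', KG p a b 1 (P1 l p) Cl N' X' R' I' ∧ Zy b 1 D X' R' I' ∧ N ≠ N'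
  · obtain ⟨N', X', R', I', g1, g2, g3⟩ := hw
    obtain ⟨x', j'⟩ := zfac0 W f6 f7 g1 g2
    have i1 := hmin g1 g2
    have i2 : I < I' := by
      refine lt_of_le_of_ne i1 ?_
      intro h
      have h3 := W.add hk.cl (W.neg g1.cl)
      exact W.ne0 h3 (by norm_num) (Or.inl (by omega)) (by rw [h]; ring)
    have hKU : KU2 p a b l 1 Cl (Zy b 1 D) N N' := by
      intro M τ Y T K hC hτ k0 kp hP' hb' hz
      obtain ⟨K2, t1, t2, t3⟩ := hS.tr hC hτ k0 kp
      have u1 : KG p a b 1 (P1 l p) Cl M Y T K2 := ⟨t1, k0, kp, hP', hb'.tr t2 t3⟩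
      have u2 := keep_Zy W.toBase _ _ _ _ t2 t3 hz
      by_contra hcon
      push Not at hcon
      obtain ⟨b1, b2, b3, b4⟩ := hk.bx
      obtain ⟨c1, c2, c3, c4⟩ := g1.bx
      obtain ⟨d1, d2, d3, d4⟩ := u1.bx
      push_cast at b1 b2 b3 b4 c1 c2 c3 c4 d1 d2 d3 d4
      rcases cdist W hA hP f1 f8 h2 f6 f7 hmin u1 hk.toKG u2 f3 hcon.1 with v1 | v1 <;>
        rcases cdist W hA hP f1 f8 h2 f6 f7 hmin u1 g1 u2 g2 hcon.2 with v2 | v2 <;>
        rcases cdist W hA hP f1 f8 h2 f6 f7 hmin hk.toKG g1 f3 g2 g3 with v3 | v3 <;>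
        linarith
    obtain ⟨b1, b2, b3, b4⟩ := hk.bx
    obtain ⟨c1, c2, c3, c4⟩ := g1.bx
    rcases cdist W hA hP f1 f8 h2 f6 f7 hmin hk.toKG g1 f3 g2 g3 with v | v
    · refine hV p a b c J l q D dl Cl W hc h0' hb hQ hA hP hN hS hX N X R I hk
        ⟨f1, f2, f3, f4, f8, h2, N', X', R', I', kgf_of W.toBase g1, g3, x', g2, j', i2,
        by linarith, ⟨?_, ?_, ?_⟩, hKU, f6, f7⟩
      · unfold Zs
        push_cast at *
        linarith
      · unfold Zsp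
        push_cast at *
        linarith
      · push_cast
        linarith
    · refine hV' p a b c J l q D dl Cl W hc h0' hb hQ hA hP hN hS hX N X R I hk
        ⟨f1, f2, f3, f4, f8, h2, N', X', R', I', kgf_of W.toBase g1, g3, x', g2, j', i2,
        by linarith, ⟨?_, ?_, ?_⟩, hKU, f6, f7⟩
      · unfold Zsp
        push_cast at *
        linarith
      · unfold Zs
        push_cast at *
        linarith
      · push_cast
        linarith
  · refine hU p a b c J l q D dl Cl W hc h0' hb hQ hA hP hN hS hX N X R I hk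
      ⟨f1, f2, f3, f4, f8, h2, ?_, f6, f7⟩
    intro M τ Y T K hC hτ k0 kp hP' hb' hz
    obtain ⟨K2, t1, t2, t3⟩ := hS.tr hC hτ k0 kp
    by_contra hcon
    exact hw ⟨M, Y, T, K2, ⟨t1, k0, kp, hP', hb'.tr t2 t3⟩, keep_Zy W.toBase _ _ _ _ t2 t3 hz,
      fun h => hcon h.symm⟩

end

end Helper25.KW
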