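import Pool.Agent.Helper55.KE.MSp

set_option autoImplicit false
set_option linter.unusedSectionVars false

/-!
# Tests without diagonal line
-/

namespace Helper25.KW

open Helper11.N1 Helper55.KE
open Helper11.N1.DECaux (ind ite_ind ind_and ind_congr ind_pos ind_neg)

section

variable {p q a b c : ℕ} [NeZero p] [NeZero q] {z : ZMod p → ZMod (p * q)} {i0 ρ : ZMod p}
  {θ : ZMod (p * q)} {δ : ℕ}

theorem vside_le (hP : Par p q a b) {z : ZMod p → ZMod (p * q)} {j : ZMod p}
    {v : ZMod (p * q)} {kv : ZMod p → Prop} {sv : ℤ} (hV : VL q a b z j v kv sv)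
    {d : ZMod (p * q)} (W0 : ZMod p) {r : ℕ} (hr : r ≤ q)
    (hd : r < q ∨ res p q d ≠ res p q (z j))
    (hW : d + (r : ZMod (p * q)) = v + e p q W0) :
    off (sc q z j + 1) d < a * q ↔ kv W0 := by
  rcases Nat.lt_or_ge r q with h | h
  · exact vside hP hV d W0 h hW
  · exfalso
    have h1 : r = q := by omega
    rcases hd with hd | hd
    · omega
    · apply hd
      have h2 := congrArg (res p q) hW
      rw [map_add, map_add, res_e, add_zero, vl_res hV, h1, map_natCast, ZMod.natCast_self,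
        add_zero] at h2
      exact h2

/-- the ordinate function at a crossing level -/
theorem jv_gen (hP : Par p q a b) {z : ZMod p → ZMod (p * q)} (hB : Blk q b c z) (hq2 : 2 ≤ q)
    {X d : ZMod (p * q)} (hX : rp p q X = 0) (W0 : ZMod p) {r : ℕ} (hr : r < q)
    (hW : d + (r : ZMod (p * q)) = X + e p q W0)
    (hc : r = 0 ∨ ∀ j, bx q c z j = X ∨ byy q b c z j = X → res p q d ≠ res p q (z j)) :
    JV q a b c z X d = KV q a b c z X W0 := by
  have hc1 := hB.hc
  have hab := hP.hab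
  have ha := hP.ha
  unfold JV KV
  apply Finset.sum_congr rfl
  intro j _
  have e1 : ind (bx q c z j = X) * ind (off (sc q z j + 1) d < a * q) =
      ind (bx q c z j = X) * ind (aR a W0 j) := by
    by_cases h3 : bx q c z j = X
    · have h4 := (x_pos hP hB hX (m := c) (by omega) j).2 ⟨rfl, h3⟩
      have h5 := vside_le hP (v := z j) (kv := fun W => aR a W j) (sv := 1)
        (Or.inl ⟨rfl, rfl, rfl⟩) (d := d) W0 (r := r + c) (by omega) (by
          rcases hc with hc | hc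
          · left
            omega
          · exact Or.inr (hc j (Or.inl h3))) (by
          rw [h4]
          push_cast
          linear_combination hW)
      rw [ind_congr h5]
    · rw [ind_neg h3]
      ring
  have e2 : ind (byy q b c z j = X) * ind (off (sc q z j + 1) d < a * q) =
      ind (byy q b c z j = X) * ind (aL a b W0 j) := by
    by_cases h3 : byy q b c z j = X
    · have h4 := (y_pos hP hB hX (m := 1 - c) (by omega) j).2 ⟨rfl, h3⟩
      have h5 := vside_le hP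
        (v := z j - (b : ZMod (p * q)) * (q : ZMod (p * q))) (kv := fun W => aL a b W j)
        (sv := -1) (Or.inr ⟨rfl, rfl, rfl⟩) (d := d) W0 (r := r + (1 - c)) (by omega) (by
          rcases hc with hc | hc
          · left
            omega
          · exact Or.inr (hc j (Or.inr h3))) (by
          rw [h4]
          push_cast
          linear_combination hW)
      rw [ind_congr h5]
    · rw [ind_neg h3]
      ring
  rw [sub_mul, e1, e2]

/-- two windows, no diagonal line -/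
theorem quad0 (hP : Par p q a b) (_hG : Gen q z) (hB : Blk q b c z) (hAP : AP q z i0 ρ θ)
    (hq2 : 2 ≤ q)
    (hF : ∀ X W S, rp p q X = 0 → |FF q a b z X W S| ≤ 1) {δ : ℕ} (hδ0 : 0 < δ) (hδM : δ < p * q)
    (hδ : (δ : ZMod (p * q)) = (p : ZMod (p * q)) * θ)
    {X : ZMod (p * q)} (hX : rp p q X = 0) {d : ZMod (p * q)}
    (W0 W : ZMod p) {r : ℕ} (hr : r < q) (hW : d + (r : ZMod (p * q)) = X + e p q W0)
    (hc : r = 0 ∨ ∀ j, bx q c z j = X ∨ byy q b c z j = X → res p q d ≠ res p q (z j))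
    (hc' : r = 0 ∨ ∀ j, bx q c (Function.update z i0 (z i0 + (δ : ZMod (p * q)))) j = X ∨
      byy q b c (Function.update z i0 (z i0 + (δ : ZMod (p * q)))) j = X →
      res p q d ≠ res p q ((Function.update z i0 (z i0 + (δ : ZMod (p * q)))) j)) :
    Q4 (KV q a b c z X W - KV q a b c z X W0)
      (KV q a b c (Function.update z i0 (z i0 + (δ : ZMod (p * q)))) X W -
        KV q a b c (Function.update z i0 (z i0 + (δ : ZMod (p * q)))) X W0) 0
      (GG q a b z i0 δ X d W - GG q a b z i0 δ X d W0) := by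
  have hXp : rp p q (X + (p : ZMod (p * q))) = 0 := by
    rw [map_add, hX, map_natCast, ZMod.natCast_self, add_zero]
  have hB' := blk_update hP hB hAP
  have hF' := bflat_update hP hB hAP hF
  rw [← hδ] at hB' hF'
  have j1 := jv_gen hP hB hq2 hX W0 hr hW hc
  have j2 := jv_gen hP hB' hq2 hX W0 hr hW hc'
  have b1 := bjump hP hB hX W d
  have b2 := bjump hP hB' hX W d
  rw [j1] at b1
  rw [j2] at b2
  have h3 := move hP z i0 hδ0 hδM X W d
  have h4 := move hP z i0 hδ0 hδM X W0 d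
  rw [band hP _ X W0 r hr d hW, band hP _ X W0 r hr d hW] at h4
  unfold RR at h3 h4
  have key : FF q a b (Function.update z i0 (z i0 + (δ : ZMod (p * q)))) X W d -
      FF q a b z X W d = GG q a b z i0 δ X d W - GG q a b z i0 δ X d W0 := by
    unfold GG
    linarith
  refine ⟨FF q a b z X W d, hF _ _ _ hX, ?_, ?_, ?_, ?_, ?_, ?_, ?_⟩
  · rw [← b1]
    have := hF _ W d hXp
    rwa [show FF q a b z X W d + (FF q a b z (X + (p : ZMod (p * q))) W d - FF q a b z X W d) =
      FF q a b z (X + (p : ZMod (p * q))) W d by ring]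
  · rw [add_zero]
    exact hF _ _ _ hX
  · rw [add_zero, ← b1]
    have := hF _ W d hXp
    rwa [show FF q a b z X W d + (FF q a b z (X + (p : ZMod (p * q))) W d - FF q a b z X W d) =
      FF q a b z (X + (p : ZMod (p * q))) W d by ring]
  · rw [← key, add_sub_cancel]
    exact hF' _ _ _ hX
  · rw [← key, ← b2]
    have := hF' _ W d hXp
    rwa [add_sub_cancel, add_sub_cancel]
  · rw [← key, add_zero, add_sub_cancel]
    exact hF' _ _ _ hX
  · rw [← key, ← b2, add_zero]
    have := hF' _ W d hXp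
    rwa [add_sub_cancel, add_sub_cancel]

/-- test of type 0 (integer level) -/
theorem st0 (h : MS p q a b c z i0 ρ θ δ) (hq2 : 2 ≤ q) {vX : ℤ} {s : ℕ} {X : ZMod (p * q)}
    (hXe : z i0 + (vX : ZMod (p * q)) = X + (s : ZMod (p * q))) (hX : rp p q X = 0)
    {hv hv' : ℝ → ℤ} (hv1 : ∀ W : ℤ, hv W = KV q a b c z X (i0 + (W : ZMod p)))
    (hv1' : ∀ W : ℤ, hv' W =
      KV q a b c (Function.update z i0 (z i0 + (δ : ZMod (p * q)))) X (i0 + (W : ZMod p)))
    (hgg : ∀ d W, GG q a b z i0 δ (X + (s : ZMod (p * q))) d W = GG q a b z i0 δ X d W)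
    (t W : ℤ) :
    Q4 (hv W - hv t) (hv' W - hv' t) 0
      (Helper10.KE.gg p a b ((δ : ℝ) / q) ((vX : ℝ) / q) (((vX - s + t * q : ℤ) : ℝ) / q) W -
        Helper10.KE.gg p a b ((δ : ℝ) / q) ((vX : ℝ) / q) (((vX - s + t * q : ℤ) : ℝ) / q) t) := by
  have hd : sc q z i0 + ((vX - s + t * q : ℤ) : ZMod (p * q)) = X + e p q (i0 + (t : ZMod p)) := by
    rw [e_add, e_int]
    unfold sc
    push_cast
    linear_combination hXe
  have H := quad0 h.hP h.hG h.hB h.hAP hq2 h.hF h.hδ0 h.hδM h.hδ hX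
    (d := sc q z i0 + ((vX - s + t * q : ℤ) : ZMod (p * q)))
    (i0 + (t : ZMod p)) (i0 + (W : ZMod p)) (r := 0) (by omega)
    (by rw [Nat.cast_zero, add_zero, hd]) (Or.inl rfl) (Or.inl rfl)
  rw [hv1, hv1, hv1', hv1', gg_eq h.hP z i0 h.hδM, gg_eq h.hP z i0 h.hδM, hXe, hgg, hgg]
  exact H

/-- tests of type 1-4 -/
theorem st1 (h : MS p q a b c z i0 ρ θ δ) (hq2 : 2 ≤ q) {vX dX : ℤ} {s : ℕ} (hs : s ≤ 1)
    {X : ZMod (p * q)}
    (hXe : z i0 + (vX : ZMod (p * q)) = X + (s : ZMod (p * q))) (hX : rp p q X = 0)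
    {hv hv' : ℝ → ℤ} (hv1 : ∀ W : ℤ, hv W = KV q a b c z X (i0 + (W : ZMod p)))
    (hv2 : ∀ t : ℝ, hv t = hv ((⌈t⌉ : ℤ) : ℝ))
    (hv1' : ∀ W : ℤ, hv' W =
      KV q a b c (Function.update z i0 (z i0 + (δ : ZMod (p * q)))) X (i0 + (W : ZMod p)))
    (hv2' : ∀ t : ℝ, hv' t = hv' ((⌈t⌉ : ℤ) : ℝ))
    (hgg : ∀ d W, GG q a b z i0 δ (X + (s : ZMod (p * q))) d W = GG q a b z i0 δ X d W)
    (hres : res p q (z i0 + (vX : ZMod (p * q))) ≠ res p q (sc q z i0 + (dX : ZMod (p * q))))
    (hc : ∀ j, bx q c z j = X ∨ byy q b c z j = X →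
      res p q (sc q z i0 + (dX : ZMod (p * q))) ≠ res p q (z j))
    (hc' : ∀ j, bx q c (Function.update z i0 (z i0 + (δ : ZMod (p * q)))) j = X ∨
      byy q b c (Function.update z i0 (z i0 + (δ : ZMod (p * q)))) j = X →
      res p q (sc q z i0 + (dX : ZMod (p * q))) ≠
        res p q ((Function.update z i0 (z i0 + (δ : ZMod (p * q)))) j))
    (W : ℤ) :
    Q4 (hv W - hv ((dX : ℝ) / q - (vX : ℝ) / q)) (hv' W - hv' ((dX : ℝ) / q - (vX : ℝ) / q)) 0
      (Helper10.KE.gg p a b ((δ : ℝ) / q) ((vX : ℝ) / q) ((dX : ℝ) / q) W -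
        Helper10.KE.gg p a b ((δ : ℝ) / q) ((vX : ℝ) / q) ((dX : ℝ) / q)
          ((dX : ℝ) / q - (vX : ℝ) / q)) := by
  set t : ℝ := (dX : ℝ) / q - (vX : ℝ) / q with ht
  obtain ⟨r, hr, hW⟩ := level_exists z i0 vX dX
  have hr0 : 1 ≤ r := by
    rcases Nat.eq_zero_or_pos r with h0 | h0
    · exfalso
      apply hres
      rw [h0, Nat.cast_zero, add_zero] at hW
      have h1 := congrArg (res p q) hW
      rw [map_add (res p q) (z i0 + _), res_e, add_zero] at h1
      exact h1.symm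
    · exact h0
  have hW' : sc q z i0 + (dX : ZMod (p * q)) + ((r - s : ℕ) : ZMod (p * q)) =
      X + e p q (i0 + ((⌈t⌉ : ℤ) : ZMod p)) := by
    rw [Nat.cast_sub (by omega)]
    linear_combination hW + hXe
  have H := quad0 h.hP h.hG h.hB h.hAP hq2 h.hF h.hδ0 h.hδM h.hδ hX
    (i0 + ((⌈t⌉ : ℤ) : ZMod p)) (i0 + (W : ZMod p)) (by omega) hW' (Or.inr hc) (Or.inr hc')
  rw [hv2 t, hv2' t, hv1, hv1, hv1', hv1', gg_ceil a b _ _ _ t, gg_eq h.hP z i0 h.hδM,
    gg_eq h.hP z i0 h.hδM, hXe, hgg, hgg]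
  exact H

/-- lines in a free block belong to indices `0 < j < p` -/
theorem lines_free (h : MS p q a b c z i0 ρ θ δ) {X : ZMod (p * q)}
    (hS : Free q b c z i0 (δ : ZMod (p * q)) X) {j : ZMod p}
    (hj : bx q c z j = X ∨ byy q b c z j = X) :
    j ≠ i0 ∧ res p q (z i0) ≠ res p q (z j) ∧
      res p q (z i0 + (δ : ZMod (p * q))) ≠ res p q (z j) := by
  obtain ⟨s1, s2, s3, s4⟩ := hS
  have hj0 : j ≠ i0 := by
    rintro rfl
    rcases hj with h1 | h1
    · exact s1 h1
    · exact s2 h1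
  obtain ⟨n, hn, rfl⟩ := ap_row h.hAP j
  have hn0 : 0 < n := by
    rcases Nat.eq_zero_or_pos n with h1 | h1
    · exfalso
      apply hj0
      rw [h1]
      exact MS.i0_eq i0 ρ
    · exact h1
  refine ⟨hj0, ?_, h.rmov hn0 hn⟩
  have h1 := h.rinj (by omega : 0 < p) hn (by omega)
  rwa [MS.i0_eq] at h1

theorem lines_upd (h : MS p q a b c z i0 ρ θ δ) {X : ZMod (p * q)}
    (hS : Free q b c z i0 (δ : ZMod (p * q)) X) {j : ZMod p}
    (hj : bx q c (Function.update z i0 (z i0 + (δ : ZMod (p * q)))) j = X ∨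
      byy q b c (Function.update z i0 (z i0 + (δ : ZMod (p * q)))) j = X) :
    j ≠ i0 ∧ (bx q c z j = X ∨ byy q b c z j = X) := by
  obtain ⟨s1, s2, s3, s4⟩ := hS
  have hj0 : j ≠ i0 := by
    rintro rfl
    rcases hj with h1 | h1
    · apply s3
      rw [← h1]
      unfold bx
      rw [Function.update_self]
      ring
    · apply s4
      rw [← h1]
      unfold byy
      rw [Function.update_self]
      ring
  refine ⟨hj0, ?_⟩
  rwa [bx_update hj0, byy_update hj0] at hj

/-- tests of type 1-4 for a free block, `dX = B q` or `dX = δ + B q` -/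
theorem st1f (h : MS p q a b c z i0 ρ θ δ) (hq2 : 2 ≤ q) {vX dX : ℤ} {s : ℕ} (hs : s ≤ 1)
    {X : ZMod (p * q)}
    (hXe : z i0 + (vX : ZMod (p * q)) = X + (s : ZMod (p * q))) (hX : rp p q X = 0)
    (hS : Free q b c z i0 (δ : ZMod (p * q)) X)
    {hv : ℝ → ℤ} (hv1 : ∀ W : ℤ, hv W = KV q a b c z X (i0 + (W : ZMod p)))
    (hv2 : ∀ t : ℝ, hv t = hv ((⌈t⌉ : ℤ) : ℝ))
    (hres0 : res p q (z i0 + (vX : ZMod (p * q))) ≠ res p q (z i0))
    (hresd : res p q (z i0 + (vX : ZMod (p * q))) ≠ res p q (z i0 + (δ : ZMod (p * q))))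
    (hd : ∃ B : ℤ, dX = B * q ∨ dX = δ + B * q) (W : ℤ) :
    Q4 (hv W - hv ((dX : ℝ) / q - (vX : ℝ) / q)) (hv W - hv ((dX : ℝ) / q - (vX : ℝ) / q)) 0
      (Helper10.KE.gg p a b ((δ : ℝ) / q) ((vX : ℝ) / q) ((dX : ℝ) / q) W -
        Helper10.KE.gg p a b ((δ : ℝ) / q) ((vX : ℝ) / q) ((dX : ℝ) / q)
          ((dX : ℝ) / q - (vX : ℝ) / q)) := by
  have hd' : res p q (sc q z i0 + (dX : ZMod (p * q))) = res p q (z i0) ∨
      res p q (sc q z i0 + (dX : ZMod (p * q))) = res p q (z i0 + (δ : ZMod (p * q))) := by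
    obtain ⟨B, hB | hB⟩ := hd
    · left
      rw [hB]
      unfold sc
      rw [map_add, map_add, res_e, add_zero]
      push_cast
      rw [map_mul, map_natCast, ZMod.natCast_self, mul_zero, add_zero]
    · right
      rw [hB]
      unfold sc
      rw [map_add, map_add, res_e, add_zero, map_add]
      push_cast
      rw [map_add, map_mul, map_natCast (res p q) q, ZMod.natCast_self, mul_zero, add_zero]
  refine st1 h hq2 hs hXe hX hv1 hv2 (fun W => by rw [kv_free hS, hv1]) hv2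
    (fun d W => gg_block h.hP h.hB h.hAP h.hδ0 h.hδM h.hδ hX hS hs d W) ?_ ?_ ?_ W
  · rcases hd' with h1 | h1 <;> rw [h1]
    · exact hres0
    · exact hresd
  · intro j hj
    obtain ⟨_, k1, k2⟩ := lines_free h hS hj
    rcases hd' with h1 | h1 <;> rw [h1]
    · exact k1
    · exact k2
  · intro j hj
    obtain ⟨hj0, hj1⟩ := lines_upd h hS hj
    obtain ⟨_, k1, k2⟩ := lines_free h hS hj1
    rw [Function.update_of_ne hj0]
    rcases hd' with h1 | h1 <;> rw [h1]
    · exact k1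
    · exact k2

end

end Helper25.KW
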