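import Pool.Agent.Helper25.KW.Pr
import Pool.Agent.Helper25.KW.Top

set_option autoImplicit false
set_option linter.unusedSectionVars false
set_option linter.unusedVariables false

/-!
# The remaining statements in the abstract worlds
-/

namespace Helper25.KW

open Helper11.N1 Helper55.KE Helper25.FLT

/-- the three cases of `S1` -/
def Cas (a b ds R : ℤ) (X : ℝ) (m : ℝ) : Prop :=
  (b - a + 1 ≤ ds * R ∧ m = b + ds * X) ∨ (ds * R + 1 ≤ b - a ∧ m = a + ds * (X + R)) ∨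
    (ds * R = b - a ∧ m = b + ds * X)

/-- facts on `J` and `D` -/
def Phys (p J : ℤ) (D : ℝ) : Prop :=
  (J = 1 ∧ (p : ℝ) - 1 < 2 * D) ∨ (1 < p - 2 * D ∧ D - 1 < J * (p - 2 * D))

/-- `p - l` in the box -/
def PLB (p a b c ds : ℤ) (D : ℝ) : Prop :=
  (ds = -1 ∧ D < 2 * b ∧ ((-(a : ℝ) < -D - c ∧ -D - c < a) ∨ p - D - c < a)) ∨
    (ds = 1 ∧ p - D < 2 * b ∧ ((-(a : ℝ) < D - c ∧ D - c < a) ∨ -(a : ℝ) < D - c - p))

/-- `p + l - q` in the box -/
def PLC (p a b c ds t : ℤ) (D : ℝ) : Prop :=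
  (ds = 1 ∧ D < 2 * b ∨ ds = -1 ∧ p - D < 2 * b) ∧
    ∃ WS : ℤ, (WS = -1 ∨ WS = 0 ∨ WS = 1) ∧
      -(a : ℝ) < ds * D - t * a + c + WS * p ∧ ds * D - t * a + c + WS * p < a

/-- `S1`, `p + l ≤ q` -/
def StT1 : Prop := ∀ (p a b c J ds l q : ℤ) (D dl : ℝ) (Cl : ℤ → ℤ → ℤ → ℤ → ℝ → Prop),
  World p a b c J ds l q D dl Cl → -a < c → ∀ (N X R : ℤ) (I m : ℝ),
  KGF p a b ds D (P1 l p) Cl N X R I → KMin p a b ds (P1 l p) Cl N m → m < D →
  Cas a b ds R (X + ds * I) m → Aux p a b ds D Cl → Phys p J D → False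

/-- `PL`, `p + l ≤ q` -/
def StTP : Prop := ∀ (p a b c J ds l q : ℤ) (D dl : ℝ) (Cl : ℤ → ℤ → ℤ → ℤ → ℝ → Prop),
  World p a b c J ds l q D dl Cl → -a < c → b < 2 * a → KEmp p a b ds (P1 l p) Cl →
  PLB p a b c ds D → Aux p a b ds D Cl → Phys p J D → False

/-- multiples of `q` -/
def NQ (p q : ℤ) : Prop := ∀ j : ℤ, 1 ≤ j → j ≤ 4 → ¬ p ∣ j * q

/-- `S1`, `q < p + l` -/
def StTQ1 : Prop := ∀ (p a b c J ds l q E t : ℤ) (D dl : ℝ) (Cl : ℤ → ℤ → ℤ → ℤ → ℝ → Prop),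
  World2 p a b c J ds l q E t D dl Cl → -a < c → ∀ (N X R : ℤ) (I m : ℝ),
  KGF p a b ds D (P2 l p q) Cl N X R I → KMin p a b ds (P2 l p q) Cl N m → m < D →
  Cas a b ds R (X + ds * I) m → Aux p a b ds D Cl → NQ p q → False

/-- `S2`, `q < p + l` -/
def StTQ2 : Prop := ∀ (p a b c J ds l q E t : ℤ) (D dl : ℝ) (Cl : ℤ → ℤ → ℤ → ℤ → ℝ → Prop),
  World2 p a b c J ds l q E t D dl Cl → -a < c → KS2G p a b ds D (P2 l p q) Cl →
  (∀ σ w : ℤ, (σ = 1 ∨ σ = -1) → ∃ (N X R : ℤ) (I : ℝ), KGF p a b ds D (P2 l p q) Cl N X R I ∧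
    D < b + ds * (X + ds * I) ∧ D < a + ds * (X + ds * I + R) ∧
    σ * (ds * D) < 2 * (σ * (X + ds * I + w * R)) ∧
    KExW p a b ds (P2 l p q) Cl N σ w (σ * (X + ds * I + w * R))) →
  (∃ (N X R : ℤ) (I : ℝ), KGF p a b ds D (P2 l p q) Cl N X R I ∧
    D < b + ds * (X + ds * I) ∧ D < a + ds * (X + ds * I + R) ∧
    ds * D < 2 * (X + ds * I) ∧
    KExtG10 p a b ds D (P2 l p q) Cl N (X + ds * I)) →
  Aux p a b ds D Cl → NQ p q → False

/-- `PL`, `q < p + l` -/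
def StTQP : Prop := ∀ (p a b c J ds l q E t : ℤ) (D dl : ℝ) (Cl : ℤ → ℤ → ℤ → ℤ → ℝ → Prop),
  World2 p a b c J ds l q E t D dl Cl → -a < c → KEmp p a b ds (P2 l p q) Cl →
  (PLB p a b c ds D ∨ PLC p a b c ds t D) → Aux p a b ds D Cl → NQ p q → False

section

variable {p q a b c : ℕ} [NeZero p] [NeZero q] {z : ZMod p → ZMod (p * q)} {i0 ρ : ZMod p}
  {θ : ZMod (p * q)} {δ l : ℕ} {k : ℤ} {s ds J : ℤ}

theorem SG.nq (h : SG p q a b c z i0 ρ θ δ l k s ds J) (h2b : 2 * b < p) : NQ p q := by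
  intro j h1 h2 h3
  have hb := h.ls.hP.hb
  have h9 := h.bq
  rw [ZMod.intCast_zmod_eq_zero_iff_dvd] at h9
  have h10 : (p : ℤ) ∣ j * (1 - 2 * (c : ℤ)) := by
    have : j * (1 - 2 * (c : ℤ)) = j * (b * q + (1 - 2 * (c : ℤ))) - b * (j * q) := by ring
    rw [this]
    exact dvd_sub (Dvd.dvd.mul_left h9 _) (Dvd.dvd.mul_left h3 _)
  have h11 : (p : ℤ) ∣ j := by
    rcases h.c01 with h4 | h4 <;> rw [h4] at h10 <;> norm_num at h10 <;> exact h10
  have := Int.le_of_dvd (by omega) h11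
  omega

end

theorem stS1_of (H : StT1) : StS1 := by
  intro p q a b c _ _ z i0 ρ θ δ l k s ds J h h2a h2b hap hbp hρ hl2 hk0 hka hq
  rintro ⟨N, X, R, I, hK, hor⟩
  have hk := h.ka hka
  have W := h.world h2a h2b hl2 hk0 hka hq
  obtain ⟨N', X', R', I', hK', m, g1, g2, g3⟩ := h.s1G h2a h2b (P := P1 l p)
    ⟨N, X, R, I, ⟨hK.cl, hK.N0, hK.Np, ⟨hK.Nl, hK.Npl⟩, hK.bx⟩, hor⟩
  refine H p a b k J ds l q _ _ _ W (by rw [abs_lt] at hk; exact hk.1) N' X' R' I' m hK' g1 g2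
    ?_ (h.aux h2a h2b hap hbp) (h.phys h2b hl2 hq)
  exact g3

theorem stPL_of (H : StTP) : StPL := by
  intro p q a b c _ _ z i0 ρ θ δ l k s ds J h h2a h2b hap hbp hρ hl2 hk0 hka hq hne hbx
  have hk := h.ka hka
  have W := h.world h2a h2b hl2 hk0 hka hq
  have hne' : ¬ ∃ N X R I, KH p q a b c ρ θ s ds (P1 l p) N X R I := by
    rintro ⟨N, X, R, I, hK⟩
    exact hne ⟨N, X, R, I, ⟨hK.cl, hK.N0, hK.Np, hK.NP.1, hK.NP.2, hK.bx⟩⟩
  have hD0 : 0 < DD p q s := by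
    have h1 : (1 : ℝ) ≤ J := by exact_mod_cast W.hJ
    have h2 := W.hJD
    have e1 : DD p q s = ((p * s : ℤ) / (q : ℝ) : ℝ) := rfl
    rw [e1]
    linarith
  refine H p a b k J ds l q _ _ _ W (by rw [abs_lt] at hk; exact hk.1) ?_ (h.emp hne')
    (h.plb h2a h2b hk hD0 W.hD hbx) (h.aux h2a h2b hap hbp) (h.phys h2b hl2 hq)
  by_contra h1
  exact hne' (h.tne h2b hk0 hk (by omega))

theorem stQ2_of (H1 : StTQ1) (H2 : StTQ2) (H3 : StTQP) : StQ2 := by
  intro p q a b c _ _ z i0 ρ θ δ l k hL h2a h2b hap hbp hρ hl2 hk0 hka hNE hq n x r hn0 hnp hnl hnq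
    hA hx hs
  obtain ⟨s, ds, J, h⟩ := sg_of hL hl2
  have hk := h.ka hka
  obtain ⟨t, ht1, ht⟩ := h.qrho hρ
  have W := h.world2 h2a h2b hl2 hk0 hka hq ht1 ht
  have hc : -(a : ℤ) < k := by rw [abs_lt] at hk; exact hk.1
  have hD0 : 0 < DD p q s := by
    have h1 : (1 : ℝ) ≤ J := by exact_mod_cast W.hJ
    have h2 := W.hJD
    have e1 : DD p q s = ((p * s : ℤ) / (q : ℝ) : ℝ) := rfl
    rw [e1]
    linarith
  by_cases hne : ∃ N X R I, KH p q a b c ρ θ s ds (P2 l p q) N X R I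
  · by_cases hS : S2G p q a b c ρ θ s ds (P2 l p q)
    · exact H2 p a b k J ds l q s t _ _ _ W hc (h.ks2G hS)
        (fun σ w hσ => h.s2x h2a h2b P2.refl hS hne hσ)
        (h.s2x10 h2a h2b P2.refl hS hne) (h.aux h2a h2b hap hbp) (h.nq h2b)
    · unfold S2G at hS
      push Not at hS
      obtain ⟨N, X, R, I, hK, hS⟩ := hS
      have hor : b + ds * (X + ds * I) < DD p q s ∨ a + ds * (X + ds * I + R) < DD p q s := by
        -- equalities do not occur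
        have key : ∀ (A r : ℤ), (A : ℝ) + ds * (X + ds * I + r) ≠ DD p q s := by
          intro A r he
          have hd2 : (ds : ℝ) * ds = 1 := by exact_mod_cast h.ds2
          have h5 : I - DD p q s = ((-(A + ds * (X + r)) : ℤ) : ℝ) := by
            push_cast
            linear_combination he - I * hd2
          have h6 := h.neq hK.cl h.ccp h5
          have hpq := hL.hpq
          have hN0 := hK.N0
          have hNp := hK.Np
          exact ndvd_small (q := q) (m := N - p) (by omega) (by omega) (by omega) h6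
        have k1 := key b 0
        have k2 := key a R
        push_cast at k1 k2
        rw [add_zero] at k1
        rcases lt_trichotomy ((b : ℝ) + ds * (X + ds * I)) (DD p q s) with h5 | h5 | h5
        · exact Or.inl h5
        · exact absurd h5 k1
        · right
          exact lt_of_le_of_ne (hS h5) k2
      obtain ⟨N', X', R', I', hK', m, g1, g2, g3⟩ := h.s1G h2a h2b (P := P2 l p q)
        ⟨N, X, R, I, hK, hor⟩
      exact H1 p a b k J ds l q s t _ _ _ W hc N' X' R' I' m hK' g1 g2 g3 (h.aux h2a h2b hap hbp)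
        (h.nq h2b)
  · refine H3 p a b k J ds l q s t _ _ _ W hc (h.emp hne) ?_ (h.aux h2a h2b hap hbp) (h.nq h2b)
    obtain ⟨X, I, hK, _⟩ := h.khAt (P := fun _ => True) hn0 hnp trivial hA hx hs
    by_cases h1 : n + l = p
    · left
      refine h.plb h2a h2b hk hD0 W.hD ⟨X, r, I, ?_, hK.bx⟩
      have e1 : ((p : ℤ) - l) = n := by omega
      rw [e1]
      exact hK.cl
    · by_cases h2 : n + q = p + l
      · right
        refine h.plb2 h2a h2b hk hD0 W.hD ht1 ht ⟨X, r, I, ?_, hK.bx⟩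
        have e1 : ((p : ℤ) + l - q) = n := by omega
        rw [e1]
        exact hK.cl
      · exfalso
        exact hne ⟨n, X, r, I, ⟨hK.cl, hK.N0, hK.Np, ⟨by exact_mod_cast hnl, by exact_mod_cast h1,
          by exact_mod_cast hnq, by exact_mod_cast h2⟩, hK.bx⟩⟩

theorem stKN_of' (h1 : StT1) (h2 : StS2) (h3 : StTP) (h4 : StTQ1) (h5 : StTQ2) (h6 : StTQP) :
    StKN :=
  stKN_of (stS1_of h1) h2 (stPL_of h3) (stQ2_of h4 h5 h6)

end Helper25.KW
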