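import Pool.Agent.Helper25.KW.Def
import Pool.Agent.Helper55.KE.ML

set_option autoImplicit false
set_option linter.unusedSectionVars false

/-!
# Setting of the world: the residue `θ ≡ ds s` modulo `q`
-/

namespace Helper25.KW

open Helper11.N1 Helper55.KE

/-- formal coordinates of the (integer) index `N` -/
def ClS (p q c : ℕ) (ρ : ZMod p) (θ : ZMod (p * q)) (s ds : ℤ) (N τ X R : ℤ) (I : ℝ) : Prop :=
  ((X * q + ds * s * N : ℤ) : ZMod (p * q)) = (N : ZMod (p * q)) * θ ∧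
    ((R : ℤ) : ZMod p) = (N : ZMod p) * ρ ∧ (q : ℝ) * I = s * N + τ * ds * (1 - 2 * (c : ℝ))

/-- the setting -/
structure SG (p q a b c : ℕ) [NeZero p] [NeZero q] (z : ZMod p → ZMod (p * q)) (i0 ρ : ZMod p)
    (θ : ZMod (p * q)) (δ l : ℕ) (k : ℤ) (s ds J : ℤ) : Prop where
  ls : LS p q a b c z i0 ρ θ δ l k
  hs : 2 ≤ s
  h2s : 2 * s < q
  hds : ds = 1 ∨ ds = -1
  hθ : res p q θ = ((ds * s : ℤ) : ZMod q)
  hJ : l * s + ds * (1 - 2 * (c : ℤ)) = J * q
  hδ : ds = 1 ∧ (δ : ℤ) = p * s ∨ ds = -1 ∧ (δ : ℤ) = p * q - p * s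

section

variable {p q a b c : ℕ} [NeZero p] [NeZero q] {z : ZMod p → ZMod (p * q)} {i0 ρ : ZMod p}
  {θ : ZMod (p * q)} {δ l : ℕ} {k : ℤ} {s ds J : ℤ}

theorem mul_p_lift {θ : ZMod (p * q)} {t : ℤ} (h : res p q θ = ((t : ℤ) : ZMod q)) :
    (p : ZMod (p * q)) * θ = ((p * t : ℤ) : ZMod (p * q)) := by
  obtain ⟨v, rfl⟩ : ∃ v : ℤ, θ = (v : ZMod (p * q)) := ⟨θ.val, by
    rw [Int.cast_natCast, ZMod.natCast_zmod_val]⟩
  rw [res_int, ZMod.intCast_eq_intCast_iff_dvd_sub] at h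
  obtain ⟨w, hw⟩ := h
  have : ((p : ℕ) : ZMod (p * q)) * (v : ZMod (p * q)) = ((p * v : ℤ) : ZMod (p * q)) := by
    push_cast; ring
  rw [this, ZMod.intCast_eq_intCast_iff_dvd_sub]
  refine ⟨w, ?_⟩
  push_cast
  linear_combination (p : ℤ) * hw

/-- existence of the setting -/
theorem sg_of (h : LS p q a b c z i0 ρ θ δ l k) (hl2 : 2 ≤ l) :
    ∃ s ds J : ℤ, SG p q a b c z i0 ρ θ δ l k s ds J := by
  have hpq := h.hpq
  have hl := h.hl
  have hq0 : 0 < q := by omega
  set s0 := (res p q θ).val with hs0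
  have hs0q : s0 < q := ZMod.val_lt _
  have hθ0 : res p q θ = (((s0 : ℕ) : ℤ) : ZMod q) := by
    rw [Int.cast_natCast, hs0, ZMod.natCast_zmod_val]
  have hc := h.hB.hc
  -- the relation for `l`
  have key : ∀ (ds s : ℤ), (ds = 1 ∨ ds = -1) → res p q θ = ((ds * s : ℤ) : ZMod q) →
      ∃ J : ℤ, l * s + ds * (1 - 2 * (c : ℤ)) = J * q := by
    intro ds s hd hth
    have h1 := h.lθ
    rw [hth] at h1
    have h2 : ((l * (ds * s) + (1 - 2 * (c : ℤ)) : ℤ) : ZMod q) = 0 := by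
      push_cast at h1 ⊢
      linear_combination h1
    rw [ZMod.intCast_zmod_eq_zero_iff_dvd] at h2
    obtain ⟨J, hJ⟩ := h2
    refine ⟨ds * J, ?_⟩
    rcases hd with rfl | rfl
    · linear_combination hJ
    · linear_combination -hJ
  have hge : ∀ (ds s J : ℤ), (ds = 1 ∨ ds = -1) → 0 < s → l * s + ds * (1 - 2 * (c : ℤ)) = J * q →
      2 ≤ s := by
    intro ds s J hd hs hJ
    by_contra hcon
    have hs1 : s = 1 := by omega
    subst hs1
    have hJ1 : 0 < J := by
      by_contra h0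
      have : J * q ≤ 0 := mul_nonpos_of_nonpos_of_nonneg (by omega) (by omega)
      have hc' : (c : ℤ) = 0 ∨ (c : ℤ) = 1 := by omega
      rcases hd with rfl | rfl <;> rcases hc' with h3 | h3 <;> rw [h3] at hJ <;> omega
    have hJq : (q : ℤ) ≤ J * q := by nlinarith
    have hc' : (c : ℤ) = 0 ∨ (c : ℤ) = 1 := by omega
    have hJ2 : J = 1 := by
      by_contra h1
      have : 2 * (q : ℤ) ≤ J * q := mul_le_mul_of_nonneg_right (by omega) (by positivity)
      rcases hd with rfl | rfl <;> rcases hc' with h3 | h3 <;> rw [h3] at hJ <;> omega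
    subst hJ2
    rcases hd with rfl | rfl <;> rcases hc' with h3 | h3 <;> rw [h3] at hJ <;> omega
  have hs00 : 0 < s0 := by
    rcases Nat.eq_zero_or_pos s0 with h1 | h1
    · exfalso
      obtain ⟨J, hJ⟩ := key 1 s0 (Or.inl rfl) (by rw [hθ0, one_mul])
      rw [h1] at hJ
      have hc' : (c : ℤ) = 0 ∨ (c : ℤ) = 1 := by omega
      have h2 : (q : ℤ) ∣ 1 := by
        rcases hc' with h3 | h3 <;> rw [h3] at hJ
        · exact ⟨J, by push_cast at hJ; linear_combination hJ⟩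
        · exact ⟨-J, by push_cast at hJ; linear_combination -hJ⟩
      have := Int.le_of_dvd one_pos h2
      omega
    · exact h1
  have hδp : ((δ : ℤ) : ZMod (p * q)) = ((p * s0 : ℤ) : ZMod (p * q)) := by
    rw [Int.cast_natCast, h.hδ, mul_p_lift hθ0]
  rw [ZMod.intCast_eq_intCast_iff_dvd_sub] at hδp
  have hδM := h.hδM
  have hδe : (δ : ℤ) = p * s0 := by
    obtain ⟨w, hw⟩ := hδp
    have hp0 : 0 < p := by omega
    have h1 : (p : ℤ) * s0 < p * q := by
      have : (s0 : ℤ) < q := by exact_mod_cast hs0q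
      have hp' : (0 : ℤ) < p := by exact_mod_cast hp0
      nlinarith
    have h2 : (δ : ℤ) < p * q := by exact_mod_cast hδM
    have h3 : (0 : ℤ) ≤ p * s0 := by positivity
    have h4 : (0 : ℤ) ≤ δ := by positivity
    have hpq0 : (0 : ℤ) < p * q := by positivity
    push_cast at hw
    have : w = 0 := by
      by_contra hw0
      rcases lt_or_gt_of_ne hw0 with h5 | h5
      · have : (p : ℤ) * q * w ≤ -(p * q) := by nlinarith
        linarith
      · have : (p : ℤ) * q ≤ p * q * w := by nlinarith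
        linarith
    rw [this] at hw
    linarith
  rcases Nat.lt_or_ge (2 * s0) q with h1 | h1
  · obtain ⟨J, hJ⟩ := key 1 s0 (Or.inl rfl) (by rw [hθ0, one_mul])
    exact ⟨s0, 1, J, ⟨h, hge 1 s0 J (Or.inl rfl) (by exact_mod_cast hs00) hJ, by exact_mod_cast h1,
      Or.inl rfl, by rw [hθ0, one_mul], hJ, Or.inl ⟨rfl, hδe⟩⟩⟩
  · have hth : res p q θ = (((-1) * ((q : ℤ) - s0) : ℤ) : ZMod q) := by
      rw [hθ0]
      push_cast
      rw [ZMod.natCast_self]
      ring
    obtain ⟨J, hJ⟩ := key (-1) (q - s0) (Or.inr rfl) hth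
    have hs' : (0 : ℤ) < (q : ℤ) - s0 := by omega
    have hne : 2 * s0 ≠ q := by
      intro h2
      have h3 : (s0 : ℤ) ∣ 1 := by
        have h4 : ((q : ℤ) - s0) = s0 := by omega
        rw [h4] at hJ
        have hc' : (c : ℤ) = 0 ∨ (c : ℤ) = 1 := by omega
        have h5 : (q : ℤ) = 2 * s0 := by omega
        rw [h5] at hJ
        rcases hc' with h3 | h3 <;> rw [h3] at hJ
        · exact ⟨l - J * 2, by linear_combination -hJ⟩
        · exact ⟨J * 2 - l, by linear_combination hJ⟩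
      have := Int.le_of_dvd one_pos h3
      have h6 := h.hl0
      omega
    exact ⟨q - s0, -1, J, ⟨h, hge (-1) _ J (Or.inr rfl) hs' hJ, by omega,
      Or.inr rfl, hth, hJ, Or.inr ⟨rfl, by rw [hδe]; ring⟩⟩⟩

end

end Helper25.KW
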