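import Pool.Agent.Helper25.KW.W1

set_option autoImplicit false
set_option linter.unusedSectionVars false

/-!
# The coordinates of the world
-/

namespace Helper25.KW

open Helper11.N1 Helper55.KE

section

variable {p q a b c : ℕ} [NeZero p] [NeZero q] {z : ZMod p → ZMod (p * q)} {i0 ρ : ZMod p}
  {θ : ZMod (p * q)} {δ l : ℕ} {k : ℤ} {s ds J : ℤ}

theorem SG.ds2 (h : SG p q a b c z i0 ρ θ δ l k s ds J) : ds * ds = 1 := by
  rcases h.hds with h1 | h1 <;> rw [h1] <;> norm_num

theorem SG.c01 (h : SG p q a b c z i0 ρ θ δ l k s ds J) : (c : ℤ) = 0 ∨ (c : ℤ) = 1 := by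
  have := h.ls.hB.hc
  omega

theorem SG.q0 (h : SG p q a b c z i0 ρ θ δ l k s ds J) : (0 : ℤ) < q := by
  have := h.ls.hpq
  omega

theorem SG.q0R (h : SG p q a b c z i0 ρ θ δ l k s ds J) : (0 : ℝ) < q := by
  exact_mod_cast h.q0

/-- `ds ε` -/
theorem SG.e1 (h : SG p q a b c z i0 ρ θ δ l k s ds J) :
    ds * (1 - 2 * (c : ℤ)) = 1 ∨ ds * (1 - 2 * (c : ℤ)) = -1 := by
  rcases h.hds with h1 | h1 <;> rcases h.c01 with h2 | h2 <;> rw [h1, h2] <;> norm_num

/-- the value `q I` as an integer -/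
theorem ClS.qI {N τ X R : ℤ} {I : ℝ} (hC : ClS p q c ρ θ s ds N τ X R I) :
    (q : ℝ) * I = ((s * N + τ * (ds * (1 - 2 * (c : ℤ))) : ℤ) : ℝ) := by
  rw [hC.2.2]
  push_cast
  ring

theorem SG.ii (h : SG p q a b c z i0 ρ θ δ l k s ds J) {N τ X R m : ℤ} {I : ℝ}
    (hC : ClS p q c ρ θ s ds N τ X R I) (hI : I = m) : (q : ℤ) ∣ N - τ * l := by
  have h1 := hC.qI
  rw [hI] at h1
  have h2 : (q : ℤ) * m = s * N + τ * (ds * (1 - 2 * (c : ℤ))) := by exact_mod_cast h1
  have h3 := h.hJ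
  rcases h.e1 with h4 | h4 <;> rw [h4] at h2 h3
  · refine ⟨N * J - l * m, ?_⟩
    linear_combination l * h2 + N * h3
  · refine ⟨l * m - N * J, ?_⟩
    linear_combination -l * h2 - N * h3

theorem SG.ppos (h : SG p q a b c z i0 ρ θ δ l k s ds J) {N τ X R : ℤ} {I : ℝ}
    (hC : ClS p q c ρ θ s ds N τ X R I) (hτ : |τ| ≤ 2) (hI : 0 < I) : 0 ≤ N := by
  have h1 := hC.qI
  have h2 : (0 : ℝ) < (q : ℝ) * I := mul_pos h.q0R hI
  rw [h1] at h2
  have h3 : 0 < s * N + τ * (ds * (1 - 2 * (c : ℤ))) := by exact_mod_cast h2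
  have hs := h.hs
  rw [abs_le] at hτ
  by_contra hcon
  have h4 : s * N ≤ -2 := by nlinarith
  rcases h.e1 with h5 | h5 <;> rw [h5] at h3 <;> linarith

theorem SG.pD (h : SG p q a b c z i0 ρ θ δ l k s ds J) :
    (q : ℝ) * ((p * s : ℤ) / (q : ℝ) : ℝ) = p * s := by
  have := h.q0R
  push_cast
  field_simp

theorem SG.cadd (_h : SG p q a b c z i0 ρ θ δ l k s ds J) {N τ X R N' τ' X' R' : ℤ} {I I' : ℝ}
    (h1 : ClS p q c ρ θ s ds N τ X R I) (h2 : ClS p q c ρ θ s ds N' τ' X' R' I') :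
    ClS p q c ρ θ s ds (N + N') (τ + τ') (X + X') (R + R') (I + I') := by
  obtain ⟨a1, a2, a3⟩ := h1
  obtain ⟨b1, b2, b3⟩ := h2
  refine ⟨?_, ?_, ?_⟩
  · push_cast at a1 b1 ⊢
    linear_combination a1 + b1
  · push_cast at a2 b2 ⊢
    linear_combination a2 + b2
  · push_cast
    linear_combination a3 + b3

theorem SG.cneg (_h : SG p q a b c z i0 ρ θ δ l k s ds J) {N τ X R : ℤ} {I : ℝ}
    (h1 : ClS p q c ρ θ s ds N τ X R I) : ClS p q c ρ θ s ds (-N) (-τ) (-X) (-R) (-I) := by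
  obtain ⟨a1, a2, a3⟩ := h1
  refine ⟨?_, ?_, ?_⟩
  · push_cast at a1 ⊢
    linear_combination -a1
  · push_cast at a2 ⊢
    linear_combination -a2
  · push_cast
    linear_combination -a3

theorem SG.ccp (h : SG p q a b c z i0 ρ θ δ l k s ds J) :
    ClS p q c ρ θ s ds p 0 0 0 ((p * s : ℤ) / (q : ℝ) : ℝ) := by
  refine ⟨?_, ?_, ?_⟩
  · have := mul_p_lift (θ := θ) h.hθ
    push_cast at this ⊢
    linear_combination -this
  · push_cast
    rw [ZMod.natCast_self]
    ring
  · rw [h.pD]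
    push_cast
    ring

theorem SG.ccX (_h : SG p q a b c z i0 ρ θ δ l k s ds J) : ClS p q c ρ θ s ds 0 0 p 0 0 := by
  refine ⟨?_, ?_, ?_⟩
  · have := ZMod.natCast_self (p * q)
    push_cast at this ⊢
    linear_combination this
  · push_cast
    ring
  · push_cast
    ring

theorem SG.ccR (_h : SG p q a b c z i0 ρ θ δ l k s ds J) : ClS p q c ρ θ s ds 0 0 0 p 0 := by
  refine ⟨?_, ?_, ?_⟩
  · push_cast
    ring
  · push_cast
    rw [ZMod.natCast_self]
    ring
  · push_cast
    ring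

theorem SG.ccl (h : SG p q a b c z i0 ρ θ δ l k s ds J) :
    ClS p q c ρ θ s ds l 1 (-b - ds * J) (k + b) J := by
  refine ⟨?_, ?_, ?_⟩
  · have h1 := h.ls.hxl
    have h2 : ((-(b : ℤ) - ds * J) * q + ds * s * l : ℤ) = -(b * q) - (1 - 2 * c) := by
      have h3 := h.hJ
      have h4 := h.ds2
      linear_combination ds * h3 - (1 - 2 * (c : ℤ)) * h4
    rw [h2, ← h1]
    push_cast
    ring
  · have h1 := h.ls.hrl
    rw [← h1]
    push_cast
    ring
  · have h1 := h.hJ
    have h2 : (l : ℝ) * s + ds * (1 - 2 * (c : ℝ)) = J * q := by exact_mod_cast h1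
    push_cast
    linear_combination -h2

theorem SG.pt0 (h : SG p q a b c z i0 ρ θ δ l k s ds J) {N X R : ℤ} {I : ℝ}
    (hC : ClS p q c ρ θ s ds N 0 X R I) : (0 < I ↔ 0 < N) := by
  have h1 := hC.2.2
  have hs := h.hs
  have hs' : (0 : ℝ) < s := by
    have : (0 : ℤ) < s := by omega
    exact_mod_cast this
  have hq := h.q0R
  have h2 : (q : ℝ) * I = s * N := by rw [h1]; push_cast; ring
  constructor
  · intro h3
    have h4 : (0 : ℝ) < s * N := by rw [← h2]; positivity
    have h5 : (0 : ℝ) < N := by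
      by_contra h6
      have : (s : ℝ) * N ≤ 0 := mul_nonpos_of_nonneg_of_nonpos hs'.le (by linarith)
      linarith
    exact_mod_cast h5
  · intro h3
    have h4 : (0 : ℝ) < N := by exact_mod_cast h3
    by_contra h6
    have h7 : (q : ℝ) * I ≤ 0 := mul_nonpos_of_nonneg_of_nonpos hq.le (by linarith)
    have h8 : (0 : ℝ) < s * N := by positivity
    linarith

/-- `Base` -/
theorem SG.base (h : SG p q a b c z i0 ρ θ δ l k s ds J) (h2a : 2 * a < p) (h2b : 2 * b < p)
    (hl2 : 2 ≤ l) (hk0 : k ≠ 0) (hka : |k| < a ∨ (c = 1 ∧ k = -a)) :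
    Base p a b k J ds l q ((p * s : ℤ) / (q : ℝ) : ℝ) ((δ : ℝ) / q) (ClS p q c ρ θ s ds) := by
  have hP := h.ls.hP
  have hq := h.q0R
  have hqz := h.q0
  have hs := h.hs
  have h2s := h.h2s
  have hlp := h.ls.hl
  have hpq := h.ls.hpq
  have hJ := h.hJ
  have he := h.e1
  have hadd : ∀ {N τ X R N' τ' X' R' : ℤ} {I I' : ℝ}, ClS p q c ρ θ s ds N τ X R I →
      ClS p q c ρ θ s ds N' τ' X' R' I' →
      ClS p q c ρ θ s ds (N + N') (τ + τ') (X + X') (R + R') (I + I') := fun h1 h2 => h.cadd h1 h2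
  have hneg : ∀ {N τ X R : ℤ} {I : ℝ}, ClS p q c ρ θ s ds N τ X R I →
      ClS p q c ρ θ s ds (-N) (-τ) (-X) (-R) (-I) := fun h1 => h.cneg h1
  have hsub : ∀ {N τ X R N' τ' X' R' : ℤ} {I I' : ℝ}, ClS p q c ρ θ s ds N τ X R I →
      ClS p q c ρ θ s ds N' τ' X' R' I' →
      ClS p q c ρ θ s ds (N - N') (τ - τ') (X - X') (R - R') (I - I') := by
    intro N τ X R N' τ' X' R' I I' h1 h2
    have := hadd h1 (hneg h2)
    simpa only [← sub_eq_add_neg] using this
  have hD0 : ((p * s : ℤ) / (q : ℝ) : ℝ) * q = p * s := by rw [mul_comm]; exact h.pD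
  have hne : ∀ {N τ X R : ℤ} {I : ℝ}, ClS p q c ρ θ s ds N τ X R I → |τ| ≤ 1 →
      (N ≠ 0 ∨ τ ≠ 0) → I ≠ 0 := by
    intro N τ X R I hC hτ hN hI
    have h1 := hC.qI
    rw [hI, mul_zero] at h1
    have h3 : s * N + τ * (ds * (1 - 2 * (c : ℤ))) = 0 := by exact_mod_cast h1.symm
    rw [abs_le] at hτ
    have hN0 : N = 0 := by
      by_contra h4
      rcases lt_or_gt_of_ne h4 with h5 | h5
      · have : s * N ≤ -2 := by nlinarith
        rcases he with h6 | h6 <;> rw [h6] at h3 <;> linarith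
      · have : 2 ≤ s * N := by nlinarith
        rcases he with h6 | h6 <;> rw [h6] at h3 <;> linarith
    rw [hN0, mul_zero, zero_add] at h3
    have hτ0 : τ = 0 := by rcases he with h6 | h6 <;> rw [h6] at h3 <;> linarith
    rcases hN with h5 | h5
    · exact h5 hN0
    · exact h5 hτ0
  refine
    { hds := ?_
      ha := by exact_mod_cast hP.ha
      h2a := by exact_mod_cast h2a
      hb := by exact_mod_cast hP.hb
      h2b := by exact_mod_cast h2b
      hc0 := hk0
      hca := ?_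
      hca' := ?_
      hl := by exact_mod_cast hl2
      hlp := by exact_mod_cast hlp
      hpq := by exact_mod_cast hpq
      hJ := ?_
      hJD := ?_
      hD := ?_
      add := hadd
      neg := hneg
      cp := h.ccp
      cX := h.ccX
      cR := h.ccR
      cl := h.ccl
      pos := fun hC hτ hI => h.ppos hC hτ hI
      ltp := ?_
      pos0 := fun hC => h.pt0 hC
      ltp0 := ?_
      ne0 := hne
      neD := ?_
      int := fun hC hI => h.ii hC hI
      dvd := ?_
      dvX := ?_ }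
  · rcases h.hδ with ⟨h1, h2⟩ | ⟨h1, h2⟩
    · left
      refine ⟨h1, ?_⟩
      have : (δ : ℝ) = p * s := by exact_mod_cast h2
      rw [this]
      push_cast
      ring
    · right
      refine ⟨h1, ?_⟩
      have : (δ : ℝ) = p * q - p * s := by exact_mod_cast h2
      rw [this]
      push_cast
      field_simp
  · rcases hka with h1 | ⟨_, h1⟩
    · rw [abs_lt] at h1
      linarith [h1.1]
    · rw [h1]
  · rcases hka with h1 | ⟨_, h1⟩
    · exact (abs_lt.1 h1).2
    · rw [h1]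
      have := hP.ha
      omega
  · by_contra h0
    have h1 : J * q ≤ 0 := mul_nonpos_of_nonpos_of_nonneg (by omega) (by omega)
    have h2 : (4 : ℤ) ≤ l * s := by
      have : (2 : ℤ) ≤ l := by exact_mod_cast hl2
      nlinarith
    rcases he with h6 | h6 <;> rw [h6] at hJ <;> linarith
  · have h1 : J * q < p * s := by
      have : (l : ℤ) + 1 ≤ p := by exact_mod_cast hlp
      have h2 : (l : ℤ) * s + s ≤ p * s := by nlinarith
      rcases he with h6 | h6 <;> rw [h6] at hJ <;> linarith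
    have h2 : (J : ℝ) * q < p * s := by exact_mod_cast h1
    rw [← hD0] at h2
    exact lt_of_mul_lt_mul_right h2 hq.le
  · have h1 : 2 * (p * s) < (p : ℤ) * q := by
      have : (0 : ℤ) < p := by omega
      nlinarith
    have h2 : (2 : ℝ) * (p * s) < p * q := by exact_mod_cast h1
    rw [← hD0] at h2
    have h3 : 2 * ((p * s : ℤ) / (q : ℝ) : ℝ) * q < (p : ℝ) * q := by linarith
    have := lt_of_mul_lt_mul_right h3 hq.le
    exact_mod_cast this
  · intro N τ X R I hC hτ hI
    have h1 := hsub h.ccp hC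
    have h2 : |0 - τ| ≤ 2 := by rw [zero_sub, abs_neg]; exact hτ
    have h3 := h.ppos h1 h2 (by linarith)
    linarith
  · intro N X R I hC
    have h1 := hsub h.ccp hC
    rw [sub_zero] at h1
    have h2 := h.pt0 h1
    constructor
    · intro h3
      have := h2.1 (by linarith)
      linarith
    · intro h3
      have := h2.2 (by linarith)
      linarith
  · intro N τ X R I hC hτ hN hI
    have h1 := hsub h.ccp hC
    have h2 : |0 - τ| ≤ 1 := by rw [zero_sub, abs_neg]; exact hτ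
    refine hne h1 h2 ?_ (by rw [hI]; ring)
    rcases hN with h3 | h3
    · left
      intro h4
      apply h3
      linarith
    · right
      intro h4
      apply h3
      linarith
  · intro N τ X R I hC
    have h1 := hC.2.1
    rw [← ZMod.intCast_zmod_eq_zero_iff_dvd, ← ZMod.intCast_zmod_eq_zero_iff_dvd, h1]
    obtain ⟨u, hu⟩ := h.ls.hAP.1
    rw [← hu]
    constructor
    · intro h2
      rw [h2, zero_mul]
    · intro h2
      have h3 := congrArg (· * (↑u⁻¹ : ZMod p)) h2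
      simpa [mul_assoc] using h3
  · intro N τ X R I hC hN
    obtain ⟨N', rfl⟩ := hN
    have h1 := hC.1
    have h2 := mul_p_lift (θ := θ) h.hθ
    have h3 : ((X * q : ℤ) : ZMod (p * q)) = 0 := by
      push_cast at h1 h2 ⊢
      linear_combination h1 + (N' : ZMod (p * q)) * h2
    rw [ZMod.intCast_zmod_eq_zero_iff_dvd] at h3
    push_cast at h3
    exact (mul_dvd_mul_iff_right hqz.ne').1 h3

end

end Helper25.KW
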