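import Pool.Agent.Helper25.KW.W2

set_option autoImplicit false
set_option linter.unusedSectionVars false

/-!
# Transfer from formal to exact positions
-/

namespace Helper25.KW

open Helper11.N1 Helper55.KE

theorem fr_of {p a b dl : ℝ} {hv hv' : ℝ → ℤ} {v v' d d' kd : ℝ} {sd : ℤ}
    (H : RUq p a b dl hv hv' v' d' kd sd) (h1 : Tr dl v v')
    (h2 : Tr dl d d') (h3 : Tz (d - v) (d' - v')) : FR p a b dl hv hv' v d kd sd :=
  ⟨v', d', h1, h2, h3, H⟩

theorem fl_of {p a b dl : ℝ} {hv hv' : ℝ → ℤ} {v d d' kd : ℝ} {sd : ℤ}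
    (H : RUq p a b dl hv hv' v d' kd sd)
    (h2 : Tr dl d d') (h3 : Tz (d - v) (d' - v)) : FLR p a b dl hv hv' v d kd sd :=
  ⟨d', h2, h3, H⟩

theorem tz_int {q : ℕ} (hq : 0 < q) {T T' : ℤ}
    (h : ∀ u : ℤ, Btw T' T u → u ≠ T → ¬ (q : ℤ) ∣ u) : Tz ((T : ℝ) / q) ((T' : ℝ) / q) := by
  have hq' : (0 : ℝ) < q := by exact_mod_cast hq
  intro m
  rw [lt_div_iff₀ hq', lt_div_iff₀ hq', div_lt_iff₀ hq', div_lt_iff₀ hq']
  constructor
  · intro h1
    have h2 : m * (q : ℤ) < T := by exact_mod_cast h1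
    have h3 : m * (q : ℤ) < T' := by
      by_contra h4
      exact h _ (Or.inl ⟨by omega, h2.le⟩) h2.ne ⟨m, by ring⟩
    exact_mod_cast h3
  · intro h1
    have h2 : T < m * (q : ℤ) := by exact_mod_cast h1
    have h3 : T' < m * (q : ℤ) := by
      by_contra h4
      exact h _ (Or.inr ⟨h2.le, by omega⟩) h2.ne' ⟨m, by ring⟩
    exact_mod_cast h3

theorem tr_int {q : ℕ} (hq : 0 < q) {T T' : ℤ} {δ : ℕ}
    (h : ∀ u : ℤ, Btw T' T u → u ≠ T → ¬ (q : ℤ) ∣ u)
    (h' : ∀ u : ℤ, Btw T' T u → u ≠ T → ¬ (q : ℤ) ∣ u - δ) :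
    Tr ((δ : ℝ) / q) ((T : ℝ) / q) ((T' : ℝ) / q) := by
  have hq' : (0 : ℝ) < q := by exact_mod_cast hq
  intro m
  have h0 := tz_int hq h m
  refine ⟨h0.1, h0.2, ?_⟩
  have e1 : (m : ℝ) + (δ : ℝ) / q = ((m * q + δ : ℤ) : ℝ) / q := by
    push_cast
    field_simp
  rw [e1, div_lt_div_iff_of_pos_right hq', div_lt_div_iff_of_pos_right hq',
    div_lt_div_iff_of_pos_right hq', div_lt_div_iff_of_pos_right hq']
  constructor
  · intro h1
    have h2 : m * (q : ℤ) + δ < T := by exact_mod_cast h1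
    have h3 : m * (q : ℤ) + δ < T' := by
      by_contra h4
      exact h' _ (Or.inl ⟨by omega, h2.le⟩) h2.ne ⟨m, by ring⟩
    exact_mod_cast h3
  · intro h1
    have h2 : T < m * (q : ℤ) + δ := by exact_mod_cast h1
    have h3 : T' < m * (q : ℤ) + δ := by
      by_contra h4
      exact h' _ (Or.inr ⟨h2.le, by omega⟩) h2.ne' ⟨m, by ring⟩
    exact_mod_cast h3

section

variable {p q a b c : ℕ} [NeZero p] [NeZero q] {z : ZMod p → ZMod (p * q)} {i0 ρ : ZMod p}
  {θ : ZMod (p * q)} {δ l : ℕ} {k : ℤ} {s ds J : ℤ}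

/-- the integers between the exact value `T'` (of residue index `m`) and the formal value
`T' + t ε` -/
theorem SG.bt (h : SG p q a b c z i0 ρ θ δ l k s ds J) {T T' m t : ℤ}
    (hT' : (T' : ZMod q) = (m : ZMod q) * res p q θ) (hT : T = T' + t * (1 - 2 * (c : ℤ)))
    (hm : ∀ j : ℤ, Btw 0 t j → j ≠ t → ¬ (q : ℤ) ∣ m - j * l) :
    ∀ u : ℤ, Btw T' T u → u ≠ T → ¬ (q : ℤ) ∣ u := by
  intro u hu huT
  rw [hT] at hu huT
  obtain ⟨j, hj, rfl⟩ := h.ls.btw hu
  refine h.ls.ndvd (m := m - j * l) ?_ (hm j hj ?_)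
  · have h2 := h.ls.lθ
    push_cast at hT' h2 ⊢
    linear_combination hT' + (j : ZMod q) * h2
  · rintro rfl
    exact huT rfl

/-- exact abscissa times `q` -/
theorem SG.exr (h : SG p q a b c z i0 ρ θ δ l k s ds J) (N X r : ℤ) :
    ((X * q + ds * s * N + r * q : ℤ) : ZMod q) = (N : ZMod q) * res p q θ := by
  rw [h.hθ]
  push_cast
  rw [ZMod.natCast_self]
  ring

/-- formal abscissa -/
theorem SG.fv (h : SG p q a b c z i0 ρ θ δ l k s ds J) {N τ X R : ℤ} {I : ℝ}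
    (hC : ClS p q c ρ θ s ds N τ X R I) :
    (X : ℝ) + ds * I = ((X * q + ds * s * N + τ * (1 - 2 * (c : ℤ)) : ℤ) : ℝ) / q := by
  have hq := h.q0R
  rw [eq_div_iff hq.ne']
  have h1 := hC.2.2
  have h2 : (ds : ℝ) * ds = 1 := by exact_mod_cast h.ds2
  push_cast
  linear_combination (ds : ℝ) * h1 + (τ * (1 - 2 * (c : ℝ))) * h2

theorem SG.atr (_h : SG p q a b c z i0 ρ θ δ l k s ds J) {τ X R : ℤ} {I : ℝ} {n : ℕ}
    (hC : ClS p q c ρ θ s ds n τ X R I) : At ρ θ n (X * q + ds * s * n) R := by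
  refine ⟨?_, ?_⟩
  · have := hC.1
    push_cast at this ⊢
    rw [this]
  · have := hC.2.1
    push_cast at this ⊢
    rw [this]

/-- positions of a cluster, moved by `r` -/
theorem SG.trr (h : SG p q a b c z i0 ρ θ δ l k s ds J) {N τ X R : ℤ} {I : ℝ}
    (hC : ClS p q c ρ θ s ds N τ X R I) (hτ : |τ| ≤ 1) (hN0 : 0 < N) (hNp : N < p) (r : ℤ) :
    Tr ((δ : ℝ) / q) ((X : ℝ) + ds * I + r)
      (((X * q + ds * s * N : ℤ) : ℝ) / q + r) := by
  have hq := h.q0R
  have hq1 : 0 < q := by exact_mod_cast hq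
  have hpq := h.ls.hpq
  have e1 : (X : ℝ) + ds * I + r =
      ((X * q + ds * s * N + r * q + τ * (1 - 2 * (c : ℤ)) : ℤ) : ℝ) / q := by
    rw [h.fv hC]
    push_cast
    field_simp
    ring
  have e2 : (((X * q + ds * s * N : ℤ) : ℝ) / q + r) =
      ((X * q + ds * s * N + r * q : ℤ) : ℝ) / q := by
    push_cast
    field_simp
  rw [e1, e2]
  have hj0 : ∀ j : ℤ, Btw 0 τ j → j ≠ τ → j = 0 := by
    intro j hj hjt
    rw [abs_le] at hτ
    rcases hj with h1 | h1 <;> omega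
  apply tr_int hq1
  · apply h.bt (h.exr N X r) rfl
    intro j hj hjt
    rw [hj0 j hj hjt, zero_mul, sub_zero]
    intro h1
    have := Int.le_of_dvd hN0 h1
    omega
  · have h5 : ∀ u : ℤ, Btw (X * q + ds * s * N + r * q - δ)
        (X * q + ds * s * N + r * q - δ + τ * (1 - 2 * (c : ℤ))) u →
        u ≠ X * q + ds * s * N + r * q - δ + τ * (1 - 2 * (c : ℤ)) → ¬ (q : ℤ) ∣ u := by
      apply h.bt (m := N - p) ?_ rfl
      · intro j hj hjt
        rw [hj0 j hj hjt, zero_mul, sub_zero]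
        intro h1
        have h2 : (q : ℤ) ∣ p - N := by
          have := (dvd_neg (a := (q : ℤ))).2 h1
          rwa [neg_sub] at this
        have := Int.le_of_dvd (by omega) h2
        omega
      · have h1 := h.exr N X r
        have h2 := h.ls.δres
        push_cast at h1 h2 ⊢
        linear_combination h1 - h2
    intro u hu huT
    apply h5 (u - δ)
    · rcases hu with hu | hu
      · exact Or.inl ⟨by omega, by omega⟩
      · exact Or.inr ⟨by omega, by omega⟩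
    · intro h6
      apply huT
      linarith

/-- crossing levels -/
theorem SG.tzz (h : SG p q a b c z i0 ρ θ δ l k s ds J) {N τ X R N' τ' X' R' : ℤ} {I I' : ℝ}
    (hC : ClS p q c ρ θ s ds N τ X R I) (hC' : ClS p q c ρ θ s ds N' τ' X' R' I')
    (hj : ∀ j : ℤ, Btw 0 (τ' - τ) j → j ≠ τ' - τ → ¬ (q : ℤ) ∣ N' - N - j * l) (r : ℤ) :
    Tz ((X' : ℝ) + ds * I' + r - (X + ds * I))
      (((X' * q + ds * s * N' : ℤ) : ℝ) / q + r - ((X * q + ds * s * N : ℤ) : ℝ) / q) := by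
  have hq := h.q0R
  have hq1 : 0 < q := by exact_mod_cast hq
  have e1 : (X' : ℝ) + ds * I' + r - (X + ds * I) =
      (((X' - X) * q + ds * s * (N' - N) + r * q + (τ' - τ) * (1 - 2 * (c : ℤ)) : ℤ) : ℝ) / q := by
    rw [h.fv hC, h.fv hC']
    push_cast
    field_simp
    ring
  have e2 : (((X' * q + ds * s * N' : ℤ) : ℝ) / q + r - ((X * q + ds * s * N : ℤ) : ℝ) / q) =
      (((X' - X) * q + ds * s * (N' - N) + r * q : ℤ) : ℝ) / q := by
    push_cast
    field_simp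
    ring
  rw [e1, e2]
  apply tz_int hq1
  exact h.bt (h.exr (N' - N) (X' - X) r) rfl hj

end

end Helper25.KW
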