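import Pool.Agent.Helper25.KW.W3
import Pool.Agent.Helper25.KW.ST

set_option autoImplicit false
set_option linter.unusedSectionVars false

/-!
# Tests without diagonal line, formal positions
-/

namespace Helper25.KW

open Helper11.N1 Helper55.KE
open Helper11.N1.DECaux (ind ite_ind ind_and ind_congr ind_pos ind_neg)

theorem tr_refl (dl x : ℝ) : Tr dl x x := fun _ => ⟨id, id, id, id⟩

section

variable {p q a b c : ℕ} [NeZero p] [NeZero q] {z : ZMod p → ZMod (p * q)} {i0 ρ : ZMod p}
  {θ : ZMod (p * q)} {δ l : ℕ} {k : ℤ} {s ds J : ℤ}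

/-- general transfer with residue index `m` of the exact value -/
theorem SG.trg (h : SG p q a b c z i0 ρ θ δ l k s ds J) {T T' m t : ℤ}
    (hT' : (T' : ZMod q) = (m : ZMod q) * res p q θ) (hT : T = T' + t * (1 - 2 * (c : ℤ)))
    (hm : ∀ j : ℤ, Btw 0 t j → j ≠ t → ¬ (q : ℤ) ∣ m - j * l)
    (hm' : ∀ j : ℤ, Btw 0 t j → j ≠ t → ¬ (q : ℤ) ∣ m - p - j * l) :
    Tr ((δ : ℝ) / q) ((T : ℝ) / q) ((T' : ℝ) / q) := by
  apply tr_int (by exact_mod_cast h.q0)
  · exact h.bt hT' hT hm
  · have h5 : ∀ u : ℤ, Btw (T' - δ) (T - δ) u → u ≠ T - δ → ¬ (q : ℤ) ∣ u := by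
      refine h.bt (m := m - p) (t := t) ?_ (by rw [hT]; ring) hm'
      have h2 := h.ls.δres
      push_cast at hT' h2 ⊢
      linear_combination hT' - h2
    intro u hu huT
    apply h5 (u - δ)
    · rcases hu with hu | hu
      · exact Or.inl ⟨by omega, by omega⟩
      · exact Or.inr ⟨by omega, by omega⟩
    · intro h6
      apply huT
      linarith

/-- tests of a static line -/
theorem SG.tstat (h : SG p q a b c z i0 ρ θ δ l k s ds J) {n : ℕ} {τ X R : ℤ} {I : ℝ}
    (hC : ClS p q c ρ θ s ds n τ X R I) (hτ : |τ| ≤ 1) (hn0 : 0 < n) (hnp : n < p)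
    (hnl : n ≠ l) (hnq : n + q ≠ p + l)
    (hS : Free q b c z i0 (δ : ZMod (p * q)) (bx q c z (i0 + (n : ZMod p) * ρ)))
    {hv : ℝ → ℤ}
    (hv1 : ∀ W : ℤ, hv W = KV q a b c z (bx q c z (i0 + (n : ZMod p) * ρ)) (i0 + (W : ZMod p)))
    (hv2 : ∀ t : ℝ, hv t = hv ((⌈t⌉ : ℤ) : ℝ)) :
    FS p a b ((δ : ℝ) / q) hv hv (X + ds * I) := by
  have hqR := h.q0R
  have hpq := h.ls.hpq
  have hq2 : 2 ≤ q := by omega
  have hlp := h.ls.hl
  have hl0 := h.ls.hl0
  have hc := h.ls.hB.hc
  set x : ℤ := X * q + ds * s * n with hx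
  have hXe : z i0 + (x : ZMod (p * q)) =
      bx q c z (i0 + (n : ZMod p) * ρ) + (c : ZMod (p * q)) := by
    rw [← h.ls.zn hnp (h.atr hC)]
    unfold bx
    ring
  have hXr : rp p q (bx q c z (i0 + (n : ZMod p) * ρ)) = 0 := bx_rp h.ls.hB _
  have t1 := h.trr hC hτ (by exact_mod_cast hn0) (by exact_mod_cast hnp) 0
  rw [Int.cast_zero, add_zero, add_zero] at t1
  have hxr := h.exr n X 0
  rw [zero_mul, add_zero] at hxr
  have hle : ∀ T : ℤ, T ≠ 0 → -(q : ℤ) < T → T < q → ¬ (q : ℤ) ∣ T := by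
    intro T h0 h1 h2 h3
    rcases lt_or_gt_of_ne h0 with h4 | h4
    · have := Int.le_of_dvd (by omega) (dvd_neg.2 h3)
      omega
    · have := Int.le_of_dvd h4 h3
      omega
  refine ⟨_, t1, ?_, ?_, ?_⟩
  · intro t
    refine ⟨((x - c + t * q : ℤ) : ℝ) / q, ?_, ?_⟩
    · have e1 : (X : ℝ) + ds * I + t =
          ((x - c + t * q + (τ - c) * (1 - 2 * (c : ℤ)) : ℤ) : ℝ) / q := by
        rw [h.fv hC]
        have hcc : (c : ℝ) * (1 - 2 * c) = -c := by
          rcases (by omega : c = 0 ∨ c = 1) with h1 | h1 <;> rw [h1] <;> norm_num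
        push_cast
        field_simp
        push_cast [hx]
        linear_combination hcc
      rw [e1]
      refine h.trg (m := n - c * l) (t := τ - c) ?_ rfl ?_ ?_
      · have h2 := h.ls.lθ
        have hc' : (c : ZMod q) * (1 - 2 * c) = -c := by
          rcases (by omega : c = 0 ∨ c = 1) with h1 | h1 <;> rw [h1] <;> push_cast <;> ring
        push_cast at h2 hxr ⊢
        rw [ZMod.natCast_self] at hxr ⊢
        have hxr' : (x : ZMod q) = (n : ZMod q) * res p q θ := by
          rw [hx]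
          push_cast
          rw [ZMod.natCast_self]
          exact hxr
        linear_combination hxr' + (c : ZMod q) * h2 - hc'
      · intro j hj hjt
        rw [abs_le] at hτ
        have : (c : ℤ) = 0 ∨ (c : ℤ) = 1 := by omega
        rcases this with h1 | h1
        · rw [h1] at hj hjt ⊢
          have h3 : j = 0 := by rcases hj with h4 | h4 <;> omega
          subst h3
          apply hle <;> omega
        · rw [h1] at hj hjt ⊢
          have h3 : j = 0 ∨ j = -1 := by rcases hj with h4 | h4 <;> omega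
          rcases h3 with rfl | rfl <;> apply hle <;> omega
      · intro j hj hjt
        rw [abs_le] at hτ
        have : (c : ℤ) = 0 ∨ (c : ℤ) = 1 := by omega
        rcases this with h1 | h1
        · rw [h1] at hj hjt ⊢
          have h3 : j = 0 := by rcases hj with h4 | h4 <;> omega
          subst h3
          apply hle <;> omega
        · rw [h1] at hj hjt ⊢
          have h3 : j = 0 ∨ j = -1 := by rcases hj with h4 | h4 <;> omega
          rcases h3 with rfl | rfl
          · intro h4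
            have h5 : (q : ℤ) ∣ (p + l - n) - q := by
              have h6 : (q : ℤ) ∣ -(n - 1 * l - p - 0 * l) - q :=
                dvd_sub (dvd_neg.2 h4) (dvd_refl _)
              have e : (-(n - 1 * l - p - 0 * l) - q : ℤ) = (p + l - n) - q := by ring
              rwa [e] at h6
            exact hle _ (by omega) (by omega) (by omega) h5
          · apply hle <;> omega
    · intro W
      exact st0 h.ls.toMS hq2 hXe hXr hv1 (fun W => by rw [kv_free hS, hv1])
        (fun d W => gg_block h.ls.hP h.ls.hB h.ls.hAP h.ls.hδ0 h.ls.hδM h.ls.hδ hXr hS hc d W) t W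
  · intro B W
    have hr0 : res p q (z i0 + (x : ZMod (p * q))) ≠ res p q (z i0) := by
      rw [← h.ls.zn hnp (h.atr hC)]
      have := h.ls.rinj hnp (by omega : 0 < p) (by omega)
      rwa [MS.i0_eq] at this
    have hrd : res p q (z i0 + (x : ZMod (p * q))) ≠ res p q (z i0 + (δ : ZMod (p * q))) := by
      rw [← h.ls.zn hnp (h.atr hC)]
      exact (h.ls.rmov hn0 hnp).symm
    have H := st1f h.ls.toMS hq2 hc hXe hXr hS hv1 hv2 hr0 hrd (dX := B * q) ⟨B, Or.inl rfl⟩ W
    have e1 : ((B * q : ℤ) : ℝ) / q = B := by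
      push_cast
      field_simp
    rw [e1] at H
    exact H
  · intro B W
    have hr0 : res p q (z i0 + (x : ZMod (p * q))) ≠ res p q (z i0) := by
      rw [← h.ls.zn hnp (h.atr hC)]
      have := h.ls.rinj hnp (by omega : 0 < p) (by omega)
      rwa [MS.i0_eq] at this
    have hrd : res p q (z i0 + (x : ZMod (p * q))) ≠ res p q (z i0 + (δ : ZMod (p * q))) := by
      rw [← h.ls.zn hnp (h.atr hC)]
      exact (h.ls.rmov hn0 hnp).symm
    have H := st1f h.ls.toMS hq2 hc hXe hXr hS hv1 hv2 hr0 hrd (dX := δ + B * q)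
      ⟨B, Or.inr rfl⟩ W
    have e1 : ((δ + B * q : ℤ) : ℝ) / q = (δ : ℝ) / q + B := by
      push_cast
      field_simp
    rw [e1] at H
    exact H

/-- tests of type 0 on the line at `-b` -/
theorem SG.tspec (h : SG p q a b c z i0 ρ θ δ l k s ds J) :
    FSL p a b ((δ : ℝ) / q) (hh p a ((-k : ℤ) : ℝ) ((k + b : ℤ) : ℝ))
      (fun w => 1 * Helper10.KE.ind p ((k + b : ℤ) : ℝ) a w) (-b) := by
  have hqR := h.q0R
  have hpq := h.ls.hpq
  have hlp := h.ls.hl
  have hl0 := h.ls.hl0
  have hq2 : 2 ≤ q := by omega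
  have hc := h.ls.hB.hc
  have hab := h.ls.hP.hab
  have hM : Mg b c θ l 0 := by
    have := h.ls.mgl (le_refl l)
    rwa [Nat.sub_self] at this
  have hA1 : At ρ θ l (-(b * q) - (1 - 2 * c)) (k + b) := ⟨h.ls.hxl, h.ls.hrl⟩
  have hMS := h.ls.toMS
  have hk : (b : ZMod p) = ((k + b + -k : ℤ) : ZMod p) := by push_cast; ring
  have hX0 := (hMS.mg_iff hlp (by omega : 0 < p)).2 hM
  obtain ⟨k1, _⟩ := hMS.b0 hl0 hlp
  have k3 := hMS.bxmov hl0 hlp
  have hkv : ∀ W : ℤ, hh p a ((-k : ℤ) : ℝ) ((k + b : ℤ) : ℝ) W =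
      KV q a b c z (bx q c z (i0 + (l : ZMod p) * ρ)) (i0 + (W : ZMod p)) :=
    hMS.hh_eq hlp (by omega : 0 < p) hM hA1 (by rw [Nat.cast_zero, zero_mul, zero_add, hk])
  rw [MS.i0_eq] at hX0
  have k4 : byy q b c z i0 + (δ : ZMod (p * q)) ≠ bx q c z (i0 + (l : ZMod p) * ρ) := by
    intro h1
    apply hMS.dne
    rw [← hX0] at h1
    linear_combination h1
  intro t
  refine ⟨((-(b * q) - ((1 - c : ℕ) : ℤ) + t * q : ℤ) : ℝ) / q, ?_, ?_⟩
  · rcases (by omega : c = 0 ∨ c = 1) with h1 | h1
    · have e1 : (-b : ℝ) + t =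
          ((-(b * q) - ((1 - c : ℕ) : ℤ) + t * q + 1 * (1 - 2 * (c : ℤ)) : ℤ) : ℝ) / q := by
        rw [h1]
        push_cast
        field_simp
        ring
      rw [e1]
      have hle : ∀ T : ℤ, T ≠ 0 → -(q : ℤ) < T → T < q → ¬ (q : ℤ) ∣ T := by
        intro T h0 h1 h2 h3
        rcases lt_or_gt_of_ne h0 with h4 | h4
        · have := Int.le_of_dvd (by omega) (dvd_neg.2 h3)
          omega
        · have := Int.le_of_dvd h4 h3
          omega
      refine h.trg (m := l) (t := 1) ?_ rfl ?_ ?_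
      · have h2 := h.ls.lθ
        rw [h1] at h2 ⊢
        push_cast at h2 ⊢
        rw [ZMod.natCast_self]
        linear_combination -h2
      · intro j hj hjt
        have h3 : j = 0 := by rcases hj with h4 | h4 <;> omega
        subst h3
        apply hle <;> omega
      · intro j hj hjt
        have h3 : j = 0 := by rcases hj with h4 | h4 <;> omega
        subst h3
        apply hle <;> omega
    · have e1 : ((-(b * q) - ((1 - c : ℕ) : ℤ) + t * q : ℤ) : ℝ) / q = (-b : ℝ) + t := by
        rw [h1]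
        push_cast
        field_simp
        ring
      rw [e1]
      exact tr_refl _ _
  · intro W
    have c1 : ((-(b * q) : ℤ) : ℝ) / q = -b := by push_cast; field_simp
    have H := st0 hMS hq2 (s := 1 - c) (vX := -(b * q))
      (X := bx q c z (i0 + (l : ZMod p) * ρ)) (hv := hh p a ((-k : ℤ) : ℝ) ((k + b : ℤ) : ℝ))
      (hv' := fun w => 1 * Helper10.KE.ind (p : ℝ) ((k + b : ℤ) : ℝ) (a : ℝ) w) ?_
      (bx_rp h.ls.hB _) hkv ?_ ?_ t W
    · rw [c1] at H
      exact H
    · rw [← hX0]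
      unfold byy
      push_cast
      ring
    · intro W
      have e := kv_update (a := a) (b := b) (c := c) (z := z) (i0 := i0) (δ : ZMod (p * q))
        (bx q c z (i0 + (l : ZMod p) * ρ)) (i0 + (W : ZMod p))
      rw [ind_neg k1, ind_pos hX0, ind_neg k3, ind_neg k4, ← hkv W] at e
      unfold hh at e
      have g1 := hind_int (p := p) (k + b) W a (by omega)
      have g2 := hind_int (p := p) (k + b + -k) W a (by omega)
      rw [Int.cast_add] at g2
      have g3 := ind_congr (hkL' (a := a) (r := k + b + -k) (i0 := i0) (i := i0) (b := b) (by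
        rw [hk]) W)
      rw [g3] at e
      rw [g1, g2] at e
      show 1 * Helper10.KE.ind (p : ℝ) ((k + b : ℤ) : ℝ) (a : ℝ) (W : ℝ) = _
      rw [g1]
      linarith
    · intro d W
      unfold GG
      rw [hMS.arcR (bx_rp h.ls.hB _) k1 k3 (by omega : 1 - c ≤ 1),
        arc_beg hMS _ (by omega : 1 - c ≤ 1)]
      rw [← hX0]
      unfold byy
      ring

end

end Helper25.KW
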